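import Pool.Agent.NEK.Stmts

/-!
# Jacobi–Trudi determinants of nonnegative elements are nonnegative
-/

set_option autoImplicit false

namespace Pool.Agent.NEK

open MvPolynomial Finset

namespace JTP

variable {R : Type} [CommRing R]

/-- the matrix with rows `V (κ i)` for `i < s` and `O (κ i)` for `i ≥ s` -/
def MM {l : ℕ} (V O : ℤ → Fin l → R) (s : ℕ) (κ : Fin l → ℤ) : Matrix (Fin l) (Fin l) R :=
  Matrix.of fun i => if i.val < s then V (κ i) else O (κ i)

omit [CommRing R] in
theorem MM_row {l : ℕ} (V O : ℤ → Fin l → R) (s : ℕ) (κ : Fin l → ℤ) (i : Fin l) :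
    MM V O s κ i = if i.val < s then V (κ i) else O (κ i) := rfl

theorem anti_update {l : ℕ} {κ : Fin l → ℤ} (h : StrictAnti κ) (s : Fin l) (c : ℤ)
    (hc : c ≤ κ s) (hc' : ∀ j : Fin l, s < j → κ j < c) : StrictAnti (Function.update κ s c) := by
  intro a b hab
  by_cases ha : a = s
  · subst ha
    rw [Function.update_self, Function.update_of_ne hab.ne']
    exact hc' b hab
  · by_cases hb : b = s
    · subst hb
      rw [Function.update_self, Function.update_of_ne ha]
      exact lt_of_le_of_lt hc (h hab)
    · rw [Function.update_of_ne ha, Function.update_of_ne hb]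
      exact h hab

theorem step1 {l : ℕ} {V O : ℤ → Fin l → R} {y : R} (hA : ∀ k, O k = V k + y • O (k - 1))
    (s : Fin l) (κ : Fin l → ℤ) :
    (MM V O s κ).det = (MM V O (s.val + 1) κ).det +
      y * (MM V O s (Function.update κ s (κ s - 1))).det := by
  have e0 : MM V O s κ = (MM V O s κ).updateRow s (V (κ s) + y • O (κ s - 1)) := by
    rw [← hA]
    ext i j
    by_cases h : i = s
    · subst h
      rw [Matrix.updateRow_self, MM_row, if_neg (lt_irrefl _)]
    · rw [Matrix.updateRow_ne h]
  have e1 : (MM V O s κ).updateRow s (V (κ s)) = MM V O (s.val + 1) κ := by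
    ext i j
    by_cases h : i = s
    · subst h
      rw [Matrix.updateRow_self, MM_row, if_pos (Nat.lt_succ_self _)]
    · rw [Matrix.updateRow_ne h, MM_row, MM_row]
      have h' : i.val ≠ s.val := fun e => h (Fin.ext e)
      by_cases h1 : i.val < s.val
      · rw [if_pos h1, if_pos (by omega)]
      · rw [if_neg h1, if_neg (by omega)]
  have e2 : (MM V O s κ).updateRow s (O (κ s - 1)) =
      MM V O s (Function.update κ s (κ s - 1)) := by
    ext i j
    by_cases h : i = s
    · subst h
      rw [Matrix.updateRow_self, MM_row, if_neg (lt_irrefl _), Function.update_self]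
    · rw [Matrix.updateRow_ne h, MM_row, MM_row, Function.update_of_ne h]
  rw [e0, Matrix.det_updateRow_add, Matrix.det_updateRow_smul, e1, e2]

theorem main {l : ℕ} {V O : ℤ → Fin l → R} {y : R} (S : Subsemiring R) (hy : y ∈ S)
    (hA : ∀ k, O k = V k + y • O (k - 1)) {L : ℤ} (hB : ∀ k, k ≤ L → O k = 0)
    (hC : ∀ κ : Fin l → ℤ, StrictAnti κ → (MM V O l κ).det ∈ S) :
    ∀ s : ℕ, s ≤ l → ∀ κ : Fin l → ℤ, StrictAnti κ → (MM V O (l - s) κ).det ∈ S := by
  intro s
  induction s with
  | zero => exact fun _ => hC
  | succ s ih =>
    intro hs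
    have ih' := ih (by omega)
    have hsl : l - (s + 1) < l := by omega
    have hs1 : l - (s + 1) + 1 = l - s := by omega
    by_cases hlast : l - (s + 1) + 1 < l
    · -- not the last row
      have key : ∀ (n : ℕ) (κ : Fin l → ℤ), StrictAnti κ →
          κ ⟨l - (s + 1), hsl⟩ - κ ⟨l - (s + 1) + 1, hlast⟩ = n →
          (MM V O (l - (s + 1)) κ).det ∈ S := by
        intro n
        induction n with
        | zero =>
          intro κ hκ h0
          have h1 : κ ⟨l - (s + 1) + 1, hlast⟩ < κ ⟨l - (s + 1), hsl⟩ :=
            hκ (by rw [Fin.lt_def]; exact Nat.lt_succ_self _)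
          push_cast at h0
          omega
        | succ n ihn =>
          intro κ hκ hn
          have h1 := step1 (R := R) hA ⟨l - (s + 1), hsl⟩ κ
          simp only at h1
          rw [h1, hs1]
          refine S.add_mem (ih' κ hκ) (S.mul_mem hy ?_)
          by_cases hn0 : n = 0
          · -- equal rows
            subst hn0
            have h2 : (MM V O (l - (s + 1)) (Function.update κ ⟨l - (s + 1), hsl⟩
                (κ ⟨l - (s + 1), hsl⟩ - 1))).det = 0 := by
              refine Matrix.det_zero_of_row_eq
                (i := ⟨l - (s + 1), hsl⟩) (j := ⟨l - (s + 1) + 1, hlast⟩) ?_ ?_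
              · intro e
                have := congrArg Fin.val e
                simp only at this
                omega
              · have hne : (⟨l - (s + 1) + 1, hlast⟩ : Fin l) ≠ ⟨l - (s + 1), hsl⟩ := by
                  intro e
                  have := congrArg Fin.val e
                  simp only at this
                  omega
                rw [MM_row, MM_row, if_neg (lt_irrefl _), if_neg (by show ¬ _ + 1 < _; omega),
                  Function.update_self, Function.update_of_ne hne]
                congr 1
                push_cast at hn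
                omega
            rw [h2]
            exact S.zero_mem
          · refine ihn _ (anti_update hκ _ _ (by omega) ?_) ?_
            · intro j hj
              have h3 : κ j ≤ κ ⟨l - (s + 1) + 1, hlast⟩ := by
                apply hκ.antitone
                rw [Fin.le_def]
                rw [Fin.lt_def] at hj
                simp only at hj ⊢
                omega
              push_cast at hn
              omega
            · have hne : (⟨l - (s + 1) + 1, hlast⟩ : Fin l) ≠ ⟨l - (s + 1), hsl⟩ := by
                intro e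
                have := congrArg Fin.val e
                simp only at this
                omega
              rw [Function.update_self, Function.update_of_ne hne]
              push_cast at hn
              omega
      intro κ hκ
      have h1 : κ ⟨l - (s + 1) + 1, hlast⟩ < κ ⟨l - (s + 1), hsl⟩ :=
        hκ (by rw [Fin.lt_def]; exact Nat.lt_succ_self _)
      exact key (κ ⟨l - (s + 1), hsl⟩ - κ ⟨l - (s + 1) + 1, hlast⟩).toNat κ hκ (by omega)
    · -- the last row
      have key : ∀ (n : ℕ) (κ : Fin l → ℤ), StrictAnti κ →
          κ ⟨l - (s + 1), hsl⟩ - L ≤ n → (MM V O (l - (s + 1)) κ).det ∈ S := by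
        intro n
        induction n with
        | zero =>
          intro κ hκ h0
          have h2 : (MM V O (l - (s + 1)) κ).det = 0 := by
            refine Matrix.det_eq_zero_of_row_eq_zero ⟨l - (s + 1), hsl⟩ ?_
            intro j
            rw [MM_row, if_neg (lt_irrefl _), hB _ (by push_cast at h0; omega)]
            rfl
          rw [h2]
          exact S.zero_mem
        | succ n ihn =>
          intro κ hκ hn
          have h1 := step1 (R := R) hA ⟨l - (s + 1), hsl⟩ κ
          simp only at h1
          rw [h1, hs1]
          refine S.add_mem (ih' κ hκ) (S.mul_mem hy ?_)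
          refine ihn _ (anti_update hκ _ _ (by omega) ?_) ?_
          · intro j hj
            rw [Fin.lt_def] at hj
            simp only at hj
            have := j.isLt
            omega
          · rw [Function.update_self]
            push_cast at hn
            omega
      intro κ hκ
      exact key (κ ⟨l - (s + 1), hsl⟩ - L).toNat κ hκ (by omega)

/-- the row of the Jacobi–Trudi matrix -/
noncomputable def rw' [Algebra ℚ R] (P : ℕ → R) (l : ℕ) (k : ℤ) (j : Fin l) : R :=
  hZ P (k + (j : ℤ) + 1)

/-- the power sums of a list -/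
def pw (xs : List R) (k : ℕ) : R := (xs.map fun x => x ^ (k + 1)).sum

theorem eq_id {l : ℕ} {f : Fin l → Fin l} (h : StrictMono f) (i : Fin l) : f i = i := by
  have h1 : i ≤ f i := h.le_apply
  have h2 : f i ≤ i := by
    have hm : StrictMono (fun i => Fin.rev (f (Fin.rev i))) :=
      fun a b hab => Fin.rev_lt_rev.2 (h (Fin.rev_lt_rev.2 hab))
    have h3 : Fin.rev i ≤ Fin.rev (f (Fin.rev (Fin.rev i))) := hm.le_apply
    rw [Fin.rev_rev, Fin.rev_le_rev] at h3
    exact h3
  exact le_antisymm h2 h1

theorem base (hS : Stmt_HS) [Algebra ℚ R] (S : Subsemiring R) (l : ℕ) (κ : Fin l → ℤ)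
    (hκ : StrictAnti κ) : (Matrix.of fun i => rw' (pw ([] : List R)) l (κ i)).det ∈ S := by
  have hz : ∀ m : ℤ, hZ (pw ([] : List R)) m = if m = 0 then 1 else 0 := by
    intro m
    unfold hZ
    have h0 : (pw ([] : List R)) = fun _ => (0 : R) := by
      funext k
      simp [pw]
    by_cases hm : 0 ≤ m
    · rw [if_pos hm, h0, (hS R (fun _ => 0) 0 m.toNat).2.2.1]
      by_cases hm' : m = 0
      · rw [if_pos hm', if_pos (by omega)]
      · rw [if_neg hm', if_neg (by omega)]
    · rw [if_neg hm, if_neg (by omega)]
  by_cases h : ∀ i, ∃ j : Fin l, κ i + (j : ℤ) + 1 = 0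
  · choose f hf using h
    have hmono : StrictMono f := by
      intro a b hab
      have h1 := hκ hab
      have h2 := hf a
      have h3 := hf b
      rw [Fin.lt_def]
      omega
    have h1 : (Matrix.of fun i => rw' (pw ([] : List R)) l (κ i)) = 1 := by
      ext i j
      rw [Matrix.of_apply, rw', hz, Matrix.one_apply]
      have h2 := hf i
      rw [eq_id hmono i] at h2
      by_cases hij : i = j
      · subst hij
        rw [if_pos rfl, if_pos h2]
      · have h3 : i.val ≠ j.val := fun e => hij (Fin.ext e)
        rw [if_neg hij, if_neg (by omega)]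
    rw [h1, Matrix.det_one]
    exact S.one_mem
  · push Not at h
    obtain ⟨i, hi⟩ := h
    rw [Matrix.det_eq_zero_of_row_eq_zero i]
    · exact S.zero_mem
    · intro j
      rw [Matrix.of_apply, rw', hz, if_neg (hi j)]

theorem hZ_cons (hA : Stmt_HA) (hS : Stmt_HS) [Algebra ℚ R] (y : R) (xs : List R) (m : ℤ) :
    hZ (pw (y :: xs)) m = hZ (pw xs) m + y * hZ (pw (y :: xs)) (m - 1) := by
  have hP : pw (y :: xs) = fun k => y ^ (k + 1) + pw xs k := by
    funext k
    simp [pw]
  have hsum : ∀ n, hN (pw (y :: xs)) n =
      ∑ ij ∈ antidiagonal n, y ^ ij.1 * hN (pw xs) ij.2 := by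
    intro n
    rw [hP, hA]
    refine Finset.sum_congr rfl fun ij _ => ?_
    rw [(hS R (fun _ => 0) y ij.1).2.1]
  unfold hZ
  by_cases hm : 0 ≤ m
  · obtain ⟨n, rfl⟩ := Int.eq_ofNat_of_zero_le hm
    rw [if_pos hm, if_pos hm]
    rcases n with _ | n
    · rw [if_neg (by norm_num), mul_zero, add_zero]
      simp [hN]
    · rw [if_pos (by push_cast; omega)]
      have e1 : ((n + 1 : ℕ) : ℤ).toNat = n + 1 := by simp
      have e2 : (((n + 1 : ℕ) : ℤ) - 1).toNat = n := by
        push_cast
        omega
      rw [e1, e2, hsum, hsum, Finset.Nat.sum_antidiagonal_succ]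
      simp only [pow_zero, one_mul, Finset.mul_sum]
      congr 1
      refine Finset.sum_congr rfl fun ij _ => ?_
      ring
  · rw [if_neg hm, if_neg hm, if_neg (by omega), mul_zero, add_zero]

theorem all (hA : Stmt_HA) (hS : Stmt_HS) [Algebra ℚ R] (S : Subsemiring R) (l : ℕ)
    (xs : List R) (hxs : ∀ x ∈ xs, x ∈ S) :
    ∀ κ : Fin l → ℤ, StrictAnti κ → (Matrix.of fun i => rw' (pw xs) l (κ i)).det ∈ S := by
  induction xs with
  | nil => exact fun κ hκ => base hS S l κ hκ
  | cons y xs ih =>
    have ih' := ih fun x hx => hxs x (List.mem_cons_of_mem _ hx)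
    intro κ hκ
    have h1 := main (V := rw' (pw xs) l) (O := rw' (pw (y :: xs)) l) (y := y) S
      (hxs y List.mem_cons_self) (by
        intro k
        funext j
        rw [Pi.add_apply, Pi.smul_apply, smul_eq_mul, rw', rw', rw', hZ_cons hA hS]
        congr 3
        ring) (L := -l - 1) (by
        intro k hk
        funext j
        have := j.isLt
        rw [rw', hZ, if_neg (by omega)]
        rfl) (by
        intro κ hκ
        have e : MM (rw' (pw xs) l) (rw' (pw (y :: xs)) l) l κ =
            Matrix.of fun i => rw' (pw xs) l (κ i) := by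
          ext i j
          rw [MM_row, if_pos i.isLt]
          rfl
        rw [e]
        exact ih' κ hκ) l le_rfl κ hκ
    have e : MM (rw' (pw xs) l) (rw' (pw (y :: xs)) l) (l - l) κ =
        Matrix.of fun i => rw' (pw (y :: xs)) l (κ i) := by
      ext i j
      rw [MM_row, if_neg (by omega)]
      rfl
    rwa [e] at h1

end JTP

theorem t_JTP : Stmt_HA → Stmt_HS → Stmt_HR → Stmt_JTP := by
  intro hA hS _ R _ _ S xs hxs l hl
  have hanti : StrictAnti fun i : Fin l.length => (l.get i : ℤ) - (i : ℤ) - 1 := by
    intro a b hab
    have h1 : l.get b ≤ l.get a := (List.pairwise_iff_get.1 hl) a b hab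
    rw [Fin.lt_def] at hab
    simp only
    omega
  have h1 := JTP.all hA hS S l.length xs hxs _ hanti
  have e : sN (fun k => (xs.map fun x => x ^ (k + 1)).sum) l =
      (Matrix.of fun i : Fin l.length => JTP.rw' (JTP.pw xs) l.length
        ((l.get i : ℤ) - (i : ℤ) - 1)).det := by
    unfold sN
    congr 1
    ext i j
    rw [Matrix.of_apply, Matrix.of_apply, JTP.rw']
    show hZ (JTP.pw xs) _ = hZ (JTP.pw xs) _
    congr 1
    ring
  rw [e]
  exact h1

end Pool.Agent.NEK
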