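import Pool.Agent.NEK.Stmts

/-!
# Assembly (module FIN)
-/

set_option autoImplicit false

namespace Pool.Agent.NEK

open MvPolynomial Finset

namespace FINaux

lemma q_mem : q ∈ NN := Subsemiring.subset_closure (by simp)

lemma t_mem : t ∈ NN := Subsemiring.subset_closure (by simp)

lemma smul_mem {n : ℕ} {c : K} (hc : c ∈ NN) {f : Lam} (hf : f ∈ SPos n) : c • f ∈ SPos n := by
  refine AddSubmonoid.closure_induction (motive := fun x _ => c • x ∈ SPos n) ?_ ?_ ?_ hf
  · rintro x ⟨d, hd, β, hβ, rfl⟩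
    refine AddSubmonoid.subset_closure ⟨c * d, NN.mul_mem hc hd, β, hβ, ?_⟩
    rw [mul_smul]
  · rw [smul_zero]; exact (SPos n).zero_mem
  · intro x y _ _ hx hy
    rw [smul_add]; exact (SPos n).add_mem hx hy

lemma eval_mem (g : Polynomial K) (hg : ∀ i, g.coeff i ∈ NN) {x : K} (hx : x ∈ NN) :
    g.eval x ∈ NN := by
  rw [Polynomial.eval_eq_sum_range]
  exact NN.sum_mem fun i _ => NN.mul_mem (hg i) (NN.pow_mem hx i)

lemma diff_mem (g : Polynomial K) (hg : ∀ i, g.coeff i ∈ NN) {x y : K} (hx : x ∈ NN)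
    (hy : y ∈ NN) : ∃ d ∈ NN, g.eval x - g.eval y = (x - y) * d := by
  refine ⟨∑ i ∈ range (g.natDegree + 1), g.coeff i * ∑ j ∈ range i, x ^ j * y ^ (i - 1 - j),
    ?_, ?_⟩
  · exact NN.sum_mem fun i _ => NN.mul_mem (hg i) (NN.sum_mem fun j _ =>
      NN.mul_mem (NN.pow_mem hx _) (NN.pow_mem hy _))
  · rw [Polynomial.eval_eq_sum_range, Polynomial.eval_eq_sum_range, ← Finset.sum_sub_distrib,
      Finset.mul_sum]
    refine Finset.sum_congr rfl fun i _ => ?_
    have h := (Commute.all x y).geom_sum₂_mul i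
    calc g.coeff i * x ^ i - g.coeff i * y ^ i = g.coeff i * (x ^ i - y ^ i) := by ring
      _ = g.coeff i * ((∑ j ∈ range i, x ^ j * y ^ (i - 1 - j)) * (x - y)) := by rw [h]
      _ = _ := by ring

lemma nn_map_range (N : ℕ) (f : ℕ → ℕ) :
    nn ((List.range N).map f) = ∑ i ∈ range N, i * f i := by
  unfold nn
  simp only [List.get_eq_getElem, List.getElem_map, List.getElem_range]
  rw [Fin.sum_univ_eq_sum_range (fun i => i * f i) ((List.range N).map f).length]
  simp

lemma q_ne : q ≠ 0 := by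
  unfold q
  rw [Ne, map_eq_zero_iff _ (IsFractionRing.injective _ _)]
  exact MvPolynomial.X_ne_zero 0

lemma pow_q_ne_t (k : ℕ) : q ^ k ≠ t := by
  unfold q t
  rw [← map_pow]
  intro h
  have h' := IsFractionRing.injective (MvPolynomial (Fin 2) ℚ) K h
  have h2 := congrArg (MvPolynomial.eval (fun i : Fin 2 => if i = 0 then (1 : ℚ) else 2)) h'
  simp at h2

lemma Tm_n (n : ℕ) : Tm [n] = q ^ n.choose 2 := by
  unfold Tm
  have h1 : nn [n] = 0 := by simp [nn]
  have h2 : nn (conj [n]) = n.choose 2 := by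
    unfold conj
    rw [nn_map_range]
    simp only [List.headD_cons]
    rw [Nat.choose_two_right, ← Finset.sum_range_id]
    refine Finset.sum_congr rfl fun i hi => ?_
    have : i < n := Finset.mem_range.1 hi
    simp [this]
  rw [h1, h2, pow_zero, one_mul]

lemma Tm_n1 (n : ℕ) : Tm [n - 1, 1] = t * q ^ (n - 1).choose 2 := by
  unfold Tm
  have h1 : nn [n - 1, 1] = 1 := by simp [nn, Fin.sum_univ_succ]
  have h2 : nn (conj [n - 1, 1]) = (n - 1).choose 2 := by
    unfold conj
    rw [nn_map_range]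
    simp only [List.headD_cons]
    rw [Nat.choose_two_right, ← Finset.sum_range_id]
    refine Finset.sum_congr rfl fun i hi => ?_
    have h3 : i < n - 1 := Finset.mem_range.1 hi
    rcases Nat.eq_zero_or_pos i with h0 | h0
    · simp [h0]
    · have h4 : ¬ i < 1 := by omega
      simp [h3, h4]
  rw [h1, h2, pow_one]

section gen

variable {F M : Type*} [Field F] [AddCommGroup M] [Module F M]

lemma alg1 (A B : M) (s a : F) : s • (A + a • B) - a • (A + s • B) = (s - a) • A := by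
  module

lemma alg2 (X Y : M) (s a e r : F) :
    r • (s • ((a * e) • X) - a • ((s * e) • Y)) = (r * (s * (a * e))) • (X - Y) := by
  module

lemma alg3 (A B : M) (s a g h : F) :
    g • (A + s • B) - h • (A + a • B) = (g - h) • A + (s * g - a * h) • B := by
  module

lemma alg4 (A B : M) (r d e : F) : (r * d) • A + (r * e) • B = r • (d • A + e • B) := by
  module

end gen

end FINaux

open FINaux

theorem t_FIN : Stmt_FIN := by
  intro hABP hMAC hEXT hGPO n hn H hH lam m hm nabla delta hnab hdel E hE k hk1 hk2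
  obtain ⟨hA, hB⟩ := hABP n hn
  obtain ⟨hM1, hM2, hM3⟩ := hMAC n hn H hH
  obtain ⟨hE1, hE2⟩ := hEXT n hn E hE
  obtain ⟨g, hg, hgt, hga⟩ := hGPO n hn m lam hm
  have hP1 : IsPart n [n] := ⟨by simp, by simp; omega, by simp⟩
  have hP2 : IsPart n [n - 1, 1] := by
    refine ⟨?_, ?_, ?_⟩
    · simp; omega
    · simp; omega
    · simp; omega
  have hq0 : q ≠ 0 := q_ne
  have hc0 : q ^ n.choose 2 ≠ 0 := pow_ne_zero _ hq0
  have haM : q ^ (n - 1) ∈ NN := NN.pow_mem q_mem _
  have hH1 : H [n] = An n + (q ^ (n - 1)) • Bn n := by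
    rw [hM1, hM3, MvPolynomial.smul_eq_C_mul]
  have hH2 : H [n - 1, 1] = An n + t • Bn n := by
    rw [hM2, MvPolynomial.smul_eq_C_mul]
  have hn1 : nabla (H [n]) = q ^ n.choose 2 • H [n] := by rw [hnab _ hP1, Tm_n]
  have hn2 : nabla (H [n - 1, 1]) = (t * q ^ (n - 1).choose 2) • H [n - 1, 1] := by
    rw [hnab _ hP2, Tm_n1]
  have hd1 : delta (H [n]) = g.eval (q ^ (n - 1)) • H [n] := by rw [hdel _ hP1, hga]
  have hd2 : delta (H [n - 1, 1]) = g.eval t • H [n - 1, 1] := by rw [hdel _ hP2, hgt]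
  have hk : k = n ∨ k = n - 1 := by omega
  rcases hk with rfl | rfl
  · have h1 : E k = (q ^ k.choose 2)⁻¹ • H [k] := by
      rw [hE1, hM1, MvPolynomial.smul_eq_C_mul]
    rw [h1, map_smul, hn1, smul_smul, inv_mul_cancel₀ hc0, one_smul, hd1, hH1]
    exact smul_mem (eval_mem g hg haM) ((SPos k).add_mem hA (smul_mem haM hB))
  · have hat : q ^ (n - 1) ≠ t := pow_q_ne_t _
    have hta : t - q ^ (n - 1) ≠ 0 := sub_ne_zero.2 (Ne.symm hat)
    have hcc : q ^ (n - 1) * q ^ (n - 1).choose 2 = q ^ n.choose 2 := by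
      rw [← pow_add]
      congr 1
      obtain ⟨N, rfl⟩ : ∃ N, n = N + 1 := ⟨n - 1, by omega⟩
      rw [Nat.add_sub_cancel, Nat.choose_succ_succ' N 1, Nat.choose_one_right]
    have hAeq : An n = (t - q ^ (n - 1))⁻¹ •
        (t • H [n] - (q ^ (n - 1)) • H [n - 1, 1]) := by
      have h2 : t • H [n] - (q ^ (n - 1)) • H [n - 1, 1] = (t - q ^ (n - 1)) • An n := by
        rw [hH1, hH2]
        exact alg1 _ _ _ _
      rw [h2, smul_smul, inv_mul_cancel₀ hta, one_smul]
    have h3 : nabla (An n) = (t - q ^ (n - 1))⁻¹ •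
        (t • (q ^ n.choose 2 • H [n]) -
          (q ^ (n - 1)) • ((t * q ^ (n - 1).choose 2) • H [n - 1, 1])) := by
      conv_lhs => rw [hAeq]
      rw [map_smul, map_sub, map_smul, map_smul, hn1, hn2]
    have h4 : nabla (An n) = ((t - q ^ (n - 1))⁻¹ * (t * q ^ n.choose 2)) •
        (H [n] - H [n - 1, 1]) := by
      rw [h3, ← hcc]
      exact alg2 _ _ _ _ _ _
    have h5 : E (n - 1) = -(((q ^ n.choose 2)⁻¹ * ∑ i ∈ range (n - 1), q ^ i) • An n) := by
      rw [hE2, MvPolynomial.smul_eq_C_mul]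
    have h6 : nabla (E (n - 1)) = (((∑ i ∈ range (n - 1), q ^ i) * t) *
        (t - q ^ (n - 1))⁻¹) • (H [n - 1, 1] - H [n]) := by
      rw [h5, map_neg, map_smul, h4, smul_smul, ← smul_neg, neg_sub]
      congr 1
      field_simp
    obtain ⟨d1, hd1m, hd1e⟩ := diff_mem g hg t_mem haM
    obtain ⟨d2, hd2m, hd2e⟩ := diff_mem (Polynomial.X * g) (fun i => by
      rcases i with _ | i
      · rw [Polynomial.coeff_X_mul_zero]; exact NN.zero_mem
      · rw [Polynomial.coeff_X_mul]; exact hg i) t_mem haM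
    rw [Polynomial.eval_mul, Polynomial.eval_mul, Polynomial.eval_X, Polynomial.eval_X] at hd2e
    have h7 : delta (nabla (E (n - 1))) = ((∑ i ∈ range (n - 1), q ^ i) * t) •
        (d1 • An n + d2 • Bn n) := by
      rw [h6, map_smul, map_sub, hd1, hd2]
      have h8 : g.eval t • H [n - 1, 1] - g.eval (q ^ (n - 1)) • H [n] =
          (t - q ^ (n - 1)) • (d1 • An n + d2 • Bn n) := by
        rw [hH1, hH2]
        rw [alg3, hd1e, hd2e]
        exact alg4 _ _ _ _ _
      rw [h8, smul_smul, mul_assoc, inv_mul_cancel₀ hta, mul_one]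
    rw [h7]
    refine smul_mem (NN.mul_mem (NN.sum_mem fun i _ => NN.pow_mem q_mem i) t_mem) ?_
    exact (SPos n).add_mem (smul_mem hd1m hA) (smul_mem hd2m hB)

end Pool.Agent.NEK
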