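import Pool.Agent.NEK.Stmts

/-!
# NEK, module EVW: evaluations of `w_n`
-/

set_option autoImplicit false

namespace Pool.Agent.NEK

open MvPolynomial Finset

namespace EVW

/-- a relation between `q` and `t` in `K` gives one for rational values -/
theorem lift_ne {f g : MvPolynomial (Fin 2) ℚ} (v : Fin 2 → ℚ)
    (h : MvPolynomial.eval v f ≠ MvPolynomial.eval v g) :
    algebraMap (MvPolynomial (Fin 2) ℚ) K f ≠ algebraMap (MvPolynomial (Fin 2) ℚ) K g := by
  intro e
  apply h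
  rw [IsFractionRing.injective (MvPolynomial (Fin 2) ℚ) K e]

theorem q_pow_ne_t (k : ℕ) : q ^ k ≠ t := by
  have h := lift_ne (f := X 0 ^ k) (g := X 1) ![1, 2] (by simp)
  rw [map_pow] at h
  exact h

theorem q_pow_ne_one {k : ℕ} (hk : 1 ≤ k) : q ^ k ≠ 1 := by
  have h := lift_ne (f := X 0 ^ k) (g := 1) ![2, 0] (by
    have : (2 : ℚ) ^ k ≠ 1 := by
      have := one_lt_pow₀ (a := (2 : ℚ)) (by norm_num) (n := k) (by omega)
      exact this.ne'
    simpa using this)
  rw [map_pow, map_one] at h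
  exact h

theorem one_sub_ne {k : ℕ} (hk : 1 ≤ k) : 1 - q ^ k ≠ 0 := by
  rw [sub_ne_zero]
  exact (q_pow_ne_one hk).symm

theorem wN_zero : wN 0 = 1 := by
  unfold wN
  rw [hN]

theorem ev_wN_zero (a : ℕ → K) : ev a (wN 0) = 1 := by rw [wN_zero, map_one]

theorem ev_hX (hHM : Stmt_HM) (a : ℕ → K) (m : ℕ) : ev a (hX m) = hN a m := by
  have h := (hHM Lam K (ev a : Lam →ₐ[K] K).toRingHom (fun i => (X i : Lam))).1 m
  have e : (fun k => (ev a : Lam →ₐ[K] K).toRingHom (X k)) = a := by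
    funext k
    show ev a (X k) = a k
    unfold ev
    rw [aeval_X]
  rw [e] at h
  exact h

theorem ev_rec (hW : Stmt_WNR) (hHM : Stmt_HM) (a : ℕ → K) {n : ℕ} (hn : 1 ≤ n) :
    (1 - q ^ n) * ev a (wN n) =
      ∑ m ∈ Icc 1 n, q ^ (n - m) * hN a m * ev a (wN (n - m)) := by
  have h := congrArg (ev a) (hW n hn)
  rw [map_mul, map_sum] at h
  have e : ∀ c : K, ev a (C c) = c := by
    intro c
    unfold ev
    rw [aeval_C]
    rfl
  rw [e] at h
  rw [h]
  refine Finset.sum_congr rfl fun m _ => ?_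
  rw [map_mul, map_mul, e, ev_hX hHM]

/-- reindexing -/
theorem sum_shift (f : ℕ → K) (n : ℕ) :
    ∑ m ∈ Icc 1 (n + 1), f m = f 1 + ∑ m ∈ Icc 1 n, f (m + 1) := by
  induction n with
  | zero => simp
  | succ n ih =>
    rw [Finset.sum_Icc_succ_top (by omega), ih, Finset.sum_Icc_succ_top (b := n) (by omega),
      add_assoc]

theorem first (hW : Stmt_WNR) (hHS : Stmt_HS) (hHM : Stmt_HM) (n : ℕ) :
    ev (fun _ => 1) (wN n) = (qf n)⁻¹ := by
  have h1 : ∀ m, hN (fun _ => (1 : K)) m = 1 := by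
    intro m
    have h := (hHS K (fun _ => 0) 1 m).2.1
    simpa using h
  have hstep : ∀ n, (1 - q ^ (n + 1)) * ev (fun _ => 1) (wN (n + 1)) = ev (fun _ => 1) (wN n) := by
    intro n
    have e1 := ev_rec hW hHM (fun _ => 1) (n := n + 1) (by omega)
    rw [e1, sum_shift]
    simp only [h1, mul_one]
    rcases Nat.eq_zero_or_pos n with rfl | hn
    · simp
    · have e2 := ev_rec hW hHM (fun _ => 1) (n := n) hn
      simp only [h1, mul_one] at e2
      have e3 : ∀ m, n + 1 - (m + 1) = n - m := by omega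
      simp only [e3]
      rw [← e2]
      simp only [Nat.sub_zero]
      ring
  induction n with
  | zero =>
    rw [ev_wN_zero]
    unfold qf poch
    simp
  | succ n ih =>
    have h2 := hstep n
    rw [ih] at h2
    have h3 : qf (n + 1) = qf n * (1 - q ^ (n + 1)) := by
      unfold qf poch
      rw [Finset.prod_range_succ, pow_succ']
    rw [h3, mul_inv, ← h2]
    have h4 := one_sub_ne (k := n + 1) (by omega)
    field_simp

theorem dval (hHA : Stmt_HA) (hHS : Stmt_HS) (m : ℕ) :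
    hN (fun i => (-1) ^ i * (1 - t ^ (i + 1))) (m + 1) = (-t) ^ (m + 1) + (-t) ^ m := by
  have e : (fun i : ℕ => (-1 : K) ^ i * (1 - t ^ (i + 1))) =
      fun i => (-1 : K) ^ i + (-t) ^ (i + 1) := by
    funext i
    rw [neg_pow t (i + 1), pow_succ (-1 : K) i]
    ring
  rw [e, hHA K (fun k => (-1 : K) ^ k) (fun k => (-t) ^ (k + 1)) (m + 1)]
  have h1 : ∀ i, hN (fun k => (-1 : K) ^ k) i = if i ≤ 1 then 1 else 0 := fun i =>
    (hHS K (fun _ => 0) 0 i).2.2.2
  have h2 : ∀ i, hN (fun k => (-t) ^ (k + 1)) i = (-t) ^ i := fun i =>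
    (hHS K (fun _ => 0) (-t) i).2.1
  simp only [h1, h2]
  rw [Finset.Nat.sum_antidiagonal_eq_sum_range_succ_mk, Finset.sum_range_succ',
    Finset.sum_range_succ']
  have h3 : ∑ k ∈ range m, (if k + 1 + 1 ≤ 1 then (1 : K) else 0) *
      (-t) ^ (m + 1 - (k + 1 + 1)) = 0 := by
    apply Finset.sum_eq_zero
    intro k _
    rw [if_neg (by omega), zero_mul]
  rw [h3]
  simp
  ring

theorem second (hW : Stmt_WNR) (hHA : Stmt_HA) (hHS : Stmt_HS) (hHM : Stmt_HM) (n : ℕ) :
    (1 - q ^ (n + 1)) * ev (fun i => (-1) ^ i * (1 - t ^ (i + 1))) (wN (n + 1)) =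
      (q ^ n - t) * ev (fun i => (-1) ^ i * (1 - t ^ (i + 1))) (wN n) := by
  have e1 := ev_rec hW hHM (fun i => (-1) ^ i * (1 - t ^ (i + 1))) (n := n + 1) (by omega)
  rw [e1, sum_shift]
  have hd1 := dval hHA hHS 0
  have hd : ∀ m, hN (fun i => (-1) ^ i * (1 - t ^ (i + 1))) (m + 1 + 1) =
      (-t) * hN (fun i => (-1) ^ i * (1 - t ^ (i + 1))) (m + 1) := by
    intro m
    rw [dval hHA hHS, dval hHA hHS]
    ring
  rcases Nat.eq_zero_or_pos n with rfl | hn
  · simp only [zero_add] at hd1 ⊢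
    rw [hd1, ev_wN_zero]
    simp
    ring
  · have e2 := ev_rec hW hHM (fun i => (-1) ^ i * (1 - t ^ (i + 1))) (n := n) hn
    have e3 : ∑ m ∈ Icc 1 n, q ^ (n + 1 - (m + 1)) *
        hN (fun i => (-1) ^ i * (1 - t ^ (i + 1))) (m + 1) *
        ev (fun i => (-1) ^ i * (1 - t ^ (i + 1))) (wN (n + 1 - (m + 1))) =
        (-t) * ∑ m ∈ Icc 1 n, q ^ (n - m) *
          hN (fun i => (-1) ^ i * (1 - t ^ (i + 1))) m *
          ev (fun i => (-1) ^ i * (1 - t ^ (i + 1))) (wN (n - m)) := by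
      rw [Finset.mul_sum]
      refine Finset.sum_congr rfl fun m hm => ?_
      rw [Finset.mem_Icc] at hm
      obtain ⟨m, rfl⟩ : ∃ k, m = k + 1 := ⟨m - 1, by omega⟩
      rw [hd, Nat.add_sub_add_right]
      ring
    rw [e3, ← e2, Nat.add_sub_cancel]
    simp only [zero_add] at hd1
    rw [hd1]
    ring

end EVW

open EVW in
theorem t_EVW : Stmt_WNR → Stmt_HA → Stmt_HS → Stmt_HM → Stmt_EVW := by
  intro hW hHA hHS hHM
  refine ⟨first hW hHS hHM, ?_, ?_⟩
  · intro n hn
    obtain ⟨n, rfl⟩ : ∃ k, n = k + 1 := ⟨n - 1, by omega⟩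
    have h := second hW hHA hHS hHM n
    rw [Nat.add_sub_cancel]
    exact h
  · intro n
    induction n with
    | zero =>
      rw [ev_wN_zero]
      exact one_ne_zero
    | succ n ih =>
      intro hcon
      have h := second hW hHA hHS hHM n
      rw [hcon, mul_zero] at h
      exact mul_ne_zero (sub_ne_zero.2 (q_pow_ne_t n)) ih h.symm

end Pool.Agent.NEK
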