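import Pool.Agent.NEK.Stmts

/-!
The two last `E_{n,k}`.
-/

set_option autoImplicit false

namespace Pool.Agent.NEK

open MvPolynomial Finset

namespace EXTX

/-- `p_{i+1}[X/(1-q)]` -/
noncomputable def PP (i : ℕ) : Lam := C ((1 - q ^ (i + 1))⁻¹) * (X i : Lam)

lemma wN_eq (n : ℕ) : wN n = hN PP n := rfl

/-- the generating polynomial -/
noncomputable def EZ (n : ℕ) : Polynomial Lam :=
  eN (fun i => Polynomial.C (PP i) * (1 - Polynomial.X ^ (i + 1))) n

lemma q_pow_ne_one {k : ℕ} (hk : 1 ≤ k) : q ^ k ≠ 1 := by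
  intro h
  have h1 : algebraMap (MvPolynomial (Fin 2) ℚ) K ((X 0) ^ k) =
      algebraMap (MvPolynomial (Fin 2) ℚ) K 1 := by
    rw [map_pow, map_one]
    exact h
  have h2 := IsFractionRing.injective (MvPolynomial (Fin 2) ℚ) K h1
  have h3 := congrArg (MvPolynomial.eval (fun _ => (0 : ℚ))) h2
  rw [map_pow, MvPolynomial.eval_X, map_one, zero_pow (by omega)] at h3
  exact zero_ne_one h3

lemma one_sub_ne {k : ℕ} (hk : 1 ≤ k) : 1 - q ^ k ≠ 0 := by
  intro h
  exact q_pow_ne_one hk (sub_eq_zero.mp h).symm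

lemma q_ne_zero : q ≠ 0 := by
  intro h
  have h1 : algebraMap (MvPolynomial (Fin 2) ℚ) K (X 0) =
      algebraMap (MvPolynomial (Fin 2) ℚ) K 0 := by
    rw [map_zero]
    exact h
  have h2 := IsFractionRing.injective (MvPolynomial (Fin 2) ℚ) K h1
  exact MvPolynomial.X_ne_zero (0 : Fin 2) h2

lemma cast_ne (n : ℕ) : ((n + 1 : ℕ) : Lam) ≠ 0 := by
  have : CharZero Lam := algebraRat.charZero Lam
  exact_mod_cast Nat.succ_ne_zero n

lemma poly_cast (n : ℕ) : ((n + 1 : ℕ) : Polynomial Lam) = Polynomial.C ((n + 1 : ℕ) : Lam) := by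
  simp

lemma rec_coeff (hER : Stmt_ER) (n m : ℕ) :
    ((n + 1 : ℕ) : Lam) * (EZ (n + 1)).coeff m =
      ∑ k ∈ range (n + 1), (-1) ^ k * PP k *
        ((EZ (n - k)).coeff m - if k + 1 ≤ m then (EZ (n - k)).coeff (m - (k + 1)) else 0) := by
  have h := hER (Polynomial Lam)
    (fun i => Polynomial.C (PP i) * (1 - Polynomial.X ^ (i + 1))) n
  have h1 := congrArg (fun f : Polynomial Lam => f.coeff m) h
  rw [poly_cast, Polynomial.coeff_C_mul, Polynomial.finsetSum_coeff] at h1
  unfold EZ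
  rw [h1]
  apply Finset.sum_congr rfl
  intro k _
  have e : ((-1 : Polynomial Lam) ^ k) = Polynomial.C ((-1 : Lam) ^ k) := by
    simp
  rw [e]
  have e2 : ∀ f : Polynomial Lam, Polynomial.C ((-1 : Lam) ^ k) *
      (Polynomial.C (PP k) * (1 - Polynomial.X ^ (k + 1))) * f =
      Polynomial.C ((-1) ^ k * PP k) * (f - Polynomial.X ^ (k + 1) * f) := by
    intro f
    rw [Polynomial.C_mul]
    ring
  rw [e2, Polynomial.coeff_C_mul, Polynomial.coeff_sub, Polynomial.coeff_X_pow_mul']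

lemma EZ_zero : EZ 0 = 1 := by
  unfold EZ
  rw [eN]

lemma coeff_gt (hER : Stmt_ER) (n : ℕ) : ∀ m, n < m → (EZ n).coeff m = 0 := by
  induction n using Nat.strong_induction_on with
  | _ n ih =>
    intro m hm
    rcases n with _ | n
    · rw [EZ_zero, Polynomial.coeff_one, if_neg (by omega)]
    · have h := rec_coeff hER n m
      have h2 : ∑ k ∈ range (n + 1), (-1) ^ k * PP k *
          ((EZ (n - k)).coeff m - if k + 1 ≤ m then (EZ (n - k)).coeff (m - (k + 1)) else 0)
          = 0 := by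
        apply Finset.sum_eq_zero
        intro k hk
        have hk' := Finset.mem_range.mp hk
        rw [ih (n - k) (by omega) m (by omega), if_pos (by omega),
          ih (n - k) (by omega) (m - (k + 1)) (by omega)]
        simp
      rw [h2] at h
      exact (mul_eq_zero.mp h).resolve_left (cast_ne n)

lemma coeff_top (hER : Stmt_ER) (hHR : Stmt_HR) (n : ℕ) :
    (EZ n).coeff n = (-1) ^ n * wN n := by
  induction n using Nat.strong_induction_on with
  | _ n ih =>
    rcases n with _ | n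
    · rw [EZ_zero, wN_eq, hN]
      simp
    · have h := rec_coeff hER n (n + 1)
      have h2 : ∑ k ∈ range (n + 1), (-1) ^ k * PP k *
          ((EZ (n - k)).coeff (n + 1) -
            if k + 1 ≤ n + 1 then (EZ (n - k)).coeff (n + 1 - (k + 1)) else 0)
          = (-1) ^ (n + 1) * ∑ k ∈ range (n + 1), PP k * hN PP (n - k) := by
        rw [Finset.mul_sum]
        apply Finset.sum_congr rfl
        intro k hk
        have hk' := Finset.mem_range.mp hk
        rw [coeff_gt hER (n - k) (n + 1) (by omega), if_pos (by omega)]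
        have e : n + 1 - (k + 1) = n - k := by omega
        rw [e, ih (n - k) (by omega), wN_eq]
        have e2 : (-1 : Lam) ^ (n + 1) = - ((-1) ^ k * (-1) ^ (n - k)) := by
          rw [← pow_add, pow_succ]
          have : k + (n - k) = n := by omega
          rw [this]
          ring
        rw [e2]
        ring
      rw [h2, ← hHR Lam PP n] at h
      have h3 : ((n + 1 : ℕ) : Lam) * (EZ (n + 1)).coeff (n + 1) =
          ((n + 1 : ℕ) : Lam) * ((-1) ^ (n + 1) * wN (n + 1)) := by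
        rw [h, wN_eq]
        ring
      exact mul_left_cancel₀ (cast_ne n) h3

lemma coeff_sub (hER : Stmt_ER) (hHR : Stmt_HR) (n : ℕ) :
    (EZ (n + 1)).coeff n = (-1) ^ n * (PP 0 * wN n) := by
  induction n using Nat.strong_induction_on with
  | _ n ih =>
    have h := rec_coeff hER n n
    rw [Finset.sum_range_succ'] at h
    have h0 : (-1 : Lam) ^ 0 * PP 0 * ((EZ (n - 0)).coeff n -
        if 0 + 1 ≤ n then (EZ (n - 0)).coeff (n - (0 + 1)) else 0) =
        PP 0 * ((-1) ^ n * wN n) -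
          PP 0 * (if 1 ≤ n then (-1) ^ (n - 1) * (PP 0 * wN (n - 1)) else 0) := by
      rw [Nat.sub_zero, coeff_top hER hHR]
      by_cases hn : 1 ≤ n
      · have e := ih (n - 1) (by omega)
        have e' : n - 1 + 1 = n := by omega
        rw [e'] at e
        rw [if_pos (by omega), if_pos hn, zero_add, e]
        ring
      · rw [if_neg (by omega), if_neg hn]
        ring
    have h1 : ∑ k ∈ range n, (-1 : Lam) ^ (k + 1) * PP (k + 1) *
        ((EZ (n - (k + 1))).coeff n -
          if k + 1 + 1 ≤ n then (EZ (n - (k + 1))).coeff (n - (k + 1 + 1)) else 0) =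
        ∑ k ∈ range n, (-1 : Lam) ^ (k + 1) * PP (k + 1) *
        (- if k + 1 + 1 ≤ n then (-1) ^ (n - (k + 1 + 1)) * (PP 0 * wN (n - (k + 1 + 1)))
          else 0) := by
      apply Finset.sum_congr rfl
      intro k hk
      have hk' := Finset.mem_range.mp hk
      rw [coeff_gt hER (n - (k + 1)) n (by omega)]
      by_cases hn : k + 1 + 1 ≤ n
      · have e := ih (n - (k + 1 + 1)) (by omega)
        have e' : n - (k + 1 + 1) + 1 = n - (k + 1) := by omega
        rw [e'] at e
        rw [if_pos hn, if_pos hn, e]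
        ring
      · rw [if_neg hn, if_neg hn]
        ring
    rw [h0, h1] at h
    have h3 : ((n + 1 : ℕ) : Lam) * (EZ (n + 1)).coeff n =
        ((n + 1 : ℕ) : Lam) * ((-1) ^ n * (PP 0 * wN n)) := by
      rw [h]
      rcases n with _ | n
      · simp
      · have h4 := hHR Lam PP n
        rw [Finset.sum_range_succ'] at h4
        have h5 : ∑ k ∈ range (n + 1), (-1 : Lam) ^ (k + 1) * PP (k + 1) *
            (- if k + 1 + 1 ≤ n + 1 then (-1) ^ (n + 1 - (k + 1 + 1)) *
              (PP 0 * wN (n + 1 - (k + 1 + 1))) else 0) =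
            (-1) ^ (n + 1) * PP 0 * ∑ k ∈ range n, PP (k + 1) * hN PP (n - (k + 1)) := by
          rw [Finset.sum_range_succ, if_neg (by omega), Finset.mul_sum]
          have e0 : (-1 : Lam) ^ (n + 1) * PP (n + 1) * -0 = 0 := by ring
          rw [e0, add_zero]
          apply Finset.sum_congr rfl
          intro k hk
          have hk' := Finset.mem_range.mp hk
          rw [if_pos (by omega)]
          have e : n + 1 - (k + 1 + 1) = n - (k + 1) := by omega
          rw [e, wN_eq]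
          have e2 : (-1 : Lam) ^ (n + 1) = - ((-1) ^ (k + 1) * (-1) ^ (n - (k + 1))) := by
            rw [← pow_add, pow_succ]
            have : k + 1 + (n - (k + 1)) = n := by omega
            rw [this]
            ring
          rw [e2]
          ring
        rw [h5, if_pos (by omega)]
        have e1 : n + 1 - 1 = n := by omega
        rw [e1, wN_eq (n + 1), wN_eq n]
        have h6 : ∑ k ∈ range n, PP (k + 1) * hN PP (n - (k + 1)) =
            ((n + 1 : ℕ) : Lam) * hN PP (n + 1) - PP 0 * hN PP n := by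
          rw [h4, Nat.sub_zero]
          ring
        rw [h6]
        push_cast
        ring
    exact mul_left_cancel₀ (cast_ne n) h3

/-- the product `∏_{i<k} (1 - q^i Z)` -/
noncomputable def PZ (k : ℕ) : Polynomial Lam :=
  ∏ i ∈ range k, (1 - Polynomial.C (C (q ^ i) : Lam) * Polynomial.X)

lemma PZ_succ (k : ℕ) :
    PZ (k + 1) = PZ k - Polynomial.C (C (q ^ k) : Lam) * (PZ k * Polynomial.X) := by
  unfold PZ
  rw [Finset.prod_range_succ]
  ring

lemma PZ_gt (k : ℕ) : ∀ m, k < m → (PZ k).coeff m = 0 := by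
  induction k with
  | zero =>
    intro m hm
    unfold PZ
    rw [Finset.prod_range_zero, Polynomial.coeff_one, if_neg (by omega)]
  | succ k ih =>
    intro m hm
    obtain ⟨m', rfl⟩ : ∃ m', m = m' + 1 := ⟨m - 1, by omega⟩
    rw [PZ_succ, Polynomial.coeff_sub, Polynomial.coeff_C_mul, Polynomial.coeff_mul_X,
      ih (m' + 1) (by omega), ih m' (by omega)]
    ring

lemma PZ_top (k : ℕ) : (PZ k).coeff k = (-1) ^ k * C (q ^ k.choose 2) := by
  induction k with
  | zero =>
    unfold PZ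
    simp
  | succ k ih =>
    rw [PZ_succ, Polynomial.coeff_sub, Polynomial.coeff_C_mul, Polynomial.coeff_mul_X,
      PZ_gt k (k + 1) (by omega), ih]
    have e : (k + 1).choose 2 = k + k.choose 2 := by
      rw [Nat.choose_succ_succ' k 1, Nat.choose_one_right]
    rw [e, pow_add q k (k.choose 2), C_mul, pow_succ]
    ring

lemma PZ_sub (k : ℕ) :
    (PZ (k + 1)).coeff k = (-1) ^ k * C (q ^ k.choose 2 * ∑ i ∈ range (k + 1), q ^ i) := by
  induction k with
  | zero =>
    unfold PZ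
    simp
  | succ k ih =>
    rw [PZ_succ, Polynomial.coeff_sub, Polynomial.coeff_C_mul, Polynomial.coeff_mul_X, ih,
      PZ_top]
    have e : (k + 1).choose 2 = k + k.choose 2 := by
      rw [Nat.choose_succ_succ' k 1, Nat.choose_one_right]
    have e2 : ∑ i ∈ range (k + 1 + 1), q ^ i = 1 + q * ∑ i ∈ range (k + 1), q ^ i := by
      rw [Finset.sum_range_succ', Finset.mul_sum, pow_zero, add_comm]
      congr 1
      apply Finset.sum_congr rfl
      intro i _
      rw [pow_succ]
      ring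
    have e3 : q ^ (k + 1).choose 2 * ∑ i ∈ range (k + 1 + 1), q ^ i =
        q ^ (k + 1).choose 2 + q ^ (k + 1) * (q ^ k.choose 2 * ∑ i ∈ range (k + 1), q ^ i) := by
      rw [e2, e, pow_add, pow_succ]
      ring
    rw [e3, C_add, C_mul (a := q ^ (k + 1)), pow_succ (-1 : Lam)]
    ring

/-- the right side -/
noncomputable def FZ (E : ℕ → Lam) (n : ℕ) : Polynomial Lam :=
  ∑ k ∈ Icc 1 n, Polynomial.C (C ((qf k)⁻¹) * E k) * PZ k

lemma eval_PZ (z : K) (k : ℕ) : (PZ k).eval (C z : Lam) = C (poch z k) := by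
  unfold PZ poch
  rw [Polynomial.eval_prod, map_prod]
  apply Finset.prod_congr rfl
  intro i _
  simp only [Polynomial.eval_sub, Polynomial.eval_one, Polynomial.eval_mul, Polynomial.eval_C,
    Polynomial.eval_X, map_sub, map_one, map_mul]
  ring

lemma eval_FZ (E : ℕ → Lam) (n : ℕ) (z : K) :
    (FZ E n).eval (C z : Lam) = ∑ k ∈ Icc 1 n, (poch z k / poch q k) • E k := by
  unfold FZ
  rw [Polynomial.eval_finsetSum]
  apply Finset.sum_congr rfl
  intro k _
  rw [Polynomial.eval_mul, Polynomial.eval_C, eval_PZ, MvPolynomial.smul_eq_C_mul,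
    div_eq_mul_inv, C_mul]
  unfold qf
  ring

lemma plX_X (a : ℕ → K) (i : ℕ) : plX a (X i) = C (a i) * X i := by
  simp [plX]

lemma eval_EZ (hHM : Stmt_HM) (n : ℕ) (z : K) :
    (EZ n).eval (C z : Lam) =
      plX (fun i => (1 - z ^ (i + 1)) / (1 - q ^ (i + 1))) (eN (fun i => (X i : Lam)) n) := by
  have h1 := (hHM (Polynomial Lam) Lam (Polynomial.evalRingHom (C z : Lam))
    (fun i => Polynomial.C (PP i) * (1 - Polynomial.X ^ (i + 1)))).2.1 n
  have h2 := (hHM Lam Lam
    (plX (fun i => (1 - z ^ (i + 1)) / (1 - q ^ (i + 1)))).toRingHom (fun i => X i)).2.1 n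
  have h3 : (plX (fun i => (1 - z ^ (i + 1)) / (1 - q ^ (i + 1)))).toRingHom
      (eN (fun i => (X i : Lam)) n) =
      plX (fun i => (1 - z ^ (i + 1)) / (1 - q ^ (i + 1))) (eN (fun i => (X i : Lam)) n) := rfl
  rw [h3] at h2
  have h4 : Polynomial.evalRingHom (C z : Lam)
      (eN (fun i => Polynomial.C (PP i) * (1 - Polynomial.X ^ (i + 1))) n) =
      (EZ n).eval (C z : Lam) := rfl
  rw [h4] at h1
  rw [h1, h2]
  congr 1
  funext k
  have h5 : (plX (fun i => (1 - z ^ (i + 1)) / (1 - q ^ (i + 1)))).toRingHom (X k) =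
      C ((1 - z ^ (k + 1)) / (1 - q ^ (k + 1))) * X k := plX_X _ k
  rw [h5]
  simp only [Polynomial.coe_evalRingHom, Polynomial.eval_mul, Polynomial.eval_C,
    Polynomial.eval_sub, Polynomial.eval_one, Polynomial.eval_pow, Polynomial.eval_X]
  unfold PP
  rw [div_eq_mul_inv, C_mul, C_sub, C_pow, C_1]
  ring

lemma EZ_eq_FZ (hHM : Stmt_HM) (n : ℕ) (E : ℕ → Lam) (hE : IsE n E) : EZ n = FZ E n := by
  apply Polynomial.eq_of_infinite_eval_eq
  have : CharZero K := algebraRat.charZero K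
  have : Infinite K := inferInstance
  have h : Set.range (fun z : K => (C z : Lam)) ⊆
      {x : Lam | Polynomial.eval x (EZ n) = Polynomial.eval x (FZ E n)} := by
    rintro _ ⟨z, rfl⟩
    show (EZ n).eval (C z : Lam) = (FZ E n).eval (C z : Lam)
    rw [eval_EZ hHM, eval_FZ]
    exact hE z
  apply Set.Infinite.mono h
  exact Set.infinite_range_of_injective (MvPolynomial.C_injective ℕ K)

lemma FZ_coeff (E : ℕ → Lam) (n m : ℕ) :
    (FZ E n).coeff m = ∑ k ∈ Icc 1 n, (C ((qf k)⁻¹) * E k) * (PZ k).coeff m := by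
  unfold FZ
  rw [Polynomial.finsetSum_coeff]
  apply Finset.sum_congr rfl
  intro k _
  rw [Polynomial.coeff_C_mul]

lemma qf_succ (m : ℕ) : qf (m + 1) = qf m * (1 - q ^ (m + 1)) := by
  unfold qf poch
  rw [Finset.prod_range_succ]
  congr 2
  rw [pow_succ]
  ring

lemma qf_ne (m : ℕ) : qf m ≠ 0 := by
  induction m with
  | zero =>
    unfold qf poch
    simp
  | succ m ih =>
    rw [qf_succ]
    exact mul_ne_zero ih (one_sub_ne (by omega))

end EXTX

open EXTX in
theorem t_EXT : Stmt_ER → Stmt_HR → Stmt_HU → Stmt_HM → Stmt_EXT := by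
  intro hER hHR _ hHM n hn E hE
  obtain ⟨m, rfl⟩ : ∃ m, n = m + 1 := ⟨n - 1, by omega⟩
  have hm : 1 ≤ m := by omega
  have hEF := EZ_eq_FZ hHM (m + 1) E hE
  have hq := q_ne_zero
  -- top coefficient
  have h1 : (-1 : Lam) ^ (m + 1) * wN (m + 1) =
      (C ((qf (m + 1))⁻¹) * E (m + 1)) * ((-1) ^ (m + 1) * C (q ^ (m + 1).choose 2)) := by
    rw [← coeff_top hER hHR, hEF, FZ_coeff, Finset.sum_eq_single (m + 1), PZ_top]
    · intro k hk hk2
      have hk3 := Finset.mem_Icc.mp hk
      rw [PZ_gt k (m + 1) (by omega), mul_zero]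
    · intro h
      exact absurd (Finset.mem_Icc.mpr ⟨by omega, le_refl _⟩) h
  have h2 : (-1 : Lam) ^ m * (PP 0 * wN m) =
      (C ((qf m)⁻¹) * E m) * ((-1) ^ m * C (q ^ m.choose 2)) +
      (C ((qf (m + 1))⁻¹) * E (m + 1)) *
        ((-1) ^ m * C (q ^ m.choose 2 * ∑ i ∈ range (m + 1), q ^ i)) := by
    rw [← coeff_sub hER hHR, hEF, FZ_coeff]
    have hs : Icc 1 (m + 1) = insert (m + 1) (Icc 1 m) := by
      ext k
      simp only [Finset.mem_Icc, Finset.mem_insert]
      omega
    rw [hs, Finset.sum_insert (by simp), PZ_sub, Finset.sum_eq_single (s := Icc 1 m) m, PZ_top,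
      add_comm]
    · intro k hk hk2
      have hk3 := Finset.mem_Icc.mp hk
      rw [PZ_gt k m (by omega), mul_zero]
    · intro h
      exact absurd (Finset.mem_Icc.mpr ⟨hm, le_refl _⟩) h
  have hu : ∀ k : ℕ, ((-1 : Lam) ^ k) * (-1) ^ k = 1 := by
    intro k
    have e : (-1 : Lam) * (-1) = 1 := by ring
    rw [← mul_pow, e, one_pow]
  have h1' : wN (m + 1) = C ((qf (m + 1))⁻¹ * q ^ (m + 1).choose 2) * E (m + 1) := by
    have h := congrArg (fun f : Lam => (-1) ^ (m + 1) * f) h1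
    rw [← mul_assoc, hu, one_mul] at h
    rw [h, C_mul]
    linear_combination (C ((qf (m + 1))⁻¹) * E (m + 1) * C (q ^ (m + 1).choose 2)) * hu (m + 1)
  have h2' : PP 0 * wN m = C ((qf m)⁻¹ * q ^ m.choose 2) * E m +
      C ((qf (m + 1))⁻¹ * (q ^ m.choose 2 * ∑ i ∈ range (m + 1), q ^ i)) * E (m + 1) := by
    have h := congrArg (fun f : Lam => (-1) ^ m * f) h2
    rw [← mul_assoc, hu, one_mul] at h
    rw [h]
    simp only [C_mul]
    linear_combination (C ((qf m)⁻¹) * E m * C (q ^ m.choose 2) +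
      C ((qf (m + 1))⁻¹) * E (m + 1) *
        (C (q ^ m.choose 2) * C (∑ i ∈ range (m + 1), q ^ i))) * hu m
  have hqf := qf_ne m
  have hqf1 := qf_ne (m + 1)
  have hE1 : E (m + 1) = C ((q ^ (m + 1).choose 2)⁻¹) * WN (m + 1) := by
    unfold WN
    rw [h1', ← mul_assoc, ← mul_assoc, ← C_mul, ← C_mul]
    have : (q ^ (m + 1).choose 2)⁻¹ * qf (m + 1) * ((qf (m + 1))⁻¹ * q ^ (m + 1).choose 2) = 1 := by
      field_simp
    rw [this, C_1, one_mul]
  refine ⟨hE1, ?_⟩
  have e1 : m + 1 - 1 = m := by omega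
  rw [e1]
  unfold An
  rw [e1]
  have hcq : q ^ (m + 1).choose 2 = q ^ m * q ^ m.choose 2 := by
    rw [← pow_add, Nat.choose_succ_succ' m 1, Nat.choose_one_right]
  have hgeo : (∑ i ∈ range (m + 1), q ^ i) * (1 - q) = 1 - q ^ (m + 1) := by
    have := geom_sum_mul q (m + 1)
    linear_combination -this
  have hgeo' : (∑ i ∈ range m, q ^ i) * (1 - q) = 1 - q ^ m := by
    have := geom_sum_mul q m
    linear_combination -this
  have h1q : (1 - q) ≠ 0 := by
    have := one_sub_ne (k := 1) (le_refl 1)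
    rwa [pow_one] at this
  have h1m : (1 - q ^ m) ≠ 0 := one_sub_ne hm
  have h1m1 : (1 - q ^ (m + 1)) ≠ 0 := one_sub_ne (by omega)
  -- solve for `E m`
  have h3 : E m = C (qf m * (q ^ m.choose 2)⁻¹) * (PP 0 * wN m) -
      C (qf m * (q ^ m.choose 2)⁻¹) *
        (C ((qf (m + 1))⁻¹ * (q ^ m.choose 2 * ∑ i ∈ range (m + 1), q ^ i)) * E (m + 1)) := by
    rw [h2', mul_add, add_sub_cancel_right, ← mul_assoc, ← C_mul]
    have : qf m * (q ^ m.choose 2)⁻¹ * ((qf m)⁻¹ * q ^ m.choose 2) = 1 := by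
      field_simp
    rw [this, C_1, one_mul]
  have h4 : PP 0 * wN m = C ((1 - q)⁻¹ * (qf m)⁻¹) * (X 0 * WN m) := by
    unfold PP WN
    rw [zero_add, pow_one, C_mul]
    have : (C ((qf m)⁻¹) : Lam) * C (qf m) = 1 := by
      rw [← C_mul, inv_mul_cancel₀ hqf, C_1]
    linear_combination (- C ((1 - q)⁻¹) * X 0 * wN m) * this
  rw [h3, h4, hE1]
  have hA : qf m * (q ^ m.choose 2)⁻¹ * ((1 - q)⁻¹ * (qf m)⁻¹) =
      (q ^ (m + 1).choose 2)⁻¹ * (∑ i ∈ range m, q ^ i) * ((1 - q ^ m)⁻¹ * q ^ m) := by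
    rw [hcq]
    have : (∑ i ∈ range m, q ^ i) = (1 - q ^ m) / (1 - q) := by
      rw [eq_div_iff h1q]
      exact hgeo'
    rw [this]
    field_simp
  have hB : qf m * (q ^ m.choose 2)⁻¹ *
      ((qf (m + 1))⁻¹ * (q ^ m.choose 2 * ∑ i ∈ range (m + 1), q ^ i)) *
        (q ^ (m + 1).choose 2)⁻¹ =
      (q ^ (m + 1).choose 2)⁻¹ * (∑ i ∈ range m, q ^ i) * (1 - q ^ m)⁻¹ := by
    rw [hcq, qf_succ]
    have e2 : (∑ i ∈ range m, q ^ i) = (1 - q ^ m) / (1 - q) := by
      rw [eq_div_iff h1q]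
      exact hgeo'
    have e3 : (∑ i ∈ range (m + 1), q ^ i) = (1 - q ^ (m + 1)) / (1 - q) := by
      rw [eq_div_iff h1q]
      exact hgeo
    rw [e2, e3]
    field_simp
  calc C (qf m * (q ^ m.choose 2)⁻¹) * (C ((1 - q)⁻¹ * (qf m)⁻¹) * (X 0 * WN m)) -
        C (qf m * (q ^ m.choose 2)⁻¹) *
          (C ((qf (m + 1))⁻¹ * (q ^ m.choose 2 * ∑ i ∈ range (m + 1), q ^ i)) *
            (C ((q ^ (m + 1).choose 2)⁻¹) * WN (m + 1)))
      = C (qf m * (q ^ m.choose 2)⁻¹ * ((1 - q)⁻¹ * (qf m)⁻¹)) * (X 0 * WN m) -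
        C (qf m * (q ^ m.choose 2)⁻¹ *
          ((qf (m + 1))⁻¹ * (q ^ m.choose 2 * ∑ i ∈ range (m + 1), q ^ i)) *
            (q ^ (m + 1).choose 2)⁻¹) * WN (m + 1) := by
        simp only [C_mul]
        ring
    _ = C ((q ^ (m + 1).choose 2)⁻¹ * (∑ i ∈ range m, q ^ i) * ((1 - q ^ m)⁻¹ * q ^ m)) *
          (X 0 * WN m) -
        C ((q ^ (m + 1).choose 2)⁻¹ * (∑ i ∈ range m, q ^ i) * (1 - q ^ m)⁻¹) *
          WN (m + 1) := by
        rw [hA, hB]
    _ = _ := by
        simp only [C_mul]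
        ring

end Pool.Agent.NEK
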