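import Pool.Agent.NEK.Stmts

/-!
The two Macdonald polynomials for `(n)` and `(n-1,1)`.
-/

set_option autoImplicit false

namespace Pool.Agent.NEK

open MvPolynomial Finset

namespace MACX

lemma q_pow_ne_one {k : ℕ} (hk : 1 ≤ k) : q ^ k ≠ 1 := by
  intro h
  have h1 : algebraMap (MvPolynomial (Fin 2) ℚ) K ((X 0) ^ k) =
      algebraMap (MvPolynomial (Fin 2) ℚ) K 1 := by
    rw [map_pow, map_one]
    exact h
  have h2 := IsFractionRing.injective (MvPolynomial (Fin 2) ℚ) K h1
  have h3 := congrArg (MvPolynomial.eval (fun _ => (0 : ℚ))) h2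
  rw [map_pow, MvPolynomial.eval_X, map_one, zero_pow (by omega)] at h3
  exact zero_ne_one h3

lemma one_sub_ne {k : ℕ} (hk : 1 ≤ k) : 1 - q ^ k ≠ 0 := by
  intro h
  exact q_pow_ne_one hk (sub_eq_zero.mp h).symm

lemma plX_X (a : ℕ → K) (i : ℕ) : plX a (X i) = C (a i) * X i := by
  simp [plX]

lemma plX_inv (f : Lam) :
    plX (fun i => (1 - q ^ (i + 1))⁻¹) (plX (fun i => 1 - q ^ (i + 1)) f) = f := by
  have h : (plX (fun i => (1 - q ^ (i + 1))⁻¹)).comp (plX (fun i => 1 - q ^ (i + 1))) =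
      AlgHom.id K Lam := by
    apply MvPolynomial.algHom_ext
    intro i
    rw [AlgHom.comp_apply, plX_X, map_mul, plX_X, AlgHom.id_apply]
    have h1 : plX (fun i => (1 - q ^ (i + 1))⁻¹) (C (1 - q ^ (i + 1))) =
        (C (1 - q ^ (i + 1)) : Lam) := by
      have := (plX (fun i => (1 - q ^ (i + 1))⁻¹)).commutes (1 - q ^ (i + 1))
      exact this
    rw [h1, ← mul_assoc, ← C_mul, mul_inv_cancel₀ (one_sub_ne (by omega)), C_1, one_mul]
  exact AlgHom.congr_fun h f

lemma plX_hX (hHM : Stmt_HM) (m : ℕ) :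
    plX (fun i => (1 - q ^ (i + 1))⁻¹) (hX m) = wN m := by
  have h1 := (hHM Lam Lam (plX (fun i => (1 - q ^ (i + 1))⁻¹)).toRingHom (fun i => X i)).1 m
  have h2 : (plX (fun i => (1 - q ^ (i + 1))⁻¹)).toRingHom (hN (fun i => (X i : Lam)) m) =
      plX (fun i => (1 - q ^ (i + 1))⁻¹) (hX m) := rfl
  rw [h2] at h1
  rw [h1, wN]
  congr 1
  funext i
  exact plX_X _ i

lemma ev_plX (a b : ℕ → K) (f : Lam) :
    ev a (plX b f) = ev (fun i => a i * b i) f := by
  have h : (ev a).comp (plX b) = ev (fun i => a i * b i) := by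
    apply MvPolynomial.algHom_ext
    intro i
    rw [AlgHom.comp_apply, plX_X, map_mul]
    have h1 : ev a (C (b i)) = b i := by
      have := (ev a).commutes (b i)
      exact this
    rw [h1]
    simp [ev, mul_comm]
  exact AlgHom.congr_fun h f

lemma sch_one (n : ℕ) : sch [n] = hX n := by
  have h2 : sch [n] = Matrix.det (Matrix.of fun i j : Fin 1 =>
      hZ (fun i => (X i : Lam)) (([n].get i : ℤ) - (i : ℤ) + (j : ℤ))) := rfl
  rw [h2, Matrix.det_fin_one, Matrix.of_apply]
  have e : ((([n].get (0 : Fin 1) : ℕ) : ℤ) - (((0 : Fin 1) : ℕ) : ℤ) + (((0 : Fin 1) : ℕ) : ℤ)) =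
      (n : ℤ) := by
    simp
  rw [e]
  simp [hZ, hX]

lemma hZ_nat (P : ℕ → Lam) (z : ℤ) (m : ℕ) (h : z = m) : hZ P z = hN P m := by
  subst h
  simp [hZ]

lemma sch_two (n : ℕ) (hn : 2 ≤ n) : sch [n - 1, 1] = hX (n - 1) * hX 1 - hX n := by
  have h2 : sch [n - 1, 1] = Matrix.det (Matrix.of fun i j : Fin 2 =>
      hZ (fun i => (X i : Lam)) (([n - 1, 1].get i : ℤ) - (i : ℤ) + (j : ℤ))) := rfl
  rw [h2, Matrix.det_fin_two]
  simp only [Matrix.of_apply]
  rw [hZ_nat _ _ (n - 1), hZ_nat _ _ 1, hZ_nat _ _ n, hZ_nat _ _ 0]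
  · have : hN (fun i => (X i : Lam)) 0 = 1 := by rw [hN]
    rw [this, mul_one]
    rfl
  · simp
  · have : (([n - 1, 1].get (0 : Fin 2) : ℕ) : ℤ) = (n : ℤ) - 1 := by
      simp
      omega
    rw [this]
    simp
  · simp
  · simp

lemma part_one {n : ℕ} (hn : 1 ≤ n) {l : List ℕ} (hl : IsPart n l) (hd : Dom l [n]) :
    l = [n] := by
  obtain ⟨-, hpos, hsum⟩ := hl
  have h1 := hd 1
  rcases l with _ | ⟨a, l⟩
  · simp at hsum
    omega
  · simp at h1 hsum
    rcases l with _ | ⟨b, l⟩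
    · simp at hsum
      rw [hsum]
    · have := hpos b (by simp)
      simp at hsum
      omega

lemma part_two {n : ℕ} (hn : 2 ≤ n) {l : List ℕ} (hl : IsPart n l) (hd : Dom l [n - 1, 1]) :
    l = [n] ∨ l = [n - 1, 1] := by
  obtain ⟨-, hpos, hsum⟩ := hl
  have h1 := hd 1
  rcases l with _ | ⟨a, l⟩
  · simp at hsum
    omega
  · simp at h1 hsum
    rcases l with _ | ⟨b, l⟩
    · simp at hsum
      left
      rw [hsum]
    · have hb := hpos b (by simp)
      simp at hsum
      rcases l with _ | ⟨c, l⟩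
      · right
        simp at hsum
        have h2 : a = n - 1 := by omega
        have h3 : b = 1 := by omega
        rw [h2, h3]
      · have hc := hpos c (by simp)
        simp at hsum
        omega

lemma isPart_one {n : ℕ} (hn : 1 ≤ n) : IsPart n [n] := by
  refine ⟨by simp, ?_, by simp⟩
  intro a ha
  simp at ha
  omega

lemma isPart_two {n : ℕ} (hn : 2 ≤ n) : IsPart n [n - 1, 1] := by
  refine ⟨?_, ?_, ?_⟩
  · simp
    omega
  · intro a ha
    simp at ha
    omega
  · simp
    omega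

lemma conj_two {n : ℕ} (hn : 2 ≤ n) : ∃ l', conj [n - 1, 1] = 2 :: l' := by
  obtain ⟨k, rfl⟩ : ∃ k, n = k + 2 := ⟨n - 2, by omega⟩
  have h : conj [k + 2 - 1, 1] = (List.range (k + 1)).map
      (fun j => ([k + 1, 1].filter fun a => decide (j < a)).length) := rfl
  rw [h, List.range_succ_eq_map, List.map_cons]
  exact ⟨_, rfl⟩

lemma ev_span (a : ℕ → K) (p : List ℕ → Prop) (h : ∀ l, p l → ev a (sch l) = 0) (f : Lam)
    (hf : f ∈ Submodule.span K {f | ∃ l, p l ∧ f = sch l}) : ev a f = 0 := by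
  induction hf using Submodule.span_induction with
  | mem f hf =>
    obtain ⟨l, hl, rfl⟩ := hf
    exact h l hl
  | zero => exact map_zero _
  | add x y _ _ hx hy => rw [map_add, hx, hy, add_zero]
  | smul c x _ hx => rw [map_smul, hx, smul_zero]

lemma qf_succ (n : ℕ) : qf (n + 1) = qf n * (1 - q ^ (n + 1)) := by
  unfold qf poch
  rw [prod_range_succ, pow_succ']

lemma qf_ne (n : ℕ) : qf n ≠ 0 := by
  induction n with
  | zero => simp [qf, poch]
  | succ n ih => rw [qf_succ]; exact mul_ne_zero ih (one_sub_ne (by omega))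

lemma qf_one : qf 1 = 1 - q := by
  rw [qf_succ]
  simp [qf, poch]

end MACX

open MACX in
theorem t_MAC : Stmt_EVS → Stmt_EVW → Stmt_HM → Stmt_HR → Stmt_MAC := by
  intro hEVS hEVW hHM hHR n hn H hH
  obtain ⟨hS1, hS2, hS3⟩ := hEVS
  obtain ⟨hW1, hW2, hW3⟩ := hEVW
  have hev1 : ∀ μ, IsPart n μ → ev (fun _ => 1) (H μ) = 1 := by
    intro μ hμ
    have h1 := ev_span (fun _ => 1) (fun l => IsPart n l ∧ l ≠ [n])
      (fun l hl => hS1 n l hl.1 (by omega) hl.2) (H μ - sch [n]) (by
        have := hH.norm μ hμ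
        simpa [and_assoc] using this)
    rw [map_sub, hS2, sub_eq_zero] at h1
    exact h1
  have hw0 : wN 0 = 1 := by rw [wN, hN]
  have hw1 : wN 1 = C ((1 - q)⁻¹) * X 0 := by
    have h1 := hHR Lam (fun i => C ((1 - q ^ (i + 1))⁻¹) * (X i : Lam)) 0
    simp only [zero_add, Nat.cast_one, one_mul, range_one, sum_singleton, Nat.sub_zero] at h1
    rw [wN, h1, hN]
    simp
  have hq1 : (1 : K) - q ≠ 0 := by
    have := one_sub_ne (le_refl 1)
    rwa [pow_one] at this
  have hqn : (1 : K) - q ^ n ≠ 0 := one_sub_ne (by omega)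
  have hqn1 : (1 : K) - q ^ (n - 1) ≠ 0 := one_sub_ne (by omega)
  have hqfn : qf n = qf (n - 1) * (1 - q ^ n) := by
    obtain ⟨k, rfl⟩ : ∃ k, n = k + 1 := ⟨n - 1, by omega⟩
    rw [Nat.add_sub_cancel]
    exact qf_succ k
  -- the shape `(n)`
  have hA : H [n] = WN n := by
    have h1 := hH.triq [n] (isPart_one (by omega))
    have h2 : plX (fun i => 1 - q ^ (i + 1)) (H [n]) ∈ Submodule.span K {sch [n]} := by
      refine Submodule.span_mono ?_ h1
      rintro f ⟨l, hl, hd, rfl⟩
      rw [part_one (by omega) hl hd]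
      rfl
    obtain ⟨c, hc⟩ := Submodule.mem_span_singleton.mp h2
    have h3 : H [n] = c • wN n := by
      rw [← plX_inv (H [n]), ← hc, map_smul, sch_one, plX_hX hHM]
    have h4 := hev1 [n] (isPart_one (by omega))
    rw [h3, map_smul, hW1, smul_eq_mul] at h4
    have h5 : c = qf n := by
      field_simp [qf_ne n] at h4
      exact h4
    rw [h3, h5, WN, MvPolynomial.smul_eq_C_mul]
  -- the shape `(n-1,1)`
  have hB : H [n - 1, 1] = An n + C t * Bn n := by
    have h1 := hH.triq [n - 1, 1] (isPart_two hn)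
    have h2 : plX (fun i => 1 - q ^ (i + 1)) (H [n - 1, 1]) ∈
        Submodule.span K {sch [n], sch [n - 1, 1]} := by
      refine Submodule.span_mono ?_ h1
      rintro f ⟨l, hl, hd, rfl⟩
      rcases part_two hn hl hd with h | h
      · rw [h]; exact Set.mem_insert _ _
      · rw [h]; exact Set.mem_insert_of_mem _ rfl
    obtain ⟨a, b, hab⟩ := Submodule.mem_span_pair.mp h2
    have h3 : H [n - 1, 1] = (a - b) • wN n + b • (wN (n - 1) * wN 1) := by
      rw [← plX_inv (H [n - 1, 1]), ← hab, map_add, map_smul, map_smul, sch_one, sch_two n hn,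
        map_sub, map_mul, plX_hX hHM, plX_hX hHM, plX_hX hHM, smul_sub, sub_smul]
      abel
    have h4 := hev1 [n - 1, 1] (isPart_two hn)
    rw [h3, map_add, map_smul, map_smul, map_mul, hW1, hW1, hW1, smul_eq_mul, smul_eq_mul,
      qf_one] at h4
    -- the second triangularity
    have h5 := ev_span (fun i => (-1) ^ i) (fun l => IsPart n l ∧ Dom l (conj [n - 1, 1]))
      (by
        rintro l ⟨hl, hd⟩
        obtain ⟨l', hl'⟩ := conj_two hn
        have h6 := hd 1
        rw [hl'] at h6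
        rcases l with _ | ⟨x, l⟩
        · simp at h6
        · simp at h6
          exact hS3 (x :: l) x l rfl h6)
      (plX (fun i => 1 - t ^ (i + 1)) (H [n - 1, 1])) (by
        have := hH.trit _ (isPart_two hn)
        simpa [and_assoc] using this)
    rw [ev_plX, h3, map_add, map_smul, map_smul, map_mul, smul_eq_mul, smul_eq_mul] at h5
    set c : ℕ → K := fun m => ev (fun i => (-1) ^ i * (1 - t ^ (i + 1))) (wN m) with hc
    have h5' : (a - b) * c n + b * (c (n - 1) * c 1) = 0 := h5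
    have h6 : (1 - q ^ n) * c n = (q ^ (n - 1) - t) * c (n - 1) := hW2 n (by omega)
    have h7 : (1 - q) * c 1 = 1 - t := by
      have h8 := hW2 1 le_rfl
      rw [Nat.sub_self, pow_zero, hw0, map_one, mul_one, pow_one] at h8
      exact h8
    have h8 : c (n - 1) ≠ 0 := hW3 (n - 1)
    have h9 : (a - b) * (q ^ (n - 1) - t) * (1 - q) + b * (1 - t) * (1 - q ^ n) = 0 := by
      have h10 : c (n - 1) * ((a - b) * (q ^ (n - 1) - t) * (1 - q) +
          b * (1 - t) * (1 - q ^ n)) = 0 := by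
        linear_combination (1 - q ^ n) * (1 - q) * h5' - (a - b) * (1 - q) * h6 -
          b * c (n - 1) * (1 - q ^ n) * h7
      rcases mul_eq_zero.mp h10 with h | h
      · exact absurd h h8
      · exact h
    have hq' := qf_ne (n - 1)
    have h4' : (a - b) * (1 - q) + b * (1 - q ^ n) = qf (n - 1) * (1 - q ^ n) * (1 - q) := by
      rw [hqfn] at h4
      field_simp at h4
      linear_combination h4
    -- solve
    have ha : (a - b) * (1 - q ^ (n - 1)) = qf n * (1 - t) := by
      have h10 : (1 - q) * ((a - b) * (1 - q ^ (n - 1)) - qf n * (1 - t)) = 0 := by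
        rw [hqfn]
        linear_combination (1 - t) * h4' - h9
      rcases mul_eq_zero.mp h10 with h | h
      · exact absurd h hq1
      · exact sub_eq_zero.mp h
    have hb : b * (1 - q ^ (n - 1)) = qf (n - 1) * (1 - q) * (t - q ^ (n - 1)) := by
      have h10 : (1 - q ^ n) * (b * (1 - q ^ (n - 1)) -
          qf (n - 1) * (1 - q) * (t - q ^ (n - 1))) = 0 := by
        rw [hqfn] at ha
        linear_combination (1 - q ^ (n - 1)) * h4' - (1 - q) * ha
      rcases mul_eq_zero.mp h10 with h | h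
      · exact absurd h hqn
      · exact sub_eq_zero.mp h
    have ha' : a - b = (1 - q ^ (n - 1))⁻¹ * ((1 - t) * qf n) := by
      rw [eq_inv_mul_iff_mul_eq₀ hqn1]
      linear_combination ha
    have hb' : b = (1 - q ^ (n - 1))⁻¹ * ((t - q ^ (n - 1)) * (qf (n - 1) * (1 - q))) := by
      rw [eq_inv_mul_iff_mul_eq₀ hqn1]
      linear_combination hb
    rw [h3, ha', hb', hw1, An, Bn, WN, WN, MvPolynomial.smul_eq_C_mul,
      MvPolynomial.smul_eq_C_mul]
    have h11 : (C (1 - q) : Lam) * C ((1 - q)⁻¹) = 1 := by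
      rw [← C_mul, mul_inv_cancel₀ hq1, C_1]
    simp only [C_mul, C_sub, C_1] at h11 ⊢
    linear_combination (C (1 - q ^ (n - 1))⁻¹ * (C t - C (q ^ (n - 1))) * C (qf (n - 1)) *
      wN (n - 1) * X 0) * h11
  refine ⟨hA, hB, ?_⟩
  rw [An, Bn]
  have h11 : (C ((1 - q ^ (n - 1))⁻¹) : Lam) * C (1 - q ^ (n - 1)) = 1 := by
    rw [← C_mul, inv_mul_cancel₀ hqn1, C_1]
  rw [C_sub, C_1] at h11
  linear_combination (- WN n) * h11

end Pool.Agent.NEK
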