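import Pool.Agent.NEK.Stmts

/-!
# `A_n` and `B_n` are Schur positive (module ABP)
-/

set_option autoImplicit false

namespace Pool.Agent.NEK

open MvPolynomial Finset

namespace ABP

theorem sw_congr {M : Type} [AddCommMonoid M] {N : ℕ} : ∀ (n : ℕ) (F G : List (Fin N) → M),
    (∀ w, w.length = n → F w = G w) → sw n F = sw n G
  | 0, _, _, h => h [] rfl
  | n + 1, _, _, h => Finset.sum_congr rfl fun r _ =>
      sw_congr n _ _ fun w hw => h (r :: w) (by rw [List.length_cons, hw])

theorem sw_sum {M : Type} [AddCommMonoid M] {N : ℕ} {ι : Type} (s : Finset ι) :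
    ∀ (n : ℕ) (F : ι → List (Fin N) → M),
    sw n (fun w => ∑ i ∈ s, F i w) = ∑ i ∈ s, sw n (F i)
  | 0, _ => rfl
  | n + 1, F => by
      change ∑ r : Fin N, sw n (fun w => ∑ i ∈ s, F i (r :: w)) =
        ∑ i ∈ s, ∑ r : Fin N, sw n (fun w => F i (r :: w))
      rw [Finset.sum_comm]
      exact Finset.sum_congr rfl fun r _ => sw_sum s n fun i w => F i (r :: w)

theorem sw_mul {R : Type} [CommRing R] {N : ℕ} (c : R) :
    ∀ (n : ℕ) (F : List (Fin N) → R), sw n (fun w => c * F w) = c * sw n F
  | 0, _ => rfl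
  | n + 1, F => by
      change ∑ r : Fin N, sw n (fun w => c * F (r :: w)) =
        c * ∑ r : Fin N, sw n (fun w => F (r :: w))
      rw [Finset.mul_sum]
      exact Finset.sum_congr rfl fun r _ => sw_mul c n fun w => F (r :: w)

theorem sw_sub {R : Type} [CommRing R] {N : ℕ} :
    ∀ (n : ℕ) (F G : List (Fin N) → R), sw n (fun w => F w - G w) = sw n F - sw n G
  | 0, _, _ => rfl
  | n + 1, F, G => by
      change ∑ r : Fin N, sw n (fun w => F (r :: w) - G (r :: w)) =
        ∑ r : Fin N, sw n (fun w => F (r :: w)) - ∑ r : Fin N, sw n (fun w => G (r :: w))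
      rw [← Finset.sum_sub_distrib]
      exact Finset.sum_congr rfl fun r _ => sw_sub n _ _

theorem sw_mem {M : Type} [AddCommMonoid M] (S : AddSubmonoid M) {N : ℕ} :
    ∀ (n : ℕ) (F : List (Fin N) → M), (∀ w, w.length = n → F w ∈ S) → sw n F ∈ S
  | 0, _, h => h [] rfl
  | n + 1, _, h => AddSubmonoid.sum_mem S fun r _ =>
      sw_mem S n _ fun w hw => h (r :: w) (by rw [List.length_cons, hw])

theorem q_pow_ne (i : ℕ) : q ^ (i + 1) ≠ 1 := by
  intro h
  have h1 : algebraMap (MvPolynomial (Fin 2) ℚ) K ((X 0 : MvPolynomial (Fin 2) ℚ) ^ (i + 1)) =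
      algebraMap (MvPolynomial (Fin 2) ℚ) K 1 := by
    rw [map_pow, map_one]
    exact h
  have h2 := IsFractionRing.injective (MvPolynomial (Fin 2) ℚ) K h1
  have h3 := congrArg (MvPolynomial.eval (fun _ : Fin 2 => (0 : ℚ))) h2
  rw [map_pow, MvPolynomial.eval_X, map_one, zero_pow (Nat.succ_ne_zero i)] at h3
  exact zero_ne_one h3

theorem q_mem : q ∈ NN := Subsemiring.subset_closure (Or.inl rfl)

/-- the values of words are Schur functions -/
theorem val_mem (hD : Stmt_PAD) {N n : ℕ} (w : List (Fin N)) (hw : w.length = n) (k : ℕ) :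
    C (q ^ k) * valw (fun i => (X i : Lam)) w ∈ SPos n := by
  unfold valw
  split_ifs with hB
  · rw [hD Lam (fun i => (X i : Lam)) N (cont w) ?_]
    · apply AddSubmonoid.subset_closure
      refine ⟨q ^ k, pow_mem q_mem k, (List.ofFn (cont w)).filter fun a => decide (0 < a),
        ⟨?_, ?_, ?_⟩, ?_⟩
      · apply List.Pairwise.filter
        rw [List.pairwise_ofFn]
        intro i j hij
        have ha : Antitone (cont w) := by
          cases w with
          | nil => intro i j _; simp [cont]
          | cons r w => exact hB.2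
        exact ha hij.le
      · intro a ha
        rw [List.mem_filter] at ha
        exact of_decide_eq_true ha.2
      · have h1 : ∀ l : List ℕ, (l.filter fun a => decide (0 < a)).sum = l.sum := by
          intro l
          induction l with
          | nil => rfl
          | cons a l ih =>
            rw [List.filter_cons]
            split_ifs with h
            · rw [List.sum_cons, List.sum_cons, ih]
            · have h0 : a = 0 := by
                have : ¬ (0 < a) := fun h' => h (decide_eq_true h')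
                omega
              rw [List.sum_cons, ih, h0, zero_add]
        rw [h1, List.sum_ofFn, ← hw]
        unfold cont
        have h2 := Multiset.sum_count_eq_card (s := (Finset.univ : Finset (Fin N)))
          (m := (w : Multiset (Fin N))) (fun a _ => Finset.mem_univ a)
        rw [Multiset.coe_card] at h2
        rw [← h2]
        exact Finset.sum_congr rfl fun i _ => (Multiset.coe_count i w).symm
      · rw [← C_mul']
        rfl
    · cases w with
      | nil => intro i j _; simp [cont]
      | cons r w => exact hB.2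
  · rw [mul_zero]
    exact zero_mem _

theorem mj_cons {N : ℕ} (r r' : Fin N) (w : List (Fin N)) :
    mj (r :: r' :: w) = mj (r' :: w) + (if r' < r then (r' :: w).length else 0) := rfl

/-- `p_1 s_w` -/
theorem pieri1 (hP : Stmt_PIW) (hR : Stmt_HR) {N : ℕ} (w : List (Fin N)) (h : w.length + 1 ≤ N) :
    (X 0 : Lam) * valw (fun i => (X i : Lam)) w =
      ∑ r : Fin N, valw (fun i => (X i : Lam)) (r :: w) := by
  by_cases hw : Bal w
  · have h1 := hP Lam (fun i => (X i : Lam)) N 1 w hw h
    have h2 := hR Lam (fun i => (X i : Lam)) 0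
    rw [Finset.sum_range_one] at h2
    have h3 : hN (fun i => (X i : Lam)) 1 = X 0 := by
      have h4 : hN (fun i => (X i : Lam)) (0 - 0) = 1 := by rw [Nat.sub_zero, hN]
      rw [h4, mul_one] at h2
      simpa using h2
    rw [h3] at h1
    rw [h1]
    change ∑ r : Fin N, (if [r].Pairwise (· ≤ ·) then valw (fun i => (X i : Lam)) ([r] ++ w) else 0) = _
    refine Finset.sum_congr rfl fun r _ => ?_
    rw [if_pos (List.pairwise_singleton _ _)]
    rfl
  · have h0 : valw (fun i => (X i : Lam)) w = 0 := by
      unfold valw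
      rw [if_neg hw]
    rw [h0, mul_zero]
    symm
    refine Finset.sum_eq_zero fun r _ => ?_
    unfold valw
    rw [if_neg fun h => hw h.1]

end ABP

open ABP in
theorem t_ABP : Stmt_WNC → Stmt_PIW → Stmt_PAD → Stmt_HR → Stmt_ABP := by
  intro hW hP hD hR n hn
  obtain ⟨m, rfl⟩ : ∃ m, n = m + 1 := ⟨n - 1, by omega⟩
  have hm : 1 ≤ m := by omega
  have hq : (1 : K) - q ^ m ≠ 0 := by
    obtain ⟨i, rfl⟩ : ∃ i, m = i + 1 := ⟨m - 1, by omega⟩
    intro h
    exact q_pow_ne i (sub_eq_zero.mp h).symm
  -- the two sums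
  have e1 : WN (m + 1) = sw m (fun w : List (Fin (m + 1)) => ∑ r : Fin (m + 1),
      C (q ^ mj (r :: w)) * valw (fun i => (X i : Lam)) (r :: w)) := by
    rw [hW (m + 1) (m + 1) le_rfl, sw_sum]
    rfl
  have e2 : X 0 * WN m = sw m (fun w : List (Fin (m + 1)) => ∑ r : Fin (m + 1),
      C (q ^ mj w) * valw (fun i => (X i : Lam)) (r :: w)) := by
    rw [hW (m + 1) m (Nat.le_succ m), ← sw_mul]
    apply sw_congr
    intro w hw
    rw [mul_left_comm, pieri1 hP hR w (by omega), Finset.mul_sum]
  have hA : An (m + 1) = sw m (fun w : List (Fin (m + 1)) => ∑ r : Fin (m + 1),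
      if w.head? = none ∨ ∃ r', w.head? = some r' ∧ r' < r then 0 else
      C (q ^ mj w) * valw (fun i => (X i : Lam)) (r :: w)) := by
    unfold An
    rw [Nat.add_sub_cancel, mul_assoc, e2, ← sw_mul, e1, ← sw_sub, ← sw_mul]
    apply sw_congr
    intro w hw
    obtain ⟨r', w', rfl⟩ : ∃ r' w', w = r' :: w' := by
      cases w with
      | nil => simp at hw; omega
      | cons r' w' => exact ⟨r', w', rfl⟩
    rw [Finset.mul_sum, ← Finset.sum_sub_distrib, Finset.mul_sum]
    refine Finset.sum_congr rfl fun r _ => ?_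
    rw [mj_cons, hw]
    by_cases h : r' < r
    · rw [if_pos h, if_pos (Or.inr ⟨r', rfl, h⟩), pow_add, C_mul]
      ring
    · rw [if_neg h, if_neg (by simpa using h), add_zero]
      have h1 : C ((1 - q ^ m)⁻¹) * (1 - C (q ^ m)) = (1 : Lam) := by
        rw [← C_1, ← C_sub, ← C_mul, inv_mul_cancel₀ hq]
      calc C ((1 - q ^ m)⁻¹) * (C (q ^ mj (r' :: w')) * valw (fun i => (X i : Lam)) (r :: r' :: w') -
            C (q ^ m) * (C (q ^ mj (r' :: w')) * valw (fun i => (X i : Lam)) (r :: r' :: w')))
          = (C ((1 - q ^ m)⁻¹) * (1 - C (q ^ m))) *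
            (C (q ^ mj (r' :: w')) * valw (fun i => (X i : Lam)) (r :: r' :: w')) := by ring
        _ = _ := by rw [h1, one_mul]
  have hB : Bn (m + 1) = sw m (fun w : List (Fin (m + 1)) => ∑ r : Fin (m + 1),
      if w.head? = none ∨ ∃ r', w.head? = some r' ∧ r' < r then
      C (q ^ mj w) * valw (fun i => (X i : Lam)) (r :: w) else 0) := by
    unfold Bn
    rw [Nat.add_sub_cancel, e2, e1, ← sw_sub, ← sw_mul]
    apply sw_congr
    intro w hw
    obtain ⟨r', w', rfl⟩ : ∃ r' w', w = r' :: w' := by
      cases w with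
      | nil => simp at hw; omega
      | cons r' w' => exact ⟨r', w', rfl⟩
    rw [← Finset.sum_sub_distrib, Finset.mul_sum]
    refine Finset.sum_congr rfl fun r _ => ?_
    rw [mj_cons, hw]
    by_cases h : r' < r
    · rw [if_pos h, if_pos (Or.inr ⟨r', rfl, h⟩), pow_add, C_mul]
      have h1 : C ((1 - q ^ m)⁻¹) * (1 - C (q ^ m)) = (1 : Lam) := by
        rw [← C_1, ← C_sub, ← C_mul, inv_mul_cancel₀ hq]
      calc C ((1 - q ^ m)⁻¹) * (C (q ^ mj (r' :: w')) * valw (fun i => (X i : Lam)) (r :: r' :: w') -
            C (q ^ mj (r' :: w')) * C (q ^ m) * valw (fun i => (X i : Lam)) (r :: r' :: w'))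
          = (C ((1 - q ^ m)⁻¹) * (1 - C (q ^ m))) *
            (C (q ^ mj (r' :: w')) * valw (fun i => (X i : Lam)) (r :: r' :: w')) := by ring
        _ = _ := by rw [h1, one_mul]
    · rw [if_neg h, if_neg (by simpa using h), add_zero, sub_self, mul_zero]
  constructor
  · rw [hA]
    apply sw_mem
    intro w hw
    apply AddSubmonoid.sum_mem
    intro r _
    split_ifs
    · exact zero_mem _
    · exact val_mem hD (r :: w) (by rw [List.length_cons, hw]) _
  · rw [hB]
    apply sw_mem
    intro w hw
    apply AddSubmonoid.sum_mem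
    intro r _
    split_ifs
    · exact val_mem hD (r :: w) (by rw [List.length_cons, hw]) _
    · exact zero_mem _

end Pool.Agent.NEK
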