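import Pool.Agent.NEK.Basic2

/-!
# Partitions as a finite set, monomials, plethysm on coefficients (everything here is proved)
-/

set_option autoImplicit false

namespace Pool.Agent.NEK

open MvPolynomial Finset

/-- The finite set of the partitions of `n` (as weakly decreasing lists). -/
noncomputable def PS (n : ℕ) : Finset (List ℕ) :=
  (Finset.univ : Finset n.Partition).image fun p => p.parts.sort (· ≥ ·)

theorem mem_PS {n : ℕ} {l : List ℕ} : l ∈ PS n ↔ IsPart n l := by
  rw [PS, Finset.mem_image]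
  constructor
  · rintro ⟨p, -, rfl⟩
    refine ⟨Multiset.pairwise_sort _ _, ?_, ?_⟩
    · intro a ha
      rw [Multiset.mem_sort] at ha
      exact p.parts_pos ha
    · rw [← Multiset.sum_coe, Multiset.sort_eq, p.parts_sum]
  · rintro ⟨h1, h2, h3⟩
    refine ⟨⟨(l : Multiset ℕ), fun {i} hi => h2 i (Multiset.mem_coe.1 hi), by
      rw [Multiset.sum_coe, h3]⟩, mem_univ _, ?_⟩
    change ((l : Multiset ℕ).sort (· ≥ ·)) = l
    rw [Multiset.coe_sort]
    have h4 : (l.mergeSort (fun a b => decide (a ≥ b))).Perm l := List.mergeSort_perm _ _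
    have h5 : (l.mergeSort (fun a b => decide (a ≥ b))).Pairwise (· ≥ ·) := by
      have := Multiset.pairwise_sort (l : Multiset ℕ) (· ≥ ·)
      rwa [Multiset.coe_sort] at this
    exact h4.eq_of_pairwise' h5 h1

/-- the exponent of the monomial `p_l = ∏_{a ∈ l} p_a` (`p_a` is the variable `X (a-1)`) -/
noncomputable def mon (l : List ℕ) : ℕ →₀ ℕ := (l.map fun a => Finsupp.single (a - 1) 1).sum

/-- the weights: `p_{i+1}` has degree `i+1` -/
def wt (i : ℕ) : ℕ := i + 1

/-- the plethysm `f ↦ f[X·A]` over any field -/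
noncomputable def plG {L : Type} [Field L] (a : ℕ → L) : MvPolynomial ℕ L →ₐ[L] MvPolynomial ℕ L :=
  aeval fun i => C (a i) * X i

theorem plX_eq (a : ℕ → K) (F : Lam) : plX a F = plG a F := rfl

theorem coeff_plG {L : Type} [Field L] (a : ℕ → L) (F : MvPolynomial ℕ L) (d : ℕ →₀ ℕ) :
    coeff d (plG a F) = coeff d F * d.prod fun i e => a i ^ e := by
  classical
  have h1 : ∀ (e : ℕ →₀ ℕ) (c : L), plG a (monomial e c) = monomial e (c * e.prod fun i k => a i ^ k) := by
    intro e c
    rw [plG, aeval_monomial, algebraMap_eq, monomial_eq, C_mul, mul_assoc]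
    congr 1
    rw [Finsupp.prod, Finsupp.prod, Finsupp.prod, map_prod, ← Finset.prod_mul_distrib]
    refine Finset.prod_congr rfl fun i _ => ?_
    rw [mul_pow, map_pow]
  induction F using MvPolynomial.induction_on' with
  | monomial e c =>
    rw [h1, coeff_monomial, coeff_monomial]
    split_ifs with h
    · rw [h]
    · rw [zero_mul]
  | add p r hp hr => rw [map_add, coeff_add, coeff_add, hp, hr, add_mul]

theorem plG_one {L : Type} [Field L] (F : MvPolynomial ℕ L) : plG (fun _ => (1 : L)) F = F := by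
  ext d
  rw [coeff_plG]
  simp

theorem plG_plG {L : Type} [Field L] (a b : ℕ → L) (F : MvPolynomial ℕ L) :
    plG a (plG b F) = plG (fun i => a i * b i) F := by
  ext d
  rw [coeff_plG, coeff_plG, coeff_plG, mul_assoc]
  congr 1
  rw [Finsupp.prod, Finsupp.prod, Finsupp.prod, ← Finset.prod_mul_distrib]
  refine Finset.prod_congr rfl fun i _ => ?_
  rw [mul_pow, mul_comm]

/-- `h_a[X b]`: the complete functions of the power sums `b_i p_{i+1}`. -/
noncomputable def hb {L : Type} [Field L] [Algebra ℚ L] (b : ℕ → L) (a : ℕ) : MvPolynomial ℕ L :=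
  hN (fun i => C (b i) * X i) a

/-- `∏_{a ∈ l} h_a[X b]` -/
noncomputable def hbp {L : Type} [Field L] [Algebra ℚ L] (b : ℕ → L) (l : List ℕ) :
    MvPolynomial ℕ L := (l.map (hb b)).prod

/-- the exponent `(ρ_0, ρ_1, …)` -/
noncomputable def expo (r : List ℕ) : Fin r.length →₀ ℕ :=
  Finsupp.equivFunOnFinite.symm fun j => r.get j

@[simp] theorem expo_apply (r : List ℕ) (j : Fin r.length) : expo r j = r.get j := rfl

/-- power sum `p_{i+1}(Y_1, …, Y_ℓ)` over any commutative ring -/
noncomputable def psY (R : Type) [CommRing R] (N : ℕ) (i : ℕ) : MvPolynomial (Fin N) R :=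
  ∑ j : Fin N, X j ^ (i + 1)

/-- `∏_{i<a} (1 - t^{i+1})` -/
noncomputable def tf (a : ℕ) : K1 := ∏ i ∈ range a, (1 - t1 ^ (i + 1))

/-- `b_i = 1/(1-t^{i+1})` -/
noncomputable def bt (i : ℕ) : K1 := (1 - t1 ^ (i + 1))⁻¹

/-- `η_a = h_a[X/(1-t)]` -/
noncomputable def eta (a : ℕ) : Lam1 := hb bt a

/-- `∏_{a ∈ l} (t;t)_a h_a[X/(1-t)]`; for `l = μ'` this is the Macdonald polynomial `H_μ` at `q = 1`. -/
noncomputable def Hb (l : List ℕ) : Lam1 := (l.map fun a => C (tf a) * eta a).prod

/-- `∑_a (-u)^a h_a` as a power series in `u` -/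
noncomputable def Hh {R : Type} [CommRing R] [Algebra ℚ R] (P : ℕ → R) : PowerSeries R :=
  PowerSeries.mk fun a => (-1) ^ a * hN P a

/-- the power sums of `Lam1` -/
noncomputable def X1 (i : ℕ) : Lam1 := X i

/-- the value of `E_{n,k}` at `q = 1`: the coefficient of `u^n` in `(1 - ∑_a (-u)^a h_a)^k` -/
noncomputable def Eb (n k : ℕ) : Lam1 := PowerSeries.coeff n ((1 - Hh X1) ^ k)

/-- `h_m(z_1, …, z_N)` -/
noncomputable def hz {L : Type} [CommRing L] [Algebra ℚ L] (N m : ℕ) : MvPolynomial (Fin N) L :=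
  hN (psY L N) m

/-- the alternant `det (z_i^{κ_j})` -/
noncomputable def alt {L : Type} [CommRing L] {N : ℕ} (kap : Fin N → ℕ) : MvPolynomial (Fin N) L :=
  Matrix.det (Matrix.of fun i j : Fin N => (X i : MvPolynomial (Fin N) L) ^ kap j)

/-- the exponent `λ + δ`, `δ = (N-1, …, 1, 0)`, `N` = number of parts of `λ` -/
noncomputable def ldel (l : List ℕ) : Fin l.length →₀ ℕ :=
  Finsupp.equivFunOnFinite.symm fun i => l.get i + (l.length - 1 - (i : ℕ))

@[simp] theorem ldel_apply (l : List ℕ) (i : Fin l.length) :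
    ldel l i = l.get i + (l.length - 1 - (i : ℕ)) := rfl

/-- the exponents `0, 1, …, a-1` for every `a ∈ l`: if `l = μ'`, the list of the rows of all cells
of `μ` -/
def rows (l : List ℕ) : List ℕ := l.flatMap fun a => List.range a

/-- the polynomials in `t, e_1, e_2, …` with nonnegative integer coefficients -/
noncomputable def EP : Subsemiring Lam1 :=
  Subsemiring.closure ({C t1} ∪ Set.range fun j => eN X1 j)

end Pool.Agent.NEK
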