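import Pool.Agent.NEK.Stmts

/-!
# Module EVS: evaluations of Schur functions
-/

set_option autoImplicit false

namespace Pool.Agent.NEK

open MvPolynomial Finset

/-- an evaluation of a Schur function is a determinant in the field -/
theorem evs_sch (hHM : Stmt_HM) (a : ℕ → K) (l : List ℕ) : ev a (sch l) = sN a l := by
  have h := (hHM Lam K (ev a : Lam →+* K) (fun i => (X i : Lam))).2.2 l
  have h2 : (fun k => (ev a : Lam →+* K) (X k : Lam)) = a := by
    funext k
    exact aeval_X a k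
  rw [h2] at h
  exact h

/-- all complete functions are `1` -/
theorem evs_one (hHS : Stmt_HS) {m : ℤ} (hm : 0 ≤ m) : hZ (fun _ => (1 : K)) m = 1 := by
  have h := (hHS K (fun _ => 0) 1 m.toNat).2.1
  simp only [one_pow] at h
  rw [hZ, if_pos hm, h]

theorem t_EVS : Stmt_HM → Stmt_HS → Stmt_HU → Stmt_EVS := by
  intro hHM hHS _
  refine ⟨?_, ?_, ?_⟩
  · intro n l hl hn hne
    rw [evs_sch hHM]
    obtain ⟨hp, hpos, hsum⟩ := hl
    match l, hp, hpos, hsum, hne with
    | [], _, _, hsum, _ =>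
      simp only [List.sum_nil] at hsum
      omega
    | [a], _, _, hsum, hne =>
      simp only [List.sum_cons, List.sum_nil, add_zero] at hsum
      exact absurd (by rw [hsum]) hne
    | a :: b :: l', _, hpos, _, _ =>
      have hb : 0 < b := hpos b (by simp)
      refine Matrix.det_zero_of_row_eq (i := (⟨0, by simp⟩ : Fin (a :: b :: l').length))
        (j := ⟨1, by simp⟩) (by simp) ?_
      funext j
      simp only [Matrix.of_apply]
      rw [evs_one hHS, evs_one hHS]
      · show (0 : ℤ) ≤ ((b : ℕ) : ℤ) - ((1 : ℕ) : ℤ) + ((j : ℕ) : ℤ)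
        omega
      · show (0 : ℤ) ≤ ((a : ℕ) : ℤ) - ((0 : ℕ) : ℤ) + ((j : ℕ) : ℤ)
        omega
  · intro n
    rw [evs_sch hHM, sN]
    refine (Matrix.det_fin_one _).trans ?_
    simp only [Matrix.of_apply]
    apply evs_one hHS
    show (0 : ℤ) ≤ ((n : ℕ) : ℤ) - ((0 : ℕ) : ℤ) + ((0 : ℕ) : ℤ)
    omega
  · rintro l a l' rfl ha
    rw [evs_sch hHM, sN]
    refine Matrix.det_eq_zero_of_row_eq_zero (⟨0, by simp⟩ : Fin (a :: l').length) fun j => ?_
    simp only [Matrix.of_apply]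
    show hZ (fun i => (-1 : K) ^ i) (((a : ℕ) : ℤ) - ((0 : ℕ) : ℤ) + ((j : ℕ) : ℤ)) = 0
    have hm : (0 : ℤ) ≤ ((a : ℕ) : ℤ) - ((0 : ℕ) : ℤ) + ((j : ℕ) : ℤ) := by omega
    rw [hZ, if_pos hm, (hHS K (fun _ => 0) 1 _).2.2.2, if_neg]
    omega

end Pool.Agent.NEK
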