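import Pool.Agent.NEK.Stmts

/-!
# Module GPO: the eigenvalue polynomial
-/

set_option autoImplicit false

namespace Pool.Agent.NEK

open Finset

/-- polynomials over `K` with all coefficients in `NN`. -/
noncomputable def gpoS : Subsemiring (Polynomial K) where
  carrier := {p | ∀ i, p.coeff i ∈ NN}
  mul_mem' := by
    intro a b ha hb i
    rw [Polynomial.coeff_mul]
    exact NN.sum_mem fun x _ => NN.mul_mem (ha _) (hb _)
  one_mem' := by
    intro i
    rw [Polynomial.coeff_one]
    split_ifs
    · exact NN.one_mem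
    · exact NN.zero_mem
  add_mem' := by
    intro a b ha hb i
    rw [Polynomial.coeff_add]
    exact NN.add_mem (ha _) (hb _)
  zero_mem' := by
    intro i
    rw [Polynomial.coeff_zero]
    exact NN.zero_mem

/-- the list of the variables. -/
noncomputable def gpoL (n : ℕ) : List (Polynomial K) :=
  ((List.range (n - 1)).map fun j => Polynomial.C (q ^ j)) ++ [Polynomial.X]

theorem gpo_mem (n : ℕ) : ∀ x ∈ gpoL n, x ∈ gpoS := by
  intro x hx
  unfold gpoL at hx
  rw [List.mem_append] at hx
  rcases hx with hx | hx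
  · rw [List.mem_map] at hx
    obtain ⟨j, _, rfl⟩ := hx
    intro i
    rw [Polynomial.coeff_C]
    split_ifs
    · exact NN.pow_mem (Subsemiring.subset_closure (by simp)) j
    · exact NN.zero_mem
  · rw [List.mem_singleton] at hx
    subst hx
    intro i
    rw [Polynomial.coeff_X]
    split_ifs
    · exact NN.one_mem
    · exact NN.zero_mem

theorem gpo_sum (n k : ℕ) :
    ((gpoL n).map fun x => x ^ (k + 1)).sum =
      ∑ j ∈ range (n - 1), (Polynomial.C (q ^ j)) ^ (k + 1) + Polynomial.X ^ (k + 1) := by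
  unfold gpoL
  rw [List.map_append, List.sum_append, List.map_map]
  simp only [List.map_cons, List.map_nil, List.sum_cons, List.sum_nil, add_zero]
  congr 1

theorem gpo_eval (n k : ℕ) (a : K) :
    Polynomial.evalRingHom a (((gpoL n).map fun x => x ^ (k + 1)).sum) =
      ∑ j ∈ range (n - 1), (q ^ j) ^ (k + 1) + a ^ (k + 1) := by
  rw [gpo_sum, map_add, map_sum]
  simp

theorem t_GPO : Stmt_HM → Stmt_JTP → Stmt_GPO := by
  intro hHM hJTP n hn m lam hlam
  have hev : ∀ b : ℕ → K, ev b (sch lam) = sN b lam := by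
    intro b
    have h := (hHM Lam K (ev b).toRingHom (fun i => (MvPolynomial.X i : Lam))).2.2 lam
    have h2 : (fun k => (ev b).toRingHom (MvPolynomial.X k : Lam)) = b := by
      funext k
      change (MvPolynomial.aeval b) (MvPolynomial.X k : Lam) = b k
      rw [MvPolynomial.aeval_X]
    rw [h2] at h
    exact h
  refine ⟨sN (fun k => ((gpoL n).map fun x => x ^ (k + 1)).sum) lam, ?_, ?_, ?_⟩
  · exact hJTP (Polynomial K) gpoS (gpoL n) (gpo_mem n) lam hlam.1
  · rw [hev]
    have h := (hHM (Polynomial K) K (Polynomial.evalRingHom t)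
      (fun k => ((gpoL n).map fun x => x ^ (k + 1)).sum)).2.2 lam
    rw [Polynomial.coe_evalRingHom] at h
    rw [h]
    congr 1
    funext k
    have h3 := gpo_eval n k t
    rw [Polynomial.coe_evalRingHom] at h3
    rw [h3]
    change _ = ∑ i : Fin 2, ∑ j ∈ range (([n - 1, 1] : List ℕ).get i), (t ^ (i : ℕ) * q ^ j) ^ (k + 1)
    rw [Fin.sum_univ_two]
    simp
  · rw [hev]
    have h := (hHM (Polynomial K) K (Polynomial.evalRingHom (q ^ (n - 1)))
      (fun k => ((gpoL n).map fun x => x ^ (k + 1)).sum)).2.2 lam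
    rw [Polynomial.coe_evalRingHom] at h
    rw [h]
    congr 1
    funext k
    have h3 := gpo_eval n k (q ^ (n - 1))
    rw [Polynomial.coe_evalRingHom] at h3
    rw [h3]
    change _ = ∑ i : Fin 1, ∑ j ∈ range (([n] : List ℕ).get i), (t ^ (i : ℕ) * q ^ j) ^ (k + 1)
    rw [Fin.sum_univ_one]
    obtain ⟨p, rfl⟩ : ∃ p, n = p + 1 := ⟨n - 1, by omega⟩
    simp [Finset.sum_range_succ]

end Pool.Agent.NEK
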