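import Pool.Agent.NEK.Stmts

/-!
# PAD: zero parts can be dropped
-/

set_option autoImplicit false

namespace Pool.Agent.NEK

open MvPolynomial Finset

namespace PAD

variable {R : Type} [CommRing R] [Algebra ℚ R]

theorem hZ_neg (P : ℕ → R) {m : ℤ} (h : m < 0) : hZ P m = 0 := by
  rw [hZ, if_neg (not_le.2 h)]

theorem hZ_zero (P : ℕ → R) : hZ P 0 = 1 := by
  rw [hZ, if_pos le_rfl]
  simp [hN]

theorem SD_ofFn (P : ℕ → R) {N : ℕ} (lam : Fin N → ℕ) : SD P lam = sN P (List.ofFn lam) := by
  unfold SD sN
  have h : (List.ofFn lam).length = N := List.length_ofFn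
  rw [← Matrix.det_submatrix_equiv_self (finCongr h)]
  congr 1
  ext i j
  simp only [Matrix.submatrix_apply, Matrix.of_apply, List.get_eq_getElem, List.getElem_ofFn,
    finCongr_apply, Fin.val_cast]
  rfl

theorem SD_last (P : ℕ → R) {N : ℕ} (lam : Fin (N + 1) → ℕ) (h : lam (Fin.last N) = 0) :
    SD P lam = SD P (fun i : Fin N => lam i.castSucc) := by
  unfold SD
  rw [Matrix.det_succ_row _ (Fin.last N), Finset.sum_eq_single (Fin.last N)]
  · have h1 : (-1 : R) ^ (((Fin.last N : Fin (N + 1)) : ℕ) + ((Fin.last N : Fin (N + 1)) : ℕ)) = 1 :=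
      Even.neg_one_pow ⟨_, rfl⟩
    rw [h1, one_mul, Matrix.of_apply, h]
    have h2 : ((0 : ℕ) : ℤ) - ((Fin.last N : Fin (N + 1)) : ℤ) + ((Fin.last N : Fin (N + 1)) : ℤ) = 0 := by
      simp
    rw [h2, hZ_zero, one_mul]
    congr 1
    ext i j
    simp [Matrix.submatrix_apply, Matrix.of_apply, Fin.succAbove_last]
  · intro j _ hj
    rw [Matrix.of_apply, h, hZ_neg]
    · simp
    · have h3 : (j : ℕ) < N := by
        rcases Nat.lt_or_ge j.val N with h4 | h4
        · exact h4
        · exact absurd (Fin.ext (by simp; omega)) hj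
      simp only [Fin.val_last, Nat.cast_zero]
      omega
  · intro h1
    exact absurd (Finset.mem_univ _) h1

end PAD

theorem t_PAD : Stmt_PAD := by
  intro R _ _ P N
  induction N with
  | zero =>
    intro lam _
    rw [PAD.SD_ofFn]
    simp
  | succ N ih =>
    intro lam hlam
    rcases Nat.eq_zero_or_pos (lam (Fin.last N)) with h | h
    · rw [PAD.SD_last P lam h, ih _ (fun i j hij => hlam (by simpa using hij)), List.ofFn_succ']
      congr 1
      rw [List.concat_eq_append, List.filter_append, h]
      simp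
    · have h1 : (List.ofFn lam).filter (fun a => decide (0 < a)) = List.ofFn lam := by
        rw [List.filter_eq_self]
        intro a ha
        obtain ⟨i, rfl⟩ := (List.mem_ofFn' _ _).1 ha
        have h2 := hlam (Fin.le_last i)
        simp only [decide_eq_true_eq]
        omega
      rw [h1, PAD.SD_ofFn]

end Pool.Agent.NEK
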