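import Pool.Agent.NEK.Stmts

/-!
# Pieri's rule in the strip form
-/

set_option autoImplicit false

namespace Pool.Agent.NEK

open Finset

namespace PIE

variable {R : Type} [CommRing R]

/-- the series `∑ h (k + r) X ^ r` -/
noncomputable def u (h : ℤ → R) (k : ℤ) : PowerSeries R := PowerSeries.mk fun r => h (k + r)

theorem u_one (h : ℤ → R) (k : ℤ) :
    u h k = PowerSeries.C (h k) + PowerSeries.X * u h (k + 1) := by
  ext n
  cases n with
  | zero => simp [u]
  | succ n =>
    rw [map_add, PowerSeries.coeff_succ_X_mul, u, u, PowerSeries.coeff_mk, PowerSeries.coeff_mk,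
      PowerSeries.coeff_C, if_neg (Nat.succ_ne_zero n), zero_add]
    congr 1
    push_cast
    ring

theorem u_split (h : ℤ → R) (k : ℤ) (d : ℕ) :
    u h k = ∑ r ∈ range d, PowerSeries.X ^ r * PowerSeries.C (h (k + r)) +
      PowerSeries.X ^ d * u h (k + d) := by
  induction d with
  | zero => simp
  | succ d ih =>
    rw [ih, sum_range_succ, u_one h (k + d)]
    have e : k + ((d + 1 : ℕ) : ℤ) = k + d + 1 := by push_cast; ring
    rw [e, pow_succ]
    ring

theorem last_row {S : Type} [CommRing S] {N : ℕ} (A : Matrix (Fin (N + 1)) (Fin (N + 1)) S)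
    (hA : ∀ j : Fin N, A (Fin.last N) j.castSucc = 0) :
    A.det = A (Fin.last N) (Fin.last N) * (A.submatrix Fin.castSucc Fin.castSucc).det := by
  rw [Matrix.det_succ_row A (Fin.last N), Fin.sum_univ_castSucc]
  have h1 : ∀ j : Fin N, (-1 : S) ^ ((Fin.last N : ℕ) + (j.castSucc : ℕ)) *
      A (Fin.last N) j.castSucc *
      (A.submatrix (Fin.last N).succAbove j.castSucc.succAbove).det = 0 := by
    intro j
    rw [hA, mul_zero, zero_mul]
  rw [sum_eq_zero fun j _ => h1 j, zero_add, Even.neg_one_pow ⟨_, rfl⟩, one_mul]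
  have h2 : (Fin.last N).succAbove = Fin.castSucc := by
    ext j
    rw [Fin.succAbove_last]
  rw [h2]

/-- first evaluation of the determinant -/
theorem first (h : ℤ → R) (h0 : h 0 = 1) (hneg : ∀ z < 0, h z = 0) {N : ℕ}
    (lam : Fin (N + 1) → ℕ) (hl : lam (Fin.last N) = 0) :
    (Matrix.of fun i j : Fin (N + 1) => u h ((lam i : ℤ) - (i : ℤ) + (j : ℤ))).det =
      u h 0 * PowerSeries.C
        (Matrix.of fun i j : Fin (N + 1) => h ((lam i : ℤ) - (i : ℤ) + (j : ℤ))).det := by
  have key : (Matrix.of fun i j : Fin (N + 1) => u h ((lam i : ℤ) - (i : ℤ) + (j : ℤ))).det =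
      (Matrix.of fun i j : Fin (N + 1) => if j = Fin.last N then
        u h ((lam i : ℤ) - (i : ℤ) + (j : ℤ)) else
        PowerSeries.C (h ((lam i : ℤ) - (i : ℤ) + (j : ℤ)))).det := by
    rw [← Matrix.det_submatrix_equiv_self Fin.revPerm, ← Matrix.det_submatrix_equiv_self Fin.revPerm
      (Matrix.of fun i j : Fin (N + 1) => if j = Fin.last N then
        u h ((lam i : ℤ) - (i : ℤ) + (j : ℤ)) else
        PowerSeries.C (h ((lam i : ℤ) - (i : ℤ) + (j : ℤ))))]
    refine Matrix.det_eq_of_forall_col_eq_smul_add_pred (fun _ => PowerSeries.X) ?_ ?_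
    · intro i
      simp only [Matrix.submatrix_apply, Fin.revPerm_apply, Fin.rev_zero, Matrix.of_apply,
        if_true]
    · intro i j
      have hne : (Fin.rev j).castSucc ≠ Fin.last N := (Fin.castSucc_lt_last _).ne
      simp only [Matrix.submatrix_apply, Fin.revPerm_apply, Fin.rev_succ, Fin.rev_castSucc,
        Matrix.of_apply, if_neg hne]
      rw [u_one]
      congr 2
      simp only [Fin.val_castSucc, Fin.val_succ]
      push_cast
      rw [← add_assoc]
  rw [key, last_row, last_row (Matrix.of fun i j : Fin (N + 1) =>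
    h ((lam i : ℤ) - (i : ℤ) + (j : ℤ)))]
  · have e : ((lam (Fin.last N) : ℤ) - ((Fin.last N : Fin (N + 1)) : ℤ) +
        ((Fin.last N : Fin (N + 1)) : ℤ)) = 0 := by
      rw [hl]; push_cast; ring
    rw [Matrix.of_apply, if_pos rfl, Matrix.of_apply, e, h0, one_mul, RingHom.map_det]
    congr 2
    ext i j : 2
    have hne : (j : Fin N).castSucc ≠ Fin.last N := (Fin.castSucc_lt_last _).ne
    simp only [Matrix.submatrix_apply, Matrix.of_apply, if_neg hne, RingHom.mapMatrix_apply,
      Matrix.map_apply]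
  · intro j
    rw [Matrix.of_apply]
    apply hneg
    rw [hl, Fin.val_last, Fin.val_castSucc]
    have := j.2
    push_cast
    omega
  · intro j
    have hne : (j : Fin N).castSucc ≠ Fin.last N := (Fin.castSucc_lt_last _).ne
    rw [Matrix.of_apply, if_neg hne, hneg, map_zero]
    rw [hl, Fin.val_last, Fin.val_castSucc]
    have := j.2
    push_cast
    omega

/-- expansion of a determinant whose rows are finite sums -/
theorem expand (h : ℤ → R) {N : ℕ} (kap : Fin (N + 1) → ℤ) (D : Fin (N + 1) → ℕ) :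
    (Matrix.of fun i j : Fin (N + 1) => ∑ r ∈ range (D i),
      (PowerSeries.X : PowerSeries R) ^ r * PowerSeries.C (h (kap i + j + r))).det =
      ∑ r ∈ Fintype.piFinset (fun i => range (D i)), PowerSeries.X ^ (∑ i, r i) *
        PowerSeries.C (Matrix.of fun i j : Fin (N + 1) => h (kap i + j + r i)).det := by
  have e1 : (Matrix.of fun i j : Fin (N + 1) => ∑ r ∈ range (D i),
      (PowerSeries.X : PowerSeries R) ^ r * PowerSeries.C (h (kap i + j + r))) =
      fun i => ∑ r ∈ range (D i), ((PowerSeries.X : PowerSeries R) ^ r •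
        fun j : Fin (N + 1) => PowerSeries.C (h (kap i + j + r))) := by
    funext i j
    rw [Finset.sum_apply, Matrix.of_apply]
    rfl
  have e2 := (Matrix.detRowAlternating (R := PowerSeries R)
    (n := Fin (N + 1))).toMultilinearMap.map_sum_finset
    (fun i (r : ℕ) => (PowerSeries.X : PowerSeries R) ^ r •
        fun j : Fin (N + 1) => PowerSeries.C (h (kap i + j + r))) (fun i => range (D i))
  rw [e1]
  refine e2.trans (sum_congr rfl fun r _ => ?_)
  rw [MultilinearMap.map_smul_univ, prod_pow_eq_pow_sum, smul_eq_mul]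
  congr 1
  rw [RingHom.map_det]
  rfl

/-- the upper bounds of the exponents -/
def bd {N : ℕ} (lam : Fin (N + 1) → ℕ) (m : ℕ) : Fin (N + 1) → ℕ :=
  Fin.cons (m + 1) fun i : Fin N => lam i.castSucc - lam i.succ + 1

/-- second evaluation of the determinant, first step -/
theorem second1 (h : ℤ → R) {N : ℕ} (lam : Fin (N + 1) → ℕ) (ha : Antitone lam) (m : ℕ) :
    ∃ Q : PowerSeries R,
      (Matrix.of fun i j : Fin (N + 1) => u h ((lam i : ℤ) - (i : ℤ) + (j : ℤ))).det =
      (Matrix.of fun i j : Fin (N + 1) => ∑ r ∈ range (bd lam m i),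
      (PowerSeries.X : PowerSeries R) ^ r *
        PowerSeries.C (h ((lam i : ℤ) - (i : ℤ) + j + r))).det + PowerSeries.X ^ (m + 1) * Q := by
  set P : Matrix (Fin (N + 1)) (Fin (N + 1)) (PowerSeries R) :=
    Matrix.of fun i j : Fin (N + 1) => ∑ r ∈ range (bd lam m i),
      (PowerSeries.X : PowerSeries R) ^ r *
        PowerSeries.C (h ((lam i : ℤ) - (i : ℤ) + j + r)) with hP
  set v : Fin (N + 1) → PowerSeries R := fun j =>
    u h ((lam 0 : ℤ) - ((0 : Fin (N + 1)) : ℤ) + (j : ℤ) + ((m + 1 : ℕ) : ℤ)) with hv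
  refine ⟨(P.updateRow 0 v).det, ?_⟩
  have e1 : (Matrix.of fun i j : Fin (N + 1) => u h ((lam i : ℤ) - (i : ℤ) + (j : ℤ))).det =
      (P.updateRow 0 (P 0 + (PowerSeries.X : PowerSeries R) ^ (m + 1) • v)).det := by
    refine Matrix.det_eq_of_forall_row_eq_smul_add_pred
      (fun i => PowerSeries.X ^ (bd lam m i.succ)) ?_ ?_
    · intro j
      rw [Matrix.updateRow_self, Matrix.of_apply, Pi.add_apply, Pi.smul_apply, smul_eq_mul, hv, hP,
        Matrix.of_apply, u_split h _ (m + 1)]
      rfl
    · intro i j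
      rw [Matrix.updateRow_ne (Fin.succ_ne_zero i), hP, Matrix.of_apply, Matrix.of_apply,
        Matrix.of_apply, u_split h _ (bd lam m i.succ)]
      congr 3
      have h1 : lam i.succ ≤ lam i.castSucc := ha (Fin.castSucc_lt_succ).le
      simp only [bd, Fin.cons_succ, Fin.val_succ, Fin.val_castSucc]
      push_cast [Nat.cast_sub h1]
      ring
  rw [e1, Matrix.det_updateRow_add, Matrix.det_updateRow_smul, Matrix.updateRow_eq_self]

/-- second evaluation of the determinant -/
theorem second (h : ℤ → R) {N : ℕ} (lam : Fin (N + 1) → ℕ) (ha : Antitone lam) (m : ℕ) :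
    PowerSeries.coeff m
      (Matrix.of fun i j : Fin (N + 1) => u h ((lam i : ℤ) - (i : ℤ) + (j : ℤ))).det =
      ∑ r ∈ (Fintype.piFinset fun _ : Fin (N + 1) => range (m + 1)).filter
        (fun r => ∑ i, r i = m ∧ ∀ i : Fin N, lam i.succ + r i.succ ≤ lam i.castSucc),
        (Matrix.of fun i j : Fin (N + 1) =>
          h (((lam i + r i : ℕ) : ℤ) - (i : ℤ) + (j : ℤ))).det := by
  obtain ⟨Q, hQ⟩ := second1 h lam ha m
  rw [hQ, map_add, PowerSeries.coeff_X_pow_mul', if_neg (by omega), add_zero, expand, map_sum]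
  have e1 : ∀ r : Fin (N + 1) → ℕ, PowerSeries.coeff m ((PowerSeries.X : PowerSeries R) ^ (∑ i, r i) *
        PowerSeries.C (Matrix.of fun i j : Fin (N + 1) =>
          h ((lam i : ℤ) - (i : ℤ) + j + r i)).det) =
      if ∑ i, r i = m then (Matrix.of fun i j : Fin (N + 1) =>
          h (((lam i + r i : ℕ) : ℤ) - (i : ℤ) + (j : ℤ))).det else 0 := by
    intro r
    rw [PowerSeries.coeff_mul_C, PowerSeries.coeff_X_pow]
    have e3 : (Matrix.of fun i j : Fin (N + 1) => h ((lam i : ℤ) - (i : ℤ) + j + r i)) =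
        (Matrix.of fun i j : Fin (N + 1) => h (((lam i + r i : ℕ) : ℤ) - (i : ℤ) + (j : ℤ))) := by
      ext i j
      rw [Matrix.of_apply, Matrix.of_apply]
      congr 1
      push_cast
      ring
    rw [e3]
    by_cases hr : ∑ i, r i = m
    · rw [if_pos hr, if_pos hr.symm, one_mul]
    · rw [if_neg hr, if_neg (fun e => hr e.symm), zero_mul]
  rw [sum_congr rfl fun r _ => e1 r, ← sum_filter]
  refine sum_congr ?_ fun _ _ => rfl
  ext r
  simp only [mem_filter, Fintype.mem_piFinset, mem_range]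
  constructor
  · rintro ⟨h1, h2⟩
    have h3 : ∀ i, r i ≤ m := by
      intro i
      rw [← h2]
      exact single_le_sum (f := r) (fun _ _ => Nat.zero_le _) (mem_univ i)
    refine ⟨fun i => Nat.lt_succ_of_le (h3 i), h2, fun i => ?_⟩
    have h4 := h1 i.succ
    have h5 : lam i.succ ≤ lam i.castSucc := ha (Fin.castSucc_lt_succ).le
    simp only [bd, Fin.cons_succ] at h4
    omega
  · rintro ⟨h1, h2, h3⟩
    refine ⟨fun i => ?_, h2⟩
    refine Fin.cases ?_ (fun i => ?_) i
    · exact h1 0
    · have h4 := h3 i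
      simp only [bd, Fin.cons_succ]
      omega

end PIE

/-- Pieri's rule -/
theorem t_PIE : Stmt_PIE := by
  intro R _ _ P N lam ha hl m
  have h0 : hZ P 0 = 1 := by simp [hZ, hN]
  have hneg : ∀ z < 0, hZ P z = 0 := by
    intro z hz
    rw [hZ, if_neg (not_le.2 hz)]
  have h1 := PIE.first (hZ P) h0 hneg lam hl
  have h2 := PIE.second (hZ P) lam ha m
  rw [h1, PowerSeries.coeff_mul_C, PIE.u, PowerSeries.coeff_mk, zero_add] at h2
  have h3 : hZ P (m : ℤ) = hN P m := by
    rw [hZ, if_pos (Int.natCast_nonneg m), Int.toNat_natCast]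
  rw [h3] at h2
  exact h2

end Pool.Agent.NEK
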