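import Pool.Agent.NEK.Stmts

/-!
# Module PIW (MP_44957e_co): Pieri's rule in word form
-/

set_option autoImplicit false

namespace Pool.Agent.NEK

open MvPolynomial Finset

namespace PIWx

/-- the words of length `m` -/
def wl (N : ℕ) : ℕ → Finset (List (Fin N))
  | 0 => {[]}
  | m + 1 => ((univ : Finset (Fin N)) ×ˢ wl N m).map
      ⟨fun p => p.1 :: p.2, fun p p' h => by
        simp only [List.cons.injEq] at h
        exact Prod.ext h.1 h.2⟩

theorem sw_eq {M : Type} [AddCommMonoid M] {N : ℕ} (m : ℕ) (F : List (Fin N) → M) :
    sw m F = ∑ x ∈ wl N m, F x := by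
  induction m generalizing F with
  | zero => simp [sw, wl]
  | succ m ih =>
    simp only [sw, wl, Finset.sum_map, Function.Embedding.coeFn_mk]
    rw [Finset.sum_product]
    exact Finset.sum_congr rfl fun r _ => ih _

theorem mem_wl {N : ℕ} (m : ℕ) (x : List (Fin N)) : x ∈ wl N m ↔ x.length = m := by
  induction m generalizing x with
  | zero => simp [wl]
  | succ m ih =>
    simp only [wl, Finset.mem_map, Finset.mem_product, Finset.mem_univ, true_and,
      Function.Embedding.coeFn_mk, Prod.exists]
    constructor
    · rintro ⟨a, b, h1, rfl⟩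
      rw [ih] at h1
      simp [h1]
    · intro h
      cases x with
      | nil => simp at h
      | cons a b =>
        refine ⟨a, b, ?_, rfl⟩
        rw [ih]
        simpa using h

theorem cont_append {N : ℕ} (x w : List (Fin N)) (i : Fin N) :
    cont (x ++ w) i = cont x i + cont w i := by
  simp [cont, List.count_append]

theorem cont_cons {N : ℕ} (a : Fin N) (x : List (Fin N)) (i : Fin N) :
    cont (a :: x) i = cont x i + if a = i then 1 else 0 := by
  simp [cont, List.count_cons]

theorem sum_cont {N : ℕ} (x : List (Fin N)) : ∑ i, cont x i = x.length := by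
  induction x with
  | nil => simp [cont]
  | cons a x ih =>
    simp only [cont_cons, Finset.sum_add_distrib, ih]
    simp

theorem bal_anti {N : ℕ} (w : List (Fin N)) (h : Bal w) : Antitone (cont w) := by
  cases w with
  | nil =>
    intro i j _
    simp [cont]
  | cons a w => exact h.2

theorem cond_iff {N : ℕ} (w : List (Fin (N + 1))) (hw : Bal w) (x : List (Fin (N + 1)))
    (hx : x.Pairwise (· ≤ ·)) :
    Bal (x ++ w) ↔ ∀ i : Fin N, cont w i.succ + cont x i.succ ≤ cont w i.castSucc := by
  induction x with
  | nil =>
    have h1 := bal_anti w hw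
    simp only [List.nil_append]
    constructor
    · intro _ i
      have := h1 (Fin.castSucc_lt_succ (i := i)).le
      simpa [cont] using this
    · intro _
      exact hw
  | cons a x ih =>
    have hx' := (List.pairwise_cons.1 hx).2
    have hmin := (List.pairwise_cons.1 hx).1
    have e1 : Bal (a :: x ++ w) ↔ Bal (x ++ w) ∧ Antitone (cont (a :: x ++ w)) := Iff.rfl
    rw [e1, ih hx']
    constructor
    · rintro ⟨h1, h2⟩ i
      by_cases h3 : a = i.succ
      · have h4 := h2 (Fin.castSucc_lt_succ (i := i)).le
        rw [cont_append, cont_append] at h4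
        have h5 : cont (a :: x) i.castSucc = 0 := by
          unfold cont
          rw [List.count_eq_zero]
          intro h6
          have h7 : i.castSucc < a := by
            rw [h3]
            exact Fin.castSucc_lt_succ
          rcases List.mem_cons.1 h6 with h8 | h8
          · rw [h8] at h7
            exact lt_irrefl _ h7
          · exact absurd h7 (not_lt.2 (hmin _ h8))
        omega
      · rw [cont_cons]
        have := h1 i
        simp [h3, this]
    · intro h
      constructor
      · intro i
        have h1 := h i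
        rw [cont_cons] at h1
        omega
      · rw [Fin.antitone_iff_succ_le]
        intro i
        have h1 := h i
        rw [cont_append, cont_append]
        omega

/-- the word with given content -/
def wd {N : ℕ} (r : Fin N → ℕ) : List (Fin N) :=
  (List.finRange N).flatMap fun i => List.replicate (r i) i

theorem wd_cont {N : ℕ} (r : Fin N → ℕ) (i : Fin N) : cont (wd r) i = r i := by
  unfold cont wd
  rw [List.count_flatMap]
  have h1 : (List.map (List.count i ∘ fun i => List.replicate (r i) i) (List.finRange N)) =
      List.map (fun j => if j = i then r j else 0) (List.finRange N) := by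
    apply List.map_congr_left
    intro j _
    simp only [Function.comp, List.count_replicate]
    by_cases h : j = i <;> simp [h]
  rw [h1]
  have h2 := List.sum_ofFn (f := fun j : Fin N => if j = i then r j else 0)
  rw [List.ofFn_eq_map] at h2
  rw [h2]
  simp

theorem wd_sorted {N : ℕ} (r : Fin N → ℕ) : (wd r).Pairwise (· ≤ ·) := by
  unfold wd
  rw [List.pairwise_flatMap]
  constructor
  · intro i _
    rw [List.pairwise_replicate]
    simp
  · refine List.Pairwise.imp ?_ (List.pairwise_lt_finRange N)
    intro a b hab x hx y hy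
    rw [List.eq_of_mem_replicate hx, List.eq_of_mem_replicate hy]
    exact hab.le

theorem wd_length {N : ℕ} (r : Fin N → ℕ) : (wd r).length = ∑ i, r i := by
  rw [← sum_cont]
  exact Finset.sum_congr rfl fun i _ => wd_cont r i

theorem eq_of_cont {N : ℕ} {x y : List (Fin N)} (hx : x.Pairwise (· ≤ ·))
    (hy : y.Pairwise (· ≤ ·)) (h : cont x = cont y) : x = y := by
  have hp : x.Perm y := by
    rw [List.perm_iff_count]
    intro a
    exact congrFun h a
  exact hp.eq_of_pairwise (fun a b _ _ h1 h2 => le_antisymm h1 h2) hx hy

end PIWx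

open PIWx in
theorem t_PIW : Stmt_PIE → Stmt_PIW := by
  classical
  intro hPIE R _ _ P N m w hw hN
  rw [sw_eq]
  rcases Nat.eq_zero_or_pos m with rfl | hm
  · simp [wl, NEK.hN]
  obtain ⟨M, rfl⟩ : ∃ M, N = M + 1 := ⟨N - 1, by omega⟩
  have hanti := bal_anti w hw
  have hlast : cont w (Fin.last M) = 0 := by
    by_contra h
    have h1 : ∀ i, 1 ≤ cont w i := fun i => by
      have := hanti (Fin.le_last i)
      omega
    have h2 : ∑ _i : Fin (M + 1), 1 ≤ ∑ i, cont w i := Finset.sum_le_sum fun i _ => h1 i
    rw [sum_cont] at h2
    simp at h2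
    omega
  have h3 : valw P w = SD P (cont w) := by
    unfold valw
    rw [if_pos hw]
  rw [h3, hPIE R P M (cont w) hanti hlast m]
  have h4 : ∑ x ∈ wl (M + 1) m, (if x.Pairwise (· ≤ ·) then valw P (x ++ w) else 0) =
      ∑ x ∈ (wl (M + 1) m).filter (fun x => x.Pairwise (· ≤ ·) ∧ Bal (x ++ w)),
        SD P (cont (x ++ w)) := by
    rw [Finset.sum_filter]
    refine Finset.sum_congr rfl fun x _ => ?_
    unfold valw
    by_cases h5 : x.Pairwise (· ≤ ·) <;> by_cases h6 : Bal (x ++ w) <;> simp [h5, h6]
  rw [h4]
  symm
  refine Finset.sum_bij (fun x _ => cont x) ?_ ?_ ?_ ?_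
  · intro x hx
    rw [Finset.mem_filter, mem_wl] at hx
    obtain ⟨hx1, hx2, hx3⟩ := hx
    rw [Finset.mem_filter, Fintype.mem_piFinset]
    refine ⟨fun i => ?_, ?_, ?_⟩
    · rw [Finset.mem_range]
      have : cont x i ≤ x.length := List.count_le_length
      omega
    · rw [sum_cont, hx1]
    · exact (cond_iff w hw x hx2).1 hx3
  · intro x hx y hy hxy
    rw [Finset.mem_filter] at hx hy
    exact eq_of_cont hx.2.1 hy.2.1 hxy
  · intro r hr
    rw [Finset.mem_filter, Fintype.mem_piFinset] at hr
    have hc : cont (wd r) = r := funext (wd_cont r)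
    refine ⟨wd r, ?_, hc⟩
    rw [Finset.mem_filter, mem_wl]
    refine ⟨?_, wd_sorted r, ?_⟩
    · rw [wd_length, hr.2.1]
    · rw [cond_iff w hw _ (wd_sorted r), hc]
      exact hr.2.2
  · intro x hx
    congr 1
    funext i
    rw [cont_append]
    exact Nat.add_comm _ _

end Pool.Agent.NEK
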