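import Pool.Agent.NEK.Stmts

/-!
# Telescoping on the last run (module TEL)
-/

set_option autoImplicit false

namespace Pool.Agent.NEK

open MvPolynomial Finset

namespace TEL

theorem q_pow_ne_one (i : ℕ) : q ^ (i + 1) ≠ 1 := by
  intro h
  have h1 : algebraMap (MvPolynomial (Fin 2) ℚ) K ((X 0) ^ (i + 1)) =
      algebraMap (MvPolynomial (Fin 2) ℚ) K 1 := by
    rw [map_pow, map_one]; exact h
  have h2 := IsFractionRing.injective (MvPolynomial (Fin 2) ℚ) K h1
  have h3 := congrArg (MvPolynomial.eval fun _ : Fin 2 => (2 : ℚ)) h2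
  rw [map_pow, eval_X, map_one] at h3
  have h4 : (1 : ℚ) < 2 ^ (i + 1) := one_lt_pow₀ (by norm_num) (Nat.succ_ne_zero i)
  exact absurd h3 (ne_of_gt h4)

theorem qf_succ (n : ℕ) : qf (n + 1) = qf n * (1 - q ^ (n + 1)) := by
  rw [qf, qf, poch, poch, prod_range_succ, pow_succ']

theorem qf_ne_zero (n : ℕ) : qf n ≠ 0 := by
  induction n with
  | zero => rw [qf, poch, prod_range_zero]; exact one_ne_zero
  | succ n ih =>
    rw [qf_succ]
    exact mul_ne_zero ih (sub_ne_zero.2 (q_pow_ne_one n).symm)

theorem qf_zero : qf 0 = 1 := by rw [qf, poch, prod_range_zero]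

end TEL

open TEL

open Classical in
theorem t_TEL : Stmt_TEL := by
  intro N n w hn hw
  induction w generalizing n with
  | nil => simp at hw; omega
  | cons r v ih =>
    rcases v with _ | ⟨r', w'⟩
    · -- one letter
      have hn1 : n = 1 := by simpa using hw.symm
      subst hn1
      rw [Icc_self, sum_singleton]
      simp [qf_zero, mj]
    · -- `r :: r' :: w'`
      obtain ⟨m, rfl⟩ : ∃ m, n = m + 1 := ⟨n - 1, by omega⟩
      have hv : (r' :: w').length = m := by simpa using hw
      have hm1 : 1 ≤ m := by rw [← hv]; simp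
      have key := ih m hm1 hv
      have h1 : Icc 1 (m + 1) = insert 1 ((Icc 1 m).image (· + 1)) := by
        ext x
        simp only [mem_Icc, mem_insert, mem_image]
        constructor
        · rintro ⟨h1, h2⟩
          rcases Nat.lt_or_ge 1 x with h | h
          · right; exact ⟨x - 1, ⟨by omega, by omega⟩, by omega⟩
          · left; omega
        · rintro (rfl | ⟨a, ⟨h1, h2⟩, rfl⟩)
          · exact ⟨le_rfl, by omega⟩
          · exact ⟨by omega, by omega⟩
      have h2 : (1 : ℕ) ∉ (Icc 1 m).image (· + 1) := by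
        simp only [mem_image, mem_Icc, not_exists, not_and, and_imp]
        intro a h3 _ h4
        omega
      rw [h1, sum_insert h2, sum_image (fun a _ b _ h => Nat.succ_injective h)]
      have h3 : ∀ x ∈ Icc 1 m, (q ^ (m + 1 - (x + 1)) / qf (m + 1 - (x + 1))) *
          (if ((r :: r' :: w').take (x + 1)).Pairwise (· ≤ ·) then
            q ^ mj ((r :: r' :: w').drop (x + 1)) else 0) =
          if r ≤ r' then (q ^ (m - x) / qf (m - x)) *
            (if ((r' :: w').take x).Pairwise (· ≤ ·) then q ^ mj ((r' :: w').drop x) else 0)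
          else 0 := by
        intro x hx
        obtain ⟨hx1, hx2⟩ := mem_Icc.1 hx
        obtain ⟨z, rfl⟩ : ∃ z, x = z + 1 := ⟨x - 1, by omega⟩
        have e1 : m + 1 - (z + 1 + 1) = m - (z + 1) := by omega
        rw [e1, List.take_succ_cons, List.drop_succ_cons]
        have e2 : (r :: (r' :: w').take (z + 1)).Pairwise (· ≤ ·) ↔
            r ≤ r' ∧ ((r' :: w').take (z + 1)).Pairwise (· ≤ ·) := by
          rw [List.take_succ_cons, List.pairwise_cons, List.pairwise_cons]
          constructor
          · rintro ⟨h4, h5⟩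
            exact ⟨h4 r' List.mem_cons_self, h5⟩
          · rintro ⟨h4, h5, h6⟩
            refine ⟨fun a ha => ?_, h5, h6⟩
            rcases List.mem_cons.1 ha with rfl | ha
            · exact h4
            · exact h4.trans (h5 a ha)
        by_cases h4 : r ≤ r'
        · rw [if_pos h4]
          by_cases h5 : ((r' :: w').take (z + 1)).Pairwise (· ≤ ·)
          · rw [if_pos (e2.2 ⟨h4, h5⟩), if_pos h5]
          · rw [if_neg (fun h => h5 (e2.1 h).2), if_neg h5]
        · rw [if_neg h4, if_neg (fun h => h4 (e2.1 h).1), mul_zero]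
      rw [sum_congr rfl h3]
      have h4 : (if ((r :: r' :: w').take 1).Pairwise (· ≤ ·) then
          q ^ mj ((r :: r' :: w').drop 1) else 0) = q ^ mj (r' :: w') := by
        rw [if_pos]
        · rfl
        · simp
      rw [h4]
      have e3 : m + 1 - 1 = m := by omega
      rw [e3]
      obtain ⟨m', rfl⟩ : ∃ m', m = m' + 1 := ⟨m - 1, by omega⟩
      have hq := qf_ne_zero m'
      have hq1 : (1 : K) - q ^ (m' + 1) ≠ 0 := sub_ne_zero.2 (q_pow_ne_one m').symm
      have e4 : m' + 1 - 1 = m' := by omega
      by_cases h5 : r ≤ r'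
      · have h6 : ∀ x ∈ Icc 1 (m' + 1), (if r ≤ r' then (q ^ (m' + 1 - x) / qf (m' + 1 - x)) *
            (if ((r' :: w').take x).Pairwise (· ≤ ·) then q ^ mj ((r' :: w').drop x) else 0)
            else 0) = (q ^ (m' + 1 - x) / qf (m' + 1 - x)) *
            (if ((r' :: w').take x).Pairwise (· ≤ ·) then q ^ mj ((r' :: w').drop x) else 0) :=
          fun x _ => if_pos h5
        rw [sum_congr rfl h6, key, e4]
        have h7 : mj (r :: r' :: w') = mj (r' :: w') := by
          rw [mj, if_neg (not_lt.2 h5), add_zero]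
        rw [h7, qf_succ]
        field_simp
        ring
      · have h6 : ∀ x ∈ Icc 1 (m' + 1), (if r ≤ r' then (q ^ (m' + 1 - x) / qf (m' + 1 - x)) *
            (if ((r' :: w').take x).Pairwise (· ≤ ·) then q ^ mj ((r' :: w').drop x) else 0)
            else 0) = 0 := fun x _ => if_neg h5
        rw [sum_congr rfl h6, sum_const_zero, add_zero]
        have h7 : mj (r :: r' :: w') = mj (r' :: w') + (m' + 1) := by
          rw [mj, if_pos (not_le.1 h5), hv]
        rw [h7, div_mul_eq_mul_div, ← pow_add, add_comm (mj (r' :: w'))]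

end Pool.Agent.NEK
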