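import Pool.Agent.NEK.Stmts

/-!
# The combinatorial formula for `W_n` (module WNC)
-/

set_option autoImplicit false

namespace Pool.Agent.NEK

open MvPolynomial Finset

namespace WNC

theorem sw_congr {M : Type} [AddCommMonoid M] {N : ℕ} : ∀ (n : ℕ) (F G : List (Fin N) → M),
    (∀ w, w.length = n → F w = G w) → sw n F = sw n G
  | 0, _, _, h => h [] rfl
  | n + 1, _, _, h => Finset.sum_congr rfl fun r _ =>
      sw_congr n _ _ fun w hw => h (r :: w) (by rw [List.length_cons, hw])

theorem sw_sum {M : Type} [AddCommMonoid M] {N : ℕ} {ι : Type} (s : Finset ι) :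
    ∀ (n : ℕ) (F : ι → List (Fin N) → M),
    sw n (fun w => ∑ i ∈ s, F i w) = ∑ i ∈ s, sw n (F i)
  | 0, _ => rfl
  | n + 1, F => by
      change ∑ r : Fin N, sw n (fun w => ∑ i ∈ s, F i (r :: w)) =
        ∑ i ∈ s, ∑ r : Fin N, sw n (fun w => F i (r :: w))
      rw [Finset.sum_comm]
      exact Finset.sum_congr rfl fun r _ => sw_sum s n fun i w => F i (r :: w)

theorem sw_mul {R : Type} [CommRing R] {N : ℕ} (c : R) :
    ∀ (n : ℕ) (F : List (Fin N) → R), sw n (fun w => c * F w) = c * sw n F
  | 0, _ => rfl
  | n + 1, F => by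
      change ∑ r : Fin N, sw n (fun w => c * F (r :: w)) =
        c * ∑ r : Fin N, sw n (fun w => F (r :: w))
      rw [Finset.mul_sum]
      exact Finset.sum_congr rfl fun r _ => sw_mul c n fun w => F (r :: w)

theorem sw_append {M : Type} [AddCommMonoid M] {N : ℕ} (k : ℕ) :
    ∀ (m n : ℕ) (_ : n = m + k) (F : List (Fin N) → M),
    sw n F = sw m (fun x => sw k (fun w => F (x ++ w)))
  | 0, n, h, F => by
      have : n = k := by omega
      subst this
      rfl
  | m + 1, n, h, F => by
      obtain ⟨n', rfl⟩ : ∃ n', n = n' + 1 := ⟨m + k, by omega⟩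
      change ∑ r : Fin N, sw n' (fun w => F (r :: w)) =
        ∑ r : Fin N, sw m (fun x => sw k (fun w => F (r :: (x ++ w))))
      exact Finset.sum_congr rfl fun r _ => sw_append k m n' (by omega) fun w => F (r :: w)

theorem sw_comm {M : Type} [AddCommMonoid M] {N : ℕ} (k : ℕ) :
    ∀ (m : ℕ) (G : List (Fin N) → List (Fin N) → M),
    sw m (fun x => sw k (fun w => G x w)) = sw k (fun w => sw m (fun x => G x w))
  | 0, _ => rfl
  | m + 1, G => by
      change ∑ r : Fin N, sw m (fun x => sw k (fun w => G (r :: x) w)) =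
        sw k (fun w => ∑ r : Fin N, sw m (fun x => G (r :: x) w))
      rw [sw_sum]
      exact Finset.sum_congr rfl fun r _ => sw_comm k m fun x w => G (r :: x) w

theorem bal_of_append {N : ℕ} : ∀ (x w : List (Fin N)), Bal (x ++ w) → Bal w
  | [], _, h => h
  | _ :: x, w, h => bal_of_append x w h.1

theorem q_pow_ne (i : ℕ) : q ^ (i + 1) ≠ 1 := by
  intro h
  have h1 : algebraMap (MvPolynomial (Fin 2) ℚ) K ((X 0 : MvPolynomial (Fin 2) ℚ) ^ (i + 1)) =
      algebraMap (MvPolynomial (Fin 2) ℚ) K 1 := by
    rw [map_pow, map_one]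
    exact h
  have h2 := IsFractionRing.injective (MvPolynomial (Fin 2) ℚ) K h1
  have h3 := congrArg (MvPolynomial.eval (fun _ : Fin 2 => (0 : ℚ))) h2
  rw [map_pow, MvPolynomial.eval_X, map_one, zero_pow (Nat.succ_ne_zero i)] at h3
  exact zero_ne_one h3

theorem qf_ne (n : ℕ) : qf n ≠ 0 := by
  unfold qf poch
  rw [Finset.prod_ne_zero_iff]
  intro i _ h
  apply q_pow_ne i
  rw [pow_succ']
  exact (sub_eq_zero.mp h).symm

theorem qf_succ (n : ℕ) : qf (n + 1) = qf n * (1 - q ^ (n + 1)) := by
  unfold qf poch
  rw [Finset.prod_range_succ, pow_succ' q n]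

theorem SD_zero {R : Type} [CommRing R] [Algebra ℚ R] (P : ℕ → R) (N : ℕ) :
    SD P (cont ([] : List (Fin N))) = 1 := by
  unfold SD
  rw [Matrix.det_of_isUpperTriangular]
  · apply Finset.prod_eq_one
    intro i _
    have h0 : ((cont ([] : List (Fin N)) i : ℕ) : ℤ) - (i : ℤ) + (i : ℤ) = 0 := by
      simp [cont]
    change hZ P (((cont ([] : List (Fin N)) i : ℕ) : ℤ) - (i : ℤ) + (i : ℤ)) = 1
    rw [h0]
    unfold hZ
    rw [if_pos le_rfl, Int.toNat_zero, hN]
  · intro i j hij
    have hij' : (j : ℕ) < (i : ℕ) := hij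
    change hZ P (((cont ([] : List (Fin N)) i : ℕ) : ℤ) - (i : ℤ) + (j : ℤ)) = 0
    have h0 : cont ([] : List (Fin N)) i = 0 := by simp [cont]
    rw [h0]
    unfold hZ
    rw [if_neg]
    push_cast
    omega

theorem pieri (hP : Stmt_PIW) {N m : ℕ} (w : List (Fin N)) (h : w.length + m ≤ N) :
    hX m * valw (fun i => (X i : Lam)) w =
      sw m (fun x : List (Fin N) =>
        (if x.Pairwise (· ≤ ·) then valw (fun i => (X i : Lam)) (x ++ w) else 0)) := by
  by_cases hw : Bal w
  · have := hP Lam (fun i => (X i : Lam)) N m w hw h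
    exact this
  · have h0 : valw (fun i => (X i : Lam)) w = 0 := by
      unfold valw
      rw [if_neg hw]
    rw [h0, mul_zero]
    have h1 : sw m (fun x : List (Fin N) =>
        (if x.Pairwise (· ≤ ·) then valw (fun i => (X i : Lam)) (x ++ w) else 0)) =
        sw m (fun _ : List (Fin N) => (0 : Lam) * 0) := by
      apply sw_congr
      intro x _
      have h2 : valw (fun i => (X i : Lam)) (x ++ w) = 0 := by
        unfold valw
        rw [if_neg fun h => hw (bal_of_append x w h)]
      rw [h2, mul_zero, ite_self]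
    rw [h1, sw_mul, zero_mul]

end WNC

open WNC in
theorem t_WNC : Stmt_WNR → Stmt_PIW → Stmt_TEL → Stmt_WNC := by
  intro hW hP hT N n
  induction n using Nat.strong_induction_on with
  | _ n ih =>
    intro hn
    rcases Nat.eq_zero_or_pos n with rfl | hpos
    · change WN 0 = C (q ^ mj ([] : List (Fin N))) * valw (fun i => (X i : Lam)) []
      have hv : valw (fun i => (X i : Lam)) ([] : List (Fin N)) = 1 := by
        unfold valw
        rw [if_pos (show Bal ([] : List (Fin N)) from trivial)]
        exact SD_zero _ N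
      rw [hv]
      unfold WN wN qf poch
      rw [hN]
      simp [mj]
    · obtain ⟨n', rfl⟩ : ∃ n', n = n' + 1 := ⟨n - 1, by omega⟩
      have e1 : WN (n' + 1) = C (qf n') *
          ∑ m ∈ Icc 1 (n' + 1), C (q ^ (n' + 1 - m)) * hX m * wN (n' + 1 - m) := by
        rw [← hW (n' + 1) hpos]
        unfold WN
        rw [qf_succ, C_mul, mul_assoc]
      have e2 : ∀ m ∈ Icc 1 (n' + 1), C (qf n') * (C (q ^ (n' + 1 - m)) * hX m * wN (n' + 1 - m)) =
          sw (n' + 1) (fun v : List (Fin N) =>
            C (qf n' * ((q ^ (n' + 1 - m) / qf (n' + 1 - m)) *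
              (if (v.take m).Pairwise (· ≤ ·) then q ^ mj (v.drop m) else 0))) *
              valw (fun i => (X i : Lam)) v) := by
        intro m hm
        rw [Finset.mem_Icc] at hm
        have hw : wN (n' + 1 - m) = C ((qf (n' + 1 - m))⁻¹) * WN (n' + 1 - m) := by
          unfold WN
          rw [← mul_assoc, ← C_mul, inv_mul_cancel₀ (qf_ne _), C_1, one_mul]
        rw [hw, ih (n' + 1 - m) (by omega) (by omega)]
        have e3 : C (qf n') * (C (q ^ (n' + 1 - m)) * hX m * (C ((qf (n' + 1 - m))⁻¹) *
            sw (n' + 1 - m) (fun w : List (Fin N) =>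
              C (q ^ mj w) * valw (fun i => (X i : Lam)) w))) =
            C (qf n' * (q ^ (n' + 1 - m) / qf (n' + 1 - m))) *
            sw (n' + 1 - m) (fun w : List (Fin N) =>
              C (q ^ mj w) * (hX m * valw (fun i => (X i : Lam)) w)) := by
          have e4 : sw (n' + 1 - m) (fun w : List (Fin N) =>
              C (q ^ mj w) * (hX m * valw (fun i => (X i : Lam)) w)) =
              hX m * sw (n' + 1 - m) (fun w : List (Fin N) =>
              C (q ^ mj w) * valw (fun i => (X i : Lam)) w) := by
            rw [← sw_mul]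
            apply sw_congr
            intro w _
            ring
          rw [e4, div_eq_mul_inv, C_mul, C_mul]
          ring
        rw [e3]
        have e5 : sw (n' + 1 - m) (fun w : List (Fin N) =>
              C (q ^ mj w) * (hX m * valw (fun i => (X i : Lam)) w)) =
            sw (n' + 1 - m) (fun w : List (Fin N) => sw m (fun x : List (Fin N) =>
              C (q ^ mj w) *
                (if x.Pairwise (· ≤ ·) then valw (fun i => (X i : Lam)) (x ++ w) else 0))) := by
          apply sw_congr
          intro w hlw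
          rw [pieri hP w (by omega), ← sw_mul]
        rw [e5, ← sw_comm, ← sw_mul, sw_append (n' + 1 - m) m (n' + 1) (by omega)]
        apply sw_congr
        intro x hx
        rw [← sw_mul]
        apply sw_congr
        intro w _
        rw [List.take_left' hx, List.drop_left' hx]
        by_cases hxx : x.Pairwise (· ≤ ·)
        · rw [if_pos hxx, if_pos hxx, C_mul, C_mul, C_mul]
          ring
        · rw [if_neg hxx, if_neg hxx, mul_zero, mul_zero, mul_zero, mul_zero, C_0, zero_mul]
      rw [e1, Finset.mul_sum, Finset.sum_congr rfl e2, ← sw_sum]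
      apply sw_congr
      intro v hv
      rw [← Finset.sum_mul]
      congr 1
      rw [← map_sum C, ← Finset.mul_sum]
      have h5 := hT N (n' + 1) v hpos hv
      have h6 : ∑ m ∈ Icc 1 (n' + 1), q ^ (n' + 1 - m) / qf (n' + 1 - m) *
          (if (v.take m).Pairwise (· ≤ ·) then q ^ mj (v.drop m) else 0) = q ^ mj v / qf n' := by
        rw [Nat.add_sub_cancel] at h5
        exact h5
      rw [h6, mul_div_cancel₀ _ (qf_ne n')]

end Pool.Agent.NEK
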