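import Pool.Agent.NEK.Stmts

/-!
# Module WNR: the recursion of `w_n`
-/

set_option autoImplicit false

namespace Pool.Agent.NEK

open MvPolynomial Finset

namespace WNR

theorem q_pow_ne_one (n : ℕ) (hn : 1 ≤ n) : q ^ n ≠ 1 := by
  intro h
  have h1 : algebraMap (MvPolynomial (Fin 2) ℚ) K ((X 0) ^ n) =
      algebraMap (MvPolynomial (Fin 2) ℚ) K 1 := by
    rw [map_pow, map_one]
    exact h
  have h2 : ((X 0 : MvPolynomial (Fin 2) ℚ)) ^ n = 1 :=
    IsFractionRing.injective (MvPolynomial (Fin 2) ℚ) K h1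
  have h3 := congrArg (MvPolynomial.eval (fun _ => (0 : ℚ))) h2
  rw [map_pow, eval_X, map_one, zero_pow (by omega)] at h3
  exact zero_ne_one h3

theorem one_sub_ne (n : ℕ) (hn : 1 ≤ n) : (1 : K) - q ^ n ≠ 0 := fun h =>
  q_pow_ne_one n hn (sub_eq_zero.1 h).symm

/-- the shifted power sums -/
noncomputable def P (i : ℕ) : Lam := C ((1 - q ^ (i + 1))⁻¹) * (X i : Lam)

theorem P_eq (i : ℕ) : P i = X i + (C q) ^ (i + 1) * P i := by
  have h1 : (1 - q ^ (i + 1))⁻¹ = 1 + q ^ (i + 1) * (1 - q ^ (i + 1))⁻¹ := by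
    have h2 := mul_inv_cancel₀ (one_sub_ne (i + 1) (by omega))
    rw [sub_mul, one_mul, sub_eq_iff_eq_add] at h2
    exact h2
  have h3 : C ((1 - q ^ (i + 1))⁻¹) = (1 : Lam) + (C q) ^ (i + 1) * C ((1 - q ^ (i + 1))⁻¹) := by
    conv_lhs => rw [h1]
    rw [C_add, C_mul, C_pow, C_1]
  rw [P]
  conv_lhs => rw [h3]
  ring

theorem sum_split {M : Type*} [AddCommMonoid M] (f : ℕ → M) (n : ℕ) :
    ∑ k ∈ range (n + 1), f k = f 0 + ∑ k ∈ Icc 1 n, f k := by
  rw [Finset.range_eq_Ico, Finset.sum_eq_sum_Ico_succ_bot (Nat.succ_pos n), zero_add]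
  congr 1

end WNR

open WNR in
theorem t_WNR : Stmt_HA → Stmt_HS → Stmt_HM → Stmt_WNR := by
  intro hA hS _ n hn
  have h1 : wN n = ∑ ij ∈ antidiagonal n, hX ij.1 * (C q ^ ij.2 * wN ij.2) := by
    have e : wN n = hN (fun k => (X k : Lam) + (C q) ^ (k + 1) * P k) n := by
      rw [wN]
      congr 1
      funext i
      exact P_eq i
    rw [e, hA Lam (fun k => (X k : Lam)) (fun k => (C q) ^ (k + 1) * P k) n]
    refine Finset.sum_congr rfl fun ij _ => ?_
    rw [(hS Lam P (C q) ij.2).1]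
    rfl
  rw [Finset.Nat.sum_antidiagonal_eq_sum_range_succ (fun i j => hX i * (C q ^ j * wN j)),
    sum_split] at h1
  have h0 : hX 0 = 1 := by rw [hX, hN]
  rw [h0, one_mul, Nat.sub_zero] at h1
  have h2 : C (1 - q ^ n) * wN n = wN n - C q ^ n * wN n := by
    rw [C_sub, C_1, C_pow]
    ring
  rw [h2, sub_eq_iff_eq_add]
  conv_lhs => rw [h1]
  rw [add_comm]
  congr 1
  refine Finset.sum_congr rfl fun m _ => ?_
  rw [C_pow]
  ring

end Pool.Agent.NEK
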