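import Pool.Agent.NEK.HNB
import Pool.Agent.NEK.JTP
import Pool.Agent.NEK.PAD
import Pool.Agent.NEK.PIE
import Pool.Agent.NEK.PIW
import Pool.Agent.NEK.TEL
import Pool.Agent.NEK.WNR
import Pool.Agent.NEK.WNC
import Pool.Agent.NEK.ABP
import Pool.Agent.NEK.EVS
import Pool.Agent.NEK.EVW
import Pool.Agent.NEK.MAC
import Pool.Agent.NEK.EXT
import Pool.Agent.NEK.GPO
import Pool.Agent.NEK.FIN

set_option autoImplicit false

namespace Pool.Agent.NEK

theorem final : Stmt_final := by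
  obtain ⟨hHR, hHU, hER, hEU, hHM, hHA, hHS⟩ := t_HNB
  have hJTP := t_JTP hHA hHS hHR
  have hPIW := t_PIW t_PIE
  have hWNR := t_WNR hHA hHS hHM
  have hWNC := t_WNC hWNR hPIW t_TEL
  have hABP := t_ABP hWNC hPIW t_PAD hHR
  have hEVS := t_EVS hHM hHS hHU
  have hEVW := t_EVW hWNR hHA hHS hHM
  have hMAC := t_MAC hEVS hEVW hHM hHR
  have hEXT := t_EXT hER hHR hHU hHM
  have hGPO := t_GPO hHM hJTP
  exact t_FIN hABP hMAC hEXT hGPO

end Pool.Agent.NEK
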