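import Pool.Agent.NEK.Stmts2

/-!
# Pieri's rule for alternants
-/

set_option autoImplicit false

namespace Pool.Agent.NEK

open MvPolynomial Finset

namespace API

variable {L : Type} [CommRing L] {N : ℕ}

/-- the series `∑ x_j^(k + r) y^r` -/
noncomputable def u (j : Fin N) (k : ℕ) : PowerSeries (MvPolynomial (Fin N) L) :=
  PowerSeries.mk fun r => (X j : MvPolynomial (Fin N) L) ^ (k + r)

theorem u_one (j : Fin N) (k : ℕ) :
    (u j k : PowerSeries (MvPolynomial (Fin N) L)) =
      PowerSeries.C (X j ^ k) + PowerSeries.X * u j (k + 1) := by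
  ext1 n
  cases n with
  | zero => simp [u]
  | succ n =>
    rw [map_add, PowerSeries.coeff_succ_X_mul, u, u, PowerSeries.coeff_mk, PowerSeries.coeff_mk,
      PowerSeries.coeff_C, if_neg (Nat.succ_ne_zero n), zero_add]
    congr 1
    omega

theorem u_split (j : Fin N) (k : ℕ) (d : ℕ) :
    (u j k : PowerSeries (MvPolynomial (Fin N) L)) =
      ∑ r ∈ range d, PowerSeries.X ^ r * PowerSeries.C (X j ^ (k + r)) +
      PowerSeries.X ^ d * u j (k + d) := by
  induction d with
  | zero => simp
  | succ d ih =>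
    rw [ih, sum_range_succ, u_one j (k + d)]
    rw [pow_succ, add_assoc k d 1]
    ring

theorem u_mul (j : Fin N) (k : ℕ) :
    (u j k : PowerSeries (MvPolynomial (Fin N) L)) =
      (PowerSeries.mk fun r => (X j : MvPolynomial (Fin N) L) ^ r) * PowerSeries.C (X j ^ k) := by
  ext1 n
  rw [PowerSeries.coeff_mul_C, u, PowerSeries.coeff_mk, PowerSeries.coeff_mk, add_comm, pow_add]

theorem alt_eq (kap : Fin N → ℕ) : (alt kap : MvPolynomial (Fin N) L) =
    (Matrix.of fun i j : Fin N => (X j : MvPolynomial (Fin N) L) ^ kap i).det := by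
  rw [alt, ← Matrix.det_transpose]
  rfl

/-- first evaluation of the determinant -/
theorem first (kap : Fin N → ℕ) :
    (Matrix.of fun i j : Fin N => (u j (kap i) : PowerSeries (MvPolynomial (Fin N) L))).det =
      (∏ j : Fin N, PowerSeries.mk fun r => (X j : MvPolynomial (Fin N) L) ^ r) *
        PowerSeries.C (alt kap) := by
  have e1 : (Matrix.of fun i j : Fin N => (u j (kap i) : PowerSeries (MvPolynomial (Fin N) L))) =
      Matrix.of fun i j : Fin N => (PowerSeries.mk fun r => (X j : MvPolynomial (Fin N) L) ^ r) *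
        (Matrix.of fun i j : Fin N =>
          (PowerSeries.C (X j ^ kap i) : PowerSeries (MvPolynomial (Fin N) L))) i j := by
    ext1 i j
    rw [Matrix.of_apply, Matrix.of_apply, Matrix.of_apply, u_mul]
  rw [e1, Matrix.det_mul_row, alt_eq, RingHom.map_det]
  rfl

/-- expansion of a determinant whose rows are finite sums -/
theorem expand (kap : Fin N → ℕ) (D : Fin N → ℕ) :
    (Matrix.of fun i j : Fin N => ∑ r ∈ range (D i),
      (PowerSeries.X : PowerSeries (MvPolynomial (Fin N) L)) ^ r *
        PowerSeries.C (X j ^ (kap i + r))).det =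
      ∑ r ∈ Fintype.piFinset (fun i => range (D i)), PowerSeries.X ^ (∑ i, r i) *
        PowerSeries.C (alt fun i => kap i + r i) := by
  have e1 : (Matrix.of fun i j : Fin N => ∑ r ∈ range (D i),
      (PowerSeries.X : PowerSeries (MvPolynomial (Fin N) L)) ^ r *
        PowerSeries.C (X j ^ (kap i + r))) =
      fun i => ∑ r ∈ range (D i), ((PowerSeries.X : PowerSeries (MvPolynomial (Fin N) L)) ^ r •
        fun j : Fin N => PowerSeries.C (X j ^ (kap i + r))) := by
    funext i j
    rw [Finset.sum_apply, Matrix.of_apply]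
    rfl
  have e2 := (Matrix.detRowAlternating (R := PowerSeries (MvPolynomial (Fin N) L))
    (n := Fin N)).toMultilinearMap.map_sum_finset
    (fun i (r : ℕ) => (PowerSeries.X : PowerSeries (MvPolynomial (Fin N) L)) ^ r •
        fun j : Fin N => PowerSeries.C (X j ^ (kap i + r))) (fun i => range (D i))
  rw [e1]
  refine e2.trans (sum_congr rfl fun r _ => ?_)
  rw [MultilinearMap.map_smul_univ, prod_pow_eq_pow_sum, smul_eq_mul]
  congr 1
  rw [alt_eq, RingHom.map_det]
  rfl

/-- the upper bounds of the exponents -/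
def bd {n : ℕ} (kap : Fin (n + 1) → ℕ) (m : ℕ) : Fin (n + 1) → ℕ :=
  Fin.cons (m + 1) fun i : Fin n => kap i.castSucc - kap i.succ

/-- second evaluation of the determinant -/
theorem second {n : ℕ} (kap : Fin (n + 1) → ℕ) (ha : StrictAnti kap) (m : ℕ) :
    ∃ Q : PowerSeries (MvPolynomial (Fin (n + 1)) L),
      (Matrix.of fun i j : Fin (n + 1) =>
        (u j (kap i) : PowerSeries (MvPolynomial (Fin (n + 1)) L))).det =
      (Matrix.of fun i j : Fin (n + 1) => ∑ r ∈ range (bd kap m i),
      (PowerSeries.X : PowerSeries (MvPolynomial (Fin (n + 1)) L)) ^ r *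
        PowerSeries.C (X j ^ (kap i + r))).det + PowerSeries.X ^ (m + 1) * Q := by
  set P : Matrix (Fin (n + 1)) (Fin (n + 1)) (PowerSeries (MvPolynomial (Fin (n + 1)) L)) :=
    Matrix.of fun i j : Fin (n + 1) => ∑ r ∈ range (bd kap m i),
      (PowerSeries.X : PowerSeries (MvPolynomial (Fin (n + 1)) L)) ^ r *
        PowerSeries.C (X j ^ (kap i + r)) with hP
  set v : Fin (n + 1) → PowerSeries (MvPolynomial (Fin (n + 1)) L) := fun j =>
    u j (kap 0 + (m + 1)) with hv
  refine ⟨(P.updateRow 0 v).det, ?_⟩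
  have e1 : (Matrix.of fun i j : Fin (n + 1) =>
      (u j (kap i) : PowerSeries (MvPolynomial (Fin (n + 1)) L))).det =
      (P.updateRow 0 (P 0 +
        (PowerSeries.X : PowerSeries (MvPolynomial (Fin (n + 1)) L)) ^ (m + 1) • v)).det := by
    refine Matrix.det_eq_of_forall_row_eq_smul_add_pred
      (fun i => PowerSeries.X ^ (bd kap m i.succ)) ?_ ?_
    · intro j
      rw [Matrix.updateRow_self, Matrix.of_apply, Pi.add_apply, Pi.smul_apply, smul_eq_mul, hv, hP,
        Matrix.of_apply, u_split j _ (m + 1)]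
      rfl
    · intro i j
      rw [Matrix.updateRow_ne (Fin.succ_ne_zero i), hP, Matrix.of_apply, Matrix.of_apply,
        Matrix.of_apply, u_split j _ (bd kap m i.succ)]
      congr 3
      have h1 : kap i.succ < kap i.castSucc := ha (Fin.castSucc_lt_succ)
      simp only [bd, Fin.cons_succ]
      omega
  rw [e1, Matrix.det_updateRow_add, Matrix.det_updateRow_smul, Matrix.updateRow_eq_self]

/-- the product as a coefficient -/
theorem third {n : ℕ} (kap : Fin (n + 1) → ℕ) (ha : StrictAnti kap) (m : ℕ) :
    PowerSeries.coeff m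
      (Matrix.of fun i j : Fin (n + 1) =>
        (u j (kap i) : PowerSeries (MvPolynomial (Fin (n + 1)) L))).det ∈
      AddSubmonoid.closure {f | ∃ kap' : Fin (n + 1) → ℕ, StrictAnti kap' ∧ f = alt kap'} := by
  obtain ⟨Q, hQ⟩ := second (L := L) kap ha m
  rw [hQ, map_add, PowerSeries.coeff_X_pow_mul', if_neg (by omega), add_zero, expand, map_sum]
  refine AddSubmonoid.sum_mem _ fun r hr => ?_
  rw [PowerSeries.coeff_mul_C, PowerSeries.coeff_X_pow]
  by_cases h : m = ∑ i, r i
  · rw [if_pos h, one_mul]
    refine AddSubmonoid.subset_closure ⟨_, ?_, rfl⟩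
    rw [Fin.strictAnti_iff_succ_lt]
    intro i
    rw [Fintype.mem_piFinset] at hr
    have h4 := hr i.succ
    have h5 : kap i.succ < kap i.castSucc := ha (Fin.castSucc_lt_succ)
    simp only [bd, Fin.cons_succ, mem_range] at h4
    omega
  · rw [if_neg h, zero_mul]
    exact AddSubmonoid.zero_mem _

end API

/-- Pieri's rule for alternants -/
theorem t_API : M_HZC → M_API := by
  intro hHZ L _ _ N m kap ha
  have h1 := (hHZ L N).2
  have h2 : (alt kap : MvPolynomial (Fin N) L) * hz N m =
      PowerSeries.coeff m (Matrix.of fun i j : Fin N =>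
        (API.u j (kap i) : PowerSeries (MvPolynomial (Fin N) L))).det := by
    rw [API.first, ← h1, PowerSeries.coeff_mul_C, PowerSeries.coeff_mk, mul_comm]
  cases N with
  | zero =>
    have h3 : (hz 0 m : MvPolynomial (Fin 0) L) = if m = 0 then 1 else 0 := by
      have h4 := congrArg (PowerSeries.coeff m) h1
      rw [PowerSeries.coeff_mk, Finset.univ_eq_empty, Finset.prod_empty,
        PowerSeries.coeff_one] at h4
      exact h4
    rw [h3]
    split_ifs with h
    · rw [mul_one]
      exact AddSubmonoid.subset_closure ⟨kap, ha, rfl⟩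
    · rw [mul_zero]
      exact AddSubmonoid.zero_mem _
  | succ n =>
    rw [h2]
    exact API.third kap ha m

end Pool.Agent.NEK
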