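import Pool.Agent.NEK.Stmts2

/-!
# Cauchy's identity, coefficientwise and truncated (module CAU)
-/

set_option autoImplicit false

namespace Pool.Agent.NEK

open MvPolynomial Finset

namespace CAU

theorem coeffStep {L : Type} [CommRing L] [Algebra ℚ L] {N D : ℕ}
    (h : ∀ (m : ℕ) (β : Fin N →₀ ℕ),
      coeff β (hz N m : MvPolynomial (Fin N) L) = if β.degree = m then 1 else 0)
    (x : L) (β : Fin N →₀ ℕ) (hβ : β.degree ≤ D) :
    coeff β (∑ m ∈ range (D + 1), C (x ^ m) * (hz N m : MvPolynomial (Fin N) L)) =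
      x ^ β.degree := by
  rw [coeff_sum, Finset.sum_eq_single β.degree]
  · rw [coeff_C_mul, h, if_pos rfl, mul_one]
  · intro m _ hm
    rw [coeff_C_mul, h, if_neg (Ne.symm hm), mul_zero]
  · intro hm
    exact absurd (Finset.mem_range.2 (by omega)) hm

theorem hcons {L : Type} [CommRing L] [Algebra ℚ L] (y : L) (xs : List L) (n : ℕ) :
    hN (fun k => ((y :: xs).map fun x => x ^ (k + 1)).sum) n =
      ∑ ij ∈ antidiagonal n, y ^ ij.1 * hN (fun k => (xs.map fun x => x ^ (k + 1)).sum) ij.2 := by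
  have h1 : (fun k => ((y :: xs).map fun x => x ^ (k + 1)).sum) =
      fun k => y ^ (k + 1) + (xs.map fun x => x ^ (k + 1)).sum := by
    funext k
    rw [List.map_cons, List.sum_cons]
  rw [h1, HNB.ha L (fun k => y ^ (k + 1)) (fun k => (xs.map fun x => x ^ (k + 1)).sum) n]
  refine Finset.sum_congr rfl fun ij _ => ?_
  rw [(HNB.hs L (fun k => y ^ (k + 1)) y ij.1).2.1]

theorem bij {L : Type} [CommRing L] {N : ℕ} (α : Fin N →₀ ℕ) (f g : ℕ → L) :
    ∑ p ∈ antidiagonal α, (∏ i, f (p.1 i)) * ∏ i, g (p.2 i) =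
      ∏ i, ∑ ij ∈ antidiagonal (α i), f ij.1 * g ij.2 := by
  rw [Finset.prod_univ_sum]
  refine Finset.sum_nbij' (fun p i => (p.1 i, p.2 i))
    (fun F => (Finsupp.equivFunOnFinite.symm fun i => (F i).1,
      Finsupp.equivFunOnFinite.symm fun i => (F i).2)) ?_ ?_ ?_ ?_ ?_
  · intro p hp
    rw [Fintype.mem_piFinset]
    intro i
    rw [HasAntidiagonal.mem_antidiagonal] at hp ⊢
    change p.1 i + p.2 i = α i
    rw [← hp]
    rfl
  · intro F hF
    rw [Fintype.mem_piFinset] at hF
    rw [HasAntidiagonal.mem_antidiagonal]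
    ext i
    exact HasAntidiagonal.mem_antidiagonal.1 (hF i)
  · intro p _
    refine Prod.ext ?_ ?_
    · ext i
      rfl
    · ext i
      rfl
  · intro F _
    funext i
    rfl
  · intro p _
    rw [← Finset.prod_mul_distrib]

theorem base {L : Type} [CommRing L] [Algebra ℚ L] {N : ℕ} (α : Fin N →₀ ℕ) :
    coeff α (1 : MvPolynomial (Fin N) L) = ∏ i, hN (fun _ => (0 : L)) (α i) := by
  classical
  have h1 : ∀ i, hN (fun _ => (0 : L)) (α i) = if α i = 0 then 1 else 0 := by
    intro i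
    exact (HNB.hs L (fun _ => (0 : L)) 0 (α i)).2.2.1
  rw [Finset.prod_congr rfl fun i _ => h1 i, coeff_one]
  by_cases h : α = 0
  · subst h
    rw [if_pos rfl]
    refine (Finset.prod_eq_one fun i _ => ?_).symm
    rw [if_pos]
    rfl
  · rw [if_neg (Ne.symm h)]
    obtain ⟨i, hi⟩ := Finsupp.ne_iff.1 h
    exact (Finset.prod_eq_zero (mem_univ i) (if_neg hi)).symm

end CAU

/-- Cauchy's identity, coefficientwise and truncated. -/
theorem t_CAU : M_HZC → M_CAU := by
  intro hH L _ _ N D xs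
  have hz1 := (hH L N).1
  induction xs with
  | nil =>
    intro α _
    rw [List.map_nil, List.prod_nil, CAU.base]
    rfl
  | cons y xs ih =>
    intro α hα
    rw [List.map_cons, List.prod_cons, coeff_mul]
    have h1 : ∀ i, hN (fun k => ((y :: xs).map fun x => x ^ (k + 1)).sum) (α i) =
        ∑ ij ∈ antidiagonal (α i), y ^ ij.1 *
          hN (fun k => (xs.map fun x => x ^ (k + 1)).sum) ij.2 := fun i => CAU.hcons y xs (α i)
    rw [Finset.prod_congr rfl fun i _ => h1 i,
      ← CAU.bij α (fun n => y ^ n) (fun n => hN (fun k => (xs.map fun x => x ^ (k + 1)).sum) n)]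
    refine Finset.sum_congr rfl fun p hp => ?_
    rw [HasAntidiagonal.mem_antidiagonal] at hp
    have hd : p.1.degree + p.2.degree = α.degree := by
      rw [← hp, map_add]
    rw [CAU.coeffStep hz1 y p.1 (by omega), ih p.2 (by omega)]
    congr 1
    rw [Finset.prod_pow_eq_pow_sum, Finsupp.degree_eq_sum]

end Pool.Agent.NEK
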