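import Pool.Agent.NEK.Stmts2

/-!
# Module CNJ: summation over the cells of a Young diagram
-/

set_option autoImplicit false

namespace Pool.Agent.NEK

open MvPolynomial Finset

namespace CNJ

theorem list_sum_range {M : Type} [AddCommMonoid M] (F : ℕ → M) (B : ℕ) :
    ((List.range B).map F).sum = ∑ j ∈ range B, F j := by
  induction B with
  | zero => simp
  | succ B ih => rw [List.range_succ, List.map_append, List.sum_append, ih, sum_range_succ]; simp

theorem key {M : Type} [AddCommMonoid M] (l : List ℕ) : l.Pairwise (· ≥ ·) → ∀ B : ℕ,
    (∀ a ∈ l, a ≤ B) → ∀ f : ℕ → M, ∑ i : Fin l.length, l.get i • f i =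
      ∑ j ∈ range B, ∑ i ∈ range (l.filter fun a => decide (j < a)).length, f i := by
  induction l with
  | nil =>
    intro _ B _ f
    simp
  | cons a l ih =>
    intro hp B hB f
    rw [List.pairwise_cons] at hp
    obtain ⟨h1, h2⟩ := hp
    have haB : a ≤ B := hB a List.mem_cons_self
    have ih1 := ih h2 a (fun b hb => h1 b hb) (fun i => f (i + 1))
    have hl : ∑ i : Fin (a :: l).length, (a :: l).get i • f i =
        a • f 0 + ∑ i : Fin l.length, l.get i • f (i + 1) := by
      have := Fin.sum_univ_succ (n := l.length) (f := fun i : Fin (l.length + 1) =>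
        (a :: l).get i • f (i : ℕ))
      simpa using this
    rw [hl, ih1]
    obtain ⟨c, rfl⟩ := Nat.exists_eq_add_of_le haB
    have hr : ∑ j ∈ range (a + c), ∑ i ∈ range ((a :: l).filter fun b => decide (j < b)).length, f i
        = ∑ j ∈ range a, ∑ i ∈ range ((a :: l).filter fun b => decide (j < b)).length, f i := by
      rw [sum_range_add]
      have : ∑ x ∈ range c, ∑ i ∈ range ((a :: l).filter fun b => decide (a + x < b)).length, f i
          = 0 := by
        refine sum_eq_zero fun x _ => ?_
        have h3 : ((a :: l).filter fun b => decide (a + x < b)) = [] := by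
          rw [List.filter_eq_nil_iff]
          intro b hb
          have hb2 : b ≤ a := by
            rcases List.mem_cons.1 hb with rfl | hb
            · exact le_refl _
            · exact h1 b hb
          simp only [decide_eq_true_eq]
          omega
        rw [h3]
        simp
      rw [this, add_zero]
    rw [hr]
    have hs : ∀ j ∈ range a, ∑ i ∈ range ((a :: l).filter fun b => decide (j < b)).length, f i =
        f 0 + ∑ i ∈ range (l.filter fun b => decide (j < b)).length, f (i + 1) := by
      intro j hj
      have hj2 : j < a := mem_range.1 hj
      have h3 : ((a :: l).filter fun b => decide (j < b)) =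
          a :: (l.filter fun b => decide (j < b)) := by
        rw [List.filter_cons_of_pos]
        simpa using hj2
      rw [h3, List.length_cons, sum_range_succ', add_comm]
    rw [sum_congr rfl hs, sum_add_distrib, sum_const, card_range]

end CNJ

theorem t_CNJ : M_CNJ := by
  intro M _ n l hl f
  have hB : ∀ a ∈ l, a ≤ l.headD 0 := by
    intro a ha
    cases l with
    | nil => simp at ha
    | cons b l =>
      rcases List.mem_cons.1 ha with rfl | h
      · simp
      · have := (List.pairwise_cons.1 hl.1).1 a h
        simpa using this
  rw [CNJ.key l hl.1 (l.headD 0) hB f]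
  unfold conj
  rw [List.map_map, CNJ.list_sum_range]
  rfl

end Pool.Agent.NEK
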