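import Pool.Agent.NEK.Stmts2

/-!
# Module CNT: the coefficient of `y^ρ` in a product of power sums
-/

set_option autoImplicit false

namespace Pool.Agent.NEK

open MvPolynomial Finset

namespace CNT

/-- the exponent `β` is a sum of `(i+1) e_j`, `i ∈ L` -/
def R {N : ℕ} : List ℕ → (Fin N →₀ ℕ) → Prop
  | [], β => β = 0
  | i :: L, β => ∃ j, Finsupp.single j (i + 1) ≤ β ∧ R L (β - Finsupp.single j (i + 1))

/-- the product of the power sums of a list -/
noncomputable def pr (N : ℕ) (L : List ℕ) : MvPolynomial (Fin N) ℤ := (L.map (psY ℤ N)).prod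

theorem coeff_cons (N : ℕ) (i : ℕ) (L : List ℕ) (β : Fin N →₀ ℕ) :
    coeff β (pr N (i :: L)) = ∑ j : Fin N, if Finsupp.single j (i + 1) ≤ β then
      coeff (β - Finsupp.single j (i + 1)) (pr N L) else 0 := by
  have h : pr N (i :: L) = psY ℤ N i * pr N L := by simp [pr]
  rw [h, psY, Finset.sum_mul, coeff_sum]
  refine Finset.sum_congr rfl fun j _ => ?_
  rw [X_pow_eq_monomial, coeff_monomial_mul', one_mul]

theorem coeff_R (N : ℕ) (L : List ℕ) : ∀ β : Fin N →₀ ℕ, 0 ≤ coeff β (pr N L) ∧
    (coeff β (pr N L) ≠ 0 ↔ R L β) := by
  induction L with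
  | nil =>
    intro β
    have h : pr N [] = 1 := by simp [pr]
    rw [h, coeff_one]
    constructor
    · split_ifs <;> simp
    · simp only [R]
      constructor
      · intro h
        by_contra h1
        rw [if_neg (fun h2 => h1 h2.symm)] at h
        exact h rfl
      · rintro rfl
        simp
  | cons i L ih =>
    intro β
    rw [coeff_cons]
    have h0 : ∀ j ∈ (Finset.univ : Finset (Fin N)), 0 ≤ (if Finsupp.single j (i + 1) ≤ β then
        coeff (β - Finsupp.single j (i + 1)) (pr N L) else 0 : ℤ) := by
      intro j _
      split_ifs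
      · exact (ih _).1
      · exact le_rfl
    refine ⟨Finset.sum_nonneg h0, ?_⟩
    rw [ne_eq, Finset.sum_eq_zero_iff_of_nonneg h0]
    simp only [R]
    constructor
    · intro h
      push Not at h
      obtain ⟨j, _, hj⟩ := h
      by_cases hle : Finsupp.single j (i + 1) ≤ β
      · rw [if_pos hle] at hj
        exact ⟨j, hle, (ih _).2.1 hj⟩
      · rw [if_neg hle] at hj
        exact absurd rfl hj
    · rintro ⟨j, hle, hR⟩ h
      have h1 := h j (Finset.mem_univ j)
      rw [if_pos hle] at h1
      exact (ih _).2.2 hR h1

theorem card_le {N : ℕ} (L : List ℕ) : ∀ β : Fin N →₀ ℕ, R L β → β.support.card ≤ L.length := by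
  induction L with
  | nil =>
    rintro β rfl
    simp
  | cons i L ih =>
    rintro β ⟨j, hle, hR⟩
    have h1 := ih _ hR
    have h2 : β.support ⊆ insert j (β - Finsupp.single j (i + 1)).support := by
      intro k hk
      by_cases hkj : k = j
      · rw [hkj]
        exact Finset.mem_insert_self _ _
      · refine Finset.mem_insert_of_mem ?_
        rw [Finsupp.mem_support_iff] at hk ⊢
        rw [Finsupp.tsub_apply, Finsupp.single_eq_of_ne hkj]
        simpa using hk
    have h3 := Finset.card_le_card h2
    have h4 := Finset.card_insert_le j (β - Finsupp.single j (i + 1)).support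
    simp only [List.length_cons]
    omega

/-- the multiset of the values, as an exponent -/
noncomputable def mv {N : ℕ} (β : Fin N →₀ ℕ) : ℕ →₀ ℕ :=
  ∑ j ∈ β.support, Finsupp.single (β j - 1) 1

theorem mv_eq {N : ℕ} (L : List ℕ) : ∀ β : Fin N →₀ ℕ, R L β → β.support.card = L.length →
    (L.map fun i => Finsupp.single i 1).sum = mv β := by
  induction L with
  | nil =>
    rintro β rfl _
    simp [mv]
  | cons i L ih =>
    rintro β ⟨j, hle, hR⟩ hc
    set β' := β - Finsupp.single j (i + 1) with hβ'
    have h1 := card_le _ _ hR
    have h2 : β.support ⊆ insert j β'.support := by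
      intro k hk
      by_cases hkj : k = j
      · rw [hkj]
        exact Finset.mem_insert_self _ _
      · refine Finset.mem_insert_of_mem ?_
        rw [Finsupp.mem_support_iff] at hk ⊢
        rw [hβ', Finsupp.tsub_apply, Finsupp.single_eq_of_ne hkj]
        simpa using hk
    have h3 := Finset.card_le_card h2
    simp only [List.length_cons] at hc
    have hj : j ∉ β'.support := by
      intro hmem
      rw [Finset.insert_eq_of_mem hmem] at h3
      omega
    have h4 : (insert j β'.support).card = β'.support.card + 1 := Finset.card_insert_of_notMem hj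
    have h5 : β'.support.card = L.length := by omega
    have h6 : β.support = insert j β'.support :=
      Finset.eq_of_subset_of_card_le h2 (by omega)
    have h7 := ih _ hR h5
    have h8 : β' j = 0 := by simpa using hj
    have h9 : β j = i + 1 := by
      have ha : (Finsupp.single j (i + 1) : Fin N →₀ ℕ) j ≤ β j := hle j
      rw [Finsupp.single_eq_same] at ha
      have hb : β' j = β j - (i + 1) := by
        rw [hβ', Finsupp.tsub_apply, Finsupp.single_eq_same]
      omega
    rw [List.map_cons, List.sum_cons, h7, mv, mv, h6, Finset.sum_insert hj, h9]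
    congr 1
    refine Finset.sum_congr rfl fun k hk => ?_
    have hkj : k ≠ j := fun h => hj (h ▸ hk)
    rw [hβ', Finsupp.tsub_apply, Finsupp.single_eq_of_ne hkj]
    simp

theorem R_of_nodup {N : ℕ} (s : List (Fin N)) : ∀ β : Fin N →₀ ℕ, s.Nodup →
    (∀ j, β j ≠ 0 ↔ j ∈ s) → R (s.map fun j => β j - 1) β := by
  induction s with
  | nil =>
    intro β _ h
    show β = 0
    ext j
    by_contra hj
    exact absurd ((h j).1 hj) List.not_mem_nil
  | cons j s ih =>
    intro β hs h
    rw [List.nodup_cons] at hs
    have hj : β j ≠ 0 := (h j).2 List.mem_cons_self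
    have hj1 : β j - 1 + 1 = β j := by omega
    refine ⟨j, ?_, ?_⟩
    · rw [hj1, Finsupp.single_le_iff]
    · have hk : ∀ k, k ≠ j → (β - Finsupp.single j (β j - 1 + 1)) k = β k := by
        intro k hkj
        rw [Finsupp.tsub_apply, Finsupp.single_eq_of_ne hkj]
        simp
      have hjj : (β - Finsupp.single j (β j - 1 + 1)) j = 0 := by
        rw [Finsupp.tsub_apply, Finsupp.single_eq_same, hj1]
        simp
      have h1 := ih (β - Finsupp.single j (β j - 1 + 1)) hs.2 (by
        intro k
        by_cases hkj : k = j
        · subst hkj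
          rw [hjj]
          constructor
          · intro h
            exact absurd rfl h
          · intro h
            exact absurd h hs.1
        · rw [hk k hkj, h k, List.mem_cons]
          constructor
          · rintro (h | h)
            · exact absurd h hkj
            · exact h
          · exact Or.inr)
      have h2 : (s.map fun k => (β - Finsupp.single j (β j - 1 + 1)) k - 1) =
          s.map fun k => β k - 1 := by
        refine List.map_congr_left fun k hks => ?_
        rw [hk k (fun h => hs.1 (h ▸ hks))]
      rw [h2] at h1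
      exact h1

theorem exists_list (d : ℕ →₀ ℕ) : ∃ L : List ℕ, d = (L.map fun i => Finsupp.single i 1).sum ∧
    L.length = d.degree := by
  induction d using Finsupp.induction_linear with
  | zero => exact ⟨[], by simp, by simp⟩
  | add f g hf hg =>
    obtain ⟨L, h1, h2⟩ := hf
    obtain ⟨L', h1', h2'⟩ := hg
    refine ⟨L ++ L', ?_, ?_⟩
    · rw [List.map_append, List.sum_append, ← h1, ← h1']
    · rw [List.length_append, h2, h2', map_add]
  | single a b =>
    refine ⟨List.replicate b a, ?_, ?_⟩
    · rw [List.map_replicate, List.sum_replicate]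
      simp
    · simp

theorem prod_list (N : ℕ) (L : List ℕ) :
    (((L.map fun i => Finsupp.single i 1).sum : ℕ →₀ ℕ).prod fun i e => psY ℤ N i ^ e) =
      pr N L := by
  induction L with
  | nil => simp [pr]
  | cons i L ih =>
    have h1 : ((Finsupp.single i 1 : ℕ →₀ ℕ).prod fun i e => psY ℤ N i ^ e) = psY ℤ N i := by
      refine (Finsupp.prod_single_index (h := fun i e => psY ℤ N i ^ e) (pow_zero _)).trans ?_
      exact pow_one _
    rw [List.map_cons, List.sum_cons, Finsupp.prod_add_index' (fun i => pow_zero _)
      (fun i a b => pow_add _ _ _), ih]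
    refine (congrArg (· * pr N L) h1).trans ?_
    simp [pr]

end CNT

open CNT in
/-- module CNT -/
theorem t_CNT : M_CNT := by
  intro ρ hρ d
  have hpos : ∀ j, expo ρ j ≠ 0 := fun j => by
    rw [expo_apply]
    exact (hρ _ (List.get_mem ρ j)).ne'
  have hsupp : (expo ρ).support = Finset.univ := by
    ext j
    simpa using hpos j
  have hcard : (expo ρ).support.card = ρ.length := by
    rw [hsupp, Finset.card_univ, Fintype.card_fin]
  have hmv : mv (expo ρ) = mon ρ := by
    unfold mv mon
    rw [hsupp]
    have h1 : ∀ j : Fin ρ.length, Finsupp.single (expo ρ j - 1) 1 =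
        (ρ.map fun a => (Finsupp.single (a - 1) 1 : ℕ →₀ ℕ)).get (j.cast (by simp)) := by
      intro j
      simp [expo_apply]
    rw [← List.sum_ofFn]
    congr 1
    refine List.ext_get (by simp) fun n h1 h2 => ?_
    simp [expo_apply]
  obtain ⟨L, hL, hlen⟩ := exists_list d
  refine ⟨?_, ?_, ?_⟩
  · intro hd
    rw [hL, prod_list]
    by_contra hne
    have h1 := ((coeff_R _ L (expo ρ)).2).1 hne
    have h2 := card_le _ _ h1
    omega
  · intro hd hne
    rw [hL, prod_list]
    by_contra hc
    have h1 := ((coeff_R _ L (expo ρ)).2).1 hc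
    have h2 := mv_eq _ _ h1 (by omega)
    rw [hmv, ← hL] at h2
    exact hne h2
  · rintro rfl
    have h1 : mon ρ = ((ρ.map fun a => a - 1).map fun i => Finsupp.single i 1).sum := by
      unfold mon
      rw [List.map_map]
      rfl
    rw [h1, prod_list]
    refine ((coeff_R _ _ (expo ρ)).2).2 ?_
    have h2 := R_of_nodup (List.finRange ρ.length) (expo ρ) (List.nodup_finRange _)
      (fun j => ⟨fun _ => List.mem_finRange j, fun _ => hpos j⟩)
    have h3 : ((List.finRange ρ.length).map fun j => expo ρ j - 1) = ρ.map fun a => a - 1 := by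
      refine List.ext_get (by simp) fun n h1 h2 => ?_
      simp [expo_apply]
    rw [h3] at h2
    exact h2

end Pool.Agent.NEK
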