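import Pool.Agent.NEK.Stmts2

/-!
# Module DOM: dominance and conjugation
-/

set_option autoImplicit false

namespace Pool.Agent.NEK

open MvPolynomial Finset

namespace DOM

/-- the number of entries larger than `j` -/
def cn (l : List ℕ) (j : ℕ) : ℕ := (l.filter fun a => decide (j < a)).length

theorem cn_nil (j : ℕ) : cn [] j = 0 := rfl

theorem cn_cons (a : ℕ) (l : List ℕ) (j : ℕ) :
    cn (a :: l) j = (if j < a then 1 else 0) + cn l j := by
  unfold cn
  rw [List.filter_cons]
  by_cases h : j < a
  · rw [if_pos (show decide (j < a) = true from decide_eq_true h), if_pos h, List.length_cons,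
      add_comm]
  · rw [if_neg (show ¬ decide (j < a) = true by rw [decide_eq_true_eq]; exact h), if_neg h,
      zero_add]

theorem cn_zero {l : List ℕ} {j : ℕ} (h : ∀ a ∈ l, a ≤ j) : cn l j = 0 := by
  induction l with
  | nil => rfl
  | cons a l ih =>
    rw [cn_cons, if_neg (not_lt.mpr (h a List.mem_cons_self)), zero_add]
    exact ih fun b hb => h b (List.mem_cons_of_mem a hb)

theorem cn_pos {l : List ℕ} {j a : ℕ} (ha : a ∈ l) (h : j < a) : 0 < cn l j := by
  unfold cn
  exact List.length_pos_of_mem (List.mem_filter.mpr ⟨ha, decide_eq_true h⟩)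

theorem cn_anti (l : List ℕ) {i j : ℕ} (h : i ≤ j) : cn l j ≤ cn l i := by
  induction l with
  | nil => exact le_refl _
  | cons a l ih =>
    rw [cn_cons, cn_cons]
    split_ifs <;> omega

theorem sum_ite (k a : ℕ) : ∑ j ∈ range k, (if j < a then 1 else 0) = min k a := by
  induction k with
  | zero => simp
  | succ k ih =>
    rw [sum_range_succ, ih]
    split_ifs <;> omega

theorem sum_cn (l : List ℕ) (k : ℕ) : ∑ j ∈ range k, cn l j = (l.map fun a => min k a).sum := by
  induction l with
  | nil => simp [cn_nil]
  | cons a l ih =>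
    simp only [cn_cons, sum_add_distrib, sum_ite, ih, List.map_cons, List.sum_cons]

theorem sum_map_range (f : ℕ → ℕ) (k : ℕ) : ((List.range k).map f).sum = ∑ j ∈ range k, f j := by
  induction k with
  | zero => simp
  | succ k ih =>
    rw [List.range_succ, List.map_append, List.sum_append, ih, sum_range_succ]
    simp

theorem conj_eq (l : List ℕ) : conj l = (List.range (l.headD 0)).map (cn l) := rfl

theorem le_head {l : List ℕ} (h : l.Pairwise (· ≥ ·)) : ∀ a ∈ l, a ≤ l.headD 0 := by
  intro a ha
  cases l with
  | nil => exact absurd ha List.not_mem_nil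
  | cons b l =>
    rcases List.mem_cons.mp ha with rfl | ha
    · exact le_refl _
    · exact (List.pairwise_cons.mp h).1 a ha

theorem map_min_of_le {l : List ℕ} {h : ℕ} (hl : ∀ a ∈ l, a ≤ h) :
    (l.map fun a => min h a) = l := by
  induction l with
  | nil => rfl
  | cons a l ih =>
    rw [List.map_cons, ih fun b hb => hl b (List.mem_cons_of_mem a hb),
      min_eq_right (hl a List.mem_cons_self)]

theorem take_conj {l : List ℕ} (h : l.Pairwise (· ≥ ·)) (k : ℕ) :
    ((conj l).take k).sum = (l.map fun a => min k a).sum := by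
  rw [conj_eq, ← List.map_take, List.take_range, sum_map_range, sum_cn]
  congr 1
  apply List.map_congr_left
  intro a ha
  have := le_head h a ha
  omega

theorem cn_take {l : List ℕ} (h : l.Pairwise (· ≥ ·)) (j : ℕ) :
    ∀ k, cn (l.take k) j = min k (cn l j) := by
  induction l with
  | nil => intro k; simp [cn_nil]
  | cons a l ih =>
    intro k
    obtain ⟨h1, h2⟩ := List.pairwise_cons.mp h
    cases k with
    | zero => simp [cn_nil]
    | succ k =>
      rw [List.take_succ_cons, cn_cons, cn_cons, ih h2]
      by_cases hj : j < a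
      · rw [if_pos hj]; omega
      · rw [if_neg hj, cn_zero (l := l) fun b hb => (h1 b hb).trans (not_lt.mp hj)]
        omega

theorem map_min_conj {l : List ℕ} (h : l.Pairwise (· ≥ ·)) (k : ℕ) :
    ((conj l).map fun a => min k a).sum = (l.take k).sum := by
  rw [conj_eq, List.map_map]
  have h1 : ((fun a => min k a) ∘ cn l) = cn (l.take k) := by
    funext j
    rw [Function.comp_apply, cn_take h]
  rw [h1, sum_map_range, sum_cn, map_min_of_le]
  intro a ha
  exact le_head h a (List.mem_of_mem_take ha)

theorem map_min_eq {l : List ℕ} (h : l.Pairwise (· ≥ ·)) (k : ℕ) :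
    ∃ m, (l.map fun a => min k a).sum = k * m + (l.drop m).sum := by
  induction l with
  | nil => exact ⟨0, by simp⟩
  | cons a l ih =>
    obtain ⟨h1, h2⟩ := List.pairwise_cons.mp h
    by_cases ha : k ≤ a
    · obtain ⟨m, hm⟩ := ih h2
      refine ⟨m + 1, ?_⟩
      rw [List.map_cons, List.sum_cons, hm, List.drop_succ_cons, min_eq_left ha]
      ring
    · refine ⟨0, ?_⟩
      have h3 : ∀ b ∈ a :: l, b ≤ k := by
        intro b hb
        rcases List.mem_cons.mp hb with rfl | hb
        · omega
        · have := h1 b hb
          omega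
      rw [map_min_of_le h3]
      simp

theorem take_le (l : List ℕ) (m : ℕ) : ∀ k, (l.take k).sum ≤
    k * m + (l.map fun a => a - m).sum := by
  induction l with
  | nil => intro k; simp
  | cons a l ih =>
    intro k
    cases k with
    | zero => simp
    | succ k =>
      have h1 := ih k
      rw [List.take_succ_cons, List.sum_cons, List.map_cons, List.sum_cons, Nat.succ_mul]
      omega

theorem sub_add_min (l : List ℕ) (m : ℕ) :
    (l.map fun a => a - m).sum + (l.map fun a => min m a).sum = l.sum := by
  induction l with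
  | nil => simp
  | cons a l ih =>
    rw [List.map_cons, List.map_cons, List.sum_cons, List.sum_cons, List.sum_cons]
    omega

theorem take_drop (l : List ℕ) (m : ℕ) : (l.take m).sum + (l.drop m).sum = l.sum := by
  rw [← List.sum_append, List.take_append_drop]

theorem ext_sums : ∀ l l' : List ℕ, (∀ a ∈ l, 0 < a) → (∀ a ∈ l', 0 < a) →
    (∀ k, (l.take k).sum = (l'.take k).sum) → l = l' := by
  intro l
  induction l with
  | nil =>
    intro l' _ h' hk
    cases l' with
    | nil => rfl
    | cons b l' =>
      have h1 := hk 1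
      have h2 := h' b List.mem_cons_self
      simp only [List.take_nil, List.sum_nil, List.take_succ_cons, List.take_zero,
        List.sum_cons] at h1
      omega
  | cons a l ih =>
    intro l' h h' hk
    cases l' with
    | nil =>
      have h1 := hk 1
      have h2 := h a List.mem_cons_self
      simp only [List.take_nil, List.sum_nil, List.take_succ_cons, List.take_zero,
        List.sum_cons] at h1
      omega
    | cons b l' =>
      have hab : a = b := by
        have h1 := hk 1
        simp only [List.sum_nil, List.take_succ_cons, List.take_zero, List.sum_cons] at h1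
        omega
      subst hab
      rw [ih l' (fun x hx => h x (List.mem_cons_of_mem a hx))
        (fun x hx => h' x (List.mem_cons_of_mem a hx))]
      intro k
      have h1 := hk (k + 1)
      simp only [List.take_succ_cons, List.sum_cons] at h1
      omega

theorem isPart_conj {n : ℕ} {μ : List ℕ} (h : IsPart n μ) : IsPart n (conj μ) := by
  obtain ⟨h1, h2, h3⟩ := h
  refine ⟨?_, ?_, ?_⟩
  · rw [conj_eq, List.pairwise_map]
    exact (List.pairwise_lt_range).imp fun hij => cn_anti μ (le_of_lt hij)
  · intro a ha
    rw [conj_eq, List.mem_map] at ha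
    obtain ⟨j, hj, rfl⟩ := ha
    rw [List.mem_range] at hj
    cases μ with
    | nil => exact absurd hj (Nat.not_lt_zero j)
    | cons b l => exact cn_pos List.mem_cons_self hj
  · have h4 := take_conj h1 (conj μ).length
    rw [List.take_length] at h4
    have h5 : (conj μ).length = μ.headD 0 := by
      rw [conj_eq, List.length_map, List.length_range]
    rw [h4, h5, map_min_of_le (le_head h1), h3]

theorem third {n : ℕ} {μ ρ : List ℕ} (hμ : IsPart n μ) (hρ : IsPart n ρ)
    (h1 : ∀ k, (μ.take k).sum ≤ (ρ.map fun a => min k a).sum) (h2 : Dom ρ (conj μ)) :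
    ρ = conj μ := by
  apply ext_sums ρ (conj μ) hρ.2.1 (isPart_conj hμ).2.1
  intro k
  apply le_antisymm _ (h2 k)
  rw [take_conj hμ.1]
  obtain ⟨m, hm⟩ := map_min_eq hμ.1 k
  rw [hm]
  have h3 := take_le ρ m k
  have h4 := sub_add_min ρ m
  have h5 := take_drop μ m
  have h6 := h1 m
  have h7 := hμ.2.2
  have h8 := hρ.2.2
  omega

theorem fourth {n : ℕ} {μ ρ : List ℕ} (hμ : IsPart n μ) (hρ : IsPart n ρ)
    (h2 : Dom ρ (conj μ)) : ρ.length ≤ (conj μ).length := by
  by_contra hlt
  rw [not_le] at hlt
  have h3 := h2 (conj μ).length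
  rw [List.take_length, (isPart_conj hμ).2.2] at h3
  have h4 := take_drop ρ (conj μ).length
  rw [hρ.2.2] at h4
  have h5 : (ρ.drop (conj μ).length).sum = 0 := by omega
  rw [List.sum_eq_zero_iff] at h5
  have h6 : ρ.drop (conj μ).length ≠ [] := by
    intro h
    rw [List.drop_eq_nil_iff] at h
    omega
  obtain ⟨a, ha⟩ := List.exists_mem_of_ne_nil _ h6
  have h7 := h5 a ha
  have h8 := hρ.2.1 a (List.mem_of_mem_drop ha)
  omega

theorem conj_conj {n : ℕ} {μ : List ℕ} (hμ : IsPart n μ) : conj (conj μ) = μ := by
  symm
  apply third (isPart_conj hμ) hμ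
  · intro k
    rw [take_conj hμ.1]
  · intro k
    rw [take_conj (isPart_conj hμ).1, map_min_conj hμ.1]

end DOM

theorem t_DOM : M_DOM := fun _ _ _ hμ hρ =>
  ⟨DOM.isPart_conj hμ, DOM.conj_conj hμ, DOM.third hμ hρ, DOM.fourth hμ hρ⟩

end Pool.Agent.NEK
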