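import Pool.Agent.NEK.Stmts2

set_option autoImplicit false

namespace Pool.Agent.NEK

open MvPolynomial Finset

namespace DTX

/-- the exponents of the alternant -/
noncomputable def ex {N : ℕ} (kap : Fin N → ℕ) (σ : Equiv.Perm (Fin N)) : Fin N →₀ ℕ :=
  Finsupp.equivFunOnFinite.symm fun i => kap (σ i)

theorem ex_apply {N : ℕ} (kap : Fin N → ℕ) (σ : Equiv.Perm (Fin N)) (i : Fin N) :
    ex kap σ i = kap (σ i) := rfl

theorem prod_eq {L : Type} [CommRing L] {N : ℕ} (kap : Fin N → ℕ) (σ : Equiv.Perm (Fin N)) :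
    (∏ i, (X (σ⁻¹ i) : MvPolynomial (Fin N) L) ^ kap i) = monomial (ex kap σ) 1 := by
  rw [monomial_eq, map_one, one_mul, Finsupp.prod_fintype _ _ (fun i => pow_zero _)]
  rw [← Equiv.prod_comp σ (fun i => (X (σ⁻¹ i) : MvPolynomial (Fin N) L) ^ kap i)]
  refine Finset.prod_congr rfl fun i _ => ?_
  rw [ex_apply, Equiv.Perm.inv_def, Equiv.symm_apply_apply]

theorem alt_eq {L : Type} [CommRing L] {N : ℕ} (kap : Fin N → ℕ) :
    (alt kap : MvPolynomial (Fin N) L) =
      ∑ σ : Equiv.Perm (Fin N), C (((Equiv.Perm.sign σ : ℤˣ) : ℤ) : L) * monomial (ex kap σ) 1 := by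
  unfold alt
  rw [Matrix.det_apply', ← Equiv.sum_comp (Equiv.inv (Equiv.Perm (Fin N)))]
  refine Finset.sum_congr rfl fun σ _ => ?_
  rw [← prod_eq, map_intCast]
  simp only [Equiv.inv_apply, Equiv.Perm.sign_inv, Matrix.of_apply]

theorem sN_eq {L : Type} [CommRing L] [Algebra ℚ L] (P : ℕ → L) (l : List ℕ) :
    sN P l = ∑ σ : Equiv.Perm (Fin l.length), (((Equiv.Perm.sign σ : ℤˣ) : ℤ) : L) *
      ∏ i : Fin l.length, hZ P ((l.get i : ℤ) - (i : ℤ) + ((σ i : Fin l.length) : ℤ)) := by
  unfold sN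
  rw [← Matrix.det_transpose, Matrix.det_apply']
  rfl

end DTX

theorem t_DTX : M_DTX := by
  intro L _ _ P l f hf
  rw [DTX.alt_eq, DTX.sN_eq, Finset.sum_mul, coeff_sum]
  refine Finset.sum_congr rfl fun σ _ => ?_
  rw [mul_assoc, coeff_C_mul, coeff_monomial_mul', one_mul]
  congr 1
  set ε := DTX.ex (fun j : Fin l.length => l.length - 1 - (j : ℕ)) σ with hε
  have hval : ∀ i : Fin l.length, ε i = l.length - 1 - ((σ i : Fin l.length) : ℕ) := fun i => rfl
  split_ifs with h
  · have h' : ∀ i, ε i ≤ ldel l i := fun i => h i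
    have hz : ∀ i : Fin l.length, (((ldel l - ε) i : ℕ) : ℤ) =
        (l.get i : ℤ) - (i : ℤ) + ((σ i : Fin l.length) : ℤ) := by
      intro i
      have h1 := h' i
      rw [Finsupp.tsub_apply, Nat.cast_sub h1, hval, ldel_apply]
      have h2 := i.isLt
      have h3 := (σ i).isLt
      push_cast [Nat.sub_sub]
      omega
    have hd : (ldel l - ε).degree = l.sum := by
      have h1 : (ldel l - ε).degree = ∑ i, (ldel l - ε) i := by
        rw [Finsupp.degree_eq_sum]
      have h2 : ((ldel l - ε).degree : ℤ) = (l.sum : ℤ) := by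
        rw [h1, Nat.cast_sum, Finset.sum_congr rfl fun i _ => hz i, Finset.sum_add_distrib, Finset.sum_sub_distrib,
          Equiv.sum_comp σ (fun i : Fin l.length => ((i : ℕ) : ℤ))]
        rw [sub_add_cancel]
        have h3 : l.sum = ∑ i : Fin l.length, l.get i := by
          rw [← List.sum_ofFn, List.ofFn_get]
        rw [h3, Nat.cast_sum]
      exact_mod_cast h2
    rw [hf _ hd.le]
    refine Finset.prod_congr rfl fun i _ => ?_
    unfold hZ
    rw [← hz i, if_pos (Int.natCast_nonneg _), Int.toNat_natCast]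
  · have h1 : ∃ i, ldel l i < ε i := by
      by_contra hc
      push Not at hc
      exact h fun i => hc i
    obtain ⟨i, hi⟩ := h1
    symm
    refine Finset.prod_eq_zero (Finset.mem_univ i) ?_
    unfold hZ
    rw [if_neg]
    rw [hval, ldel_apply] at hi
    have h2 := i.isLt
    have h3 := (σ i).isLt
    omega

end Pool.Agent.NEK
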