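import Pool.Agent.NEK.Stmts2

/-!
# Module EGV: the eigenvalues at `q = 1`
-/

set_option autoImplicit false

namespace Pool.Agent.NEK

open MvPolynomial Finset

namespace EGV

theorem prod_pow (l : List ℕ) (f : ℕ → ℕ) :
    (l.map fun a => t1 ^ (f a)).prod = t1 ^ (l.map f).sum := by
  induction l with
  | nil => simp
  | cons a l ih => rw [List.map_cons, List.prod_cons, ih, List.map_cons, List.sum_cons, pow_add]

theorem range_sum {M : Type} [AddCommMonoid M] (g : ℕ → M) (a : ℕ) :
    ((List.range a).map g).sum = ∑ i ∈ range a, g i := by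
  induction a with
  | zero => simp
  | succ a ih => rw [List.range_succ, List.map_append, List.sum_append, ih, Finset.sum_range_succ]; simp

theorem rows_sum {M : Type} [AddCommMonoid M] (l : List ℕ) (g : ℕ → M) :
    ((rows l).map g).sum = (l.map fun a => ∑ i ∈ range a, g i).sum := by
  induction l with
  | nil => simp [rows]
  | cons a l ih =>
    have h : rows (a :: l) = List.range a ++ rows l := by simp [rows]
    rw [h, List.map_append, List.sum_append, ih, List.map_cons, List.sum_cons, range_sum]

end EGV

theorem t_EGV : M_CNJ → M_EGV := by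
  intro hC n l hl
  constructor
  · have h1 : AtOne (Tm l) (t1 ^ nn l * 1 ^ nn (conj l)) :=
      A1.mul (A1.pow A1.t_t1 _) (A1.pow A1.q_one _)
    have h2 : t1 ^ nn l * 1 ^ nn (conj l) = ((conj l).map fun a => t1 ^ (a.choose 2)).prod := by
      rw [one_pow, mul_one, EGV.prod_pow]
      congr 1
      have h3 := hC ℕ n l hl (fun i => i)
      have h4 : nn l = ∑ i : Fin l.length, l.get i • (i : ℕ) := by
        rw [nn]
        refine Finset.sum_congr rfl fun i _ => ?_
        rw [smul_eq_mul, mul_comm]
      rw [h4, h3]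
      congr 1
      refine List.map_congr_left fun a _ => ?_
      rw [Finset.sum_range_id, Nat.choose_two_right]
    rw [h2] at h1
    exact h1
  · intro lam
    have h1 : ev (Bp l) (sch lam) = sN (Bp l) lam := by
      have := (HNB.hm Lam K (ev (Bp l) : Lam →+* K) (fun i => (X i : Lam))).2.2 lam
      rw [sch]
      refine Eq.trans this ?_
      congr 1
      funext k
      change (aeval (Bp l) (X k) : K) = Bp l k
      rw [aeval_X]
    rw [h1]
    apply A1.sN_atOne
    intro k
    have h2 : AtOne (Bp l k)
        (∑ i : Fin l.length, ∑ j ∈ range (l.get i), (t1 ^ (i : ℕ) * 1 ^ j) ^ (k + 1)) := by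
      rw [Bp]
      refine A1.sum _ fun i _ => A1.sum _ fun j _ => ?_
      exact A1.pow (A1.mul (A1.pow A1.t_t1 _) (A1.pow A1.q_one _)) _
    have h3 : ∑ i : Fin l.length, ∑ j ∈ range (l.get i), (t1 ^ (i : ℕ) * 1 ^ j) ^ (k + 1) =
        ((rows (conj l)).map fun i => (t1 ^ i) ^ (k + 1)).sum := by
      rw [EGV.rows_sum, ← hC K1 n l hl (fun i => (t1 ^ i) ^ (k + 1))]
      refine Finset.sum_congr rfl fun i _ => ?_
      rw [Finset.sum_congr rfl (fun j _ => by rw [one_pow, mul_one]), Finset.sum_const,
        Finset.card_range]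
    rw [h3] at h2
    exact h2

end Pool.Agent.NEK
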