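import Pool.Agent.NEK.Stmts2

/-!
# Module EKR: `E_{n,k}` is homogeneous and regular at `q = 1` with value `Eb n k`
-/

set_option autoImplicit false

namespace Pool.Agent.NEK

open MvPolynomial Finset

namespace EKR

theorem ne0 {x : K} {y : K1} (h : AtOne x y) (hy : y ≠ 0) : x ≠ 0 := by
  rintro rfl
  exact hy (A1.unique h A1.zero)

theorem q_ne : q ≠ 0 := ne0 A1.q_one one_ne_zero

theorem one_sub_q : (1 : K) - q ≠ 0 := by
  have h1 : (1 : K) - q = A1.iK (1 - X 0) := by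
    rw [map_sub, map_one]
    rfl
  rw [h1]
  apply A1.iK_ne
  intro h
  have h2 := congrArg (MvPolynomial.eval (fun _ : Fin 2 => (0 : ℚ))) h
  rw [map_sub, map_one, eval_X, map_zero, sub_zero] at h2
  exact one_ne_zero h2

/-- `1 + q + ... + q^(j-1)` -/
noncomputable def S (j : ℕ) : K := ∑ l ∈ range j, q ^ l

theorem S_mul (j : ℕ) : (1 : K) - q ^ j = (1 - q) * S j := by
  have h := geom_sum_mul q j
  unfold S
  linear_combination h

theorem S_one (j : ℕ) : AtOne (S j) (j : K1) := by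
  have h := A1.sum (range j) (fun l _ => A1.pow A1.q_one l)
  have h2 : (∑ l ∈ range j, (1 : K1) ^ l) = (j : K1) := by simp
  rw [h2] at h
  exact h

theorem K1_cast {b : ℕ} (hb : b ≠ 0) : (b : K1) ≠ 0 := by exact_mod_cast hb

theorem S_ne {b : ℕ} (hb : b ≠ 0) : S b ≠ 0 := ne0 (S_one b) (K1_cast hb)

theorem ratio (a b : ℕ) (hb : b ≠ 0) :
    AtOne ((1 - (q ^ a)⁻¹) / (1 - q ^ b)) (-((a : K1) / b)) := by
  have h1 : (1 - (q ^ a)⁻¹) / (1 - q ^ b) = -((q ^ a)⁻¹ * S a / S b) := by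
    have h2 : (1 : K) - (q ^ a)⁻¹ = -((q ^ a)⁻¹ * (1 - q ^ a)) := by
      have h3 : (q ^ a)⁻¹ * q ^ a = 1 := inv_mul_cancel₀ (pow_ne_zero _ q_ne)
      linear_combination -h3
    rw [h2, S_mul a, S_mul b, neg_div]
    congr 1
    have h4 := S_ne hb
    have h5 := one_sub_q
    field_simp
  rw [h1]
  have h2 := A1.inv (A1.pow A1.q_one a) (pow_ne_zero _ one_ne_zero)
  have h3 := A1.neg (A1.div (A1.mul h2 (S_one a)) (S_one b) (K1_cast hb))
  rwa [one_pow, inv_one, one_mul] at h3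

theorem cf_one (m i : ℕ) :
    AtOne ((1 - ((q ^ m)⁻¹) ^ (i + 1)) / (1 - q ^ (i + 1))) (-(m : K1)) := by
  have h := ratio (m * (i + 1)) (i + 1) (by omega)
  have h1 : ((q ^ m)⁻¹) ^ (i + 1) = (q ^ (m * (i + 1)))⁻¹ := by rw [inv_pow, ← pow_mul]
  have h2 : ((m * (i + 1) : ℕ) : K1) / ((i + 1 : ℕ) : K1) = m := by
    rw [Nat.cast_mul, mul_div_assoc, div_self (K1_cast (by omega)), mul_one]
  rw [h1]
  rw [h2] at h
  exact h

/-- the coefficient -/
noncomputable def u (m k : ℕ) : K := poch ((q ^ m)⁻¹) k / poch q k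

theorem u_zero {m k : ℕ} (h : m < k) : u m k = 0 := by
  have h1 : poch ((q ^ m)⁻¹) k = 0 := by
    unfold poch
    refine Finset.prod_eq_zero (mem_range.2 h) ?_
    rw [inv_mul_cancel₀ (pow_ne_zero _ q_ne), sub_self]
  rw [u, h1, zero_div]

theorem prod_val (m : ℕ) : ∀ k, k ≤ m →
    ∏ i ∈ range k, (-(((m - i : ℕ) : K1) / ((i + 1 : ℕ) : K1))) = (-1) ^ k * (m.choose k : K1) := by
  intro k
  induction k with
  | zero => intro _; simp
  | succ k ih =>
    intro hk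
    rw [prod_range_succ, ih (by omega)]
    have h1 := Nat.choose_succ_right_eq m k
    have h2 : ((m.choose (k + 1) : ℕ) : K1) * ((k + 1 : ℕ) : K1) =
        ((m.choose k : ℕ) : K1) * ((m - k : ℕ) : K1) := by exact_mod_cast h1
    have h3 : ((k + 1 : ℕ) : K1) ≠ 0 := K1_cast (by omega)
    have h4 : ((m.choose (k + 1) : ℕ) : K1) =
        ((m.choose k : ℕ) : K1) * ((m - k : ℕ) : K1) / ((k + 1 : ℕ) : K1) := by
      rw [eq_div_iff h3, h2]
    rw [h4, pow_succ]
    ring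

theorem u_one {m k : ℕ} (h : k ≤ m) : AtOne (u m k) ((-1) ^ k * (m.choose k : K1)) := by
  rw [← prod_val m k h]
  have h1 : u m k = ∏ i ∈ range k, ((1 - (q ^ (m - i))⁻¹) / (1 - q ^ (i + 1))) := by
    unfold u poch
    rw [← Finset.prod_div_distrib]
    refine Finset.prod_congr rfl fun i hi => ?_
    rw [mem_range] at hi
    have h2 : (q ^ m)⁻¹ * q ^ i = (q ^ (m - i))⁻¹ := by
      have h3 : q ^ m = q ^ (m - i) * q ^ i := by rw [← pow_add]; congr 1; omega
      rw [h3, mul_inv, mul_assoc, inv_mul_cancel₀ (pow_ne_zero _ q_ne), mul_one]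
    have h4 : q * q ^ i = q ^ (i + 1) := by rw [pow_succ, mul_comm]
    rw [h2, h4]
  rw [h1]
  exact A1.prod (range k) fun i _ => ratio (m - i) (i + 1) (by omega)

/-- the left side -/
noncomputable def lhs (n m : ℕ) : Lam :=
  eN (fun i => C ((1 - ((q ^ m)⁻¹) ^ (i + 1)) / (1 - q ^ (i + 1))) * (X i : Lam)) n

theorem lhs_eq (n m : ℕ) : plX (fun i => (1 - ((q ^ m)⁻¹) ^ (i + 1)) / (1 - q ^ (i + 1)))
    (eN (fun i => (X i : Lam)) n) = lhs n m := by
  have h := (HNB.hm Lam Lam ((plX (fun i => (1 - ((q ^ m)⁻¹) ^ (i + 1)) / (1 - q ^ (i + 1))) :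
    Lam →ₐ[K] Lam) : Lam →+* Lam) (fun i => (X i : Lam))).2.1 n
  rw [lhs]
  refine h.trans ?_
  congr 1
  funext i
  exact aeval_X _ i

theorem lhs_one (hP : M_PWR) (n m : ℕ) :
    LamAtOne (lhs n m) (PowerSeries.coeff n (Hh X1 ^ m)) := by
  rw [hP Lam1 X1 m n]
  refine A1.lam_eN (fun k => ?_) n
  have h1 := A1.lam_mul (A1.lam_C (cf_one m k)) (A1.lam_X k)
  have h2 : (C (-(m : K1)) : Lam1) = -(m : Lam1) := by rw [map_neg, map_natCast]
  rw [h2] at h1
  exact h1

theorem gen_pow {A : Type*} [CommRing A] (H : A) (m : ℕ) :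
    H ^ m = ∑ k ∈ range (m + 1), (-1) ^ k * (m.choose k : A) * (1 - H) ^ k := by
  have h1 : H ^ m = (-(1 - H) + 1) ^ m := by
    congr 1
    ring
  rw [h1, add_pow]
  refine Finset.sum_congr rfl fun k _ => ?_
  rw [neg_pow (1 - H), one_pow, mul_one]
  ring

theorem gen_coeff {R : Type*} [CommRing R] (G : PowerSeries R) (n k c : ℕ) :
    PowerSeries.coeff n ((-1) ^ k * (c : PowerSeries R) * G) =
      (-1) ^ k * (c : R) * PowerSeries.coeff n G := by
  have e2 : (-1) ^ k * (c : PowerSeries R) = PowerSeries.C ((-1) ^ k * (c : R)) := by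
    rw [map_mul, map_pow, map_neg, map_one, map_natCast]
  rw [e2, PowerSeries.coeff_C_mul]

theorem gen_binom {R : Type*} [CommRing R] (H : PowerSeries R) (n m : ℕ) (hn : 1 ≤ n)
    (hm : 1 ≤ m) : PowerSeries.coeff n (H ^ m) =
      ∑ k ∈ Ico 1 m, (-1) ^ k * (m.choose k : R) * PowerSeries.coeff n ((1 - H) ^ k) +
        (-1) ^ m * PowerSeries.coeff n ((1 - H) ^ m) := by
  rw [gen_pow H m, map_sum, Finset.sum_congr rfl fun k _ => gen_coeff ((1 - H) ^ k) n k _,
    Finset.sum_range_succ, Finset.range_eq_Ico,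
    Finset.sum_eq_sum_Ico_succ_bot (by omega : 0 < m), pow_zero (1 - H), PowerSeries.coeff_one,
    if_neg (by omega), mul_zero, zero_add, Nat.choose_self, Nat.cast_one, mul_one]

theorem sm (k c : ℕ) (F : Lam1) : ((-1) ^ k * (c : K1)) • F = (-1) ^ k * (c : Lam1) * F := by
  have e3 : (C ((-1) ^ k * (c : K1)) : Lam1) = (-1) ^ k * (c : Lam1) := by
    rw [map_mul, map_pow, map_neg, map_one, map_natCast]
  rw [MvPolynomial.smul_eq_C_mul, e3]

theorem binom (n m : ℕ) (hn : 1 ≤ n) (hm : 1 ≤ m) :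
    PowerSeries.coeff n (Hh X1 ^ m) =
      ∑ k ∈ Ico 1 m, ((-1) ^ k * (m.choose k : K1)) • Eb n k +
        ((-1) ^ m * (m.choose m : K1)) • Eb n m := by
  have h1 := gen_binom (Hh X1) n m hn hm
  rw [sm, Nat.choose_self, Nat.cast_one, mul_one]
  refine h1.trans ?_
  congr 1
  refine Finset.sum_congr rfl fun k _ => ?_
  rw [sm]
  rfl

theorem rec_E {n : ℕ} {E : ℕ → Lam} (hE : IsE n E) {m : ℕ} (h1 : 1 ≤ m) (h2 : m ≤ n) :
    E m = (u m m)⁻¹ • (lhs n m - ∑ k ∈ Ico 1 m, u m k • E k) := by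
  have h := hE ((q ^ m)⁻¹)
  rw [lhs_eq] at h
  have h3 : ∑ k ∈ Icc 1 n, (poch ((q ^ m)⁻¹) k / poch q k) • E k =
      ∑ k ∈ Ico 1 (m + 1), u m k • E k := by
    symm
    refine Finset.sum_subset ?_ ?_
    · intro k hk
      rw [mem_Ico] at hk
      rw [mem_Icc]
      omega
    · intro k _ hk2
      rw [mem_Ico] at hk2
      have h4 : m < k := by
        rename_i hk
        rw [mem_Icc] at hk
        omega
      rw [u_zero h4, zero_smul]
  rw [h3, Finset.sum_Ico_succ_top h1] at h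
  have h5 : u m m ≠ 0 := by
    refine ne0 (u_one le_rfl) ?_
    rw [Nat.choose_self, Nat.cast_one, mul_one]
    exact pow_ne_zero _ (neg_ne_zero.2 one_ne_zero)
  rw [h, add_sub_cancel_left, smul_smul, inv_mul_cancel₀ h5, one_smul]

theorem rec_Eb {n m : ℕ} (hn : 1 ≤ n) (hm : 1 ≤ m) :
    Eb n m = ((-1) ^ m * (m.choose m : K1))⁻¹ • (PowerSeries.coeff n (Hh X1 ^ m) -
      ∑ k ∈ Ico 1 m, ((-1) ^ k * (m.choose k : K1)) • Eb n k) := by
  have h3 : ((-1) ^ m * (m.choose m : K1)) ≠ 0 := by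
    rw [Nat.choose_self, Nat.cast_one, mul_one]
    exact pow_ne_zero _ (neg_ne_zero.2 one_ne_zero)
  rw [binom n m hn hm, add_sub_cancel_left, smul_smul, inv_mul_cancel₀ h3, one_smul]

end EKR

theorem t_EKR : M_PWR → M_PHO → M_EKR := by
  intro hP hH n E hE k
  induction k using Nat.strong_induction_on with
  | _ m ih =>
    intro h1 h2
    constructor
    · rw [← mem_weightedHomogeneousSubmodule, EKR.rec_E hE h1 h2]
      refine Submodule.smul_mem _ _ (Submodule.sub_mem _ ?_ (Submodule.sum_mem _ ?_))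
      · rw [mem_weightedHomogeneousSubmodule]
        exact (hH K (fun i => (1 - ((q ^ m)⁻¹) ^ (i + 1)) / (1 - q ^ (i + 1)))).2.1 n
      · intro k hk
        rw [mem_Ico] at hk
        refine Submodule.smul_mem _ _ ?_
        rw [mem_weightedHomogeneousSubmodule]
        exact (ih k hk.2 hk.1 (by omega)).1
    · rw [EKR.rec_E hE h1 h2, EKR.rec_Eb (by omega : 1 ≤ n) h1]
      have h3 : ((-1) ^ m * (m.choose m : K1)) ≠ 0 := by
        rw [Nat.choose_self, Nat.cast_one, mul_one]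
        exact pow_ne_zero _ (neg_ne_zero.2 one_ne_zero)
      refine A1.lam_smul (A1.inv (EKR.u_one le_rfl) h3) (A1.lam_sub (EKR.lhs_one hP n m) ?_)
      refine A1.lam_sum _ fun k hk => ?_
      rw [mem_Ico] at hk
      exact A1.lam_smul (EKR.u_one hk.2.le) (ih k hk.2 hk.1 (by omega)).2

end Pool.Agent.NEK
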