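import Pool.Agent.NEK.Stmts2

/-!
# ESP: products of elementary functions are Schur positive
-/

set_option autoImplicit false

namespace Pool.Agent.NEK

open MvPolynomial Finset

namespace ESP

/-- the determinants `SD X1 lam`, `lam` antitone with sum `n` -/
def gen (N n : ℕ) : Set Lam1 :=
  {f | ∃ lam : Fin N → ℕ, Antitone lam ∧ ∑ i, lam i = n ∧ f = SD X1 lam}

theorem X1_eq : (X1 : ℕ → Lam1) = fun i => (X i : Lam1) := rfl

theorem sum_filter_pos (l : List ℕ) : (l.filter fun a => decide (0 < a)).sum = l.sum := by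
  induction l with
  | nil => rfl
  | cons a l ih =>
    rw [List.filter_cons]
    by_cases h : 0 < a
    · rw [if_pos (by simpa using h), List.sum_cons, List.sum_cons, ih]
    · rw [if_neg (by simpa using h), List.sum_cons, ih]
      omega

theorem sum_ofFn {N : ℕ} (lam : Fin N → ℕ) : (List.ofFn lam).sum = ∑ i, lam i :=
  List.sum_ofFn

theorem isPart_filter {N n : ℕ} (lam : Fin N → ℕ) (h : Antitone lam) (hs : ∑ i, lam i = n) :
    IsPart n ((List.ofFn lam).filter fun a => decide (0 < a)) := by
  refine ⟨?_, ?_, ?_⟩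
  · apply List.Pairwise.filter
    rw [List.pairwise_ofFn]
    intro i j hij
    exact h hij.le
  · intro a ha
    rw [List.mem_filter] at ha
    simpa using ha.2
  · rw [sum_filter_pos, sum_ofFn, hs]

theorem one_mem (hP : Stmt_PAD) (N : ℕ) : (1 : Lam1) ∈ AddSubmonoid.closure (gen N 0) := by
  apply AddSubmonoid.subset_closure
  refine ⟨fun _ => 0, fun _ _ _ => le_refl _, by simp, ?_⟩
  rw [hP Lam1 X1 N (fun _ => 0) (fun _ _ _ => le_refl _)]
  have h : ((List.ofFn fun _ : Fin N => 0).filter fun a => decide (0 < a)) = [] := by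
    rw [List.filter_eq_nil_iff]
    intro a ha
    rw [List.mem_ofFn] at ha
    obtain ⟨i, rfl⟩ := ha
    simp
  rw [h]
  simp [sN]

theorem prod_mem (hV : M_VPI) (hP : Stmt_PAD) (N : ℕ) : ∀ β : List ℕ, β.sum ≤ N →
    (β.map fun a => eN X1 a).prod ∈ AddSubmonoid.closure (gen N β.sum) := by
  intro β
  induction β with
  | nil =>
    intro _
    rw [List.map_nil, List.prod_nil, List.sum_nil]
    exact one_mem hP N
  | cons a β ih =>
    intro h
    rw [List.sum_cons] at h
    have h1 := ih (by omega)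
    rw [List.map_cons, List.prod_cons, List.sum_cons]
    refine AddSubmonoid.closure_induction (motive := fun x _ => eN X1 a * x ∈
      AddSubmonoid.closure (gen N (a + β.sum))) ?_ ?_ ?_ h1
    · rintro x ⟨lam, h2, h3, rfl⟩
      rw [hV N a lam h2 (by omega)]
      apply AddSubmonoid.sum_mem
      intro r hr
      rw [Finset.mem_filter] at hr
      apply AddSubmonoid.subset_closure
      refine ⟨fun i => lam i + r i, hr.2.2, ?_, rfl⟩
      rw [Finset.sum_add_distrib, hr.2.1, h3]
      omega
    · rw [mul_zero]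
      exact AddSubmonoid.zero_mem _
    · intro x y _ _ hx hy
      rw [mul_add]
      exact AddSubmonoid.add_mem _ hx hy

theorem smul_mem (hP : Stmt_PAD) {N n : ℕ} {c : K1} (hc : c ∈ N1) {x : Lam1}
    (hx : x ∈ AddSubmonoid.closure (gen N n)) : c • x ∈ SPos1 n := by
  refine AddSubmonoid.closure_induction (motive := fun x _ => c • x ∈ SPos1 n) ?_ ?_ ?_ hx
  · rintro x ⟨lam, h2, h3, rfl⟩
    rw [hP Lam1 X1 N lam h2]
    exact AddSubmonoid.subset_closure ⟨c, hc, _, isPart_filter lam h2 h3, rfl⟩
  · rw [smul_zero]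
    exact AddSubmonoid.zero_mem _
  · intro x y _ _ hx hy
    rw [smul_add]
    exact AddSubmonoid.add_mem _ hx hy

end ESP

theorem t_ESP : M_VPI → Stmt_PAD → M_ESP := by
  intro hV hP n
  rw [EPos, AddSubmonoid.closure_le]
  rintro f ⟨c, hc, β, hβ, rfl⟩
  have h1 := ESP.prod_mem hV hP n β (by rw [hβ.2.2])
  rw [hβ.2.2] at h1
  exact ESP.smul_mem hP hc h1

end Pool.Agent.NEK
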