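import Pool.Agent.NEK.Stmts2

/-!
# The module ETA: two generating function identities
-/

set_option autoImplicit false

namespace Pool.Agent.NEK

open MvPolynomial Finset

namespace ETA

theorem t1_pow_ne (i : ℕ) : t1 ^ (i + 1) ≠ 1 := by
  intro h
  have h1 : algebraMap (Polynomial ℚ) K1 (Polynomial.X ^ (i + 1)) = algebraMap (Polynomial ℚ) K1 1 := by
    rw [map_pow, map_one]
    exact h
  have h2 := IsFractionRing.injective (Polynomial ℚ) K1 h1
  have h3 := congrArg Polynomial.natDegree h2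
  rw [Polynomial.natDegree_X_pow, Polynomial.natDegree_one] at h3
  omega

theorem bt_eq (i : ℕ) : bt i = 1 + t1 ^ (i + 1) * bt i := by
  have h : (1 - t1 ^ (i + 1)) * bt i = 1 := by
    rw [bt]
    exact mul_inv_cancel₀ (sub_ne_zero.2 (t1_pow_ne i).symm)
  linear_combination h

theorem eta_eq (n : ℕ) : eta n = ∑ ij ∈ antidiagonal n, hN X1 ij.1 * (C (t1 ^ ij.2) * eta ij.2) := by
  have h1 : (fun i => C (bt i) * X i : ℕ → Lam1) =
      fun k => X1 k + (C t1) ^ (k + 1) * (C (bt k) * X k) := by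
    funext k
    have h := congrArg (fun z : K1 => (C z : Lam1)) (bt_eq k)
    simp only [C_add, C_mul, C_1, C_pow] at h
    rw [X1]
    linear_combination (X k : Lam1) * h
  have h2 : eta n = hN (fun i => C (bt i) * X i : ℕ → Lam1) n := rfl
  rw [h2, h1, HNB.ha]
  refine Finset.sum_congr rfl fun x _ => ?_
  rw [(HNB.hs Lam1 (fun k => C (bt k) * X k) (C t1) x.2).1, C_pow]
  rfl

theorem second : Hh X1 * PowerSeries.mk (fun a => C (t1 ^ a) * ((-1) ^ a * eta a)) =
    PowerSeries.mk (fun a => (-1) ^ a * eta a) := by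
  ext1 n
  rw [Hh, PowerSeries.coeff_mul, PowerSeries.coeff_mk]
  conv_rhs => rw [eta_eq n, Finset.mul_sum]
  refine Finset.sum_congr rfl fun x hx => ?_
  rw [PowerSeries.coeff_mk, PowerSeries.coeff_mk]
  rw [HasAntidiagonal.mem_antidiagonal] at hx
  rw [← hx, pow_add]
  ring

theorem eN_eq {R : Type} [CommRing R] [Algebra ℚ R] (P : ℕ → R) (n : ℕ) :
    eN P n = (-1) ^ n * hN (fun k => - P k) n := by
  refine HNB.eu R P (fun n => (-1) ^ n * hN (fun k => - P k) n) ?_ ?_ n
  · change (-1) ^ 0 * hN (fun k => - P k) 0 = 1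
    rw [hN, pow_zero, one_mul]
  · intro n
    have h : ((n + 1 : ℕ) : R) * ((-1) ^ (n + 1) * hN (fun k => - P k) (n + 1)) =
        (-1) ^ (n + 1) * (((n + 1 : ℕ) : R) * hN (fun k => - P k) (n + 1)) := by ring
    rw [h, HNB.hr, Finset.mul_sum]
    refine Finset.sum_congr rfl fun k hk => ?_
    rw [Finset.mem_range] at hk
    have e : n = k + (n - k) := by omega
    have e2 : (-1 : R) ^ n = (-1) ^ k * (-1) ^ (n - k) := by rw [← pow_add, ← e]
    rw [pow_succ, e2]
    ring

theorem inv_Hh {R : Type} [CommRing R] [Algebra ℚ R] (P : ℕ → R) :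
    PowerSeries.mk (eN P) * Hh P = 1 := by
  ext1 n
  rw [Hh, PowerSeries.coeff_mul, PowerSeries.coeff_one]
  have h1 : ∑ x ∈ antidiagonal n, PowerSeries.coeff x.1 (PowerSeries.mk (eN P)) *
      PowerSeries.coeff x.2 (PowerSeries.mk fun a => (-1) ^ a * hN P a) =
      (-1) ^ n * ∑ x ∈ antidiagonal n, hN (fun k => - P k) x.1 * hN P x.2 := by
    rw [Finset.mul_sum]
    refine Finset.sum_congr rfl fun x hx => ?_
    rw [PowerSeries.coeff_mk, PowerSeries.coeff_mk, eN_eq]
    rw [HasAntidiagonal.mem_antidiagonal] at hx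
    rw [← hx, pow_add]
    ring
  rw [h1, ← HNB.ha R (fun k => - P k) P n]
  have h2 : (fun k => - P k + P k) = fun _ => (0 : R) := by
    funext k
    ring
  rw [h2, (HNB.hs R P 0 n).2.2.1]
  split_ifs with h
  · rw [h, pow_zero, one_mul]
  · rw [mul_zero]

theorem first (a : ℕ) : ∑ ij ∈ antidiagonal a, eN X1 ij.1 * ((-1) ^ ij.2 * eta ij.2) =
    C (t1 ^ a) * ((-1) ^ a * eta a) := by
  have h := congrArg (fun z => PowerSeries.coeff a (PowerSeries.mk (eN X1) * z)) second
  change PowerSeries.coeff a (PowerSeries.mk (eN X1) * (Hh X1 * PowerSeries.mk (fun a => C (t1 ^ a) *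
    ((-1) ^ a * eta a)))) = PowerSeries.coeff a (PowerSeries.mk (eN X1) *
      PowerSeries.mk (fun a => (-1) ^ a * eta a)) at h
  rw [← mul_assoc, inv_Hh, one_mul, PowerSeries.coeff_mk, PowerSeries.coeff_mul] at h
  rw [h]
  refine Finset.sum_congr rfl fun x _ => ?_
  rw [PowerSeries.coeff_mk, PowerSeries.coeff_mk]

end ETA

/-- The module ETA. -/
theorem t_ETA : M_ETA := ⟨ETA.first, ETA.second⟩

end Pool.Agent.NEK
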