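import Pool.Agent.NEK.Stmts2

/-!
# Module EVT: evaluation of `η_a` at `p_k ↦ 1`
-/

set_option autoImplicit false

namespace Pool.Agent.NEK

open MvPolynomial Finset

namespace EVT

theorem one_sub_ne (i : ℕ) : (1 : K1) - t1 ^ (i + 1) ≠ 0 := by
  intro h
  have h1 : t1 ^ (i + 1) = 1 := (sub_eq_zero.1 h).symm
  have h2 : A1.iT ((Polynomial.X : Polynomial ℚ) ^ (i + 1)) = A1.iT 1 := by
    rw [map_pow, map_one]
    exact h1
  have h3 := A1.iT_inj h2
  have h4 := congrArg Polynomial.natDegree h3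
  rw [Polynomial.natDegree_X_pow, Polynomial.natDegree_one] at h4
  omega

theorem ev_eta (a : ℕ) : (aeval (fun _ => (1 : K1)) (eta a) : K1) = hN bt a := by
  have h := (HNB.hm Lam1 K1 ((aeval (fun _ => (1 : K1)) : Lam1 →ₐ[K1] K1) : Lam1 →+* K1)
    (fun i => C (bt i) * X i)).1 a
  have h1 : (fun k => ((aeval (fun _ => (1 : K1)) : Lam1 →ₐ[K1] K1) : Lam1 →+* K1)
      (C (bt k) * X k)) = bt := by
    funext k
    simp
  rw [h1] at h
  exact h

theorem bt_split (k : ℕ) : bt k = 1 ^ (k + 1) + t1 ^ (k + 1) * bt k := by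
  have h := one_sub_ne k
  rw [bt, one_pow]
  field_simp
  ring

theorem rec (n : ℕ) : hN bt n = ∑ j ∈ range (n + 1), t1 ^ j * hN bt j := by
  have h := HNB.ha K1 (fun k => (1 : K1) ^ (k + 1)) (fun k => t1 ^ (k + 1) * bt k) n
  have h1 : (fun k => (1 : K1) ^ (k + 1) + t1 ^ (k + 1) * bt k) = bt :=
    funext fun k => (bt_split k).symm
  have h2 : (fun k => (fun k => (1 : K1) ^ (k + 1)) k + (fun k => t1 ^ (k + 1) * bt k) k) = bt := h1
  rw [h2] at h
  rw [h, ← Finset.Nat.sum_antidiagonal_swap]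
  rw [Finset.Nat.sum_antidiagonal_eq_sum_range_succ_mk]
  refine Finset.sum_congr rfl fun j _ => ?_
  change hN (fun k => (1 : K1) ^ (k + 1)) (n - j) * hN (fun k => t1 ^ (k + 1) * bt k) j = _
  rw [(HNB.hs K1 bt 1 (n - j)).2.1, (HNB.hs K1 bt t1 j).1, one_pow, one_mul]

theorem val (n : ℕ) : hN bt n = (tf n)⁻¹ := by
  induction n with
  | zero => rw [hN, tf, range_zero, prod_empty, inv_one]
  | succ n ih =>
    have h := rec (n + 1)
    rw [Finset.sum_range_succ, ← rec n] at h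
    have h1 := one_sub_ne n
    have h2 : (1 - t1 ^ (n + 1)) * hN bt (n + 1) = hN bt n := by
      linear_combination h
    have h3 : tf (n + 1) = tf n * (1 - t1 ^ (n + 1)) := by
      rw [tf, Finset.prod_range_succ, ← tf]
    rw [h3, mul_inv, ← ih, ← h2]
    field_simp

end EVT

theorem t_EVT : M_EVT := ⟨EVT.one_sub_ne, fun a => by rw [EVT.ev_eta, EVT.val]⟩

end Pool.Agent.NEK
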