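import Pool.Agent.NEK.Stmts2

set_option autoImplicit false

namespace Pool.Agent.NEK

open MvPolynomial Finset

namespace FI2

theorem Hb_eq (l : List ℕ) : Hb l = ((l.map tf).prod) • hbp bt l := by
  rw [Hb, hbp]
  induction l with
  | nil => simp
  | cons a l ih =>
    rw [List.map_cons, List.prod_cons, ih, List.map_cons, List.prod_cons, List.map_cons,
      List.prod_cons, MvPolynomial.smul_eq_C_mul, MvPolynomial.smul_eq_C_mul, C_mul]
    change C (tf a) * hb bt a * _ = _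
    ring

theorem tf_ne (hE : M_EVT) (a : ℕ) : tf a ≠ 0 := by
  rw [tf, Finset.prod_ne_zero_iff]
  intro i _
  exact hE.1 i

theorem tfp_ne (hE : M_EVT) (l : List ℕ) : (l.map tf).prod ≠ 0 := by
  intro h
  obtain ⟨a, -, h2⟩ := List.mem_map.1 (List.prod_eq_zero_iff.1 h)
  exact tf_ne hE a h2

theorem bt_ne (hE : M_EVT) (i : ℕ) : bt i ≠ 0 := inv_ne_zero (hE.1 i)

theorem conj_mem (hD : M_DOM) {n : ℕ} {l : List ℕ} (h : l ∈ PS n) : conj l ∈ PS n :=
  mem_PS.2 (hD n l l (mem_PS.1 h) (mem_PS.1 h)).1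

theorem conj_conj (hD : M_DOM) {n : ℕ} {l : List ℕ} (h : l ∈ PS n) : conj (conj l) = l :=
  (hD n l l (mem_PS.1 h) (mem_PS.1 h)).2.1

theorem indep (hL : M_LIN) (hD : M_DOM) (hE : M_EVT) (n : ℕ) (c : List ℕ → K1)
    (h : ∑ l ∈ PS n, c l • Hb (conj l) = 0) : ∀ l ∈ PS n, c l = 0 := by
  have h1 : ∑ l ∈ PS n, (c (conj l) * (l.map tf).prod) • hbp bt l = 0 := by
    rw [← h]
    refine Finset.sum_bij' (fun l _ => conj l) (fun l _ => conj l) (fun l hl => conj_mem hD hl)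
      (fun l hl => conj_mem hD hl) (fun l hl => conj_conj hD hl) (fun l hl => conj_conj hD hl) ?_
    intro l hl
    rw [conj_conj hD hl, Hb_eq, smul_smul]
  have h2 := hL K1 bt (bt_ne hE) n _ h1
  intro l hl
  have h3 := h2 (conj l) (conj_mem hD hl)
  simp only [conj_conj hD hl] at h3
  exact (mul_eq_zero.1 h3).resolve_right (tfp_ne hE _)

end FI2

open FI2 in
theorem t_FI2 : M_FI2 := by
  intro hKEY hEKR hNAK hLIN hDOM hEGV hQON hPHO hHEP hESP hEVT n hn H hH lam m hlam nabla delta hnabla hdelta E hE k hk1 hk2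
  obtain ⟨hEk, hEk1⟩ := hEKR n E hE k hk1 hk2
  have hK := hKEY n H hn hH
  obtain ⟨c, c1, hc, hcE, hcE1⟩ := hNAK n H (fun l => Hb (conj l))
    (fun l hl => hK l (mem_PS.1 hl)) (indep hLIN hDOM hEVT n) (E k) (Eb n k) hEk hEk1
  obtain ⟨Lm, hLm, hLm2⟩ := hQON m lam hlam
  have hF : delta (nabla (E k)) = ∑ l ∈ PS n, (c l * (Tm l * ev (Bp l) (sch lam))) • H l := by
    rw [hcE, map_sum, map_sum]
    refine Finset.sum_congr rfl fun l hl => ?_
    rw [map_smul, map_smul, hnabla l (mem_PS.1 hl), map_smul, hdelta l (mem_PS.1 hl), smul_smul,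
      smul_smul]
    ring_nf
  have hF1 : Lm (Eb n k) = ∑ l ∈ PS n, (c1 l * ((((conj l).map fun a => t1 ^ (a.choose 2)).prod) *
      sN (fun k => ((rows (conj l)).map fun i => (t1 ^ i) ^ (k + 1)).sum) lam)) • Hb (conj l) := by
    rw [hcE1, map_sum]
    refine Finset.sum_congr rfl fun l hl => ?_
    rw [map_smul, hLm, smul_smul]
  have hhom : IsWeightedHomogeneous wt (Lm (Eb n k)) n := by
    rw [hF1]
    refine IsWeightedHomogeneous.sum _ _ _ fun l hl => ?_
    have h1 := (hPHO K1 bt).2.2.1 (conj l)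
    rw [(mem_PS.1 (conj_mem hDOM hl)).2.2] at h1
    rw [Hb_eq, smul_smul, MvPolynomial.smul_eq_C_mul]
    have h2 := (isWeightedHomogeneous_C wt (c1 l * ((((conj l).map fun a =>
      t1 ^ (a.choose 2)).prod) * sN (fun k => ((rows (conj l)).map fun i =>
      (t1 ^ i) ^ (k + 1)).sum) lam) * ((conj l).map tf).prod)).mul h1
    rwa [zero_add] at h2
  have hE1 : Lm (Eb n k) ∈ EPos n := hHEP n _ (hLm2 n k) hhom
  refine ⟨Lm (Eb n k), ?_, hE1, hESP n hE1⟩
  rw [hF, hF1]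
  refine A1.lam_sum _ fun l hl => A1.lam_smul ?_ (hK l (mem_PS.1 hl)).2
  have h := hEGV n l (mem_PS.1 hl)
  exact A1.mul (hc l hl) (A1.mul h.1 (h.2 lam))

end Pool.Agent.NEK
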