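import Pool.Agent.NEK.Stmts2

/-!
Evaluation in power sums of `N` variables, coefficientwise.
-/

set_option autoImplicit false

namespace Pool.Agent.NEK

open MvPolynomial Finset

namespace FUN

theorem map_psY (L : Type) [Field L] (N i : ℕ) :
    MvPolynomial.map (Int.castRingHom L) (psY ℤ N i) = psY L N i := by
  unfold psY
  simp [map_sum, map_pow]

theorem map_prod_psY (L : Type) [Field L] (N : ℕ) (d : ℕ →₀ ℕ) :
    MvPolynomial.map (Int.castRingHom L) (d.prod fun i e => psY ℤ N i ^ e) =
      d.prod fun i e => psY L N i ^ e := by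
  unfold Finsupp.prod
  rw [map_prod]
  exact Finset.prod_congr rfl fun i _ => by rw [map_pow, map_psY]

end FUN

theorem t_FUN : M_FUN := by
  intro L _ a N β F
  conv_lhs => rw [F.as_sum, map_sum, coeff_sum]
  refine Finset.sum_congr rfl fun d _ => ?_
  rw [aeval_monomial]
  have h1 : (d.prod fun i k => (C (a i) * psY L N i) ^ k : MvPolynomial (Fin N) L) =
      C (d.prod fun i e => a i ^ e) * d.prod fun i e => psY L N i ^ e := by
    unfold Finsupp.prod
    rw [map_prod, ← Finset.prod_mul_distrib]
    refine Finset.prod_congr rfl fun i _ => ?_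
    show (C (a i) * psY L N i) ^ d i = C (a i ^ d i) * psY L N i ^ d i
    rw [mul_pow, map_pow]
  rw [h1, MvPolynomial.algebraMap_eq, coeff_C_mul, coeff_C_mul, ← FUN.map_prod_psY, coeff_map,
    mul_assoc]
  rfl

end Pool.Agent.NEK
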