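import Pool.Agent.NEK.Stmts2

/-!
# Module GPS: positivity of the coefficients of `G`
-/

set_option autoImplicit false

namespace Pool.Agent.NEK

open MvPolynomial Finset

namespace GPS

/-- polynomials with coefficients in a subsemiring -/
noncomputable def PS {R : Type} [CommRing R] (S : Subsemiring R) : Subsemiring (Polynomial R) where
  carrier := {p | ∀ i, p.coeff i ∈ S}
  mul_mem' := by
    intro a b ha hb i
    rw [Polynomial.coeff_mul]
    exact S.sum_mem fun x _ => S.mul_mem (ha _) (hb _)
  one_mem' := by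
    intro i
    rw [Polynomial.coeff_one]
    split_ifs
    · exact S.one_mem
    · exact S.zero_mem
  add_mem' := by
    intro a b ha hb i
    rw [Polynomial.coeff_add]
    exact S.add_mem (ha _) (hb _)
  zero_mem' := by
    intro i
    rw [Polynomial.coeff_zero]
    exact S.zero_mem

theorem C_mem {R : Type} [CommRing R] (S : Subsemiring R) {x : R} (hx : x ∈ S) :
    Polynomial.C x ∈ PS S := by
  intro i
  rw [Polynomial.coeff_C]
  split_ifs
  · exact hx
  · exact S.zero_mem

theorem X_mem {R : Type} [CommRing R] (S : Subsemiring R) : (Polynomial.X : Polynomial R) ∈ PS S := by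
  intro i
  rw [Polynomial.coeff_X]
  split_ifs
  · exact S.one_mem
  · exact S.zero_mem

theorem core {R : Type} [CommRing R] (S : Subsemiring R) (τ : R) (hτ : τ ∈ S) (w : ℕ → R)
    (G V : PowerSeries R) (P : ℕ → Polynomial R) (hP : ∀ i k, (P i).coeff k ∈ S)
    (hP0 : ∀ i, (P i).coeff 0 = 0) (hPz : P 0 = 0)
    (hV : PowerSeries.mk (fun a => τ ^ a * w a) * V = 1)
    (hG : (1 - G) * PowerSeries.mk (fun a => τ ^ a * w a) = PowerSeries.mk w)
    (hw : ∀ a, τ ^ a * w a = w a + ∑ x ∈ antidiagonal a, (P x.1).eval (τ ^ x.2) * w x.2)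
    (hG0 : PowerSeries.coeff 0 G = 0) : ∀ n, PowerSeries.coeff n G ∈ S := by
  obtain ⟨Y, hYdef⟩ : ∃ Y : ℕ → PowerSeries R,
      ∀ M, Y M = PowerSeries.mk (fun a => (τ ^ M) ^ a * w a) * V := ⟨_, fun _ => rfl⟩
  have hY1 : Y 1 = 1 := by
    rw [← hV, hYdef, pow_one]
  have hYs : ∀ M, Y (M + 1) = Y M + PowerSeries.rescale (τ ^ M) G * Y (M + 1) := by
    intro M
    have h1 := congrArg (PowerSeries.rescale (τ ^ M)) hG
    rw [map_mul, map_sub, map_one] at h1
    have h2 : PowerSeries.rescale (τ ^ M) (PowerSeries.mk (fun a => τ ^ a * w a)) =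
        PowerSeries.mk (fun a => (τ ^ (M + 1)) ^ a * w a) := by
      ext a
      rw [PowerSeries.coeff_rescale, PowerSeries.coeff_mk, PowerSeries.coeff_mk, pow_succ τ M,
        mul_pow]
      ring
    have h3 : PowerSeries.rescale (τ ^ M) (PowerSeries.mk w) =
        PowerSeries.mk (fun a => (τ ^ M) ^ a * w a) := by
      ext a
      rw [PowerSeries.coeff_rescale, PowerSeries.coeff_mk, PowerSeries.coeff_mk]
    rw [h2, h3] at h1
    rw [hYdef, hYdef, ← h1]
    ring
  have hGV : G = (PowerSeries.mk (fun a => τ ^ a * w a) - PowerSeries.mk w) * V := by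
    rw [sub_mul, hV, ← hG, mul_assoc, hV]
    ring
  intro n
  induction n using Nat.strong_induction_on with
  | _ n ih =>
    have hYS : ∀ p, p < n → ∀ M, PowerSeries.coeff p (Y (M + 1)) ∈ S := by
      intro p
      induction p using Nat.strong_induction_on with
      | _ p ihp =>
        intro hp M
        induction M with
        | zero =>
          rw [zero_add, hY1, PowerSeries.coeff_one]
          split_ifs
          · exact S.one_mem
          · exact S.zero_mem
        | succ M ihM =>
          rw [hYs (M + 1), map_add, PowerSeries.coeff_mul]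
          refine S.add_mem ihM (S.sum_mem fun x hx => ?_)
          rw [HasAntidiagonal.mem_antidiagonal] at hx
          rw [PowerSeries.coeff_rescale]
          rcases Nat.eq_zero_or_pos x.1 with h0 | h0
          · rw [h0, hG0, mul_zero, zero_mul]
            exact S.zero_mem
          · exact S.mul_mem (S.mul_mem (S.pow_mem (S.pow_mem hτ _) _) (ih _ (by omega)))
              (ihp _ (by omega) (by omega) _)
    set K := (Finset.range (n + 1)).sup (fun i => (P i).natDegree) + 1 with hK
    have hdeg : ∀ i, i ≤ n → (P i).natDegree < K := by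
      intro i hi
      have := Finset.le_sup (f := fun i => (P i).natDegree) (Finset.mem_range.mpr
        (Nat.lt_succ_of_le hi))
      exact Nat.lt_succ_of_le this
    set Q : PowerSeries R := ∑ k ∈ range K, PowerSeries.mk (fun i => (P i).coeff k) *
      PowerSeries.mk (fun a => (τ ^ k) ^ a * w a) with hQ
    have hQc : ∀ a, a ≤ n → PowerSeries.coeff a (PowerSeries.mk (fun a => τ ^ a * w a) -
        PowerSeries.mk w) = PowerSeries.coeff a Q := by
      intro a ha
      rw [map_sub, PowerSeries.coeff_mk, PowerSeries.coeff_mk, hw a, hQ, map_sum,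
        add_sub_cancel_left]
      have h1 : ∀ k ∈ range K, PowerSeries.coeff a (PowerSeries.mk (fun i => (P i).coeff k) *
          PowerSeries.mk (fun a => (τ ^ k) ^ a * w a)) =
          ∑ x ∈ antidiagonal a, (P x.1).coeff k * ((τ ^ k) ^ x.2 * w x.2) := by
        intro k _
        rw [PowerSeries.coeff_mul]
        refine Finset.sum_congr rfl fun x _ => ?_
        rw [PowerSeries.coeff_mk, PowerSeries.coeff_mk]
      rw [Finset.sum_congr rfl h1, Finset.sum_comm]
      refine Finset.sum_congr rfl fun x hx => ?_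
      rw [HasAntidiagonal.mem_antidiagonal] at hx
      rw [Polynomial.eval_eq_sum_range' (hdeg x.1 (by omega)), Finset.sum_mul]
      refine Finset.sum_congr rfl fun k _ => ?_
      rw [← pow_mul, ← pow_mul, mul_comm k x.2]
      ring
    have hfin : PowerSeries.coeff n G = PowerSeries.coeff n (Q * V) := by
      rw [hGV, PowerSeries.coeff_mul, PowerSeries.coeff_mul]
      refine Finset.sum_congr rfl fun x hx => ?_
      rw [HasAntidiagonal.mem_antidiagonal] at hx
      rw [hQc x.1 (by omega)]
    rw [hfin, hQ, Finset.sum_mul, map_sum]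
    refine S.sum_mem fun k _ => ?_
    rw [mul_assoc, ← hYdef, PowerSeries.coeff_mul]
    refine S.sum_mem fun x hx => ?_
    rw [HasAntidiagonal.mem_antidiagonal] at hx
    rw [PowerSeries.coeff_mk]
    rcases Nat.eq_zero_or_pos x.1 with h0 | h0
    · rw [h0, hPz, Polynomial.coeff_zero, zero_mul]
      exact S.zero_mem
    · cases k with
      | zero =>
        rw [hP0, zero_mul]
        exact S.zero_mem
      | succ k => exact S.mul_mem (hP _ _) (hYS _ (by omega) _)

end GPS

theorem t_GPS : M_GPS := by
  intro R _ S τ e g c w D hτ he hg he0 hc0 hc hw G hG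
  set ω : ℕ → R := fun j => ∑ m ∈ range (D + 1), g m * τ ^ (j * m) with hω
  set P1 : ℕ → Polynomial R := fun i => Polynomial.C (e i) * Polynomial.C (τ ^ (i.choose 2)) *
    Polynomial.X ^ i * ∏ j ∈ range i, ∑ m ∈ range (D + 1),
      Polynomial.C (g m * τ ^ (j * m)) * Polynomial.X ^ m with hP1
  have hP1m : ∀ i, P1 i ∈ GPS.PS S := by
    intro i
    refine Subsemiring.mul_mem _ (Subsemiring.mul_mem _ (Subsemiring.mul_mem _ ?_ ?_) ?_) ?_
    · exact GPS.C_mem S (he i)
    · exact GPS.C_mem S (S.pow_mem hτ _)
    · exact Subsemiring.pow_mem _ (GPS.X_mem S) i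
    · refine Subsemiring.prod_mem _ fun j _ => Subsemiring.sum_mem _ fun m _ => ?_
      exact Subsemiring.mul_mem _ (GPS.C_mem S (S.mul_mem (hg m) (S.pow_mem hτ _)))
        (Subsemiring.pow_mem _ (GPS.X_mem S) m)
  have hP1e : ∀ i b, (P1 i).eval (τ ^ b) =
      e i * τ ^ (i.choose 2) * τ ^ (b * i) * ∏ j ∈ range i, ω (b + j) := by
    intro i b
    simp only [hP1, hω, Polynomial.eval_mul, Polynomial.eval_C, Polynomial.eval_pow,
      Polynomial.eval_X, Polynomial.eval_prod, Polynomial.eval_finsetSum]
    rw [← pow_mul]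
    congr 1
    refine Finset.prod_congr rfl fun j _ => Finset.sum_congr rfl fun m _ => ?_
    rw [← pow_mul, mul_assoc, ← pow_add]
    congr 2
    ring
  set P : ℕ → Polynomial R := fun i => if i = 0 then 0 else P1 i with hPdef
  have hw0 : w 0 = 1 := by
    rw [hw 0, hc0]
    simp
  have hkey : ∀ a, τ ^ a * w a = w a + ∑ x ∈ antidiagonal a, (P x.1).eval (τ ^ x.2) * w x.2 := by
    intro a
    have h1 : τ ^ a * w a = ∑ x ∈ antidiagonal a, (P1 x.1).eval (τ ^ x.2) * w x.2 := by
      rw [hw a, ← mul_assoc, ← mul_assoc, ← hc a, Finset.sum_mul, Finset.sum_mul]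
      refine Finset.sum_congr rfl fun x hx => ?_
      rw [HasAntidiagonal.mem_antidiagonal] at hx
      rw [hP1e, hw x.2]
      have h2 : a.choose 2 = x.2.choose 2 + x.1.choose 2 + x.2 * x.1 := by
        rw [← hx]
        have h3 := Nat.add_choose_eq x.1 x.2 2
        rw [h3]
        have h4 : antidiagonal 2 = {(0, 2), (1, 1), (2, 0)} := by decide
        rw [h4, Finset.sum_insert (by decide), Finset.sum_insert (by decide),
          Finset.sum_singleton]
        simp
        ring
      have h3 : ∏ j ∈ range a, ω j = (∏ j ∈ range x.2, ω j) * ∏ j ∈ range x.1, ω (x.2 + j) := by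
        rw [← hx, add_comm x.1 x.2, Finset.prod_range_add]
      change e x.1 * c x.2 * τ ^ (a.choose 2) * ∏ j ∈ range a, ω j =
        e x.1 * τ ^ (x.1.choose 2) * τ ^ (x.2 * x.1) * (∏ j ∈ range x.1, ω (x.2 + j)) *
          (c x.2 * τ ^ (x.2.choose 2) * ∏ j ∈ range x.2, ω j)
      rw [h3, h2, pow_add, pow_add]
      ring
    rw [h1]
    have h2 : ∀ x ∈ antidiagonal a, (P1 x.1).eval (τ ^ x.2) * w x.2 =
        (if x = (0, a) then w a else 0) + (P x.1).eval (τ ^ x.2) * w x.2 := by
      intro x hx
      rw [HasAntidiagonal.mem_antidiagonal] at hx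
      by_cases h0 : x.1 = 0
      · have hx' : x = (0, a) := by
          ext
          · exact h0
          · change x.2 = a
            omega
        rw [if_pos hx', hx']
        have h5 : P 0 = 0 := if_pos rfl
        rw [h5, Polynomial.eval_zero, zero_mul, add_zero, hP1e]
        simp [he0]
      · have hx' : x ≠ (0, a) := by
          intro h
          exact h0 (by rw [h])
        rw [if_neg hx', zero_add]
        have h5 : P x.1 = P1 x.1 := if_neg h0
        rw [h5]
    rw [Finset.sum_congr rfl h2, Finset.sum_add_distrib, Finset.sum_ite_eq' (antidiagonal a) (0, a),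
      if_pos (by rw [HasAntidiagonal.mem_antidiagonal]; exact zero_add a)]
  -- the inverse
  have hcc : PowerSeries.constantCoeff (PowerSeries.mk (fun a => τ ^ a * w a)) =
      ((1 : Rˣ) : R) := by
    rw [← PowerSeries.coeff_zero_eq_constantCoeff_apply, PowerSeries.coeff_mk, pow_zero, one_mul,
      hw0, Units.val_one]
  have hV := PowerSeries.mul_invOfUnit (PowerSeries.mk (fun a => τ ^ a * w a)) (1 : Rˣ) hcc
  refine GPS.core S τ hτ w G _ P ?_ ?_ (if_pos rfl) hV hG hkey ?_
  · intro i k
    by_cases h0 : i = 0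
    · have h5 : P i = 0 := if_pos h0
      rw [h5, Polynomial.coeff_zero]
      exact S.zero_mem
    · have h5 : P i = P1 i := if_neg h0
      rw [h5]
      exact hP1m i k
  · intro i
    by_cases h0 : i = 0
    · have h5 : P i = 0 := if_pos h0
      rw [h5, Polynomial.coeff_zero]
    · have h5 : P i = P1 i := if_neg h0
      rw [h5, Polynomial.coeff_zero_eq_eval_zero]
      simp only [hP1, Polynomial.eval_mul, Polynomial.eval_pow, Polynomial.eval_X]
      rw [zero_pow h0]
      ring
  · have h1 := congrArg (PowerSeries.coeff 0) hG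
    rw [PowerSeries.coeff_mul, Finset.Nat.antidiagonal_zero, Finset.sum_singleton,
      PowerSeries.coeff_mk, PowerSeries.coeff_mk, hw0, map_sub, PowerSeries.coeff_zero_one,
      pow_zero, one_mul, mul_one] at h1
    linear_combination -h1

end Pool.Agent.NEK
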