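import Pool.Agent.NEK.Stmts2

/-!
Module `GRK`: the easy half of the theorem of Gale and Ryser, for Jacobi–Trudi determinants.
-/

set_option autoImplicit false

namespace Pool.Agent.NEK

open MvPolynomial Finset

namespace GRK

/-- sum of distinct natural numbers -/
theorem sum_range_card_le (s : Finset ℕ) : ∑ i ∈ range s.card, i ≤ ∑ i ∈ s, i := by
  induction s using Finset.induction_on_max with
  | empty => simp
  | insert a s hs ih =>
    have ha : a ∉ s := fun h => lt_irrefl _ (hs a h)
    rw [Finset.card_insert_of_notMem ha, Finset.sum_range_succ, Finset.sum_insert ha]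
    have h1 : s.card ≤ a := by
      have h2 : s ⊆ range a := fun x hx => Finset.mem_range.2 (hs x hx)
      have h3 := Finset.card_le_card h2
      rwa [Finset.card_range] at h3
    omega

/-- the elements of `Fin N` below `k` -/
def lo (N k : ℕ) : Finset (Fin N) := Finset.univ.filter fun a : Fin N => (a : ℕ) < k

theorem lo_image (N k : ℕ) : (lo N k).image (fun a : Fin N => (a : ℕ)) = range (min k N) := by
  ext x
  simp only [lo, Finset.mem_image, Finset.mem_filter, Finset.mem_univ, true_and, Finset.mem_range,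
    lt_min_iff]
  constructor
  · rintro ⟨a, ha, rfl⟩
    exact ⟨ha, a.2⟩
  · rintro ⟨h1, h2⟩
    exact ⟨⟨x, h2⟩, h1, rfl⟩

theorem card_lo (N k : ℕ) : (lo N k).card = min k N := by
  rw [← Finset.card_image_of_injective (lo N k) Fin.val_injective, lo_image, Finset.card_range]

theorem sum_lo (N k : ℕ) : ∑ a ∈ lo N k, (a : ℕ) = ∑ i ∈ range (min k N), i := by
  rw [← lo_image, Finset.sum_image fun a _ b _ h => Fin.val_injective h]

theorem sum_perm_ge {N : ℕ} (w : Equiv.Perm (Fin N)) (k : ℕ) :
    ∑ a ∈ lo N k, (a : ℕ) ≤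
      ∑ a ∈ lo N k, (w a : ℕ) := by
  have hinj : Function.Injective (fun a : Fin N => ((w a : Fin N) : ℕ)) :=
    Fin.val_injective.comp w.injective
  have h1 := sum_range_card_le ((lo N k).image fun a => (w a : ℕ))
  rw [Finset.card_image_of_injective _ hinj, card_lo,
    Finset.sum_image fun a _ b _ h => hinj h] at h1
  rw [sum_lo]
  exact h1

theorem sum_take (l : List ℕ) : ∀ k : ℕ, (l.take k).sum =
    ∑ a ∈ lo l.length k, l.get a := by
  induction l with
  | nil =>
    intro k
    rw [List.take_nil, List.sum_nil]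
    exact (Finset.sum_eq_zero fun a _ => a.elim0).symm
  | cons x l ih =>
    intro k
    unfold lo
    rw [Finset.sum_filter]
    cases k with
    | zero => simp
    | succ k =>
      have h1 := ih k
      unfold lo at h1
      rw [Finset.sum_filter] at h1
      rw [List.take_succ_cons, List.sum_cons, h1]
      show _ = ∑ a : Fin (l.length + 1), if (a : ℕ) < k + 1 then (x :: l).get a else 0
      rw [Fin.sum_univ_succ]
      simp

theorem sum_map_min (r : List ℕ) (k : ℕ) : (r.map fun a => min k a).sum =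
    ∑ j : Fin r.length, min k (r.get j) := by
  induction r with
  | nil => simp
  | cons x r ih =>
    rw [List.map_cons, List.sum_cons, ih]
    show _ = ∑ j : Fin (r.length + 1), min k ((x :: r).get j)
    rw [Fin.sum_univ_succ]
    rfl

theorem exists_of_coeff_prod {σ ι R : Type} [CommRing R] [DecidableEq ι]
    (F : ι → MvPolynomial σ R) (s : Finset ι) : ∀ β : σ →₀ ℕ, coeff β (∏ i ∈ s, F i) ≠ 0 →
      ∃ g : ι → (σ →₀ ℕ), (∀ i ∈ s, coeff (g i) (F i) ≠ 0) ∧ ∑ i ∈ s, g i = β := by
  classical
  induction s using Finset.induction_on with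
  | empty =>
    intro β h
    rw [Finset.prod_empty, coeff_one] at h
    have h1 : (0 : σ →₀ ℕ) = β := by
      by_contra hc
      exact h (if_neg hc)
    exact ⟨fun _ => 0, by simp, by simpa using h1⟩
  | insert a s ha ih =>
    intro β h
    rw [Finset.prod_insert ha, coeff_mul] at h
    obtain ⟨⟨d, e⟩, hde, hne⟩ := Finset.exists_ne_zero_of_sum_ne_zero h
    rw [Finset.HasAntidiagonal.mem_antidiagonal] at hde
    simp only at hde hne
    have h1 : coeff d (F a) ≠ 0 := left_ne_zero_of_mul hne
    have h2 : coeff e (∏ i ∈ s, F i) ≠ 0 := right_ne_zero_of_mul hne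
    obtain ⟨g, hg, hsum⟩ := ih e h2
    refine ⟨fun i => if i = a then d else g i, ?_, ?_⟩
    · intro i hi
      rcases Finset.mem_insert.1 hi with rfl | hi
      · simpa using h1
      · have hia : i ≠ a := fun h => ha (h ▸ hi)
        simpa [hia] using hg i hi
    · rw [Finset.sum_insert ha, if_pos rfl]
      have h3 : ∑ i ∈ s, (if i = a then d else g i) = ∑ i ∈ s, g i := by
        refine Finset.sum_congr rfl fun i hi => ?_
        have hia : i ≠ a := fun h => ha (h ▸ hi)
        rw [if_neg hia]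
      rw [h3, hsum, hde]

/-- the partial sums of signed power sums -/
noncomputable def PP (N : ℕ) (s : Finset (Fin N)) (k : ℕ) : MvPolynomial (Fin N) K :=
  ∑ j ∈ s, X j ^ (k + 1) * (-1) ^ k

theorem supp_hN (N : ℕ) (s : Finset (Fin N)) : ∀ (m : ℕ) (γ : Fin N →₀ ℕ),
    coeff γ (hN (PP N s) m) ≠ 0 → (∀ j, γ j ≤ 1) ∧ (∀ j, j ∉ s → γ j = 0) ∧ ∑ j, γ j = m := by
  classical
  induction s using Finset.induction_on with
  | empty =>
    intro m γ h
    have h0 : PP N ∅ = fun _ => (0 : MvPolynomial (Fin N) K) := by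
      funext k
      simp [PP]
    rw [h0, (HNB.hs _ (fun _ => 0) 0 m).2.2.1] at h
    by_cases hm : m = 0
    · rw [if_pos hm, coeff_one] at h
      have h1 : (0 : Fin N →₀ ℕ) = γ := by
        by_contra hc
        exact h (if_neg hc)
      rw [← h1, hm]
      simp
    · rw [if_neg hm] at h
      exact absurd (coeff_zero γ) h
  | insert a s ha ih =>
    intro m γ h
    have h0 : PP N (insert a s) = fun k => X a ^ (k + 1) * (-1) ^ k + PP N s k := by
      funext k
      unfold PP
      rw [Finset.sum_insert ha]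
    rw [h0, HNB.ha, coeff_sum] at h
    obtain ⟨⟨x, y⟩, hxy, hne⟩ := Finset.exists_ne_zero_of_sum_ne_zero h
    rw [Finset.HasAntidiagonal.mem_antidiagonal] at hxy
    simp only at hxy hne
    rw [(HNB.hs _ (fun k => (-1) ^ k) (X a) x).1, (HNB.hs _ (fun k => (-1) ^ k) (X a) x).2.2.2] at hne
    have hx : x ≤ 1 := by
      by_contra hc
      rw [if_neg hc] at hne
      simp at hne
    rw [if_pos hx, mul_one, X_pow_eq_monomial, coeff_monomial_mul'] at hne
    have hle : Finsupp.single a x ≤ γ := by
      by_contra hc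
      rw [if_neg hc] at hne
      exact hne rfl
    rw [if_pos hle, one_mul] at hne
    obtain ⟨h1, h2, h3⟩ := ih y _ hne
    have hγ : γ = Finsupp.single a x + (γ - Finsupp.single a x) := by
      rw [add_tsub_cancel_of_le hle]
    set δ := γ - Finsupp.single a x with hδ
    have hδa : δ a = 0 := h2 a ha
    refine ⟨fun j => ?_, fun j hj => ?_, ?_⟩
    · rw [hγ, Finsupp.add_apply]
      by_cases hja : j = a
      · rw [hja, hδa, Finsupp.single_eq_same]
        omega
      · rw [Finsupp.single_apply, if_neg (fun h => hja h.symm), zero_add]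
        exact h1 j
    · rw [hγ, Finsupp.add_apply]
      have hja : j ≠ a := fun h => hj (h ▸ Finset.mem_insert_self _ _)
      rw [Finsupp.single_apply, if_neg (fun h => hja h.symm), zero_add]
      exact h2 j fun h => hj (Finset.mem_insert_of_mem h)
    · have h4 : ∑ j, γ j = ∑ j, (Finsupp.single a x j + δ j) := by
        refine Finset.sum_congr rfl fun j _ => ?_
        rw [← Finsupp.add_apply, ← hγ]
      rw [h4, Finset.sum_add_distrib, h3]
      simp only [Finsupp.single_apply]
      rw [Finset.sum_ite_eq Finset.univ a (fun _ => x), if_pos (Finset.mem_univ _)]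
      exact hxy

theorem supp_hZ (N : ℕ) (m : ℤ) (γ : Fin N →₀ ℕ)
    (h : coeff γ (hZ (PP N Finset.univ) m) ≠ 0) : (∀ j, γ j ≤ 1) ∧ ((∑ j, γ j : ℕ) : ℤ) = m := by
  unfold hZ at h
  by_cases hm : 0 ≤ m
  · rw [if_pos hm] at h
    obtain ⟨h1, _, h3⟩ := supp_hN N _ _ _ h
    exact ⟨h1, by rw [h3]; exact Int.toNat_of_nonneg hm⟩
  · rw [if_neg hm] at h
    exact absurd (coeff_zero γ) h

theorem main {l ρ : List ℕ}
    (h : coeff (expo ρ) (sN (PP ρ.length Finset.univ) l) ≠ 0) (k : ℕ) :
    (l.take k).sum ≤ (ρ.map fun a => min k a).sum := by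
  classical
  unfold sN at h
  rw [Matrix.det_apply, coeff_sum] at h
  obtain ⟨w, _, hw⟩ := Finset.exists_ne_zero_of_sum_ne_zero h
  have hw' : coeff (expo ρ) (∏ i : Fin l.length,
      hZ (PP ρ.length Finset.univ) ((l.get (w i) : ℤ) - ((w i : Fin l.length) : ℤ) + (i : ℤ))) ≠ 0 := by
    intro h0
    apply hw
    rw [Units.smul_def, zsmul_eq_mul, ← map_intCast (C : K →+* MvPolynomial (Fin ρ.length) K),
      coeff_C_mul]
    simp only [Matrix.of_apply]
    rw [h0, mul_zero]
  obtain ⟨g, hg, hsum⟩ := exists_of_coeff_prod _ _ _ hw'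
  have hg1 : ∀ i, (∀ j, g i j ≤ 1) ∧ ((∑ j, g i j : ℕ) : ℤ) =
      (l.get (w i) : ℤ) - ((w i : Fin l.length) : ℤ) + (i : ℤ) := fun i =>
    supp_hZ _ _ _ (hg i (Finset.mem_univ _))
  have hcol : ∀ j : Fin ρ.length, ∑ i, g i j = ρ.get j := by
    intro j
    have h1 : (∑ i, g i) j = expo ρ j := by rw [hsum]
    rw [Finsupp.finset_sum_apply, expo_apply] at h1
    exact h1
  set A := lo l.length k with hA
  -- rows
  have hrow : ∀ a : Fin l.length, ((∑ j, g (w.symm a) j : ℕ) : ℤ) =
      (l.get a : ℤ) - (a : ℤ) + ((w.symm a : Fin l.length) : ℤ) := by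
    intro a
    have h1 := (hg1 (w.symm a)).2
    rwa [Equiv.apply_symm_apply] at h1
  have h1 : (∑ a ∈ A, l.get a) ≤ ∑ a ∈ A, ∑ j, g (w.symm a) j := by
    have h2 := sum_perm_ge w.symm k
    rw [← hA] at h2
    have h3 : ((∑ a ∈ A, ∑ j, g (w.symm a) j : ℕ) : ℤ) =
        ((∑ a ∈ A, l.get a : ℕ) : ℤ) - ((∑ a ∈ A, (a : ℕ) : ℕ) : ℤ) +
          ((∑ a ∈ A, ((w.symm a : Fin l.length) : ℕ) : ℕ) : ℤ) := by
      push_cast
      rw [← Finset.sum_sub_distrib, ← Finset.sum_add_distrib]
      refine Finset.sum_congr rfl fun a _ => ?_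
      have h4 := hrow a
      push_cast at h4
      exact h4
    omega
  have h2 : ∑ a ∈ A, ∑ j, g (w.symm a) j ≤ ∑ j : Fin ρ.length, min k (ρ.get j) := by
    rw [Finset.sum_comm]
    refine Finset.sum_le_sum fun j _ => le_min ?_ ?_
    · have h3 : ∑ a ∈ A, g (w.symm a) j ≤ ∑ a ∈ A, 1 :=
        Finset.sum_le_sum fun a _ => (hg1 _).1 j
      rw [Finset.sum_const, smul_eq_mul, mul_one, hA, card_lo] at h3
      exact h3.trans (min_le_left _ _)
    · have h3 : ∑ a ∈ A, g (w.symm a) j ≤ ∑ a : Fin l.length, g (w.symm a) j :=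
        Finset.sum_le_sum_of_subset (Finset.subset_univ _)
      rw [Equiv.sum_comp w.symm (fun i => g i j), hcol] at h3
      exact h3
  rw [sum_take, sum_map_min]
  exact h1.trans h2

end GRK

theorem t_GRK : M_GRK := by
  intro n μ ρ _ _ G hG hne k
  by_contra hk
  apply hne
  clear hne
  have hP : (fun i => C ((-1 : K) ^ i) * psY K ρ.length i) = GRK.PP ρ.length Finset.univ := by
    funext i
    unfold psY GRK.PP
    rw [Finset.mul_sum]
    refine Finset.sum_congr rfl fun j _ => ?_
    rw [map_pow, map_neg, map_one, mul_comm]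
  rw [hP]
  induction hG using Submodule.span_induction with
  | mem f hf =>
    obtain ⟨l, hl, hdom, rfl⟩ := hf
    by_contra hc
    apply hk
    have h1 : aeval (GRK.PP ρ.length Finset.univ) (sch l) = sN (GRK.PP ρ.length Finset.univ) l := by
      have h2 := (HNB.hm _ _ (aeval (GRK.PP ρ.length Finset.univ) :
        Lam →ₐ[K] MvPolynomial (Fin ρ.length) K).toRingHom (fun i => (X i : Lam))).2.2 l
      have h3 : (fun k => (aeval (GRK.PP ρ.length Finset.univ) :
        Lam →ₐ[K] MvPolynomial (Fin ρ.length) K).toRingHom ((fun i => (X i : Lam)) k)) =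
          GRK.PP ρ.length Finset.univ := by
        funext k
        exact aeval_X _ k
      rw [h3] at h2
      exact h2
    rw [h1] at hc
    exact (hdom k).trans (GRK.main hc k)
  | zero => rw [map_zero, coeff_zero]
  | add x y _ _ hx hy => rw [map_add, coeff_add, hx, hy, add_zero]
  | smul c x _ hx => rw [map_smul, coeff_smul, hx, smul_zero]

end Pool.Agent.NEK
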