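import Pool.Agent.NEK.Stmts2

/-!
# Module HEP: the part of degree `n` of a nonnegative polynomial in `t, e_1, e_2, …`
-/

set_option autoImplicit false

namespace Pool.Agent.NEK

open MvPolynomial Finset

namespace HEP

/-- the product of the `e_a`, `a ∈ β` -/
noncomputable def pe (β : List ℕ) : Lam1 := (β.map fun a => eN X1 a).prod

theorem pe_eq (β : List ℕ) : (β.map fun a => eN (fun i => (X i : Lam1)) a).prod = pe β := rfl

/-- combinations of products of `e_a` -/
noncomputable def Q : AddSubmonoid Lam1 :=
  AddSubmonoid.closure {f | ∃ c ∈ N1, ∃ β : List ℕ, f = c • pe β}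

theorem mem_gen {c : K1} (hc : c ∈ N1) (β : List ℕ) : c • pe β ∈ Q :=
  AddSubmonoid.subset_closure ⟨c, hc, β, rfl⟩

theorem Q_mul {x y : Lam1} (hx : x ∈ Q) (hy : y ∈ Q) : x * y ∈ Q := by
  unfold Q at hx
  induction hx using AddSubmonoid.closure_induction with
  | mem x hx =>
    obtain ⟨c, hc, β, rfl⟩ := hx
    unfold Q at hy
    induction hy using AddSubmonoid.closure_induction with
    | mem y hy =>
      obtain ⟨d, hd, γ, rfl⟩ := hy
      have : (c • pe β) * (d • pe γ) = (c * d) • pe (β ++ γ) := by
        rw [smul_mul_smul_comm, pe, pe, pe, List.map_append, List.prod_append]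
      rw [this]
      exact mem_gen (mul_mem hc hd) _
    | zero => rw [mul_zero]; exact zero_mem _
    | add y z _ _ h1 h2 => rw [mul_add]; exact add_mem h1 h2
  | zero => rw [zero_mul]; exact zero_mem _
  | add x z _ _ h1 h2 => rw [add_mul]; exact add_mem h1 h2

theorem EP_Q {x : Lam1} (hx : x ∈ EP) : x ∈ Q := by
  unfold EP at hx
  induction hx using Subsemiring.closure_induction with
  | mem x hx =>
    rcases hx with hx | ⟨j, rfl⟩
    · rw [Set.mem_singleton_iff] at hx
      have : x = t1 • pe [] := by
        rw [hx, pe, List.map_nil, List.prod_nil, smul_eq_C_mul, mul_one]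
      rw [this]
      exact mem_gen (Subsemiring.subset_closure (Set.mem_singleton _)) _
    · have : eN X1 j = (1 : K1) • pe [j] := by
        rw [pe, List.map_cons, List.map_nil, List.prod_cons, List.prod_nil, mul_one, one_smul]
      change eN X1 j ∈ Q
      rw [this]
      exact mem_gen (one_mem _) _
  | zero => exact zero_mem _
  | one =>
    have : (1 : Lam1) = (1 : K1) • pe [] := by
      rw [pe, List.map_nil, List.prod_nil, one_smul]
    rw [this]
    exact mem_gen (one_mem _) _
  | add x y _ _ h1 h2 => exact add_mem h1 h2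
  | mul x y _ _ h1 h2 => exact Q_mul h1 h2

theorem pe_hom (h : M_PHO) (β : List ℕ) : IsWeightedHomogeneous wt (pe β) β.sum := by
  have he : ∀ a, IsWeightedHomogeneous wt (eN X1 a) a := by
    intro a
    have h1 := (h K1 (fun _ => 1)).2.1 a
    have h2 : (fun i => C (1 : K1) * (X i : MvPolynomial ℕ K1)) = X1 := by
      funext i
      rw [C_1, one_mul, X1]
    rwa [h2] at h1
  induction β with
  | nil => exact isWeightedHomogeneous_one _ _
  | cons a β ih =>
    rw [pe, List.map_cons, List.prod_cons, List.sum_cons]
    exact (he a).mul ih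

theorem pe_perm {β γ : List ℕ} (h : β.Perm γ) : pe β = pe γ := by
  unfold pe
  exact (h.map _).prod_eq

theorem pe_filter (β : List ℕ) : pe (β.filter fun a => decide (0 < a)) = pe β := by
  induction β with
  | nil => rfl
  | cons a β ih =>
    rcases Nat.eq_zero_or_pos a with ha | ha
    · subst ha
      rw [List.filter_cons_of_neg (by simp), ih]
      change pe β = (List.map (fun a => eN X1 a) (0 :: β)).prod
      rw [List.map_cons, List.prod_cons]
      have : eN X1 0 = 1 := by rw [eN]
      rw [this, one_mul]
      rfl
    · rw [List.filter_cons_of_pos (by simpa using ha)]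
      change (List.map (fun a => eN X1 a) (a :: _)).prod = (List.map (fun a => eN X1 a) (a :: β)).prod
      rw [List.map_cons, List.prod_cons, List.map_cons, List.prod_cons]
      congr 1

theorem sum_filter (β : List ℕ) : (β.filter fun a => decide (0 < a)).sum = β.sum := by
  induction β with
  | nil => rfl
  | cons a β ih =>
    rcases Nat.eq_zero_or_pos a with ha | ha
    · subst ha
      rw [List.filter_cons_of_neg (by simp), ih, List.sum_cons, zero_add]
    · rw [List.filter_cons_of_pos (by simpa using ha), List.sum_cons, List.sum_cons, ih]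

theorem exists_part (β : List ℕ) : ∃ γ, IsPart β.sum γ ∧ pe γ = pe β := by
  have hp := List.mergeSort_perm (β.filter fun a => decide (0 < a)) (fun a b => decide (a ≥ b))
  refine ⟨(β.filter fun a => decide (0 < a)).mergeSort (fun a b => decide (a ≥ b)),
    ⟨?_, ?_, ?_⟩, ?_⟩
  · have := Multiset.pairwise_sort ((β.filter fun a => decide (0 < a) : List ℕ) : Multiset ℕ) (· ≥ ·)
    rwa [Multiset.coe_sort] at this
  · intro a ha
    have := hp.mem_iff.1 ha
    simpa using (List.mem_filter.1 this).2
  · rw [hp.sum_eq, sum_filter]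
  · rw [pe_perm hp, pe_filter]

theorem proj (h : M_PHO) (n : ℕ) {x : Lam1} (hx : x ∈ Q) :
    weightedHomogeneousComponent wt n x ∈ EPos n := by
  unfold Q at hx
  induction hx using AddSubmonoid.closure_induction with
  | mem x hx =>
    obtain ⟨c, hc, β, rfl⟩ := hx
    have hh : IsWeightedHomogeneous wt (c • pe β) β.sum := by
      rw [smul_eq_C_mul]
      exact (pe_hom h β).C_mul c
    by_cases hn : β.sum = n
    · subst hn
      rw [hh.weightedHomogeneousComponent_same]
      obtain ⟨γ, hγ, e⟩ := exists_part β
      rw [← e]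
      exact AddSubmonoid.subset_closure ⟨c, hc, γ, hγ, rfl⟩
    · rw [hh.weightedHomogeneousComponent_ne n (fun h => hn h.symm)]
      exact zero_mem _
  | zero => rw [map_zero]; exact zero_mem _
  | add x y _ _ h1 h2 => rw [map_add]; exact add_mem h1 h2

end HEP

/-- Module HEP. -/
theorem t_HEP : M_PHO → M_HEP := by
  intro h n F hF hF'
  have h1 := HEP.proj h n (HEP.EP_Q hF)
  rwa [hF'.weightedHomogeneousComponent_same] at h1

end Pool.Agent.NEK
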