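import Pool.Agent.NEK.Stmts2

/-!
# Complete homogeneous polynomials: coefficients and generating function
-/

set_option autoImplicit false

namespace Pool.Agent.NEK

open MvPolynomial Finset

namespace HZC

variable {L : Type} [CommRing L] [Algebra ℚ L] {N : ℕ}

/-- `h_m` of the variables in `s` -/
noncomputable def hS (L : Type) [CommRing L] [Algebra ℚ L] {N : ℕ} (s : Finset (Fin N)) (m : ℕ) :
    MvPolynomial (Fin N) L :=
  hN (fun k => ∑ j ∈ s, (X j : MvPolynomial (Fin N) L) ^ (k + 1)) m

theorem hS_empty (m : ℕ) : hS L (∅ : Finset (Fin N)) m = if m = 0 then 1 else 0 := by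
  unfold hS
  have h := (HNB.hs (MvPolynomial (Fin N) L) (fun _ => 0) 0 m).2.2.1
  simpa using h

theorem hS_insert {s : Finset (Fin N)} {i : Fin N} (hi : i ∉ s) (m : ℕ) :
    hS L (insert i s) m =
      ∑ ab ∈ antidiagonal m, (X i : MvPolynomial (Fin N) L) ^ ab.1 * hS L s ab.2 := by
  unfold hS
  have e : (fun k => ∑ j ∈ insert i s, (X j : MvPolynomial (Fin N) L) ^ (k + 1)) =
      fun k => (fun k => (X i : MvPolynomial (Fin N) L) ^ (k + 1)) k +
        (fun k => ∑ j ∈ s, (X j : MvPolynomial (Fin N) L) ^ (k + 1)) k := by
    funext k
    rw [Finset.sum_insert hi]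
  rw [e, HNB.ha]
  refine Finset.sum_congr rfl fun ab _ => ?_
  rw [(HNB.hs (MvPolynomial (Fin N) L) (fun _ => 0) (X i) ab.1).2.1]

theorem coeff_hS (s : Finset (Fin N)) : ∀ (m : ℕ) (β : Fin N →₀ ℕ),
    coeff β (hS L s m) = if β.degree = m ∧ ∀ j, j ∉ s → β j = 0 then 1 else 0 := by
  induction s using Finset.induction_on with
  | empty =>
    intro m β
    rw [hS_empty]
    by_cases hb : β = 0
    · subst hb
      by_cases hm : m = 0
      · subst hm
        simp
      · rw [if_neg hm, if_neg]
        · simp
        · rintro ⟨h, -⟩
          exact hm (by rw [← h]; simp)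
    · have h1 : ¬ (β.degree = m ∧ ∀ j, j ∉ (∅ : Finset (Fin N)) → β j = 0) := by
        rintro ⟨-, h⟩
        apply hb
        ext j
        exact h j (by simp)
      rw [if_neg h1]
      split_ifs with hm
      · rw [coeff_one, if_neg (fun h => hb h.symm)]
      · simp
  | insert i s hi ih =>
    intro m β
    rw [hS_insert hi, coeff_sum]
    have hterm : ∀ ab ∈ antidiagonal m,
        coeff β ((X i : MvPolynomial (Fin N) L) ^ ab.1 * hS L s ab.2) =
          if ab.1 = β i ∧ (β.degree = m ∧ ∀ j, j ∉ insert i s → β j = 0) then 1 else 0 := by
      intro ab hab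
      rw [Finset.HasAntidiagonal.mem_antidiagonal] at hab
      rw [X_pow_eq_monomial, coeff_monomial_mul', ih, one_mul]
      by_cases h1 : Finsupp.single i ab.1 ≤ β
      · rw [if_pos h1]
        have h2 : (β - Finsupp.single i ab.1).degree + ab.1 = β.degree := by
          have h3 : β - Finsupp.single i ab.1 + Finsupp.single i ab.1 = β := tsub_add_cancel_of_le h1
          conv_rhs => rw [← h3]
          rw [map_add, Finsupp.degree_single]
        have hle : ab.1 ≤ β i := by
          have := h1 i
          rwa [Finsupp.single_eq_same] at this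
        congr 1
        apply propext
        constructor
        · rintro ⟨h4, h5⟩
          refine ⟨?_, ?_, ?_⟩
          · have h6 := h5 i hi
            rw [Finsupp.tsub_apply, Finsupp.single_eq_same] at h6
            omega
          · omega
          · intro j hj
            rw [Finset.mem_insert, not_or] at hj
            have h6 := h5 j hj.2
            rw [Finsupp.tsub_apply, Finsupp.single_eq_of_ne hj.1] at h6
            omega
        · rintro ⟨h4, h5, h6⟩
          refine ⟨by omega, ?_⟩
          intro j hj
          rw [Finsupp.tsub_apply]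
          by_cases hji : j = i
          · subst hji
            rw [Finsupp.single_eq_same, h4]
            omega
          · have h7 : j ∉ insert i s := by
              rw [Finset.mem_insert, not_or]
              exact ⟨hji, hj⟩
            rw [h6 j h7, Nat.zero_sub]
      · rw [if_neg h1, if_neg]
        rintro ⟨h4, -⟩
        apply h1
        rw [h4]
        intro j
        by_cases hji : j = i
        · subst hji
          rw [Finsupp.single_eq_same]
        · rw [Finsupp.single_eq_of_ne hji]
          exact Nat.zero_le _
    rw [Finset.sum_congr rfl hterm]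
    by_cases hc : β.degree = m ∧ ∀ j, j ∉ insert i s → β j = 0
    · rw [if_pos hc]
      have hle : β i ≤ m := by
        rw [← hc.1]
        exact Finsupp.le_degree i β
      rw [Finset.sum_eq_single (β i, m - β i)]
      · rw [if_pos ⟨rfl, hc⟩]
      · intro ab hab hne
        rw [Finset.HasAntidiagonal.mem_antidiagonal] at hab
        rw [if_neg]
        rintro ⟨h4, -⟩
        apply hne
        ext
        · exact h4
        · simp only
          omega
      · intro h
        exfalso
        apply h
        rw [Finset.HasAntidiagonal.mem_antidiagonal]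
        simp only
        omega
    · rw [if_neg hc]
      refine Finset.sum_eq_zero fun ab _ => ?_
      rw [if_neg]
      rintro ⟨-, h⟩
      exact hc h

theorem mk_hS (s : Finset (Fin N)) :
    PowerSeries.mk (fun m => hS L s m) =
      ∏ j ∈ s, PowerSeries.mk (fun m => (X j : MvPolynomial (Fin N) L) ^ m) := by
  induction s using Finset.induction_on with
  | empty =>
    ext m : 1
    rw [PowerSeries.coeff_mk, hS_empty, Finset.prod_empty, PowerSeries.coeff_one]
  | insert i s hi ih =>
    rw [Finset.prod_insert hi, ← ih]
    ext m : 1
    rw [PowerSeries.coeff_mk, hS_insert hi, PowerSeries.coeff_mul]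
    refine Finset.sum_congr rfl fun ab _ => ?_
    rw [PowerSeries.coeff_mk, PowerSeries.coeff_mk]

theorem hz_eq (N m : ℕ) : (hz N m : MvPolynomial (Fin N) L) = hS L Finset.univ m := rfl

end HZC

/-- Coefficients of the complete homogeneous polynomials and their generating function. -/
theorem t_HZC : M_HZC := by
  intro L _ _ N
  refine ⟨?_, ?_⟩
  · intro m β
    rw [HZC.hz_eq, HZC.coeff_hS]
    simp
  · exact HZC.mk_hS Finset.univ

end Pool.Agent.NEK
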