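import Pool.Agent.NEK.Stmts2

/-!
# Module JTH: `s_λ` is a combination of `h_ν`, `ν ≥ λ`
-/

set_option autoImplicit false

namespace Pool.Agent.NEK

open MvPolynomial Finset

namespace JTH

/-- the sum over an initial segment is minimal -/
theorem sum_perm {N : ℕ} (w : Equiv.Perm (Fin N)) (k : ℕ) :
    ∑ j : Fin N with j.val < k, (j : ℕ) ≤ ∑ j : Fin N with j.val < k, ((w j : Fin N) : ℕ) := by
  classical
  set S : Finset (Fin N) := Finset.univ.filter fun j => j.val < k with hS
  set T : Finset (Fin N) := S.map w.toEmbedding with hT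
  have h1 : ∑ j ∈ S, ((w j : Fin N) : ℕ) = ∑ j ∈ T, (j : ℕ) := by
    rw [hT, Finset.sum_map]
    rfl
  have hcard : S.card = T.card := by rw [hT, Finset.card_map]
  have h2 : (S \ T).card = (T \ S).card := Finset.card_sdiff_comm hcard
  have h3 : ∑ j ∈ S \ T, (j : ℕ) ≤ (S \ T).card * k := by
    rw [← smul_eq_mul]
    refine Finset.sum_le_card_nsmul _ _ _ fun j hj => ?_
    have := (Finset.mem_filter.mp (Finset.mem_sdiff.mp hj).1).2
    omega
  have h4 : (T \ S).card * k ≤ ∑ j ∈ T \ S, (j : ℕ) := by
    rw [← smul_eq_mul]
    refine Finset.card_nsmul_le_sum _ _ _ fun j hj => ?_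
    have h5 := (Finset.mem_sdiff.mp hj).2
    by_contra h6
    exact h5 (Finset.mem_filter.mpr ⟨Finset.mem_univ _, by omega⟩)
  rw [h1, ← Finset.sum_inter_add_sum_sdiff S T, ← Finset.sum_inter_add_sum_sdiff T S,
    Finset.inter_comm T S]
  rw [h2] at h3
  omega

/-- lists: truncation at `c` -/
theorem sum_le_trunc (T : List ℕ) (c : ℕ) : T.sum ≤ T.length * c + (T.map (· - c)).sum := by
  induction T with
  | nil => simp
  | cons a T ih =>
    simp only [List.sum_cons, List.length_cons, List.map_cons, Nat.add_mul]
    omega

theorem sum_eq_trunc (T : List ℕ) (c : ℕ) (h : ∀ a ∈ T, c ≤ a) :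
    T.sum = T.length * c + (T.map (· - c)).sum := by
  induction T with
  | nil => simp
  | cons a T ih =>
    have h1 := ih fun b hb => h b (List.mem_cons_of_mem _ hb)
    have h2 := h a List.mem_cons_self
    simp only [List.sum_cons, List.length_cons, List.map_cons, Nat.add_mul]
    omega

theorem trunc_zero (T : List ℕ) (c : ℕ) (h : ∀ a ∈ T, a ≤ c) : (T.map (· - c)).sum = 0 := by
  rw [List.sum_eq_zero]
  intro x hx
  obtain ⟨a, ha, rfl⟩ := List.mem_map.mp hx
  have := h a ha
  omega

theorem sum_filter_pos (A : List ℕ) (f : ℕ → ℕ) (hf : f 0 = 0) :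
    ((A.filter (0 < ·)).map f).sum = (A.map f).sum := by
  induction A with
  | nil => rfl
  | cons a A ih =>
    by_cases h : 0 < a
    · rw [List.filter_cons_of_pos (by simpa using h)]
      simp only [List.map_cons, List.sum_cons, ih]
    · obtain rfl : a = 0 := by omega
      rw [List.filter_cons_of_neg (by simp)]
      simp only [List.map_cons, List.sum_cons, ih, hf, Nat.zero_add]

/-- the first `k` entries of the sorted list have the largest sum -/
theorem take_le (A m : List ℕ) (hm : m.Perm (A.filter (0 < ·))) (hs : m.Pairwise (· ≥ ·))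
    (k : ℕ) : (A.take k).sum ≤ (m.take k).sum := by
  have hA : ∀ c : ℕ, (m.map (· - c)).sum = (A.map (· - c)).sum := by
    intro c
    rw [← sum_filter_pos A (· - c) (by simp)]
    exact (hm.map _).sum_eq
  have hT : ∀ f : ℕ → ℕ, ((A.take k).map f).sum ≤ (A.map f).sum := by
    intro f
    conv_rhs => rw [← List.take_append_drop k A]
    rw [List.map_append, List.sum_append]
    omega
  by_cases hk : k < m.length
  · set c := m[k] with hc
    have h1 : ∀ a ∈ m.take k, c ≤ a := by
      intro a ha
      obtain ⟨i, hi, rfl⟩ := List.mem_iff_getElem.mp ha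
      rw [List.length_take] at hi
      rw [List.getElem_take]
      exact List.pairwise_iff_getElem.mp hs i k (by omega) hk (by omega)
    have h2 : ∀ a ∈ m.drop k, a ≤ c := by
      intro a ha
      obtain ⟨i, hi, rfl⟩ := List.mem_iff_getElem.mp ha
      rw [List.length_drop] at hi
      rw [List.getElem_drop]
      rcases Nat.eq_zero_or_pos i with h | h
      · subst h
        simp [hc]
      · exact List.pairwise_iff_getElem.mp hs k (k + i) hk (by omega) (by omega)
    have h3 := sum_le_trunc (A.take k) c
    have h4 := hT (· - c)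
    have h5 : (A.take k).length * c ≤ k * c :=
      Nat.mul_le_mul_right _ (List.length_take_le k A)
    have h6 := sum_eq_trunc (m.take k) c h1
    have h7 : (m.take k).length = k := by
      rw [List.length_take]
      omega
    rw [h7] at h6
    have h8 : (m.map (· - c)).sum = ((m.take k).map (· - c)).sum := by
      conv_lhs => rw [← List.take_append_drop k m]
      rw [List.map_append, List.sum_append, trunc_zero _ c h2, Nat.add_zero]
    rw [hA c] at h8
    omega
  · rw [List.take_of_length_le (by omega : m.length ≤ k)]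
    have h1 := hT id
    have h2 := hA 0
    simp only [List.map_id, Nat.sub_zero, List.map_id'] at h1 h2
    omega

theorem prod_filter_pos {R : Type} [CommRing R] (A : List ℕ) (f : ℕ → R) (hf : f 0 = 1) :
    ((A.filter (0 < ·)).map f).prod = (A.map f).prod := by
  induction A with
  | nil => rfl
  | cons a A ih =>
    by_cases h : 0 < a
    · rw [List.filter_cons_of_pos (by simpa using h)]
      simp only [List.map_cons, List.prod_cons, ih]
    · obtain rfl : a = 0 := by omega
      rw [List.filter_cons_of_neg (by simp)]
      simp only [List.map_cons, List.prod_cons, ih, hf, one_mul]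

variable {L : Type} [Field L] [Algebra ℚ L]

theorem hb_one (a : ℕ) : hb (fun _ => (1 : L)) a =
    hN (fun i => (X i : MvPolynomial ℕ L)) a := by
  unfold hb
  congr 1
  funext i
  rw [C_1, one_mul]

/-- one term of the determinant -/
theorem term (n : ℕ) (l : List ℕ) (hl : IsPart n l) (w : Equiv.Perm (Fin l.length)) :
    ∏ i : Fin l.length, hZ (fun i => (X i : MvPolynomial ℕ L))
        ((l.get i : ℤ) - (i : ℤ) + ((w i : Fin l.length) : ℤ)) ∈ Submodule.span L
      {f | ∃ m, IsPart n m ∧ Dom m l ∧ f = hbp (fun _ => (1 : L)) m} := by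
  obtain ⟨-, -, hsum⟩ := hl
  by_cases hneg : ∃ i : Fin l.length, (l.get i : ℤ) - (i : ℤ) + ((w i : Fin l.length) : ℤ) < 0
  · obtain ⟨i, hi⟩ := hneg
    rw [Finset.prod_eq_zero (Finset.mem_univ i)]
    · exact Submodule.zero_mem _
    · unfold hZ
      rw [if_neg (by omega)]
  · push Not at hneg
    set a : Fin l.length → ℕ := fun i =>
      ((l.get i : ℤ) - (i : ℤ) + ((w i : Fin l.length) : ℤ)).toNat with ha
    have hai : ∀ i, (a i : ℤ) = (l.get i : ℤ) - (i : ℤ) + ((w i : Fin l.length) : ℤ) := by
      intro i
      rw [ha]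
      exact Int.toNat_of_nonneg (hneg i)
    have hnat : ∀ i, a i + (i : ℕ) = l.get i + ((w i : Fin l.length) : ℕ) := by
      intro i
      have := hai i
      omega
    set A : List ℕ := List.ofFn a with hA
    set m : List ℕ := (A.filter (0 < ·)).insertionSort (· ≥ ·) with hm
    have hperm : m.Perm (A.filter (0 < ·)) := List.perm_insertionSort _ _
    have hsort : m.Pairwise (· ≥ ·) := List.pairwise_insertionSort _ _
    have hprod : ∏ i : Fin l.length, hZ (fun i => (X i : MvPolynomial ℕ L))
        ((l.get i : ℤ) - (i : ℤ) + ((w i : Fin l.length) : ℤ)) = hbp (fun _ => (1 : L)) m := by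
      unfold hbp
      rw [(hperm.map (hb (fun _ => (1 : L)))).prod_eq, prod_filter_pos]
      · rw [hA, List.map_ofFn, List.prod_ofFn]
        refine Finset.prod_congr rfl fun i _ => ?_
        rw [Function.comp_apply, hb_one]
        unfold hZ
        rw [if_pos (hneg i)]
      · rw [hb_one]
        rw [hN]
    rw [hprod]
    refine Submodule.subset_span ⟨m, ⟨hsort, ?_, ?_⟩, ?_, rfl⟩
    · intro b hb
      have h1 := hperm.mem_iff.mp hb
      simpa using (List.mem_filter.mp h1).2
    · -- the sum
      have h1 : m.sum = A.sum := by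
        rw [hperm.sum_eq]
        have := sum_filter_pos A id rfl
        simpa using this
      have h2 : A.sum = l.sum := by
        rw [hA, List.sum_ofFn]
        have h3 : ∑ i, (a i + (i : ℕ)) = ∑ i, (l.get i + ((w i : Fin l.length) : ℕ)) :=
          Finset.sum_congr rfl fun i _ => hnat i
        rw [Finset.sum_add_distrib, Finset.sum_add_distrib] at h3
        have h4 : ∑ i : Fin l.length, ((w i : Fin l.length) : ℕ) = ∑ i : Fin l.length, (i : ℕ) :=
          Equiv.sum_comp w fun i => (i : ℕ)
        have h5 : ∑ i : Fin l.length, l.get i = l.sum := by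
          conv_rhs => rw [← List.ofFn_get l]
          rw [List.sum_ofFn]
        omega
      rw [h1, h2, hsum]
    · intro k
      refine le_trans ?_ (take_le A m hperm hsort k)
      have h1 : (l.take k).sum = ∑ j : Fin l.length with j.val < k, l.get j := by
        conv_lhs => rw [← List.ofFn_get l]
        rw [List.sum_take_ofFn]
      rw [h1, hA, List.sum_take_ofFn]
      have h3 : ∑ j : Fin l.length with j.val < k, (a j + (j : ℕ)) =
          ∑ j : Fin l.length with j.val < k, (l.get j + ((w j : Fin l.length) : ℕ)) :=
        Finset.sum_congr rfl fun i _ => hnat i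
      rw [Finset.sum_add_distrib, Finset.sum_add_distrib] at h3
      have h4 := sum_perm w k
      omega

end JTH

theorem t_JTH : M_JTH := by
  intro L _ _ n l hl
  unfold sN
  rw [← Matrix.det_transpose, Matrix.det_apply']
  refine Submodule.sum_mem _ fun w _ => ?_
  have h := JTH.term (L := L) n l hl w
  rcases Int.units_eq_one_or (Equiv.Perm.sign w) with h1 | h1
  · rw [h1]
    simpa using h
  · rw [h1]
    simpa using h

end Pool.Agent.NEK
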