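import Pool.Agent.NEK.Stmts2

/-!
# Module KEY: the Macdonald polynomials are regular at `q = 1`
-/

set_option autoImplicit false

namespace Pool.Agent.NEK

open MvPolynomial Finset

namespace KEY

theorem q_ne (i : ℕ) : (1 : K) - q ^ (i + 1) ≠ 0 := by
  have h : (1 : MvPolynomial (Fin 2) ℚ) - X 0 ^ (i + 1) ≠ 0 := by
    intro h0
    have h1 := congrArg (fun z => aeval (fun _ : Fin 2 => (0 : ℚ)) z) h0
    simp at h1
  have h2 := A1.iK_ne h
  rw [map_sub, map_one, map_pow] at h2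
  exact h2

theorem one_sub_q_ne : (1 : K) - q ≠ 0 := by
  have h := q_ne 0
  rwa [zero_add, pow_one] at h

/-- homogeneity of the span -/
theorem hom_span (hPHO : M_PHO) (n : ℕ) (p : List ℕ → Prop) {x : Lam}
    (hx : x ∈ Submodule.span K {f | ∃ l, IsPart n l ∧ p l ∧ f = sch l}) :
    IsWeightedHomogeneous wt x n := by
  have h : Submodule.span K {f : Lam | ∃ l, IsPart n l ∧ p l ∧ f = sch l} ≤
      weightedHomogeneousSubmodule K wt n := by
    rw [Submodule.span_le]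
    rintro f ⟨l, hl, -, rfl⟩
    exact (mem_weightedHomogeneousSubmodule K wt n _).2 ((hPHO K (fun _ => 1)).2.2.2 n l hl)
  exact (mem_weightedHomogeneousSubmodule K wt n _).1 (h hx)

theorem hom_of_plG {a : ℕ → K} (ha : ∀ i, a i ≠ 0) {F : Lam} {n : ℕ}
    (h : IsWeightedHomogeneous wt (plG a F) n) : IsWeightedHomogeneous wt F n := by
  intro d hd
  apply h
  rw [coeff_plG]
  refine mul_ne_zero hd ?_
  rw [Finsupp.prod]
  exact Finset.prod_ne_zero_iff.2 fun i _ => pow_ne_zero _ (ha i)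

theorem ev_span (hEVS : Stmt_EVS) (n : ℕ) (hn : 1 ≤ n) {x : Lam}
    (hx : x ∈ Submodule.span K {f | ∃ l, IsPart n l ∧ l ≠ [n] ∧ f = sch l}) :
    ev (fun _ => 1) x = 0 := by
  have h : Submodule.span K {f : Lam | ∃ l, IsPart n l ∧ l ≠ [n] ∧ f = sch l} ≤
      LinearMap.ker (ev (fun _ => 1)).toLinearMap := by
    rw [Submodule.span_le]
    rintro f ⟨l, hl, hl2, rfl⟩
    exact LinearMap.mem_ker.2 (hEVS.1 n l hl hn hl2)
  exact LinearMap.mem_ker.1 (h hx)

theorem ev_H (hEVS : Stmt_EVS) (n : ℕ) (hn : 1 ≤ n) {H : List ℕ → Lam} (hH : IsMac n H)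
    {μ : List ℕ} (hμ : IsPart n μ) : ev (fun _ => 1) (H μ) = 1 := by
  have h := ev_span hEVS n hn (hH.norm μ hμ)
  rw [map_sub, hEVS.2.1 n, sub_eq_zero] at h
  exact h

theorem tf_ne (hEVT : M_EVT) (a : ℕ) : tf a ≠ 0 := by
  rw [tf]
  exact Finset.prod_ne_zero_iff.2 fun i _ => hEVT.1 i

theorem bt_ne (hEVT : M_EVT) (i : ℕ) : bt i ≠ 0 := inv_ne_zero (hEVT.1 i)

theorem Hb_eq (l : List ℕ) : Hb l = (l.map tf).prod • hbp bt l := by
  induction l with
  | nil => simp [Hb, hbp]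
  | cons a l ih =>
    rw [Hb] at ih
    rw [Hb, hbp, List.map_cons, List.map_cons, List.map_cons, List.prod_cons, List.prod_cons,
      List.prod_cons, ih, hbp, smul_eq_C_mul, smul_eq_C_mul, C_mul, eta]
    ring

theorem ev_hbp (hEVT : M_EVT) (l : List ℕ) :
    (aeval (fun _ => (1 : K1)) (hbp bt l) : K1) = ((l.map tf).prod)⁻¹ := by
  induction l with
  | nil => simp [hbp]
  | cons a l ih =>
    rw [hbp] at ih
    rw [hbp, List.map_cons, List.map_cons, List.prod_cons, List.prod_cons, map_mul, ih, mul_inv]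
    congr 1
    exact hEVT.2 a

theorem listProd_ne {l : List ℕ} {f : ℕ → K1} (h : ∀ a ∈ l, f a ≠ 0) : (l.map f).prod ≠ 0 := by
  intro h0
  rw [List.prod_eq_zero_iff, List.mem_map] at h0
  obtain ⟨a, ha, h1⟩ := h0
  exact h a ha h1

/-- the coefficient of a combination at a monomial of minimal length -/
theorem coeff_min (hMON : M_MON) (hTRC : M_TRC) (hEVT : M_EVT) {n : ℕ} (c : List ℕ → K1)
    {l : List ℕ} (hl : IsPart n l) (hc : c l ≠ 0)
    (hmin : ∀ l' ∈ PS n, c l' ≠ 0 → l.length ≤ l'.length) :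
    coeff (mon l) (∑ l' ∈ PS n, c l' • hbp bt l') ≠ 0 := by
  haveI : CharZero K1 := algebraRat.charZero K1
  have h1 : ∀ l' ∈ PS n, coeff (mon l) (c l' • hbp bt l') =
      if l' = l then c l * (l.map fun a => bt (a - 1) / (a : K1)).prod else 0 := by
    intro l' hl'
    rw [coeff_smul, smul_eq_mul]
    by_cases h0 : c l' = 0
    · rw [h0, zero_mul, if_neg]
      rintro rfl
      exact hc h0
    · have h2 := hTRC K1 bt l' (mem_PS.1 hl').2.1 (mon l) (by
        rw [((hMON n).1 l hl).1]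
        exact hmin l' hl' h0)
      rw [h2]
      by_cases h3 : l' = l
      · rw [if_pos h3, h3, if_pos rfl]
      · rw [if_neg h3, if_neg, mul_zero]
        intro h4
        exact h3 ((hMON n).2.1 l l' hl (mem_PS.1 hl') h4).symm
  rw [coeff_sum, Finset.sum_congr rfl h1, Finset.sum_ite_eq' (PS n) l, if_pos (mem_PS.2 hl)]
  refine mul_ne_zero hc (listProd_ne fun a ha => ?_)
  refine div_ne_zero (bt_ne hEVT _) ?_
  rw [Nat.cast_ne_zero]
  exact (hl.2.1 a ha).ne'

theorem rzero {r : ℤ} {y : K1} (hy : y ≠ 0) (h : AtOne ((1 - q) ^ r) y) : r = 0 := by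
  have h0 : AtOne (1 - q) 0 := by
    have := A1.sub A1.one A1.q_one
    rwa [sub_self] at this
  rcases lt_trichotomy r 0 with hr | hr | hr
  · exfalso
    obtain ⟨m, hm⟩ : ∃ m : ℕ, r = -((m + 1 : ℕ) : ℤ) := ⟨(-r).toNat - 1, by omega⟩
    have h1 := A1.mul h (A1.pow h0 (m + 1))
    rw [zero_pow (Nat.succ_ne_zero m), mul_zero, hm, zpow_neg, zpow_natCast,
      inv_mul_cancel₀ (pow_ne_zero _ one_sub_q_ne)] at h1
    exact one_ne_zero (A1.unique A1.one h1)
  · exact hr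
  · exfalso
    obtain ⟨m, hm⟩ : ∃ m : ℕ, r = ((m + 1 : ℕ) : ℤ) := ⟨r.toNat - 1, by omega⟩
    have h1 := A1.pow h0 (m + 1)
    rw [zero_pow (Nat.succ_ne_zero m)] at h1
    rw [hm, zpow_natCast] at h
    exact hy (A1.unique h h1)

end KEY

open KEY in
/-- The Macdonald polynomials are regular at `q = 1`. -/
theorem t_KEY : M_VAL → M_MON → M_PHO → M_TRC → M_DOM → M_KQ → M_KT → M_EVT → Stmt_EVS →
    M_KEY := by
  intro hVAL hMON hPHO hTRC hDOM hKQ hKT hEVT hEVS n H hn hH μ hμ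
  have hev := ev_H hEVS n hn hH hμ
  have hne : H μ ≠ 0 := by
    intro h0
    rw [h0, map_zero] at hev
    exact zero_ne_one hev
  refine ⟨hom_of_plG q_ne (hom_span hPHO n (fun l => Dom l μ) (hH.triq μ hμ)), ?_⟩
  obtain ⟨r, F1, hF1, hF⟩ := hVAL (H μ) hne
  have htrit : plX (fun i => 1 - t ^ (i + 1)) (((1 - q) ^ r : K) • H μ) ∈
      Submodule.span K {f | ∃ l, IsPart n l ∧ Dom l (conj μ) ∧ f = sch l} := by
    rw [map_smul]
    exact Submodule.smul_mem _ _ (hH.trit μ hμ)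
  have htriq : plX (fun i => 1 - q ^ (i + 1)) (((1 - q) ^ r : K) • H μ) ∈
      Submodule.span K {f | ∃ l, IsPart n l ∧ Dom l μ ∧ f = sch l} := by
    rw [map_smul]
    exact Submodule.smul_mem _ _ (hH.triq μ hμ)
  obtain ⟨c, hc1, hc2⟩ := hKT n μ hμ _ F1 hF htrit
  -- minimal elements of the support are `conj μ`
  have hmin : ∀ l, IsPart n l → c l ≠ 0 → (∀ l' ∈ PS n, c l' ≠ 0 → l.length ≤ l'.length) →
      l = conj μ := by
    intro l hl hcl hm
    have h1 := coeff_min hMON hTRC hEVT c hl hcl hm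
    rw [← hc2] at h1
    have h2 := hKQ n μ hμ _ F1 hF htriq l hl h1
    refine (hDOM n μ l hμ hl).2.2.1 h2 ?_
    by_contra h3
    exact hcl (hc1 l (mem_PS.2 hl) h3)
  classical
  have hT : ((PS n).filter fun l => c l ≠ 0).Nonempty := by
    rw [Finset.nonempty_iff_ne_empty]
    intro h0
    apply hF1
    rw [hc2]
    refine Finset.sum_eq_zero fun l hl => ?_
    by_cases h1 : c l = 0
    · rw [h1, zero_smul]
    · exact absurd (Finset.mem_filter.2 ⟨hl, h1⟩) (by rw [h0]; exact Finset.notMem_empty _)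
  obtain ⟨l0, hl0, hl0m⟩ := Finset.exists_min_image _ (fun l : List ℕ => l.length) hT
  rw [Finset.mem_filter] at hl0
  have hl0' : l0 = conj μ := hmin l0 (mem_PS.1 hl0.1) hl0.2 fun l' h1 h2 =>
    hl0m l' (Finset.mem_filter.2 ⟨h1, h2⟩)
  subst hl0'
  have hall : ∀ l ∈ PS n, l ≠ conj μ → c l = 0 := by
    intro l hl hne'
    by_contra h1
    apply hne'
    refine hmin l (mem_PS.1 hl) h1 fun l' h2 h3 => ?_
    have h4 : Dom l (conj μ) := by
      by_contra h4
      exact h1 (hc1 l hl h4)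
    exact ((hDOM n μ l hμ (mem_PS.1 hl)).2.2.2 h4).trans
      (hl0m l' (Finset.mem_filter.2 ⟨h2, h3⟩))
  have hF1' : F1 = c (conj μ) • hbp bt (conj μ) := by
    rw [hc2]
    refine Finset.sum_eq_single (conj μ) ?_ ?_
    · intro l hl h1
      rw [hall l hl h1, zero_smul]
    · intro h1
      exact absurd hl0.1 h1
  have hev2 : AtOne ((1 - q) ^ r) (c (conj μ) * (((conj μ).map tf).prod)⁻¹) := by
    have h1 := A1.ev_atOne (a := fun _ => (1 : K)) (b := fun _ => (1 : K1)) (fun _ => A1.one) hF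
    rw [hF1', map_smul, map_smul, ev_hbp hEVT, smul_eq_mul, smul_eq_mul] at h1
    have h2 : (aeval (fun _ => (1 : K)) (H μ) : K) = 1 := hev
    rw [h2, mul_one] at h1
    exact h1
  have hp : ((conj μ).map tf).prod ≠ 0 := listProd_ne fun a _ => tf_ne hEVT a
  have hr : r = 0 := rzero (mul_ne_zero hl0.2 (inv_ne_zero hp)) hev2
  rw [hr, zpow_zero] at hev2 hF
  rw [one_smul] at hF
  have h3 := A1.unique hev2 A1.one
  have h4 : c (conj μ) = ((conj μ).map tf).prod := by
    rw [← div_eq_mul_inv, div_eq_one_iff_eq hp] at h3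
    exact h3
  rw [Hb_eq, ← h4, ← hF1']
  exact hF

end Pool.Agent.NEK
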