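import Pool.Agent.NEK.Stmts2

/-!
# The first triangularity at `q = 1`
-/

set_option autoImplicit false

namespace Pool.Agent.NEK

open MvPolynomial Finset

namespace KQ

theorem atOne_int (z : ℤ) : AtOne (z : K) (z : K1) := by
  have h := A1.rat (z : ℚ)
  rwa [map_intCast, map_intCast] at h

theorem one_sub_q_ne : (1 : K) - q ≠ 0 := by
  intro h
  have h1 : q = 1 := (sub_eq_zero.1 h).symm
  have h2 : A1.iK (X 0) = A1.iK 1 := by
    rw [map_one]
    exact h1
  have h3 := A1.iK_inj h2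
  have h4 := congrArg (MvPolynomial.eval (fun _ => (0 : ℚ))) h3
  simp at h4

/-- `(-1)^i [i+1]` -/
noncomputable def cc (i : ℕ) : K := (-1) ^ i * ∑ j ∈ range (i + 1), q ^ j

theorem cc_eq (i : ℕ) : (-1) ^ i * (1 - q ^ (i + 1)) = (1 - q) * cc i := by
  rw [cc, ← geom_sum_mul_neg q (i + 1)]
  ring

theorem cc_atOne (i : ℕ) : AtOne (cc i) ((-1) ^ i * ((i + 1 : ℕ) : K1)) := by
  refine A1.mul (A1.pow (A1.neg A1.one) i) ?_
  have h : AtOne (∑ j ∈ range (i + 1), q ^ j) (∑ _j ∈ range (i + 1), (1 : K1)) := by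
    refine A1.sum _ fun j _ => ?_
    have := A1.pow A1.q_one j
    rwa [one_pow] at this
  rwa [sum_const, card_range, nsmul_eq_mul, mul_one] at h

end KQ

theorem t_KQ : M_FUN → M_CNT → M_GRK → M_MON → M_KQ := by
  intro hfun hcnt hgrk hmon n μ hμ F F1 hF hspan ρ hρ hcoef k
  classical
  by_contra hk
  have h0 : coeff (expo ρ) (aeval (fun i => C ((-1 : K) ^ i) * psY K ρ.length i)
      (plX (fun i => 1 - q ^ (i + 1)) F) : MvPolynomial (Fin ρ.length) K) = 0 := by
    by_contra h1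
    exact hk (hgrk n μ ρ hμ hρ _ hspan h1 k)
  have h1 : (aeval (fun i => C ((-1 : K) ^ i) * psY K ρ.length i)
      (plX (fun i => 1 - q ^ (i + 1)) F) : MvPolynomial (Fin ρ.length) K) =
      aeval (fun i => C ((1 - q) * KQ.cc i) * psY K ρ.length i) F := by
    have h2 : ((aeval (fun i => C ((-1 : K) ^ i) * psY K ρ.length i) :
        Lam →ₐ[K] MvPolynomial (Fin ρ.length) K).comp (plX (fun i => 1 - q ^ (i + 1)))) =
        aeval (fun i => C ((1 - q) * KQ.cc i) * psY K ρ.length i) := by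
      apply MvPolynomial.algHom_ext
      intro i
      rw [AlgHom.comp_apply, plX, aeval_X, aeval_X, map_mul, aeval_X, aeval_C,
        MvPolynomial.algebraMap_eq, ← KQ.cc_eq, C_mul, ← mul_assoc]
      congr 1
      rw [mul_comm]
    exact congrArg (fun φ : Lam →ₐ[K] MvPolynomial (Fin ρ.length) K => φ F) h2
  rw [h1, hfun K (fun i => (1 - q) * KQ.cc i) ρ.length (expo ρ) F] at h0
  set Nd : (ℕ →₀ ℕ) → ℤ := fun d =>
    coeff (expo ρ) (d.prod fun i e => psY ℤ ρ.length i ^ e : MvPolynomial (Fin ρ.length) ℤ)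
    with hNd
  have hρpos := hρ.2.1
  have hN1 : ∀ d : ℕ →₀ ℕ, d.degree < ρ.length → Nd d = 0 := fun d => (hcnt ρ hρpos d).1
  have hN2 : ∀ d : ℕ →₀ ℕ, d.degree = ρ.length → d ≠ mon ρ → Nd d = 0 :=
    fun d => (hcnt ρ hρpos d).2.1
  have hN3 : Nd (mon ρ) ≠ 0 := (hcnt ρ hρpos (mon ρ)).2.2 rfl
  have hmd : (mon ρ).degree = ρ.length := ((hmon n).1 ρ hρ).1
  have hterm : ∀ d : ℕ →₀ ℕ, coeff d F * (d.prod fun i e => ((1 - q) * KQ.cc i) ^ e) *
      ((Nd d : ℤ) : K) = (1 - q) ^ ρ.length * (coeff d F * (1 - q) ^ (d.degree - ρ.length) *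
        (d.prod fun i e => KQ.cc i ^ e) * ((Nd d : ℤ) : K)) := by
    intro d
    by_cases hd : d.degree < ρ.length
    · rw [hN1 d hd]
      simp
    · have h3 : (d.prod fun i e => ((1 - q) * KQ.cc i) ^ e) =
          (1 - q) ^ d.degree * (d.prod fun i e => KQ.cc i ^ e) := by
        rw [Finsupp.prod, Finsupp.prod, Finsupp.degree_apply, ← Finset.prod_pow_eq_pow_sum,
          ← Finset.prod_mul_distrib]
        exact Finset.prod_congr rfl fun i _ => mul_pow _ _ _
      have h4 : (1 - q) ^ d.degree = (1 - q) ^ ρ.length * (1 - q) ^ (d.degree - ρ.length) := by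
        rw [← pow_add]
        congr 1
        omega
      rw [h3, h4]
      ring
  have h5 : ∑ d ∈ F.support, (coeff d F * (1 - q) ^ (d.degree - ρ.length) *
        (d.prod fun i e => KQ.cc i ^ e) * ((Nd d : ℤ) : K)) = 0 := by
    have h6 : (1 - q) ^ ρ.length * ∑ d ∈ F.support, (coeff d F * (1 - q) ^ (d.degree - ρ.length) *
        (d.prod fun i e => KQ.cc i ^ e) * ((Nd d : ℤ) : K)) = 0 := by
      rw [Finset.mul_sum, ← h0]
      exact Finset.sum_congr rfl fun d _ => (hterm d).symm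
    exact (mul_eq_zero.1 h6).resolve_left (pow_ne_zero _ KQ.one_sub_q_ne)
  have hval : AtOne (∑ d ∈ F.support, (coeff d F * (1 - q) ^ (d.degree - ρ.length) *
        (d.prod fun i e => KQ.cc i ^ e) * ((Nd d : ℤ) : K)))
      (∑ d ∈ F.support, (coeff d F1 * (1 - 1) ^ (d.degree - ρ.length) *
        (d.prod fun i e => ((-1) ^ i * ((i + 1 : ℕ) : K1)) ^ e) * ((Nd d : ℤ) : K1))) := by
    refine A1.sum _ fun d _ => ?_
    refine A1.mul (A1.mul (A1.mul (hF d) (A1.pow (A1.sub A1.one A1.q_one) _)) ?_)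
      (KQ.atOne_int _)
    rw [Finsupp.prod, Finsupp.prod]
    exact A1.prod _ fun i _ => A1.pow (KQ.cc_atOne i) _
  rw [h5] at hval
  have h7 := A1.unique hval A1.zero
  by_cases hmem : mon ρ ∈ F.support
  swap
  · rw [notMem_support_iff] at hmem
    have h8 := hF (mon ρ)
    rw [hmem] at h8
    exact hcoef (A1.unique h8 A1.zero)
  rw [Finset.sum_eq_single_of_mem (mon ρ) hmem] at h7
  · rw [hmd, Nat.sub_self, pow_zero, mul_one] at h7
    have h9 : ((mon ρ).prod fun i e => ((-1) ^ i * ((i + 1 : ℕ) : K1)) ^ e) ≠ 0 := by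
      rw [Finsupp.prod, Finset.prod_ne_zero_iff]
      intro i _
      apply pow_ne_zero
      apply mul_ne_zero
      · exact pow_ne_zero _ (neg_ne_zero.2 one_ne_zero)
      · exact Nat.cast_ne_zero.2 (Nat.succ_ne_zero i)
    have h10 : ((Nd (mon ρ) : ℤ) : K1) ≠ 0 := Int.cast_ne_zero.2 hN3
    exact mul_ne_zero (mul_ne_zero hcoef h9) h10 h7
  · intro d _ hd
    rcases lt_trichotomy d.degree ρ.length with hlt | heq | hgt
    · rw [hN1 d hlt]
      simp
    · rw [hN2 d heq hd]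
      simp
    · rw [sub_self, zero_pow (by omega)]
      simp

end Pool.Agent.NEK
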