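import Pool.Agent.NEK.Stmts2

/-!
# The second triangularity at `q = 1`
-/

set_option autoImplicit false

namespace Pool.Agent.NEK

open MvPolynomial Finset

namespace KT

theorem t1_pow_ne (i : ℕ) : (1 : K1) - t1 ^ (i + 1) ≠ 0 := by
  intro h
  have h1 : t1 ^ (i + 1) = 1 := (sub_eq_zero.1 h).symm
  rw [t1, ← map_pow] at h1
  have h2 : A1.iT (Polynomial.X ^ (i + 1)) = A1.iT 1 := by
    rw [map_one]
    exact h1
  have h3 := A1.iT_inj h2
  have h4 := congrArg (Polynomial.eval (0 : ℚ)) h3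
  simp at h4

theorem plG_hbp {L : Type} [Field L] [Algebra ℚ L] (b : ℕ → L) (l : List ℕ) :
    plG b (hbp (fun _ => (1 : L)) l) = hbp b l := by
  rw [hbp, hbp, map_list_prod, List.map_map]
  congr 1
  refine List.map_congr_left fun a _ => ?_
  rw [Function.comp_apply, hb, hb]
  have h := (HNB.hm _ _ ((plG b : MvPolynomial ℕ L →ₐ[L] MvPolynomial ℕ L) :
    MvPolynomial ℕ L →+* MvPolynomial ℕ L) (fun i => C (1 : L) * X i)).1 a
  have h' : plG b (hN (fun i => C (1 : L) * X i) a) =
      hN (fun i => plG b (C (1 : L) * X i)) a := h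
  rw [h']
  congr 1
  funext i
  rw [map_one, one_mul, plG, aeval_X]

end KT

theorem t_KT : M_JTH → M_NAK → M_LIN → M_PHO → M_KT := by
  intro hJ hN hL hP n μ hμ F F1 hF hspan
  classical
  have hF' : LamAtOne (plX (fun i => 1 - t ^ (i + 1)) F)
      (plG (fun i => 1 - t1 ^ (i + 1)) F1) := by
    refine A1.lam_aeval (A := fun i => C (1 - t ^ (i + 1)) * X i)
      (B := fun i => C (1 - t1 ^ (i + 1)) * X i) (fun i => ?_) hF
    exact A1.lam_mul (A1.lam_C (A1.sub A1.one (A1.pow A1.t_t1 _))) (A1.lam_X i)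
  set F' := plX (fun i => 1 - t ^ (i + 1)) F with hF'def
  have hspan2 : F' ∈ Submodule.span K
      {f | ∃ m, IsPart n m ∧ Dom m (conj μ) ∧ f = hbp (fun _ => (1 : K)) m} := by
    have hle : Submodule.span K {f | ∃ l, IsPart n l ∧ Dom l (conj μ) ∧ f = sch l} ≤
        Submodule.span K
      {f | ∃ m, IsPart n m ∧ Dom m (conj μ) ∧ f = hbp (fun _ => (1 : K)) m} := by
      rw [Submodule.span_le]
      rintro f ⟨l, hl, hd, rfl⟩
      have h1 := hJ K n l hl
      refine Submodule.span_mono ?_ h1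
      rintro g ⟨m, hm, hdm, rfl⟩
      exact ⟨m, hm, fun k => (hd k).trans (hdm k), rfl⟩
    exact hle hspan
  have hhom : IsWeightedHomogeneous wt F' n := by
    have hle : Submodule.span K
        {f | ∃ m, IsPart n m ∧ Dom m (conj μ) ∧ f = hbp (fun _ => (1 : K)) m} ≤
        weightedHomogeneousSubmodule K wt n := by
      rw [Submodule.span_le]
      rintro f ⟨m, hm, -, rfl⟩
      have h1 := (hP K (fun _ => (1 : K))).2.2.1 m
      rw [hm.2.2] at h1
      exact (mem_weightedHomogeneousSubmodule K wt n _).2 h1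
    exact (mem_weightedHomogeneousSubmodule K wt n _).1 (hle hspan2)
  obtain ⟨c, c1, hc, hFc, hF1c⟩ := hN n (hbp (fun _ => (1 : K))) (hbp (fun _ => (1 : K1)))
    (by
      intro l hl
      refine ⟨?_, ?_⟩
      · have h1 := (hP K (fun _ => (1 : K))).2.2.1 l
        rw [(mem_PS.1 hl).2.2] at h1
        exact h1
      · refine A1.lam_listProd l fun a _ => ?_
        exact A1.lam_hN (fun k => A1.lam_mul (A1.lam_C A1.one) (A1.lam_X k)) a)
    (hL K1 (fun _ => 1) (fun _ => one_ne_zero) n) F' _ hhom hF'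
  have hex : ∃ a : List ℕ → K, (∀ l ∈ PS n, ¬ Dom l (conj μ) → a l = 0) ∧
      F' = ∑ l ∈ PS n, a l • hbp (fun _ => (1 : K)) l := by
    refine Submodule.span_induction (p := fun x _ => ∃ a : List ℕ → K,
      (∀ l ∈ PS n, ¬ Dom l (conj μ) → a l = 0) ∧
      x = ∑ l ∈ PS n, a l • hbp (fun _ => (1 : K)) l) ?_ ?_ ?_ ?_ hspan2
    · rintro x ⟨m, hm, hd, rfl⟩
      refine ⟨fun l => if l = m then 1 else 0, ?_, ?_⟩
      · intro l _ hnd
        have hlm : l ≠ m := by
          rintro rfl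
          exact hnd hd
        exact if_neg hlm
      · simp only [ite_smul, one_smul, zero_smul]
        rw [Finset.sum_ite_eq' (PS n) m, if_pos (mem_PS.2 hm)]
    · exact ⟨fun _ => 0, fun _ _ _ => rfl, by simp⟩
    · rintro x y - - ⟨a, ha, hx⟩ ⟨b, hb', hy⟩
      refine ⟨fun l => a l + b l, fun l hl hnd => by
        change a l + b l = 0
        rw [ha l hl hnd, hb' l hl hnd, add_zero], ?_⟩
      rw [hx, hy, ← Finset.sum_add_distrib]
      exact Finset.sum_congr rfl fun l _ => (add_smul _ _ _).symm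
    · rintro r x - ⟨a, ha, hx⟩
      refine ⟨fun l => r * a l, fun l hl hnd => by
        change r * a l = 0
        rw [ha l hl hnd, mul_zero], ?_⟩
      rw [hx, Finset.smul_sum]
      exact Finset.sum_congr rfl fun l _ => smul_smul _ _ _
  obtain ⟨a, ha, hFa⟩ := hex
  have hca : ∀ l ∈ PS n, c l = a l := by
    have h1 : ∑ l ∈ PS n, (c l - a l) • hbp (fun _ => (1 : K)) l = 0 := by
      simp only [sub_smul]
      rw [Finset.sum_sub_distrib, ← hFc, ← hFa, sub_self]
    intro l hl
    exact sub_eq_zero.1 (hL K (fun _ => 1) (fun _ => one_ne_zero) n (fun l => c l - a l) h1 l hl)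
  refine ⟨c1, ?_, ?_⟩
  · intro l hl hnd
    have h1 := hc l hl
    rw [hca l hl, ha l hl hnd] at h1
    exact A1.unique h1 A1.zero
  · have h1 : plG bt (plG (fun i => 1 - t1 ^ (i + 1)) F1) = F1 := by
      rw [plG_plG]
      have h2 : (fun i => bt i * (1 - t1 ^ (i + 1))) = fun _ => (1 : K1) := by
        funext i
        rw [bt, inv_mul_cancel₀ (KT.t1_pow_ne i)]
      rw [h2, plG_one]
    rw [← h1, hF1c, map_sum]
    refine Finset.sum_congr rfl fun l _ => ?_
    rw [map_smul, KT.plG_hbp]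

end Pool.Agent.NEK
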