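import Pool.Agent.NEK.Stmts2

/-!
# NEK: module LIN (linear independence of the products of complete functions)
-/

set_option autoImplicit false

namespace Pool.Agent.NEK

open MvPolynomial Finset

namespace LIN

theorem prod_ne {L : Type} [Field L] [Algebra ℚ L] (b : ℕ → L) (hb : ∀ i, b i ≠ 0) (l : List ℕ)
    (hl : ∀ a ∈ l, 0 < a) : (l.map fun a => b (a - 1) / (a : L)).prod ≠ 0 := by
  have : CharZero L := algebraRat.charZero L
  refine List.prod_ne_zero ?_
  intro h0
  rw [List.mem_map] at h0
  obtain ⟨a, ha, h1⟩ := h0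
  have h2 : (a : L) ≠ 0 := Nat.cast_ne_zero.2 (hl a ha).ne'
  exact div_ne_zero (hb _) h2 h1

end LIN

theorem t_LIN : M_MON → M_TRC → M_LIN := by
  classical
  intro hMON hTRC L _ _ b hb n c hsum l0 hl0
  by_contra hc0
  obtain ⟨l, hl, hmin⟩ := Finset.exists_min_image ((PS n).filter fun l => c l ≠ 0) List.length
    ⟨l0, by rw [Finset.mem_filter]; exact ⟨hl0, hc0⟩⟩
  rw [Finset.mem_filter] at hl
  obtain ⟨hl, hc⟩ := hl
  have hp : IsPart n l := mem_PS.1 hl
  have hcoeff := congrArg (coeff (mon l)) hsum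
  rw [coeff_sum, coeff_zero] at hcoeff
  have hterm : ∀ l' ∈ PS n, coeff (mon l) (c l' • hbp b l') =
      if l' = l then c l * (l.map fun a => b (a - 1) / (a : L)).prod else 0 := by
    intro l' hl'
    rw [coeff_smul, smul_eq_mul]
    by_cases h0 : c l' = 0
    · rw [h0, zero_mul]
      rw [if_neg]
      rintro rfl
      exact hc h0
    · have hp' : IsPart n l' := mem_PS.1 hl'
      have hle : (mon l).degree ≤ l'.length := by
        rw [((hMON n).1 l hp).1]
        exact hmin l' (by rw [Finset.mem_filter]; exact ⟨hl', h0⟩)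
      rw [hTRC L b l' hp'.2.1 (mon l) hle]
      by_cases h1 : l' = l
      · subst h1
        rw [if_pos rfl, if_pos rfl]
      · rw [if_neg h1, if_neg, mul_zero]
        intro h2
        exact h1 ((hMON n).2.1 l l' hp hp' h2).symm
  rw [Finset.sum_congr rfl hterm, Finset.sum_ite_eq' (PS n) l, if_pos hl] at hcoeff
  exact mul_ne_zero hc (LIN.prod_ne b hb l hp.2.1) hcoeff

end Pool.Agent.NEK
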