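import Pool.Agent.NEK.Stmts2

/-!
# Positivity of the coefficient functional
-/

set_option autoImplicit false

namespace Pool.Agent.NEK

open MvPolynomial Finset

namespace LPO

variable {L : Type} [CommRing L] {N : ℕ}

theorem prodX (σ : Equiv.Perm (Fin N)) (kap' : Fin N → ℕ) :
    ∏ i, (X (σ i) : MvPolynomial (Fin N) L) ^ kap' i =
      monomial (∑ i, Finsupp.single (σ i) (kap' i)) 1 := by
  rw [monomial_sum_one]
  exact Finset.prod_congr rfl fun i _ => X_pow_eq_monomial

theorem sum_at (σ : Equiv.Perm (Fin N)) (kap' : Fin N → ℕ) (i : Fin N) :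
    (∑ j, Finsupp.single (σ j) (kap' j) : Fin N →₀ ℕ) (σ i) = kap' i := by
  rw [Finsupp.finsetSum_apply, Finset.sum_eq_single i]
  · simp
  · intro j _ hj
    rw [Finsupp.single_apply, if_neg]
    intro h
    exact hj (σ.injective h)
  · intro h
    exact absurd (Finset.mem_univ i) h

theorem perm_one (kap : Fin N →₀ ℕ) (hk : StrictAnti (fun j => kap j)) (kap' : Fin N → ℕ)
    (hk' : StrictAnti kap') (σ : Equiv.Perm (Fin N))
    (h : (∑ j, Finsupp.single (σ j) (kap' j) : Fin N →₀ ℕ) = kap) : σ = 1 := by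
  have h1 : ∀ i, kap (σ i) = kap' i := by
    intro i
    rw [← h]
    exact sum_at σ kap' i
  have h2 : StrictMono σ := by
    intro i j hij
    have h3 : kap' j < kap' i := hk' hij
    rw [← h1 i, ← h1 j] at h3
    exact hk.lt_iff_gt.mp h3
  have h4 : (σ : Fin N → Fin N) = id := by
    rw [← StrictMono.range_inj h2 strictMono_id, Set.range_id]
    exact σ.surjective.range_eq
  ext i
  rw [h4]
  rfl

theorem coeff_alt (S : Subsemiring L) (kap : Fin N →₀ ℕ) (hk : StrictAnti (fun j => kap j))
    (kap' : Fin N → ℕ) (hk' : StrictAnti kap') :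
    coeff kap (alt kap' : MvPolynomial (Fin N) L) ∈ S := by
  classical
  have h1 : (alt kap' : MvPolynomial (Fin N) L) =
      ∑ σ : Equiv.Perm (Fin N), Equiv.Perm.sign σ •
        monomial (∑ i, Finsupp.single (σ i) (kap' i)) (1 : L) := by
    rw [alt, Matrix.det_apply]
    refine Finset.sum_congr rfl fun σ _ => ?_
    rw [← prodX]
    rfl
  rw [h1, coeff_sum, Finset.sum_eq_single 1]
  · rw [Equiv.Perm.sign_one, one_smul, coeff_monomial]
    split_ifs
    · exact S.one_mem
    · exact S.zero_mem
  · intro σ _ hσ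
    have h2 : coeff kap (monomial (∑ i, Finsupp.single (σ i) (kap' i)) (1 : L)) = 0 := by
      rw [coeff_monomial, if_neg]
      intro h
      exact hσ (perm_one kap hk kap' hk' σ h)
    rw [Units.smul_def, MvPolynomial.coeff_smul, h2, smul_zero]
  · intro h
    exact absurd (Finset.mem_univ _) h

/-- the combinations of alternants with coefficients in `S` -/
noncomputable def AA (S : Subsemiring L) (N : ℕ) : AddSubmonoid (MvPolynomial (Fin N) L) :=
  AddSubmonoid.closure {g | ∃ s ∈ S, ∃ kap' : Fin N → ℕ, StrictAnti kap' ∧ g = C s * alt kap'}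

theorem mul_C (S : Subsemiring L) {s : L} (hs : s ∈ S) (a : MvPolynomial (Fin N) L)
    (ha : a ∈ AA S N) : a * C s ∈ AA S N := by
  induction ha using AddSubmonoid.closure_induction with
  | mem x hx =>
    obtain ⟨s', hs', kap', hk', rfl⟩ := hx
    refine AddSubmonoid.subset_closure ⟨s' * s, S.mul_mem hs' hs, kap', hk', ?_⟩
    rw [C_mul]
    ring
  | zero => rw [zero_mul]; exact AddSubmonoid.zero_mem _
  | add x y _ _ h1 h2 => rw [add_mul]; exact AddSubmonoid.add_mem _ h1 h2

theorem mul_hz [Algebra ℚ L] (hA : M_API) (S : Subsemiring L) (m : ℕ)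
    (a : MvPolynomial (Fin N) L) (ha : a ∈ AA S N) : a * hz N m ∈ AA S N := by
  induction ha using AddSubmonoid.closure_induction with
  | mem x hx =>
    obtain ⟨s, hs, kap', hk', rfl⟩ := hx
    have h1 := hA L N m kap' hk'
    rw [mul_assoc]
    generalize (alt kap' : MvPolynomial (Fin N) L) * hz N m = y at h1
    induction h1 using AddSubmonoid.closure_induction with
    | mem z hz =>
      obtain ⟨kap'', hk'', rfl⟩ := hz
      exact AddSubmonoid.subset_closure ⟨s, hs, kap'', hk'', rfl⟩
    | zero => rw [mul_zero]; exact AddSubmonoid.zero_mem _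
    | add z w _ _ h1 h2 => rw [mul_add]; exact AddSubmonoid.add_mem _ h1 h2
  | zero => rw [zero_mul]; exact AddSubmonoid.zero_mem _
  | add x y _ _ h1 h2 => rw [add_mul]; exact AddSubmonoid.add_mem _ h1 h2

end LPO

/-- positivity of the coefficient functional -/
theorem t_LPO : M_API → M_LPO := by
  intro hA L _ _ S N f hf kap hkap
  have h1 : ∀ a ∈ LPO.AA S N, a * f ∈ LPO.AA S N := by
    induction hf using Subsemiring.closure_induction with
    | mem x hx =>
      intro a ha
      rcases hx with ⟨s, hs, rfl⟩ | ⟨m, rfl⟩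
      · exact LPO.mul_C S hs a ha
      · exact LPO.mul_hz hA S m a ha
    | zero =>
      intro a _
      rw [mul_zero]
      exact AddSubmonoid.zero_mem _
    | one =>
      intro a ha
      rw [mul_one]
      exact ha
    | add x y _ _ h1 h2 =>
      intro a ha
      rw [mul_add]
      exact AddSubmonoid.add_mem _ (h1 a ha) (h2 a ha)
    | mul x y _ _ h1 h2 =>
      intro a ha
      rw [← mul_assoc]
      exact h2 _ (h1 a ha)
  have h2 : (alt (fun j : Fin N => N - 1 - (j : ℕ)) : MvPolynomial (Fin N) L) ∈ LPO.AA S N := by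
    refine AddSubmonoid.subset_closure ⟨1, S.one_mem, _, ?_, by rw [C_1, one_mul]⟩
    intro i j hij
    have hi := i.2
    have hj := j.2
    have hij' : (i : ℕ) < (j : ℕ) := hij
    change N - 1 - (j : ℕ) < N - 1 - (i : ℕ)
    omega
  have h3 := h1 _ h2
  generalize (alt (fun j : Fin N => N - 1 - (j : ℕ)) : MvPolynomial (Fin N) L) * f = g at h3
  induction h3 using AddSubmonoid.closure_induction with
  | mem x hx =>
    obtain ⟨s, hs, kap', hk', rfl⟩ := hx
    rw [coeff_C_mul]
    exact S.mul_mem hs (LPO.coeff_alt S kap hkap kap' hk')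
  | zero => rw [coeff_zero]; exact S.zero_mem
  | add x y _ _ h1 h2 => rw [coeff_add]; exact S.add_mem h1 h2

end Pool.Agent.NEK
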