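import Pool.Agent.NEK.Stmts2

/-!
# Module NEK_MON: monomials and partitions
-/

set_option autoImplicit false

namespace Pool.Agent.NEK

open MvPolynomial Finset

namespace MON

theorem mon_nil : mon [] = 0 := rfl

theorem mon_cons (a : ℕ) (l : List ℕ) : mon (a :: l) = Finsupp.single (a - 1) 1 + mon l := by
  simp only [mon, List.map_cons, List.sum_cons]

theorem deg (l : List ℕ) : (mon l).degree = l.length := by
  induction l with
  | nil => rw [mon_nil, map_zero]; rfl
  | cons a l ih =>
    rw [mon_cons, map_add, Finsupp.degree_single, ih, List.length_cons, add_comm]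

theorem wei (l : List ℕ) (h : ∀ a ∈ l, 0 < a) : Finsupp.weight wt (mon l) = l.sum := by
  induction l with
  | nil => rw [mon_nil, map_zero]; rfl
  | cons a l ih =>
    rw [mon_cons, map_add, Finsupp.weight_single, ih fun b hb => h b (List.mem_cons_of_mem _ hb),
      List.sum_cons, smul_eq_mul, one_mul]
    have h1 := h a List.mem_cons_self
    have h2 : wt (a - 1) = a := by
      unfold wt
      omega
    rw [h2]

theorem cnt (l : List ℕ) (h : ∀ a ∈ l, 0 < a) (i : ℕ) : mon l i = l.count (i + 1) := by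
  induction l with
  | nil => rw [mon_nil]; rfl
  | cons a l ih =>
    rw [mon_cons, Finsupp.add_apply, ih fun b hb => h b (List.mem_cons_of_mem _ hb),
      List.count_cons, Finsupp.single_apply]
    have h1 := h a List.mem_cons_self
    by_cases h2 : a = i + 1
    · have h3 : a - 1 = i := by omega
      simp [h2, add_comm]
    · have h3 : a - 1 ≠ i := by omega
      simp [h2, h3]

theorem inj (n : ℕ) (l l' : List ℕ) (h : IsPart n l) (h' : IsPart n l') (e : mon l = mon l') :
    l = l' := by
  apply List.Perm.eq_of_pairwise' h.1 h'.1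
  rw [List.perm_iff_count]
  intro b
  rcases b with _ | i
  · have h1 : (0 : ℕ) ∉ l := fun h0 => lt_irrefl _ (h.2.1 0 h0)
    have h2 : (0 : ℕ) ∉ l' := fun h0 => lt_irrefl _ (h'.2.1 0 h0)
    rw [List.count_eq_zero_of_not_mem h1, List.count_eq_zero_of_not_mem h2]
  · rw [← cnt l h.2.1 i, ← cnt l' h'.2.1 i, e]

theorem mon_coe (l : List ℕ) :
    mon l = ((l : Multiset ℕ).map fun a => Finsupp.single (a - 1) 1).sum := by
  rw [Multiset.map_coe, Multiset.sum_coe]
  rfl

theorem surj (d : ℕ →₀ ℕ) : ∃ l : List ℕ, l.Pairwise (· ≥ ·) ∧ (∀ a ∈ l, 0 < a) ∧ mon l = d := by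
  refine ⟨((Finsupp.toMultiset d).map fun i => i + 1).sort (· ≥ ·),
    Multiset.pairwise_sort _ _, ?_, ?_⟩
  · intro a ha
    rw [Multiset.mem_sort, Multiset.mem_map] at ha
    obtain ⟨i, -, rfl⟩ := ha
    exact Nat.succ_pos i
  · rw [mon_coe, Multiset.sort_eq, Multiset.map_map]
    have h1 : Finsupp.toMultiset (Multiset.map ((fun a => Finsupp.single (a - 1) 1) ∘
        fun i => i + 1) (Finsupp.toMultiset d)).sum = Finsupp.toMultiset d := by
      rw [map_multiset_sum, Multiset.map_map]
      have h2 : ∀ i : ℕ, (⇑Finsupp.toMultiset ∘ ((fun a => Finsupp.single (a - 1) 1) ∘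
          fun i => i + 1)) i = ({i} : Multiset ℕ) := by
        intro i
        simp
      rw [Multiset.map_congr rfl fun i _ => h2 i, Multiset.sum_map_singleton]
    have h3 := congrArg Multiset.toFinsupp h1
    rwa [Finsupp.toMultiset_toFinsupp, Finsupp.toMultiset_toFinsupp] at h3

end MON

theorem t_MON : M_MON := by
  intro n
  refine ⟨fun l hl => ⟨MON.deg l, ?_⟩, fun l l' h h' e => MON.inj n l l' h h' e, ?_⟩
  · rw [MON.wei l hl.2.1, hl.2.2]
  · intro d hd
    obtain ⟨l, h1, h2, h3⟩ := MON.surj d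
    refine ⟨l, ⟨h1, h2, ?_⟩, h3⟩
    rw [← MON.wei l h2, h3, hd]

end Pool.Agent.NEK
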