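import Pool.Agent.NEK.Stmts2

/-!
# Expansion over the local ring at `q = 1` (module NAK)
-/

set_option autoImplicit false

namespace Pool.Agent.NEK

open MvPolynomial Finset

namespace NAK

/-- extend a function on the partitions of `n` by zero -/
noncomputable def ex {R : Type} [Zero R] (n : ℕ) (v : {l // l ∈ PS n} → R) (l : List ℕ) : R :=
  if h : l ∈ PS n then v ⟨l, h⟩ else 0

theorem ex_coe {R : Type} [Zero R] (n : ℕ) (v : {l // l ∈ PS n} → R) (l : {l // l ∈ PS n}) :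
    ex n v l.1 = v l := by
  rw [ex, dif_pos l.2]

theorem ex_sum {R : Type} [CommRing R] (n : ℕ) (v : {l // l ∈ PS n} → R)
    (g : List ℕ → MvPolynomial ℕ R) (d : ℕ →₀ ℕ) :
    coeff d (∑ l ∈ PS n, ex n v l • g l) = ∑ l : {l // l ∈ PS n}, v l * coeff d (g l.1) := by
  rw [coeff_sum, ← Finset.sum_coe_sort (PS n) (fun l => coeff d (ex n v l • g l))]
  refine Finset.sum_congr rfl fun l _ => ?_
  rw [coeff_smul, smul_eq_mul, ex_coe]

/-- outside the weight `n` the specialisation has no coefficients -/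
theorem coeff_snd {n : ℕ} {F : Lam} {F1 : Lam1} (hF : IsWeightedHomogeneous wt F n)
    (h : LamAtOne F F1) {d : ℕ →₀ ℕ} (hd : Finsupp.weight wt d ≠ n) : coeff d F1 = 0 := by
  have h1 := h d
  rw [hF.coeff_eq_zero d hd] at h1
  exact A1.unique h1 A1.zero

end NAK

open NAK in
theorem t_NAK : M_MON → M_NAK := by
  intro hM n HA H1 hH hI F F1 hF hFF
  classical
  obtain ⟨-, -, hm⟩ := hM n
  let M : Matrix {l // l ∈ PS n} {l // l ∈ PS n} A1.AA := Matrix.of fun μ ρ =>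
    ⟨(coeff (mon ρ.1) (HA μ.1), coeff (mon ρ.1) (H1 μ.1)), (hH μ.1 μ.2).2 (mon ρ.1)⟩
  have hM1 : ∀ μ ρ, A1.fstA (M μ ρ) = coeff (mon ρ.1) (HA μ.1) := fun _ _ => rfl
  have hM2 : ∀ μ ρ, A1.sndA (M μ ρ) = coeff (mon ρ.1) (H1 μ.1) := fun _ _ => rfl
  have hdet : A1.sndA M.det ≠ 0 := by
    intro h0
    rw [RingHom.map_det] at h0
    obtain ⟨v, hv, hv2⟩ := Matrix.exists_vecMul_eq_zero_iff.2 h0
    apply hv
    have h1 : ∑ l ∈ PS n, ex n v l • H1 l = 0 := by
      ext d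
      rw [ex_sum, coeff_zero]
      by_cases hd : Finsupp.weight wt d = n
      · obtain ⟨l, hl, rfl⟩ := hm d hd
        have h2 := congrFun hv2 ⟨l, mem_PS.2 hl⟩
        exact h2
      · refine Finset.sum_eq_zero fun l _ => ?_
        rw [coeff_snd (hH l.1 l.2).1 (hH l.1 l.2).2 hd, mul_zero]
    funext l
    have h2 := hI _ h1 l.1 l.2
    rw [ex_coe] at h2
    exact h2
  have hu : IsUnit M.det := A1.isUnit_of_snd hdet
  let f : {l // l ∈ PS n} → A1.AA := fun ρ =>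
    ⟨(coeff (mon ρ.1) F, coeff (mon ρ.1) F1), hFF (mon ρ.1)⟩
  let c : {l // l ∈ PS n} → A1.AA := Matrix.vecMul f M⁻¹
  have hc : Matrix.vecMul c M = f := by
    change Matrix.vecMul (Matrix.vecMul f M⁻¹) M = f
    rw [Matrix.vecMul_vecMul, Matrix.nonsing_inv_mul _ hu, Matrix.vecMul_one]
  have hc2 : ∀ ρ, ∑ μ, c μ * M μ ρ = f ρ := fun ρ => congrFun hc ρ
  refine ⟨ex n fun μ => A1.fstA (c μ), ex n fun μ => A1.sndA (c μ), ?_, ?_, ?_⟩
  · intro l hl
    rw [ex, ex, dif_pos hl, dif_pos hl]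
    exact A1.mem_AA.1 (c ⟨l, hl⟩).2
  · ext d
    rw [ex_sum]
    by_cases hd : Finsupp.weight wt d = n
    · obtain ⟨l, hl, rfl⟩ := hm d hd
      have h2 := congrArg A1.fstA (hc2 ⟨l, mem_PS.2 hl⟩)
      rw [map_sum] at h2
      have h3 : A1.fstA (f ⟨l, mem_PS.2 hl⟩) = coeff (mon l) F := rfl
      rw [h3] at h2
      rw [← h2]
      refine Finset.sum_congr rfl fun μ _ => ?_
      rw [map_mul, hM1]
    · rw [hF.coeff_eq_zero d hd]
      refine (Finset.sum_eq_zero fun l _ => ?_).symm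
      rw [(hH l.1 l.2).1.coeff_eq_zero d hd, mul_zero]
  · ext d
    rw [ex_sum]
    by_cases hd : Finsupp.weight wt d = n
    · obtain ⟨l, hl, rfl⟩ := hm d hd
      have h2 := congrArg A1.sndA (hc2 ⟨l, mem_PS.2 hl⟩)
      rw [map_sum] at h2
      have h3 : A1.sndA (f ⟨l, mem_PS.2 hl⟩) = coeff (mon l) F1 := rfl
      rw [h3] at h2
      rw [← h2]
      refine Finset.sum_congr rfl fun μ _ => ?_
      rw [map_mul, hM2]
    · rw [coeff_snd hF hFF hd]
      refine (Finset.sum_eq_zero fun l _ => ?_).symm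
      rw [coeff_snd (hH l.1 l.2).1 (hH l.1 l.2).2 hd, mul_zero]

end Pool.Agent.NEK
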