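import Pool.Agent.NEK.Stmts2

/-!
# Module PHO: homogeneity
-/

set_option autoImplicit false

namespace Pool.Agent.NEK

open MvPolynomial Finset

namespace PHO

variable {L : Type} [Field L] [Algebra ℚ L]

theorem amap (r : ℚ) (F : MvPolynomial ℕ L) (n : ℕ) (h : IsWeightedHomogeneous wt F n) :
    IsWeightedHomogeneous wt (algebraMap ℚ (MvPolynomial ℕ L) r * F) n := by
  have h1 : algebraMap ℚ (MvPolynomial ℕ L) r = C (algebraMap ℚ L r) := rfl
  rw [h1]
  have h2 := (isWeightedHomogeneous_C wt (algebraMap ℚ L r)).mul h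
  rwa [zero_add] at h2

theorem hN_h (P : ℕ → MvPolynomial ℕ L) (hP : ∀ k, IsWeightedHomogeneous wt (P k) (k + 1)) :
    ∀ n, IsWeightedHomogeneous wt (hN P n) n := by
  intro n
  induction n using Nat.strong_induction_on with
  | _ n ih =>
    cases n with
    | zero =>
      rw [hN]
      exact isWeightedHomogeneous_one _ _
    | succ n =>
      rw [hN]
      refine amap _ _ _ (IsWeightedHomogeneous.sum _ _ _ fun k _ => ?_)
      have h1 := (hP k).mul (ih (n - k) (by omega))
      have h2 : (k : ℕ) + 1 + (n - k) = n + 1 := by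
        have := k.2
        omega
      rwa [h2] at h1

theorem eN_h (P : ℕ → MvPolynomial ℕ L) (hP : ∀ k, IsWeightedHomogeneous wt (P k) (k + 1)) :
    ∀ n, IsWeightedHomogeneous wt (eN P n) n := by
  intro n
  induction n using Nat.strong_induction_on with
  | _ n ih =>
    cases n with
    | zero =>
      rw [eN]
      exact isWeightedHomogeneous_one _ _
    | succ n =>
      rw [eN]
      refine amap _ _ _ (IsWeightedHomogeneous.sum _ _ _ fun k _ => ?_)
      have h0 : IsWeightedHomogeneous wt ((-1) ^ (k : ℕ) * P k) ((k : ℕ) + 1) := by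
        have h3 := (isWeightedHomogeneous_C wt ((-1 : L) ^ (k : ℕ))).mul (hP k)
        rw [zero_add, map_pow, map_neg, map_one] at h3
        exact h3
      have h1 := h0.mul (ih (n - k) (by omega))
      have h2 : (k : ℕ) + 1 + (n - k) = n + 1 := by
        have := k.2
        omega
      rwa [h2] at h1

theorem hp (b : ℕ → L) (k : ℕ) :
    IsWeightedHomogeneous wt (C (b k) * (X k : MvPolynomial ℕ L)) (k + 1) := by
  have h1 := (isWeightedHomogeneous_C wt (b k)).mul (isWeightedHomogeneous_X L wt k)
  rwa [zero_add] at h1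

theorem hprod (f : ℕ → MvPolynomial ℕ L) (hf : ∀ n, IsWeightedHomogeneous wt (f n) n)
    (l : List ℕ) : IsWeightedHomogeneous wt (l.map f).prod l.sum := by
  induction l with
  | nil => exact isWeightedHomogeneous_one _ _
  | cons a l ih =>
    rw [List.map_cons, List.prod_cons, List.sum_cons]
    exact (hf a).mul ih

theorem sN_h (P : ℕ → MvPolynomial ℕ L) (hP : ∀ k, IsWeightedHomogeneous wt (P k) (k + 1))
    (l : List ℕ) : IsWeightedHomogeneous wt (sN P l) l.sum := by
  rw [sN, Matrix.det_apply]
  refine IsWeightedHomogeneous.sum _ _ _ fun w _ => ?_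
  have h1 : IsWeightedHomogeneous wt (∏ i : Fin l.length,
      (Matrix.of fun i j : Fin l.length => hZ P ((l.get i : ℤ) - (i : ℤ) + (j : ℤ))) (w i) i)
      l.sum := by
    by_cases hneg : ∀ i : Fin l.length, 0 ≤ (l.get (w i) : ℤ) - ((w i : Fin l.length) : ℤ) + (i : ℤ)
    · have h2 := IsWeightedHomogeneous.prod (w := wt) (Finset.univ : Finset (Fin l.length))
        (fun i => (Matrix.of fun i j : Fin l.length =>
          hZ P ((l.get i : ℤ) - (i : ℤ) + (j : ℤ))) (w i) i)
        (fun i => ((l.get (w i) : ℤ) - ((w i : Fin l.length) : ℤ) + (i : ℤ)).toNat)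
        (fun i _ => by
          rw [Matrix.of_apply, hZ, if_pos (hneg i)]
          exact hN_h P hP _)
      have h3 : ∑ i : Fin l.length,
          ((l.get (w i) : ℤ) - ((w i : Fin l.length) : ℤ) + (i : ℤ)).toNat = l.sum := by
        have h5 : ∑ i : Fin l.length, l.get i = l.sum := by rw [← List.sum_ofFn, List.ofFn_get]
        rw [← h5]
        zify
        rw [Finset.sum_congr rfl fun i _ => Int.toNat_of_nonneg (hneg i), Finset.sum_add_distrib,
          Finset.sum_sub_distrib, Equiv.sum_comp w fun i : Fin l.length => (l.get i : ℤ),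
          Equiv.sum_comp w fun i : Fin l.length => ((i : ℕ) : ℤ), sub_add_cancel]
      rwa [h3] at h2
    · push Not at hneg
      obtain ⟨i, hi⟩ := hneg
      rw [Finset.prod_eq_zero (Finset.mem_univ i)]
      · exact isWeightedHomogeneous_zero _ _ _
      · rw [Matrix.of_apply, hZ, if_neg (not_le.2 hi)]
  rcases Int.units_eq_one_or (Equiv.Perm.sign w) with h | h
  · rw [h, one_smul]
    exact h1
  · rw [h, Units.neg_smul, one_smul]
    have h4 := (isWeightedHomogeneous_C wt (-1 : L)).mul h1
    rw [zero_add, map_neg, map_one, neg_one_mul] at h4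
    exact h4

end PHO

theorem t_PHO : M_PHO := by
  intro L _ _ b
  refine ⟨fun n => PHO.hN_h _ (PHO.hp b) n, fun n => PHO.eN_h _ (PHO.hp b) n,
    fun l => PHO.hprod _ (fun n => PHO.hN_h _ (PHO.hp b) n) l, fun n l hl => ?_⟩
  rw [← hl.2.2]
  exact PHO.sN_h _ (fun k => isWeightedHomogeneous_X L wt k) l

end Pool.Agent.NEK
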