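import Pool.Agent.NEK.Stmts2

/-!
# Module PHX: algebra maps with prescribed values on the `η_a`
-/

set_option autoImplicit false

namespace Pool.Agent.NEK

open MvPolynomial Finset

namespace PHX

/-- the power sums belonging to a given sequence of complete functions -/
noncomputable def Q {R : Type} [CommRing R] (θ : ℕ → R) : ℕ → R
  | n => ((n + 1 : ℕ) : R) * θ (n + 1) - ∑ k : Fin n, Q θ k * θ (n - k)
termination_by n => n
decreasing_by exact k.2

theorem Q_eq {R : Type} [CommRing R] (θ : ℕ → R) (n : ℕ) :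
    Q θ n = ((n + 1 : ℕ) : R) * θ (n + 1) - ∑ k ∈ range n, Q θ k * θ (n - k) := by
  rw [Q, Finset.sum_range]

theorem hN_Q {R : Type} [CommRing R] [Algebra ℚ R] (θ : ℕ → R) (h0 : θ 0 = 1) (n : ℕ) :
    hN (Q θ) n = θ n := by
  refine HNB.hu R (Q θ) θ h0 (fun n => ?_) n
  rw [Finset.sum_range_succ, Nat.sub_self, h0, mul_one, Q_eq θ n]
  ring

theorem t1_ne (i : ℕ) : (1 : K1) - t1 ^ (i + 1) ≠ 0 := by
  intro h
  have h1 : t1 ^ (i + 1) = (1 : K1) := (sub_eq_zero.1 h).symm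
  rw [t1, ← map_pow, ← map_one (algebraMap (Polynomial ℚ) K1)] at h1
  have h2 := IsFractionRing.injective (Polynomial ℚ) K1 h1
  have h3 := congrArg Polynomial.natDegree h2
  rw [Polynomial.natDegree_X_pow, Polynomial.natDegree_one] at h3
  omega

end PHX

open PHX in
theorem t_PHX : M_PHX := by
  intro N θ h0
  let Φ : Lam1 →ₐ[K1] MvPolynomial (Fin N) Lam1 :=
    aeval (fun i => (1 - t1 ^ (i + 1) : K1) • Q θ i)
  refine ⟨Φ, fun a => ?_⟩
  have h1 : ∀ i, Φ (C (bt i) * X i) = Q θ i := by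
    intro i
    rw [map_mul]
    have h2 : Φ (X i) = (1 - t1 ^ (i + 1) : K1) • Q θ i := aeval_X _ _
    have h3 : Φ (C (bt i)) = algebraMap K1 (MvPolynomial (Fin N) Lam1) (bt i) := aeval_C _ _
    rw [h2, h3, ← Algebra.smul_def, smul_smul, bt, inv_mul_cancel₀ (t1_ne i), one_smul]
  have h4 := (HNB.hm Lam1 (MvPolynomial (Fin N) Lam1) Φ.toRingHom
    (fun i => C (bt i) * X i)).1 a
  change Φ (hN (fun i => C (bt i) * X i) a) = θ a
  have h5 : (fun k => Φ.toRingHom (C (bt k) * X k)) = Q θ := funext h1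
  rw [h5] at h4
  rw [← hN_Q θ h0 a, ← h4]
  rfl

end Pool.Agent.NEK
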