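import Pool.Agent.NEK.Stmts2

/-!
# The operator `Δ_{s_lam} ∇` at `q = 1`
-/

set_option autoImplicit false

namespace Pool.Agent.NEK

open MvPolynomial Finset

namespace QON

/-- `∑_{m ≤ D} h_m(z) t^{jm}` -/
noncomputable def om (N D j : ℕ) : MvPolynomial (Fin N) Lam1 :=
  ∑ m ∈ range (D + 1), C ((C (t1 ^ j) : Lam1) ^ m) * (hz N m : MvPolynomial (Fin N) Lam1)

theorem om_eq (N D j : ℕ) :
    om N D j = ∑ m ∈ range (D + 1), (hz N m : MvPolynomial (Fin N) Lam1) *
      (C (C t1 : Lam1) : MvPolynomial (Fin N) Lam1) ^ (j * m) := by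
  rw [om]
  refine Finset.sum_congr rfl fun m _ => ?_
  rw [mul_comm, pow_mul, map_pow, map_pow, map_pow]

/-- the images of the `η_a` -/
noncomputable def theta (N D a : ℕ) : MvPolynomial (Fin N) Lam1 :=
  C (C (t1 ^ (a.choose 2)) * eta a) * ∏ j ∈ range a, om N D j

theorem eta_zero : eta 0 = 1 := by
  rw [eta, hb, hN]

theorem theta_zero (N D : ℕ) : theta N D 0 = 1 := by
  rw [theta, eta_zero, Finset.range_zero, Finset.prod_empty, mul_one, mul_one, Nat.choose_zero_succ,
    pow_zero, map_one, map_one]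

theorem phi_C {N : ℕ} (Phi : Lam1 →ₐ[K1] MvPolynomial (Fin N) Lam1) (c : K1) :
    Phi (C c) = C (C c) := by
  have h := Phi.commutes c
  exact h

theorem prod_rows {R : Type} [CommRing R] (f : ℕ → R) (l : List ℕ) :
    (l.map fun a => ∏ j ∈ range a, f j).prod = ((rows l).map f).prod := by
  induction l with
  | nil => rfl
  | cons a l ih =>
    have h : rows (a :: l) = List.range a ++ rows l := by
      rw [rows, rows, List.flatMap_cons]
    rw [h, List.map_cons, List.prod_cons, List.map_append, List.prod_append, ih]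
    congr 1

theorem phi_Hb {N D : ℕ} (Phi : Lam1 →ₐ[K1] MvPolynomial (Fin N) Lam1)
    (hPhi : ∀ a, Phi (eta a) = theta N D a) (l : List ℕ) :
    Phi (Hb l) = C (Hb l * C ((l.map fun a => t1 ^ (a.choose 2)).prod)) *
      ((rows l).map (om N D)).prod := by
  rw [← prod_rows (om N D) l]
  induction l with
  | nil =>
    simp [Hb]
  | cons a l ih =>
    have h1 : Hb (a :: l) = (C (tf a) * eta a) * Hb l := by
      rw [Hb, Hb, List.map_cons, List.prod_cons]
    rw [h1, map_mul, ih, map_mul, hPhi, phi_C, theta, List.map_cons, List.prod_cons, List.map_cons,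
      List.prod_cons]
    simp only [map_mul]
    ring

/-- the operator -/
noncomputable def Lop (lam : List ℕ) (Phi : Lam1 →ₐ[K1] MvPolynomial (Fin lam.length) Lam1) :
    Lam1 →ₗ[K1] Lam1 where
  toFun F := coeff (ldel lam) (alt (fun j : Fin lam.length => lam.length - 1 - (j : ℕ)) * Phi F)
  map_add' F G := by rw [map_add, mul_add, coeff_add]
  map_smul' c F := by rw [map_smul, mul_smul_comm, coeff_smul, RingHom.id_apply]

theorem Lop_apply (lam : List ℕ) (Phi : Lam1 →ₐ[K1] MvPolynomial (Fin lam.length) Lam1)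
    (F : Lam1) : Lop lam Phi F =
      coeff (ldel lam) (alt (fun j : Fin lam.length => lam.length - 1 - (j : ℕ)) * Phi F) := rfl

theorem sN_C (l lam : List ℕ) :
    sN (fun k => (((rows l).map fun j => (C (t1 ^ j) : Lam1)).map fun x => x ^ (k + 1)).sum) lam =
      C (sN (fun k => ((rows l).map fun i => (t1 ^ i) ^ (k + 1)).sum) lam) := by
  rw [(HNB.hm K1 Lam1 (C : K1 →+* Lam1) _).2.2 lam]
  congr 1
  funext k
  rw [map_list_sum, List.map_map, List.map_map]
  congr 1
  refine List.map_congr_left fun i _ => ?_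
  simp only [Function.comp_apply, map_pow]

theorem eig (hC : M_CAU) (hD : M_DTX) (lam : List ℕ)
    (Phi : Lam1 →ₐ[K1] MvPolynomial (Fin lam.length) Lam1)
    (hPhi : ∀ a, Phi (eta a) = theta lam.length lam.sum a) (l : List ℕ) :
    Lop lam Phi (Hb l) = ((l.map fun a => t1 ^ (a.choose 2)).prod *
      sN (fun k => ((rows l).map fun i => (t1 ^ i) ^ (k + 1)).sum) lam) • Hb l := by
  rw [Lop_apply, phi_Hb Phi hPhi l]
  have h1 : coeff (ldel lam) (alt (fun j : Fin lam.length => lam.length - 1 - (j : ℕ)) *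
      (C (Hb l * C ((l.map fun a => t1 ^ (a.choose 2)).prod)) *
        ((rows l).map (om lam.length lam.sum)).prod)) =
      (Hb l * C ((l.map fun a => t1 ^ (a.choose 2)).prod)) *
      coeff (ldel lam) (alt (fun j : Fin lam.length => lam.length - 1 - (j : ℕ)) *
        ((rows l).map (om lam.length lam.sum)).prod) := by
    rw [mul_left_comm, coeff_C_mul]
  have h2 := hD Lam1
    (fun k => (((rows l).map fun j => (C (t1 ^ j) : Lam1)).map fun x => x ^ (k + 1)).sum) lam
    ((rows l).map (om lam.length lam.sum)).prod (fun α hα => by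
      have h3 := hC Lam1 lam.length lam.sum ((rows l).map fun j => (C (t1 ^ j) : Lam1)) α hα
      rw [List.map_map] at h3
      exact h3)
  rw [h1, h2, sN_C, smul_eq_C_mul, map_mul]
  ring

/-- the target semiring -/
noncomputable def SS (N : ℕ) : Subsemiring (MvPolynomial (Fin N) Lam1) :=
  Subsemiring.closure ({f | ∃ s ∈ EP, f = C s} ∪ {f | ∃ m, f = hz N m})

theorem C_mem (N : ℕ) {s : Lam1} (hs : s ∈ EP) : (C s : MvPolynomial (Fin N) Lam1) ∈ SS N :=
  Subsemiring.subset_closure (Or.inl ⟨s, hs, rfl⟩)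

theorem hz_mem (N m : ℕ) : (hz N m : MvPolynomial (Fin N) Lam1) ∈ SS N :=
  Subsemiring.subset_closure (Or.inr ⟨m, rfl⟩)

theorem pow_mem_SS {R : Type} [CommRing R] (S : Subsemiring R) (G : PowerSeries R)
    (h : ∀ n, PowerSeries.coeff n G ∈ S) (k : ℕ) : ∀ n, PowerSeries.coeff n (G ^ k) ∈ S := by
  induction k with
  | zero =>
    intro n
    rw [pow_zero, PowerSeries.coeff_one]
    split_ifs
    · exact S.one_mem
    · exact S.zero_mem
  | succ k ih =>
    intro n
    rw [pow_succ, PowerSeries.coeff_mul]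
    exact S.sum_mem fun x _ => S.mul_mem (ih _) (h _)

theorem Eb_mem (hG : M_GPS) {R : Type} [CommRing R] (S : Subsemiring R) (Phi : Lam1 →+* R)
    (τ : R) (e g c w : ℕ → R) (D : ℕ)
    (h1 : τ ∈ S) (h2 : ∀ j, e j ∈ S) (h3 : ∀ m, g m ∈ S) (h4 : e 0 = 1) (h5 : c 0 = 1)
    (h6 : ∀ a, ∑ ij ∈ antidiagonal a, e ij.1 * c ij.2 = τ ^ a * c a)
    (h7 : ∀ a, w a = c a * τ ^ (a.choose 2) *
      ∏ j ∈ range a, ∑ m ∈ range (D + 1), g m * τ ^ (j * m))
    (h8 : PowerSeries.map Phi (Hh X1) * PowerSeries.mk (fun a => τ ^ a * w a) =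
      PowerSeries.mk w) (n k : ℕ) : Phi (Eb n k) ∈ S := by
  have h : Phi (Eb n k) = PowerSeries.coeff n ((1 - PowerSeries.map Phi (Hh X1)) ^ k) := by
    rw [← map_one (PowerSeries.map Phi), ← map_sub, ← map_pow, PowerSeries.coeff_map, Eb]
  rw [h]
  refine pow_mem_SS S _ (fun m => ?_) k n
  refine hG R S τ e g c w D h1 h2 h3 h4 h5 h6 h7 _ ?_ m
  rw [sub_sub_cancel]
  exact h8

theorem G_mem (hE : M_ETA) (hG : M_GPS) (N D : ℕ)
    (Phi : Lam1 →ₐ[K1] MvPolynomial (Fin N) Lam1)
    (hPhi : ∀ a, Phi (eta a) = theta N D a) (n k : ℕ) : Phi (Eb n k) ∈ SS N := by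
  refine Eb_mem hG (SS N) (Phi : Lam1 →+* MvPolynomial (Fin N) Lam1) (C (C t1))
    (fun j => C (eN X1 j)) (hz N)
    (fun a => C ((-1) ^ a * eta a)) (fun a => (-1) ^ a * theta N D a) D ?_ ?_ ?_ ?_ ?_ ?_ ?_ ?_ n k
  · exact C_mem N (Subsemiring.subset_closure (Or.inl rfl))
  · intro j
    exact C_mem N (Subsemiring.subset_closure (Or.inr ⟨j, rfl⟩))
  · exact hz_mem N
  · change C (eN X1 0) = 1
    rw [eN, map_one]
  · change C ((-1) ^ 0 * eta 0) = 1
    rw [eta_zero, pow_zero, mul_one, map_one]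
  · intro a
    have h := congrArg (C : Lam1 →+* MvPolynomial (Fin N) Lam1) (hE.1 a)
    rw [map_sum] at h
    have h2 : ∀ ij ∈ antidiagonal a, (C (eN X1 ij.1) : MvPolynomial (Fin N) Lam1) *
        C ((-1) ^ ij.2 * eta ij.2) = C (eN X1 ij.1 * ((-1) ^ ij.2 * eta ij.2)) :=
      fun ij _ => (map_mul _ _ _).symm
    rw [Finset.sum_congr rfl h2, h, map_mul, map_pow, map_pow]
  · intro a
    change (-1) ^ a * theta N D a = _
    have h : ∀ j ∈ range a, om N D j = ∑ m ∈ range (D + 1),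
        (hz N m : MvPolynomial (Fin N) Lam1) * (C (C t1)) ^ (j * m) := fun j _ => om_eq N D j
    rw [theta, Finset.prod_congr rfl h, map_mul, map_mul, map_pow, map_pow, map_pow, map_neg,
      map_one]
    ring
  · have h := congrArg (PowerSeries.map (Phi : Lam1 →+* MvPolynomial (Fin N) Lam1)) hE.2
    rw [map_mul] at h
    have h2 : PowerSeries.map (Phi : Lam1 →+* MvPolynomial (Fin N) Lam1)
        (PowerSeries.mk (fun a => C (t1 ^ a) * ((-1) ^ a * eta a))) =
        PowerSeries.mk (fun a => (C (C t1)) ^ a * ((-1) ^ a * theta N D a)) := by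
      ext1 a
      rw [PowerSeries.coeff_map, PowerSeries.coeff_mk, PowerSeries.coeff_mk]
      change Phi (C (t1 ^ a) * ((-1) ^ a * eta a)) = _
      rw [map_mul, map_mul, phi_C, hPhi, map_pow, map_pow, map_pow, map_neg, map_one]
    have h3 : PowerSeries.map (Phi : Lam1 →+* MvPolynomial (Fin N) Lam1)
        (PowerSeries.mk (fun a => (-1) ^ a * eta a)) =
        PowerSeries.mk (fun a => (-1) ^ a * theta N D a) := by
      ext1 a
      rw [PowerSeries.coeff_map, PowerSeries.coeff_mk, PowerSeries.coeff_mk]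
      change Phi ((-1) ^ a * eta a) = _
      rw [map_mul, hPhi, map_pow, map_neg, map_one]
    rw [h2, h3] at h
    exact h

theorem pos (hE : M_ETA) (hG : M_GPS) (hL : M_LPO) (m : ℕ) (lam : List ℕ) (hlam : IsPart m lam)
    (Phi : Lam1 →ₐ[K1] MvPolynomial (Fin lam.length) Lam1)
    (hPhi : ∀ a, Phi (eta a) = theta lam.length lam.sum a) (n k : ℕ) :
    Lop lam Phi (Eb n k) ∈ EP := by
  rw [Lop_apply]
  refine hL Lam1 EP lam.length (Phi (Eb n k)) (G_mem hE hG lam.length lam.sum Phi hPhi n k)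
    (ldel lam) ?_
  intro i j hij
  change ldel lam j < ldel lam i
  rw [ldel_apply, ldel_apply]
  have h1 : lam.get i ≥ lam.get j := List.pairwise_iff_get.1 hlam.1 i j hij
  have h2 := i.2
  have h3 := j.2
  have h4 : (i : ℕ) < j := hij
  omega

end QON

/-- The operator `Δ_{s_lam} ∇` at `q = 1` and its positivity. -/
theorem t_QON : M_PHX → M_ETA → M_GPS → M_CAU → M_DTX → M_LPO → M_QON := by
  intro hP hE hG hC hD hL m lam hlam
  obtain ⟨Phi, hPhi⟩ := hP lam.length (QON.theta lam.length lam.sum)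
    (QON.theta_zero lam.length lam.sum)
  exact ⟨QON.Lop lam Phi, QON.eig hC hD lam Phi hPhi, QON.pos hE hG hL m lam hlam Phi hPhi⟩

end Pool.Agent.NEK
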