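import Pool.Agent.NEK.Stmts2

/-!
# NEK, module TRC: lowest terms of products of `h_a`
-/

set_option autoImplicit false

namespace Pool.Agent.NEK

open MvPolynomial Finset

namespace TRC

variable {L : Type} [Field L] [Algebra ℚ L] (b : ℕ → L)

theorem cast_ne (n : ℕ) : ((n + 1 : ℕ) : L) ≠ 0 := by
  have : ((n + 1 : ℕ) : L) = algebraMap ℚ L ((n + 1 : ℕ) : ℚ) := by rw [map_natCast]
  rw [this]
  intro h
  have h1 := (map_eq_zero (algebraMap ℚ L)).1 h
  exact absurd h1 (by exact_mod_cast Nat.succ_ne_zero n)

theorem rec_coeff (n : ℕ) (d : ℕ →₀ ℕ) :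
    ((n + 1 : ℕ) : L) * coeff d (hb b (n + 1)) =
      ∑ k ∈ range (n + 1), b k * coeff d (X k * hb b (n - k)) := by
  have h := congrArg (coeff d) (HNB.hr (MvPolynomial ℕ L) (fun i => C (b i) * X i) n)
  rw [coeff_sum] at h
  have h1 : (((n + 1 : ℕ) : MvPolynomial ℕ L)) = C ((n + 1 : ℕ) : L) := by
    rw [map_natCast]
  rw [h1, coeff_C_mul] at h
  refine h.trans (Finset.sum_congr rfl fun k _ => ?_)
  rw [mul_assoc, coeff_C_mul]
  rfl

theorem coeff0 (n : ℕ) : coeff 0 (hb b n) = if n = 0 then 1 else 0 := by
  cases n with
  | zero =>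
    rw [if_pos rfl]
    change coeff 0 (hN (fun i => C (b i) * X i) 0) = 1
    rw [hN, coeff_zero_one]
  | succ n =>
    rw [if_neg (Nat.succ_ne_zero n)]
    have h := rec_coeff b n 0
    have h1 : ∑ k ∈ range (n + 1), b k * coeff 0 (X k * hb b (n - k)) = 0 := by
      refine Finset.sum_eq_zero fun k _ => ?_
      have h2 : coeff 0 (X k * hb b (n - k)) = 0 := by
        change constantCoeff (X k * hb b (n - k)) = 0
        rw [map_mul, constantCoeff_X, zero_mul]
      rw [h2, mul_zero]
    rw [h1] at h
    exact (mul_eq_zero.1 h).resolve_left (cast_ne n)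

theorem coeff1 (n i : ℕ) : coeff (Finsupp.single i 1) (hb b (n + 1)) =
    if i = n then b n / ((n + 1 : ℕ) : L) else 0 := by
  classical
  have h := rec_coeff b n (Finsupp.single i 1)
  have h1 : ∑ k ∈ range (n + 1), b k * coeff (Finsupp.single i 1) (X k * hb b (n - k)) =
      if i = n then b n else 0 := by
    have h2 : ∀ k ∈ range (n + 1), b k * coeff (Finsupp.single i 1) (X k * hb b (n - k)) =
        if k = n then (if i = n then b n else 0) else 0 := by
      intro k hk
      have hk' := mem_range.1 hk
      rw [coeff_X_mul']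
      by_cases hki : k = i
      · subst hki
        have h3 : k ∈ (Finsupp.single k 1 : ℕ →₀ ℕ).support := by
          rw [Finsupp.mem_support_iff, Finsupp.single_eq_same]
          exact one_ne_zero
        rw [if_pos h3, tsub_self, coeff0]
        by_cases hkn : k = n
        · subst hkn
          rw [if_pos (Nat.sub_self k), if_pos rfl, if_pos rfl, mul_one]
        · rw [if_neg (by omega), if_neg hkn, mul_zero]
      · have h3 : k ∉ (Finsupp.single i 1 : ℕ →₀ ℕ).support := by
          rw [Finsupp.notMem_support_iff, Finsupp.single_eq_of_ne hki]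
        rw [if_neg h3, mul_zero]
        split_ifs with h4 h5
        · exact absurd (h4.trans h5.symm) hki
        · rfl
        · rfl
    rw [Finset.sum_congr rfl h2, Finset.sum_ite_eq', if_pos (mem_range.2 (Nat.lt_succ_self n))]
  rw [h1] at h
  split_ifs at h ⊢ with h3
  · rw [eq_div_iff (cast_ne n), mul_comm]
    exact h
  · exact (mul_eq_zero.1 h).resolve_left (cast_ne n)

theorem deg_one (d : ℕ →₀ ℕ) (h0 : d ≠ 0) (h : d.degree ≤ 1) : ∃ i, d = Finsupp.single i 1 := by
  obtain ⟨i, hi⟩ : ∃ i, d i ≠ 0 := by
    by_contra hne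
    push Not at hne
    exact h0 (Finsupp.ext hne)
  refine ⟨i, ?_⟩
  have h1 : Finsupp.single i 1 + (d - Finsupp.single i 1) = d := by
    apply add_tsub_cancel_of_le
    rw [Finsupp.single_le_iff]
    omega
  have h2 := congrArg Finsupp.degree h1
  rw [map_add, Finsupp.degree_single] at h2
  have h3 : (d - Finsupp.single i 1).degree = 0 := by omega
  rw [Finsupp.degree_eq_zero_iff] at h3
  rw [← h1, h3, add_zero]

theorem mon_degree (l : List ℕ) : (mon l).degree = l.length := by
  induction l with
  | nil => simp [mon]
  | cons a l ih =>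
    have h : mon (a :: l) = Finsupp.single (a - 1) 1 + mon l := by
      rw [mon, List.map_cons, List.sum_cons]
      rfl
    rw [h, map_add, Finsupp.degree_single, ih, List.length_cons, add_comm]

theorem mon_cons (a : ℕ) (l : List ℕ) : mon (a :: l) = Finsupp.single (a - 1) 1 + mon l := by
  rw [mon, List.map_cons, List.sum_cons]
  rfl

end TRC

open TRC in
theorem t_TRC : M_TRC := by
  classical
  intro L _ _ b l
  induction l with
  | nil =>
    intro _ d hd
    have h0 : d = 0 := by
      rw [← Finsupp.degree_eq_zero_iff]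
      exact Nat.le_zero.1 hd
    subst h0
    have h1 : hbp b [] = 1 := rfl
    have h2 : mon [] = 0 := rfl
    rw [h1, h2, if_pos rfl, coeff_zero_one]
    rfl
  | cons a l ih =>
    intro hpos d hd
    obtain ⟨n, rfl⟩ : ∃ n, a = n + 1 := ⟨a - 1, by have := hpos a List.mem_cons_self; omega⟩
    have hl : ∀ a ∈ l, 0 < a := fun a ha => hpos a (List.mem_cons_of_mem _ ha)
    have h1 : hbp b ((n + 1) :: l) = hb b (n + 1) * hbp b l := by
      rw [hbp, List.map_cons, List.prod_cons]
      rfl
    have hterm : ∀ x ∈ antidiagonal d, coeff x.1 (hb b (n + 1)) * coeff x.2 (hbp b l) =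
        if x = (Finsupp.single n 1, mon l) then
          b n / ((n + 1 : ℕ) : L) * (l.map fun a => b (a - 1) / (a : L)).prod else 0 := by
      rintro ⟨u, v⟩ hx
      have huv : u + v = d := mem_antidiagonal.1 hx
      have hdeg : u.degree + v.degree = d.degree := by rw [← map_add, huv]
      rw [List.length_cons] at hd
      by_cases hu : u = 0
      · subst hu
        rw [coeff0, if_neg (Nat.succ_ne_zero n), zero_mul, if_neg]
        intro h
        have h2 := congrArg (fun z => (z.1 : ℕ →₀ ℕ) n) h
        simp at h2
      · have hu1 : 1 ≤ u.degree := by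
          rw [Nat.one_le_iff_ne_zero]
          intro h
          exact hu ((Finsupp.degree_eq_zero_iff u).1 h)
        have hv : v.degree ≤ l.length := by omega
        rw [ih hl v hv]
        by_cases hvm : v = mon l
        · have hv2 : v.degree = l.length := by rw [hvm, mon_degree]
          obtain ⟨i, rfl⟩ := deg_one u hu (by omega)
          rw [if_pos hvm, coeff1]
          by_cases hin : i = n
          · subst hin
            rw [if_pos rfl, if_pos (by rw [hvm])]
          · rw [if_neg hin, zero_mul, if_neg]
            intro h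
            have h2 : Finsupp.single i 1 = (Finsupp.single n 1 : ℕ →₀ ℕ) := congrArg Prod.fst h
            exact hin (Finsupp.single_left_injective one_ne_zero h2)
        · rw [if_neg hvm, mul_zero, if_neg]
          intro h
          exact hvm (congrArg Prod.snd h)
    rw [h1, coeff_mul, Finset.sum_congr rfl hterm, Finset.sum_ite_eq', mon_cons,
      Nat.add_sub_cancel, List.map_cons, List.prod_cons, Nat.add_sub_cancel]
    by_cases hd' : d = Finsupp.single n 1 + mon l
    · rw [if_pos hd', if_pos (mem_antidiagonal.2 hd'.symm)]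
    · rw [if_neg hd', if_neg (fun h => hd' (mem_antidiagonal.1 h).symm)]

end Pool.Agent.NEK
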