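import Pool.Agent.NEK.Stmts2

/-!
# Scaling by a power of `1 - q`
-/

set_option autoImplicit false

namespace Pool.Agent.NEK

open MvPolynomial Finset

namespace VAL

/-- the section `ℚ[t] → ℚ[q,t]` -/
noncomputable def sec : Polynomial ℚ →ₐ[ℚ] MvPolynomial (Fin 2) ℚ := Polynomial.aeval (X 1)

theorem dvd_sub (a : MvPolynomial (Fin 2) ℚ) : (1 - X 0) ∣ a - sec (sp a) := by
  induction a using MvPolynomial.induction_on with
  | C r =>
    have h1 : sec (sp (C r)) = C r := by
      rw [← MvPolynomial.algebraMap_eq, AlgHom.commutes, AlgHom.commutes]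
    rw [h1, sub_self]
    exact dvd_zero _
  | add p r hp hr =>
    rw [map_add, map_add]
    have h : p + r - (sec (sp p) + sec (sp r)) = (p - sec (sp p)) + (r - sec (sp r)) := by ring
    rw [h]
    exact dvd_add hp hr
  | mul_X p i hp =>
    obtain ⟨c, hc⟩ := hp
    have h0 : sp (X 0) = 1 := by rw [sp, aeval_X]; rfl
    have h1 : sp (X 1) = Polynomial.X := by rw [sp, aeval_X]; rfl
    have h2 : sec Polynomial.X = X 1 := by rw [sec, Polynomial.aeval_X]
    have hp' : p = (1 - X 0) * c + sec (sp p) := by rw [← hc]; ring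
    fin_cases i
    · change (1 - X 0) ∣ p * X 0 - sec (sp (p * X 0))
      rw [map_mul, map_mul, h0, map_one, mul_one]
      refine ⟨c * X 0 - sec (sp p), ?_⟩
      calc p * X 0 - sec (sp p) = (p - sec (sp p)) * X 0 - sec (sp p) * (1 - X 0) := by ring
        _ = _ := by rw [hc]; ring
    · change (1 - X 0) ∣ p * X 1 - sec (sp (p * X 1))
      rw [map_mul, map_mul, h1, h2]
      refine ⟨c * X 1, ?_⟩
      calc p * X 1 - sec (sp p) * X 1 = (p - sec (sp p)) * X 1 := by ring
        _ = _ := by rw [hc]; ring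

theorem dvd_of_sp {a : MvPolynomial (Fin 2) ℚ} (h : sp a = 0) : (1 - X 0) ∣ a := by
  have h1 := dvd_sub a
  rwa [h, map_zero, sub_zero] at h1

theorem sp_base : sp (1 - X 0) = 0 := by
  have h0 : sp (X 0) = 1 := by rw [sp, aeval_X]; rfl
  rw [map_sub, map_one, h0, sub_self]

theorem base_not_unit : ¬ IsUnit (1 - X 0 : MvPolynomial (Fin 2) ℚ) := by
  intro h
  have h1 := h.map sp
  rw [sp_base] at h1
  exact not_isUnit_zero h1

theorem base_ne : (1 - X 0 : MvPolynomial (Fin 2) ℚ) ≠ 0 := by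
  intro h
  have h1 : (X 0 : MvPolynomial (Fin 2) ℚ) = 1 := (sub_eq_zero.1 h).symm
  have h2 := congrArg (MvPolynomial.eval (fun _ : Fin 2 => (0 : ℚ))) h1
  rw [eval_X, map_one] at h2
  exact zero_ne_one h2

theorem u_eq : (1 - q : K) = A1.iK (1 - X 0) := by
  rw [map_sub, map_one]
  rfl

theorem u_ne : (1 - q : K) ≠ 0 := by
  rw [u_eq]
  exact A1.iK_ne base_ne

theorem u_zero : AtOne (1 - q) 0 := by
  have h := A1.sub A1.one A1.q_one
  rwa [sub_self] at h

theorem scale {x : K} (hx : x ≠ 0) : ∃ (r : ℤ) (y : K1), y ≠ 0 ∧ AtOne (x * (1 - q) ^ r) y := by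
  obtain ⟨a, b, hb, rfl⟩ := IsFractionRing.div_surjective (A := MvPolynomial (Fin 2) ℚ) x
  have hb0 : b ≠ 0 := nonZeroDivisors.ne_zero hb
  have ha0 : a ≠ 0 := by
    rintro rfl
    rw [map_zero, zero_div] at hx
    exact hx rfl
  obtain ⟨α, a', ha', rfl⟩ := WfDvdMonoid.max_power_factor' ha0 base_not_unit
  obtain ⟨β, b', hb', rfl⟩ := WfDvdMonoid.max_power_factor' hb0 base_not_unit
  have sa : sp a' ≠ 0 := fun h => ha' (dvd_of_sp h)
  have sb : sp b' ≠ 0 := fun h => hb' (dvd_of_sp h)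
  refine ⟨(β : ℤ) - α, A1.iT (sp a') / A1.iT (sp b'), div_ne_zero (A1.iT_ne sa) (A1.iT_ne sb), ?_⟩
  have h := A1.div (A1.poly a') (A1.poly b') (A1.iT_ne sb)
  have e : (A1.iK ((1 - X 0) ^ α * a') / A1.iK ((1 - X 0) ^ β * b')) *
      (1 - q) ^ ((β : ℤ) - α) = A1.iK a' / A1.iK b' := by
    have hu := u_ne
    have hb2 : A1.iK b' ≠ 0 := A1.iK_ne (A1.ne_of_sp sb)
    rw [map_mul, map_mul, map_pow, map_pow, ← u_eq, zpow_sub₀ hu, zpow_natCast, zpow_natCast]
    field_simp
  change AtOne ((A1.iK ((1 - X 0) ^ α * a') / A1.iK ((1 - X 0) ^ β * b')) *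
      (1 - q) ^ ((β : ℤ) - α)) _
  rw [e]
  exact h

end VAL

/-- **module VAL** -/
theorem t_VAL : M_VAL := by
  classical
  intro F hF
  have h1 : ∀ d : ℕ →₀ ℕ, ∃ (r : ℤ) (y : K1), y ≠ 0 ∧
      (coeff d F ≠ 0 → AtOne (coeff d F * (1 - q) ^ r) y) := by
    intro d
    by_cases hd : coeff d F = 0
    · exact ⟨0, 1, one_ne_zero, fun h => absurd hd h⟩
    · obtain ⟨r, y, hy, h⟩ := VAL.scale hd
      exact ⟨r, y, hy, fun _ => h⟩
  choose r y hy h using h1
  have hne : F.support.Nonempty := by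
    rw [Finset.nonempty_iff_ne_empty]
    exact fun h0 => hF (MvPolynomial.support_eq_empty.1 h0)
  obtain ⟨d0, hd0, hmax⟩ := F.support.exists_max_image r hne
  set F1 : Lam1 := ∑ d ∈ F.support, monomial d (if r d = r d0 then y d else 0) with hF1
  have hc : ∀ d, coeff d F1 = if d ∈ F.support then (if r d = r d0 then y d else 0) else 0 := by
    intro d
    rw [hF1, coeff_sum]
    simp only [coeff_monomial]
    rw [Finset.sum_ite_eq']
  refine ⟨r d0, F1, ?_, ?_⟩
  · intro h0
    have h2 := hc d0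
    rw [h0, coeff_zero, if_pos hd0, if_pos rfl] at h2
    exact hy d0 h2.symm
  · intro d
    rw [hc d, coeff_smul, smul_eq_mul]
    by_cases hd : d ∈ F.support
    · rw [if_pos hd]
      have hd' : coeff d F ≠ 0 := MvPolynomial.mem_support_iff.1 hd
      have h2 := h d hd'
      have h3 := hmax d hd
      obtain ⟨k, hk⟩ := Int.eq_ofNat_of_zero_le (sub_nonneg.2 h3)
      have h4 : ((1 - q) ^ r d0 : K) * coeff d F = (coeff d F * (1 - q) ^ r d) * (1 - q) ^ k := by
        have h5 : r d0 = r d + k := by omega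
        rw [h5, zpow_add₀ VAL.u_ne, zpow_natCast]
        ring
      rw [h4]
      have h6 := A1.mul h2 (A1.pow VAL.u_zero k)
      by_cases hk0 : k = 0
      · subst hk0
        have h7 : r d = r d0 := by
          have : r d0 - r d = 0 := by rw [hk]; rfl
          omega
        rw [if_pos h7]
        rw [pow_zero, mul_one]
        rwa [pow_zero, pow_zero, mul_one, mul_one] at h6
      · have h7 : r d ≠ r d0 := by
          intro h8
          rw [h8, sub_self] at hk
          exact hk0 (Int.natCast_eq_zero.1 hk.symm)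
        rw [if_neg h7]
        rwa [zero_pow hk0, mul_zero] at h6
    · rw [if_neg hd, MvPolynomial.notMem_support_iff.1 hd, mul_zero]
      exact A1.zero

end Pool.Agent.NEK
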