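import Pool.Agent.NEK.Stmts2

set_option autoImplicit false

namespace Pool.Agent.NEK

open MvPolynomial Finset

namespace VCR

variable {S : Type} [CommRing S]

/-- the matrix of the shift in terms of the columns -/
def cm (N : ℕ) (e : ℕ → S) : Matrix (Fin N) (Fin N) S :=
  Matrix.of fun k j : Fin N =>
    if (j : ℕ) + 1 = N then (-1) ^ (N - 1 - (k : ℕ)) * e (N - (k : ℕ))
    else if (k : ℕ) = (j : ℕ) + 1 then 1 else 0

theorem shift (N : ℕ) (h : ℤ → S) (e : ℕ → S) (kap : Fin N → ℤ)
    (H : ∀ i, h (kap i + N) = ∑ m ∈ Icc 1 N, (-1) ^ (m - 1) * e m * h (kap i + N - m)) :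
    (Matrix.of fun i j : Fin N => h (kap i + 1 + (j : ℕ))) =
      (Matrix.of fun i j : Fin N => h (kap i + (j : ℕ))) * cm N e := by
  ext i j
  rw [Matrix.mul_apply]
  simp only [Matrix.of_apply, cm]
  by_cases hj : (j : ℕ) + 1 = N
  · simp only [hj, if_true]
    have e1 : kap i + 1 + ((j : ℕ) : ℤ) = kap i + N := by
      have : (N : ℤ) = (j : ℕ) + 1 := by exact_mod_cast hj.symm
      rw [this]; ring
    rw [e1, H i]
    symm
    refine Finset.sum_bij (fun (k : Fin N) _ => N - (k : ℕ)) ?_ ?_ ?_ ?_
    · intro k _
      have := k.2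
      rw [Finset.mem_Icc]; omega
    · intro a _ b _ hab
      have h1 := a.2
      have h2 := b.2
      apply Fin.ext
      have hab2 : N - (a : ℕ) = N - (b : ℕ) := hab
      omega
    · intro m hm
      rw [Finset.mem_Icc] at hm
      exact ⟨⟨N - m, by omega⟩, Finset.mem_univ _, by show N - (N - m) = m; omega⟩
    · intro k _
      have h1 := k.2
      have e2 : kap i + (N : ℤ) - ((N - (k : ℕ) : ℕ) : ℤ) = kap i + ((k : ℕ) : ℤ) := by
        rw [Nat.cast_sub h1.le]; ring
      rw [e2, show N - 1 - (k : ℕ) = N - (k : ℕ) - 1 by omega]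
      ring
  · simp only [hj, if_false]
    have hj2 : (j : ℕ) + 1 < N := by
      have := j.2; omega
    rw [Finset.sum_eq_single (⟨(j : ℕ) + 1, hj2⟩ : Fin N)]
    · simp only [if_true, mul_one]
      congr 1
      push_cast
      ring
    · intro b _ hb
      rw [if_neg, mul_zero]
      intro h2
      exact hb (Fin.ext h2)
    · intro h2
      exact absurd (Finset.mem_univ _) h2

theorem det_cm (e : ℕ → S) (he : e 0 = 1) (y : S) (N : ℕ) :
    Matrix.det (1 + y • cm N e) = ∑ m ∈ range (N + 1), e m * y ^ m := by
  rcases N with _ | n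
  · simp [he]
  · set A : Matrix (Fin (n + 1)) (Fin (n + 1)) S := 1 + y • cm (n + 1) e with hA
    have hAe : ∀ k j : Fin (n + 1), A k j = (if k = j then 1 else 0) +
        y * (if (j : ℕ) + 1 = n + 1 then (-1) ^ (n + 1 - 1 - (k : ℕ)) * e (n + 1 - (k : ℕ))
          else if (k : ℕ) = (j : ℕ) + 1 then 1 else 0) := by
      intro k j
      rw [hA, Matrix.add_apply, Matrix.smul_apply, smul_eq_mul, Matrix.one_apply]
      rfl
    have hdet := Matrix.det_updateRow_sum A (Fin.last n) (fun k => (-y) ^ (n - (k : ℕ)))
    simp only [Fin.val_last, Nat.sub_self, pow_zero, one_smul] at hdet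
    rw [← hdet]
    have hrow : (∑ k : Fin (n + 1), (-y) ^ (n - (k : ℕ)) • A k) =
        fun j => if j = Fin.last n then ∑ m ∈ range (n + 1 + 1), e m * y ^ m else 0 := by
      funext j
      rw [Finset.sum_apply]
      simp only [Pi.smul_apply, smul_eq_mul, hAe]
      by_cases hj : j = Fin.last n
      · rw [if_pos hj]
        subst hj
        simp only [Fin.val_last, if_true]
        rw [Finset.sum_range_succ']
        simp only [mul_add, Finset.sum_add_distrib]
        have e1 : (∑ k : Fin (n + 1), (-y) ^ (n - (k : ℕ)) * (if k = Fin.last n then (1 : S) else 0)) = 1 := by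
          rw [Finset.sum_eq_single (Fin.last n)]
          · simp
          · intro b _ hb
            rw [if_neg hb, mul_zero]
          · intro h2
            exact absurd (Finset.mem_univ _) h2
        rw [e1, he, pow_zero, mul_one, add_comm]
        congr 1
        rw [← Finset.sum_range_reflect, ← Fin.sum_univ_eq_sum_range
          (fun j => e (n + 1 - 1 - j + 1) * y ^ (n + 1 - 1 - j + 1))]
        apply Finset.sum_congr rfl
        intro k _
        have hk := k.2
        have e2 : n + 1 - (k : ℕ) = n - (k : ℕ) + 1 := by omega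
        have e3 : n + 1 - 1 - (k : ℕ) = n - (k : ℕ) := by omega
        rw [e3, e2, neg_pow y, pow_succ y]
        have e4 : ((-1 : S) ^ (n - (k : ℕ))) * (-1) ^ (n - (k : ℕ)) = 1 := by
          rw [← mul_pow]; simp
        calc (-1 : S) ^ (n - (k : ℕ)) * y ^ (n - (k : ℕ)) * (y * ((-1) ^ (n - (k : ℕ)) * e (n - (k : ℕ) + 1)))
            = ((-1 : S) ^ (n - (k : ℕ)) * (-1) ^ (n - (k : ℕ))) * (e (n - (k : ℕ) + 1) * (y ^ (n - (k : ℕ)) * y)) := by ring
          _ = _ := by rw [e4, one_mul]
      · rw [if_neg hj]
        have hj1 : (j : ℕ) < n := by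
          have h1 := j.2
          have h2 : (j : ℕ) ≠ n := fun h3 => hj (Fin.ext h3)
          omega
        have hj2 : ¬ ((j : ℕ) + 1 = n + 1) := by omega
        simp only [hj2, if_false]
        simp only [mul_add, Finset.sum_add_distrib]
        rw [Finset.sum_eq_single j, Finset.sum_eq_single (⟨(j : ℕ) + 1, by omega⟩ : Fin (n + 1))]
        · simp only [if_true, mul_one]
          have e5 : n - (j : ℕ) = n - ((j : ℕ) + 1) + 1 := by omega
          rw [e5, pow_succ]
          ring
        · intro b _ hb
          rw [if_neg, mul_zero, mul_zero]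
          intro h2
          exact hb (Fin.ext h2)
        · intro h2
          exact absurd (Finset.mem_univ _) h2
        · intro b _ hb
          rw [if_neg hb, mul_zero]
        · intro h2
          exact absurd (Finset.mem_univ _) h2
    rw [hrow, Matrix.det_succ_row _ (Fin.last n), Finset.sum_eq_single (Fin.last n)]
    · rw [Matrix.updateRow_self]
      simp only [Fin.val_last, if_true]
      rw [Even.neg_one_pow ⟨n, rfl⟩, one_mul]
      have hdet2 : Matrix.det ((A.updateRow (Fin.last n) (fun j => if j = Fin.last n then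
          ∑ m ∈ range (n + 1 + 1), e m * y ^ m else 0)).submatrix (Fin.last n).succAbove
          (Fin.last n).succAbove) = 1 := by
        rw [Matrix.det_of_isLowerTriangular]
        · apply Finset.prod_eq_one
          intro i _
          rw [Matrix.submatrix_apply, Matrix.updateRow_ne (by simp [Fin.succAbove_last, Fin.castSucc_ne_last]),
            hAe]
          have hi := i.2
          simp only [Fin.succAbove_last, Fin.val_castSucc, if_true]
          rw [if_neg (by omega), if_neg (by omega)]
          ring
        · intro i j hij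
          have hij2 : i < j := by simpa using hij
          rw [Matrix.submatrix_apply, Matrix.updateRow_ne (by simp [Fin.succAbove_last, Fin.castSucc_ne_last]),
            hAe]
          have hi := i.2
          have hj := j.2
          have hlt : (i : ℕ) < j := hij2
          simp only [Fin.succAbove_last, Fin.val_castSucc]
          rw [if_neg (fun h2 => by
            have h3 : (i : ℕ) = j := by simpa using congrArg Fin.val h2
            omega), if_neg (by omega), if_neg (by omega)]
          ring
      rw [hdet2, mul_one]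
    · intro b _ hb
      rw [Matrix.updateRow_self]
      simp only [hb, if_false, mul_zero, zero_mul]
    · intro h2
      exact absurd (Finset.mem_univ _) h2

theorem rows (N : ℕ) (h : ℤ → S) (kap : Fin N → ℤ) :
    Matrix.det (Matrix.of fun i j : Fin N => (Polynomial.C (h (kap i + (j : ℕ))) +
        Polynomial.X * Polynomial.C (h (kap i + 1 + (j : ℕ))) : Polynomial S)) =
      ∑ r ∈ Fintype.piFinset (fun _ : Fin N => range 2),
        Polynomial.C (Matrix.det (Matrix.of fun i j : Fin N => h (kap i + (r i : ℕ) + (j : ℕ)))) *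
          Polynomial.X ^ (∑ i, r i) := by
  classical
  have h1 := MultilinearMap.map_sum_finset
    (Matrix.detRowAlternating (n := Fin N) (R := Polynomial S)).toMultilinearMap
    (fun i (k : ℕ) => fun j : Fin N => (Polynomial.X : Polynomial S) ^ k * Polynomial.C (h (kap i + (k : ℤ) + (j : ℕ))))
    (fun _ : Fin N => range 2)
  have h2 : (Matrix.of fun i j : Fin N => (Polynomial.C (h (kap i + (j : ℕ))) +
        Polynomial.X * Polynomial.C (h (kap i + 1 + (j : ℕ))) : Polynomial S)) =
      (fun i => ∑ k ∈ range 2, fun j : Fin N => (Polynomial.X : Polynomial S) ^ k * Polynomial.C (h (kap i + (k : ℤ) + (j : ℕ)))) := by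
    funext i j
    rw [Finset.sum_apply, Finset.sum_range_succ, Finset.sum_range_one]
    simp only [Matrix.of_apply, pow_zero, one_mul, pow_one, Nat.cast_zero, add_zero, Nat.cast_one]
  have h3 : Matrix.det (Matrix.of fun i j : Fin N => (Polynomial.C (h (kap i + (j : ℕ))) +
        Polynomial.X * Polynomial.C (h (kap i + 1 + (j : ℕ))) : Polynomial S)) =
      (Matrix.detRowAlternating (n := Fin N) (R := Polynomial S)).toMultilinearMap
        (fun i => ∑ k ∈ range 2, fun j : Fin N => (Polynomial.X : Polynomial S) ^ k * Polynomial.C (h (kap i + (k : ℤ) + (j : ℕ)))) := by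
    rw [h2]; rfl
  rw [h3, h1]
  apply Finset.sum_congr rfl
  intro r _
  have h4 : (Matrix.detRowAlternating (n := Fin N) (R := Polynomial S)).toMultilinearMap
      (fun i => fun j : Fin N => (Polynomial.X : Polynomial S) ^ (r i) * Polynomial.C (h (kap i + ((r i : ℕ) : ℤ) + (j : ℕ)))) =
      Matrix.det (Matrix.of fun i j : Fin N => (Polynomial.X : Polynomial S) ^ (r i) *
        (Matrix.of fun i j : Fin N => Polynomial.C (h (kap i + ((r i : ℕ) : ℤ) + (j : ℕ)))) i j) := rfl
  refine h4.trans ((Matrix.det_mul_column _ _).trans ?_)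
  rw [Finset.prod_pow_eq_pow_sum, mul_comm]
  congr 1
  rw [RingHom.map_det]
  rfl

end VCR

theorem t_VCR : M_VCR := by
  intro R _ N h e kap he H m hm
  have h1 := VCR.rows N h kap
  have h2 : (Matrix.of fun i j : Fin N => (Polynomial.C (h (kap i + (j : ℕ))) +
        Polynomial.X * Polynomial.C (h (kap i + 1 + (j : ℕ))) : Polynomial R)) =
      (Matrix.of fun i j : Fin N => Polynomial.C (h (kap i + (j : ℕ)))) *
        (1 + (Polynomial.X : Polynomial R) • VCR.cm N (fun k => Polynomial.C (e k))) := by
    have h3 := VCR.shift N (fun z => Polynomial.C (h z)) (fun k => Polynomial.C (e k)) kap (by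
      intro i
      simp only [H i, map_sum, map_mul, map_pow, map_neg, map_one])
    rw [Matrix.mul_add, Matrix.mul_one, Matrix.mul_smul, ← h3]
    ext i j
    simp only [Matrix.add_apply, Matrix.smul_apply, Matrix.of_apply, smul_eq_mul]
  rw [h2, Matrix.det_mul, VCR.det_cm _ (by rw [he, map_one])] at h1
  have h4 : Matrix.det (Matrix.of fun i j : Fin N => (Polynomial.C (h (kap i + (j : ℕ))) : Polynomial R)) =
      Polynomial.C (Matrix.det (Matrix.of fun i j : Fin N => h (kap i + (j : ℕ)))) := by
    rw [RingHom.map_det]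
    rfl
  rw [h4] at h1
  have h5 := congrArg (fun p => Polynomial.coeff p m) h1
  simp only [Polynomial.coeff_C_mul, Polynomial.finsetSum_coeff, Polynomial.coeff_X_pow] at h5
  rw [Finset.sum_filter]
  rw [Finset.sum_eq_single m] at h5
  · simp only [if_true, mul_one] at h5
    rw [mul_comm, h5]
    apply Finset.sum_congr rfl
    intro r _
    by_cases hr : ∑ i, r i = m
    · rw [if_pos hr, if_pos hr.symm, mul_one]
    · rw [if_neg hr, if_neg (fun h6 => hr h6.symm), mul_zero]
  · intro b _ hb
    rw [if_neg (fun h6 => hb h6.symm), mul_zero]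
  · intro h6
    exact absurd (Finset.mem_range.2 (by omega)) h6

end Pool.Agent.NEK
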