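import Pool.Agent.NEK.Stmts2

/-!
# Module VPI: Pieri's rule for `e_m`
-/

set_option autoImplicit false

namespace Pool.Agent.NEK

open MvPolynomial Finset

namespace VPI

/-- the polynomials whose monomials have weight `> N` -/
noncomputable def wI (N : ℕ) : Ideal Lam1 where
  carrier := {f | ∀ d : ℕ →₀ ℕ, coeff d f ≠ 0 → N < Finsupp.weight wt d}
  add_mem' := by
    intro a b ha hb d hd
    rw [coeff_add] at hd
    by_cases h : coeff d a = 0
    · refine hb d fun h2 => hd ?_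
      rw [h, h2, add_zero]
    · exact ha d h
  zero_mem' := by
    intro d hd
    exact absurd (coeff_zero d) hd
  smul_mem' := by
    intro c x hx d hd
    classical
    rw [smul_eq_mul, coeff_mul] at hd
    obtain ⟨p, hp, hp2⟩ := Finset.exists_ne_zero_of_sum_ne_zero hd
    have h1 : coeff p.2 x ≠ 0 := fun h => hp2 (by rw [h, mul_zero])
    have h2 := hx p.2 h1
    have h3 : p.1 + p.2 = d := Finset.HasAntidiagonal.mem_antidiagonal.1 hp
    rw [← h3, map_add]
    omega

theorem mem_wI {N : ℕ} {f : Lam1} :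
    f ∈ wI N ↔ ∀ d : ℕ →₀ ℕ, coeff d f ≠ 0 → N < Finsupp.weight wt d := Iff.rfl

theorem mem_of_hom {N n : ℕ} {f : Lam1} (h : IsWeightedHomogeneous wt f n) (hn : N < n) :
    f ∈ wI N := by
  rw [mem_wI]
  intro d hd
  rw [h hd]
  exact hn

theorem zero_of_hom {N n : ℕ} {f : Lam1} (h : IsWeightedHomogeneous wt f n) (hn : n ≤ N)
    (hf : f ∈ wI N) : f = 0 := by
  ext d
  rw [coeff_zero]
  by_contra hd
  have h1 := hf d hd
  rw [h hd] at h1
  omega

theorem hZ_neg {R : Type} [CommRing R] [Algebra ℚ R] (P : ℕ → R) {m : ℤ} (h : m < 0) :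
    hZ P m = 0 := by
  rw [hZ, if_neg (not_le.2 h)]

/-- `e_n = (-1)^n h_n(-X)` -/
theorem eN_eq {R : Type} [CommRing R] [Algebra ℚ R] (P : ℕ → R) (n : ℕ) :
    eN P n = (-1) ^ n * hN (fun k => - P k) n := by
  refine HNB.eu R P (fun n => (-1) ^ n * hN (fun k => - P k) n) ?_ ?_ n
  · change (-1) ^ 0 * hN _ 0 = 1
    rw [hN, pow_zero, one_mul]
  · intro n
    have h1 := HNB.hr R (fun k => - P k) n
    have h2 : ((n + 1 : ℕ) : R) * ((-1) ^ (n + 1) * hN (fun k => - P k) (n + 1)) =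
        (-1) ^ (n + 1) * (((n + 1 : ℕ) : R) * hN (fun k => - P k) (n + 1)) := by ring
    rw [h2, h1, Finset.mul_sum]
    refine Finset.sum_congr rfl fun k hk => ?_
    rw [Finset.mem_range] at hk
    have e : n + 1 = k + (n - k) + 1 := by omega
    have e2 : (-1 : R) ^ (n + 1) = (-1) ^ k * (-1) ^ (n - k) * (-1) := by
      rw [← pow_add, ← pow_succ, ← e]
    rw [e2]
    ring

theorem conv {R : Type} [CommRing R] [Algebra ℚ R] (P : ℕ → R) (n : ℕ) (hn : n ≠ 0) :
    ∑ ij ∈ antidiagonal n, (-1) ^ ij.1 * eN P ij.1 * hN P ij.2 = 0 := by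
  have h1 := HNB.ha R (fun k => - P k) P n
  have h2 : (fun k => - P k + P k) = fun _ : ℕ => (0 : R) := by
    funext k
    ring
  rw [h2, (HNB.hs R P 0 n).2.2.1, if_neg hn] at h1
  rw [h1]
  refine Finset.sum_congr rfl fun x _ => ?_
  rw [eN_eq, ← mul_assoc, ← pow_add, ← two_mul, pow_mul, neg_one_sq, one_pow, one_mul]

theorem rec1 {R : Type} [CommRing R] [Algebra ℚ R] (P : ℕ → R) (n : ℕ) (hn : n ≠ 0) :
    hN P n = ∑ m ∈ Icc 1 n, (-1) ^ (m - 1) * eN P m * hN P (n - m) := by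
  have h1 := conv P n hn
  rw [Finset.Nat.sum_antidiagonal_eq_sum_range_succ
    (fun i j => (-1 : R) ^ i * eN P i * hN P j)] at h1
  rw [Finset.sum_range_succ'] at h1
  have h2 : ∑ m ∈ Icc 1 n, (-1 : R) ^ (m - 1) * eN P m * hN P (n - m) =
      ∑ k ∈ range n, (-1 : R) ^ k * eN P (k + 1) * hN P (n - (k + 1)) := by
    have h5 : Icc 1 n = (range n).image fun k => k + 1 := by
      ext m
      rw [Finset.mem_image, Finset.mem_Icc]
      constructor
      · intro h
        exact ⟨m - 1, by rw [Finset.mem_range]; omega, by omega⟩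
      · rintro ⟨k, hk, rfl⟩
        rw [Finset.mem_range] at hk
        omega
    rw [h5, Finset.sum_image]
    · refine Finset.sum_congr rfl fun k _ => ?_
      rw [Nat.add_sub_cancel]
    · intro a _ b _ h
      simpa using h
  have h3 : ∑ k ∈ range n, (-1 : R) ^ (k + 1) * eN P (k + 1) * hN P (n - (k + 1)) =
      - ∑ k ∈ range n, (-1 : R) ^ k * eN P (k + 1) * hN P (n - (k + 1)) := by
    rw [← Finset.sum_neg_distrib]
    refine Finset.sum_congr rfl fun k _ => ?_
    rw [pow_succ]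
    ring
  rw [h3] at h1
  rw [h2]
  have h4 : (-1 : R) ^ 0 * eN P 0 * hN P (n - 0) = hN P n := by
    rw [eN, pow_zero, one_mul, one_mul, Nat.sub_zero]
  rw [h4] at h1
  linear_combination h1

theorem hh (hP : M_PHO) (n : ℕ) : IsWeightedHomogeneous wt (hN X1 n) n := by
  have h1 := (hP K1 (fun _ => 1)).1 n
  have h2 : (fun i => C (1 : K1) * (X i : Lam1)) = X1 := by
    funext i
    rw [map_one, one_mul]
    rfl
  rw [hb, h2] at h1
  exact h1

theorem he (hP : M_PHO) (n : ℕ) : IsWeightedHomogeneous wt (eN X1 n) n := by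
  have h1 := (hP K1 (fun _ => 1)).2.1 n
  have h2 : (fun i => C (1 : K1) * (X i : Lam1)) = X1 := by
    funext i
    rw [map_one, one_mul]
    rfl
  rw [h2] at h1
  exact h1

theorem SD_h (hP : M_PHO) {N : ℕ} (lam : Fin N → ℕ) :
    IsWeightedHomogeneous wt (SD X1 lam) (∑ i, lam i) := by
  rw [SD, Matrix.det_apply]
  refine IsWeightedHomogeneous.sum _ _ _ fun w _ => ?_
  have h1 : IsWeightedHomogeneous wt (∏ i : Fin N,
      (Matrix.of fun i j : Fin N => hZ X1 ((lam i : ℤ) - (i : ℤ) + (j : ℤ))) (w i) i)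
      (∑ i, lam i) := by
    by_cases hneg : ∀ i : Fin N, 0 ≤ (lam (w i) : ℤ) - ((w i : Fin N) : ℤ) + (i : ℤ)
    · have h2 := IsWeightedHomogeneous.prod (w := wt) (Finset.univ : Finset (Fin N))
        (fun i => (Matrix.of fun i j : Fin N =>
          hZ X1 ((lam i : ℤ) - (i : ℤ) + (j : ℤ))) (w i) i)
        (fun i => ((lam (w i) : ℤ) - ((w i : Fin N) : ℤ) + (i : ℤ)).toNat)
        (fun i _ => by
          rw [Matrix.of_apply, hZ, if_pos (hneg i)]
          exact hh hP _)
      have h3 : ∑ i : Fin N,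
          ((lam (w i) : ℤ) - ((w i : Fin N) : ℤ) + (i : ℤ)).toNat = ∑ i, lam i := by
        zify
        rw [Finset.sum_congr rfl fun i _ => Int.toNat_of_nonneg (hneg i), Finset.sum_add_distrib,
          Finset.sum_sub_distrib, Equiv.sum_comp w fun i : Fin N => (lam i : ℤ),
          Equiv.sum_comp w fun i : Fin N => ((i : ℕ) : ℤ), sub_add_cancel]
      rwa [h3] at h2
    · push Not at hneg
      obtain ⟨i, hi⟩ := hneg
      rw [Finset.prod_eq_zero (Finset.mem_univ i)]
      · exact isWeightedHomogeneous_zero _ _ _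
      · rw [Matrix.of_apply, hZ, if_neg (not_le.2 hi)]
  rcases Int.units_eq_one_or (Equiv.Perm.sign w) with h | h
  · rw [h, one_smul]
    exact h1
  · rw [h, Units.neg_smul, one_smul]
    have h4 := (isWeightedHomogeneous_C wt (-1 : K1)).mul h1
    rw [zero_add, map_neg, map_one] at h4
    have h5 := neg_one_mul (∏ i : Fin N,
      (Matrix.of fun i j : Fin N => hZ X1 ((lam i : ℤ) - (i : ℤ) + (j : ℤ))) (w i) i)
    exact h5 ▸ h4

theorem map_SD (M : ℕ) {N : ℕ} (lam : Fin N → ℕ) :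
    Ideal.Quotient.mk (wI M) (SD X1 lam) =
      Matrix.det (Matrix.of fun i j : Fin N =>
        Ideal.Quotient.mk (wI M) (hZ X1 ((lam i : ℤ) - (i : ℤ) + (j : ℤ)))) := by
  rw [SD]
  have h := RingHom.map_det (n := Fin N) (R := Lam1) (S := Lam1 ⧸ wI M)
    (Ideal.Quotient.mk (wI M)) (Matrix.of fun i j : Fin N => hZ X1 ((lam i : ℤ) - (i : ℤ) + (j : ℤ)))
  exact h

/-- a term with `λ + r` not weakly decreasing vanishes -/
theorem SD_zero {N : ℕ} (lam r : Fin N → ℕ) (hlam : Antitone lam) (hr : ∀ i, r i < 2)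
    (h : ¬ Antitone (fun i => lam i + r i)) : SD X1 (fun i => lam i + r i) = 0 := by
  cases N with
  | zero => exact absurd (fun i => i.elim0) h
  | succ N =>
    rw [Fin.antitone_iff_succ_le] at h
    push Not at h
    obtain ⟨i, hi⟩ := h
    have h1 : lam i.succ ≤ lam i.castSucc := hlam (Fin.castSucc_le_succ i)
    have h2 := hr i.succ
    have h3 := hr i.castSucc
    refine Matrix.det_zero_of_row_eq (i := i.castSucc) (j := i.succ) ?_ ?_
    · exact (Fin.castSucc_lt_succ).ne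
    · funext j
      rw [Matrix.of_apply, Matrix.of_apply]
      congr 2
      rw [Fin.val_castSucc, Fin.val_succ]
      push_cast
      omega

end VPI

theorem t_VPI : M_VCR → M_PHO → M_VPI := by
  intro hV hP N m lam hlam hsum
  classical
  have hm : m ≤ N := by omega
  have key := hV (Lam1 ⧸ VPI.wI N) N (fun k => Ideal.Quotient.mk (VPI.wI N) (hZ X1 k))
    (fun k => Ideal.Quotient.mk (VPI.wI N) (eN X1 k)) (fun i => (lam i : ℤ) - (i : ℤ))
    (by
      change Ideal.Quotient.mk (VPI.wI N) (eN X1 0) = 1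
      rw [eN, map_one])
    (by
      intro i
      have hi := i.2
      obtain ⟨M, hM⟩ : ∃ M : ℕ, M = lam i + (N - (i : ℕ)) := ⟨_, rfl⟩
      have hM1 : (lam i : ℤ) - (i : ℤ) + (N : ℤ) = (M : ℤ) := by
        rw [hM]
        push_cast
        omega
      have hM2 : M ≠ 0 := by omega
      change Ideal.Quotient.mk (VPI.wI N) (hZ X1 ((lam i : ℤ) - (i : ℤ) + (N : ℤ))) =
        ∑ m ∈ Icc 1 N, (-1) ^ (m - 1) * Ideal.Quotient.mk (VPI.wI N) (eN X1 m) *
          Ideal.Quotient.mk (VPI.wI N) (hZ X1 ((lam i : ℤ) - (i : ℤ) + (N : ℤ) - (m : ℤ)))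
      rw [hM1]
      have h1 : hZ X1 (M : ℤ) = hN X1 M := by
        rw [hZ, if_pos (Int.natCast_nonneg M), Int.toNat_natCast]
      have h2 : ∀ k, k ≤ M → hZ X1 ((M : ℤ) - (k : ℤ)) = hN X1 (M - k) := by
        intro k hk
        rw [hZ, if_pos (by omega)]
        congr 1
        omega
      have h3 : ∑ k ∈ Icc 1 N, (-1 : Lam1 ⧸ VPI.wI N) ^ (k - 1) *
            Ideal.Quotient.mk (VPI.wI N) (eN X1 k) *
            Ideal.Quotient.mk (VPI.wI N) (hZ X1 ((M : ℤ) - (k : ℤ))) =
          ∑ k ∈ Icc 1 (M + N), (-1 : Lam1 ⧸ VPI.wI N) ^ (k - 1) *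
            Ideal.Quotient.mk (VPI.wI N) (eN X1 k) *
            Ideal.Quotient.mk (VPI.wI N) (hZ X1 ((M : ℤ) - (k : ℤ))) := by
        refine Finset.sum_subset (Finset.Icc_subset_Icc le_rfl (by omega)) ?_
        intro k hk hk2
        rw [Finset.mem_Icc] at hk hk2
        have h4 : Ideal.Quotient.mk (VPI.wI N) (eN X1 k) = 0 :=
          Ideal.Quotient.eq_zero_iff_mem.2 (VPI.mem_of_hom (VPI.he hP k) (by omega))
        rw [h4, mul_zero, zero_mul]
      have h5 : ∑ k ∈ Icc 1 M, (-1 : Lam1 ⧸ VPI.wI N) ^ (k - 1) *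
            Ideal.Quotient.mk (VPI.wI N) (eN X1 k) *
            Ideal.Quotient.mk (VPI.wI N) (hZ X1 ((M : ℤ) - (k : ℤ))) =
          ∑ k ∈ Icc 1 (M + N), (-1 : Lam1 ⧸ VPI.wI N) ^ (k - 1) *
            Ideal.Quotient.mk (VPI.wI N) (eN X1 k) *
            Ideal.Quotient.mk (VPI.wI N) (hZ X1 ((M : ℤ) - (k : ℤ))) := by
        refine Finset.sum_subset (Finset.Icc_subset_Icc le_rfl (by omega)) ?_
        intro k hk hk2
        rw [Finset.mem_Icc] at hk hk2
        rw [VPI.hZ_neg X1 (by omega), map_zero, mul_zero]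
      rw [h3, ← h5, h1, VPI.rec1 X1 M hM2, map_sum]
      refine Finset.sum_congr rfl fun k hk => ?_
      rw [Finset.mem_Icc] at hk
      rw [h2 k hk.2, map_mul, map_mul, map_pow, map_neg, map_one]) m hm
  have hS : ∀ r : Fin N → ℕ, Matrix.det (Matrix.of fun i j : Fin N =>
      Ideal.Quotient.mk (VPI.wI N) (hZ X1 ((lam i : ℤ) - (i : ℤ) + (r i : ℤ) + (j : ℤ)))) =
      Ideal.Quotient.mk (VPI.wI N) (SD X1 (fun i => lam i + r i)) := by
    intro r
    refine Eq.trans ?_ (VPI.map_SD N (fun i => lam i + r i)).symm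
    congr 1
    ext i j
    rw [Matrix.of_apply, Matrix.of_apply]
    congr 2
    push_cast
    ring
  have key2 : Ideal.Quotient.mk (VPI.wI N) (eN X1 m * SD X1 lam -
      ∑ r ∈ (Fintype.piFinset fun _ : Fin N => range 2).filter (fun r => ∑ i, r i = m),
        SD X1 (fun i => lam i + r i)) = 0 := by
    have hS0 := VPI.map_SD N lam
    rw [map_sub, map_mul, map_sum, sub_eq_zero]
    refine (congrArg _ hS0).trans (key.symm.trans ?_)
    exact Finset.sum_congr rfl fun r _ => hS r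
  rw [Ideal.Quotient.eq_zero_iff_mem] at key2
  have hhom : IsWeightedHomogeneous wt (eN X1 m * SD X1 lam -
      ∑ r ∈ (Fintype.piFinset fun _ : Fin N => range 2).filter (fun r => ∑ i, r i = m),
        SD X1 (fun i => lam i + r i)) ((∑ i, lam i) + m) := by
    have h1 : IsWeightedHomogeneous wt (eN X1 m * SD X1 lam) ((∑ i, lam i) + m) := by
      have h2 := (VPI.he hP m).mul (VPI.SD_h hP lam)
      rwa [add_comm] at h2
    have h3 : IsWeightedHomogeneous wt
        (∑ r ∈ (Fintype.piFinset fun _ : Fin N => range 2).filter (fun r => ∑ i, r i = m),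
        SD X1 (fun i => lam i + r i)) ((∑ i, lam i) + m) := by
      refine IsWeightedHomogeneous.sum _ _ _ fun r hr => ?_
      have h4 := VPI.SD_h hP (fun i => lam i + r i)
      rw [Finset.sum_add_distrib, (Finset.mem_filter.1 hr).2] at h4
      exact h4
    exact (weightedHomogeneousSubmodule K1 wt ((∑ i, lam i) + m)).sub_mem h1 h3
  have h0 := VPI.zero_of_hom hhom hsum key2
  rw [sub_eq_zero.1 h0]
  refine (Finset.sum_subset ?_ ?_).symm
  · intro r hr
    rw [Finset.mem_filter] at hr ⊢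
    exact ⟨hr.1, hr.2.1⟩
  · intro r hr hr2
    rw [Finset.mem_filter] at hr hr2
    refine VPI.SD_zero lam r hlam (fun i => ?_) fun h => hr2 ⟨hr.1, hr.2, h⟩
    exact Finset.mem_range.1 (Fintype.mem_piFinset.1 hr.1 i)

end Pool.Agent.NEK
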