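import Pool.Agent.NEK.EVS
import Pool.Agent.NEK.PAD
import Pool.Agent.NEK.VAL
import Pool.Agent.NEK.MON
import Pool.Agent.NEK.PHO
import Pool.Agent.NEK.TRC
import Pool.Agent.NEK.LIN
import Pool.Agent.NEK.NAK
import Pool.Agent.NEK.FUN
import Pool.Agent.NEK.CNT
import Pool.Agent.NEK.GRK
import Pool.Agent.NEK.DOM
import Pool.Agent.NEK.JTH
import Pool.Agent.NEK.KQ
import Pool.Agent.NEK.KT
import Pool.Agent.NEK.EVT
import Pool.Agent.NEK.KEY
import Pool.Agent.NEK.PWR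
import Pool.Agent.NEK.EKR
import Pool.Agent.NEK.PHX
import Pool.Agent.NEK.ETA
import Pool.Agent.NEK.GPS
import Pool.Agent.NEK.HZC
import Pool.Agent.NEK.CAU
import Pool.Agent.NEK.DTX
import Pool.Agent.NEK.API
import Pool.Agent.NEK.LPO
import Pool.Agent.NEK.CNJ
import Pool.Agent.NEK.EGV
import Pool.Agent.NEK.QON
import Pool.Agent.NEK.HEP
import Pool.Agent.NEK.VCR
import Pool.Agent.NEK.VPI
import Pool.Agent.NEK.ESP
import Pool.Agent.NEK.FI2

set_option autoImplicit false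

namespace Pool.Agent.NEK

theorem final2 : Stmt_final2 := by
  obtain ⟨hHR, hHU, hER, hEU, hHM, hHA, hHS⟩ := t_HNB
  have hEVS := t_EVS hHM hHS hHU
  have hMON := t_MON
  have hPHO := t_PHO
  have hTRC := t_TRC
  have hLIN := t_LIN hMON hTRC
  have hNAK := t_NAK hMON
  have hKQ := t_KQ t_FUN t_CNT t_GRK hMON
  have hKT := t_KT t_JTH hNAK hLIN hPHO
  have hKEY := t_KEY t_VAL hMON hPHO hTRC t_DOM hKQ hKT t_EVT hEVS
  have hEKR := t_EKR t_PWR hPHO
  have hCAU := t_CAU t_HZC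
  have hLPO := t_LPO (t_API t_HZC)
  have hEGV := t_EGV t_CNJ
  have hQON := t_QON t_PHX t_ETA t_GPS hCAU t_DTX hLPO
  have hHEP := t_HEP hPHO
  have hVPI := t_VPI t_VCR hPHO
  have hESP := t_ESP hVPI t_PAD
  exact t_FI2 hKEY hEKR hNAK hLIN t_DOM hEGV hQON hPHO hHEP hESP t_EVT

end Pool.Agent.NEK
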