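import Pool.Agent.NEK.Stmts

/-!
# Newton identities: basic facts on `hN`, `eN`
-/

set_option autoImplicit false

namespace Pool.Agent.NEK

open MvPolynomial Finset

namespace HNB

theorem cast_eq (R : Type) [CommRing R] [Algebra ℚ R] (n : ℕ) :
    ((n + 1 : ℕ) : R) = algebraMap ℚ R ((n + 1 : ℕ) : ℚ) := by
  rw [map_natCast]

theorem inv_mul (R : Type) [CommRing R] [Algebra ℚ R] (n : ℕ) :
    algebraMap ℚ R (((n : ℚ) + 1)⁻¹) * ((n + 1 : ℕ) : R) = 1 := by
  rw [cast_eq, ← map_mul]
  have h : ((n : ℚ) + 1)⁻¹ * (((n + 1 : ℕ)) : ℚ) = 1 := by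
    push_cast
    exact inv_mul_cancel₀ (by positivity)
  rw [h, map_one]

theorem cancel {R : Type} [CommRing R] [Algebra ℚ R] {n : ℕ} {x y : R}
    (h : ((n + 1 : ℕ) : R) * x = ((n + 1 : ℕ) : R) * y) : x = y := by
  have h1 : algebraMap ℚ R (((n : ℚ) + 1)⁻¹) * (((n + 1 : ℕ) : R) * x) =
      algebraMap ℚ R (((n : ℚ) + 1)⁻¹) * (((n + 1 : ℕ) : R) * y) := by rw [h]
  rw [← mul_assoc, ← mul_assoc, inv_mul, one_mul, one_mul] at h1
  exact h1

theorem hr : Stmt_HR := by
  intro R _ _ P n
  rw [hN, ← mul_assoc, mul_comm ((n + 1 : ℕ) : R), inv_mul, one_mul]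
  exact (Finset.sum_range (fun k => P k * hN P (n - k))).symm

theorem hu : Stmt_HU := by
  intro R _ _ P g h0 h n
  induction n using Nat.strong_induction_on with
  | _ n ih =>
    cases n with
    | zero => rw [hN, h0]
    | succ n =>
      apply cancel (n := n)
      rw [hr, h]
      refine Finset.sum_congr rfl fun k _ => ?_
      rw [ih (n - k) (by omega)]

theorem er : Stmt_ER := by
  intro R _ _ P n
  rw [eN, ← mul_assoc, mul_comm ((n + 1 : ℕ) : R), inv_mul, one_mul]
  exact (Finset.sum_range (fun k => (-1) ^ k * P k * eN P (n - k))).symm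

theorem eu : Stmt_EU := by
  intro R _ _ P g h0 h n
  induction n using Nat.strong_induction_on with
  | _ n ih =>
    cases n with
    | zero => rw [eN, h0]
    | succ n =>
      apply cancel (n := n)
      rw [er, h]
      refine Finset.sum_congr rfl fun k _ => ?_
      rw [ih (n - k) (by omega)]

theorem hm : Stmt_HM := by
  intro R S _ _ _ _ φ P
  have h1 : ∀ n, φ (hN P n) = hN (fun k => φ (P k)) n := by
    intro n
    refine (hu S (fun k => φ (P k)) (fun n => φ (hN P n)) ?_ ?_ n).symm
    · change φ (hN P 0) = 1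
      rw [hN, map_one]
    · intro n
      have h := congrArg φ (hr R P n)
      rw [map_mul, map_natCast, map_sum] at h
      rw [h]
      refine Finset.sum_congr rfl fun k _ => ?_
      rw [map_mul]
  refine ⟨h1, ?_, ?_⟩
  · intro n
    refine (eu S (fun k => φ (P k)) (fun n => φ (eN P n)) ?_ ?_ n).symm
    · change φ (eN P 0) = 1
      rw [eN, map_one]
    · intro n
      have h := congrArg φ (er R P n)
      rw [map_mul, map_natCast, map_sum] at h
      rw [h]
      refine Finset.sum_congr rfl fun k _ => ?_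
      rw [map_mul, map_mul, map_pow, map_neg, map_one]
  · intro l
    rw [sN, sN, RingHom.map_det]
    congr 1
    ext i j
    change φ (hZ P _) = hZ (fun k => φ (P k)) _
    rw [hZ, hZ]
    split_ifs with h
    · exact h1 _
    · exact map_zero φ

theorem ps {R : Type} [CommRing R] [Algebra ℚ R] (P : ℕ → R) :
    PowerSeries.derivative R (PowerSeries.mk (hN P)) = PowerSeries.mk P * PowerSeries.mk (hN P) := by
  ext n
  rw [PowerSeries.coeff_derivative, PowerSeries.coeff_mk, PowerSeries.coeff_mul]
  have h := hr R P n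
  rw [← Finset.Nat.sum_antidiagonal_eq_sum_range_succ (fun i j => P i * hN P j)] at h
  rw [mul_comm]
  push_cast at h ⊢
  rw [h]
  refine Finset.sum_congr rfl fun x _ => ?_
  rw [PowerSeries.coeff_mk, PowerSeries.coeff_mk]

theorem ha : Stmt_HA := by
  intro R _ _ P P' n
  have h1 : PowerSeries.derivative R (PowerSeries.mk (hN P) * PowerSeries.mk (hN P')) =
      PowerSeries.mk (fun k => P k + P' k) *
        (PowerSeries.mk (hN P) * PowerSeries.mk (hN P')) := by
    rw [Derivation.leibniz, ps, ps, smul_eq_mul, smul_eq_mul]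
    have h2 : PowerSeries.mk (fun k => P k + P' k) = PowerSeries.mk P + PowerSeries.mk P' := by
      ext n
      rw [map_add, PowerSeries.coeff_mk, PowerSeries.coeff_mk, PowerSeries.coeff_mk]
    rw [h2]
    ring
  have h2 := hu R (fun k => P k + P' k)
    (fun n => PowerSeries.coeff n (PowerSeries.mk (hN P) * PowerSeries.mk (hN P'))) ?_ ?_ n
  · rw [h2]
    change PowerSeries.coeff n (PowerSeries.mk (hN P) * PowerSeries.mk (hN P')) = _
    rw [PowerSeries.coeff_mul]
    refine Finset.sum_congr rfl fun x _ => ?_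
    rw [PowerSeries.coeff_mk, PowerSeries.coeff_mk]
  · change PowerSeries.coeff 0 (PowerSeries.mk (hN P) * PowerSeries.mk (hN P')) = 1
    rw [PowerSeries.coeff_mul, Finset.Nat.antidiagonal_zero, Finset.sum_singleton,
      PowerSeries.coeff_mk, PowerSeries.coeff_mk, hN, hN, one_mul]
  · intro n
    have h3 := congrArg (PowerSeries.coeff n) h1
    rw [PowerSeries.coeff_derivative, PowerSeries.coeff_mul n (PowerSeries.mk _)] at h3
    rw [← Finset.Nat.sum_antidiagonal_eq_sum_range_succ (fun i j => (P i + P' i) *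
      PowerSeries.coeff j (PowerSeries.mk (hN P) * PowerSeries.mk (hN P')))]
    rw [mul_comm]
    push_cast
    rw [h3]
    refine Finset.sum_congr rfl fun x _ => ?_
    rw [PowerSeries.coeff_mk]

theorem hs : Stmt_HS := by
  intro R _ _ P y n
  refine ⟨?_, ?_, ?_, ?_⟩
  · refine hu R _ (fun n => y ^ n * hN P n) ?_ ?_ n
    · change y ^ 0 * hN P 0 = 1
      rw [hN, pow_zero, one_mul]
    · intro n
      have h : ((n + 1 : ℕ) : R) * (y ^ (n + 1) * hN P (n + 1)) =
          y ^ (n + 1) * (((n + 1 : ℕ) : R) * hN P (n + 1)) := by ring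
      rw [h, hr, Finset.mul_sum]
      refine Finset.sum_congr rfl fun k hk => ?_
      rw [Finset.mem_range] at hk
      have e : n + 1 = (k + 1) + (n - k) := by omega
      have e2 : y ^ (n + 1) = y ^ (k + 1) * y ^ (n - k) := by rw [← pow_add, ← e]
      rw [e2]
      ring
  · refine hu R _ (fun n => y ^ n) (pow_zero _) ?_ n
    intro n
    have h : ∀ k ∈ range (n + 1), y ^ (k + 1) * y ^ (n - k) = y ^ (n + 1) := by
      intro k hk
      rw [Finset.mem_range] at hk
      rw [← pow_add]
      congr 1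
      omega
    rw [Finset.sum_congr rfl h, Finset.sum_const, Finset.card_range, nsmul_eq_mul]
  · refine hu R _ (fun n => if n = 0 then 1 else 0) (if_pos rfl) ?_ n
    intro n
    rw [if_neg (by omega), mul_zero]
    refine (Finset.sum_eq_zero fun k _ => ?_).symm
    exact zero_mul _
  · refine hu R _ (fun n => if n ≤ 1 then 1 else 0) (if_pos (by omega)) ?_ n
    intro n
    cases n with
    | zero => simp
    | succ m =>
      rw [if_neg (by omega), mul_zero, Finset.sum_range_succ, Finset.sum_range_succ]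
      have h : ∑ k ∈ range m, (-1 : R) ^ k * (if m + 1 - k ≤ 1 then 1 else 0) = 0 := by
        refine Finset.sum_eq_zero fun k hk => ?_
        rw [Finset.mem_range] at hk
        rw [if_neg (by omega), mul_zero]
      rw [h, if_pos (by omega), if_pos (by omega), pow_succ]
      ring

end HNB

/-- Newton identities: basic facts. -/
theorem t_HNB : Stmt_HR ∧ Stmt_HU ∧ Stmt_ER ∧ Stmt_EU ∧ Stmt_HM ∧ Stmt_HA ∧ Stmt_HS :=
  ⟨HNB.hr, HNB.hu, HNB.er, HNB.eu, HNB.hm, HNB.ha, HNB.hs⟩

end Pool.Agent.NEK
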