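import Pool.Agent.NEK.Defs2
import Pool.Agent.NEK.HNB

/-!
# Basic facts on `AtOne` (everything here is proved)
-/

set_option autoImplicit false

namespace Pool.Agent.NEK

open MvPolynomial Finset

namespace A1

/-- polynomials inside `ℚ(q,t)` -/
noncomputable abbrev iK : MvPolynomial (Fin 2) ℚ →+* K := algebraMap (MvPolynomial (Fin 2) ℚ) K

/-- polynomials inside `ℚ(t)` -/
noncomputable abbrev iT : Polynomial ℚ →+* K1 := algebraMap (Polynomial ℚ) K1

theorem iK_inj : Function.Injective iK := IsFractionRing.injective _ _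

theorem iT_inj : Function.Injective iT := IsFractionRing.injective _ _

theorem iT_ne {a : Polynomial ℚ} (h : a ≠ 0) : iT a ≠ 0 :=
  fun h0 => h (iT_inj (by rw [h0, map_zero]))

theorem iK_ne {a : MvPolynomial (Fin 2) ℚ} (h : a ≠ 0) : iK a ≠ 0 :=
  fun h0 => h (iK_inj (by rw [h0, map_zero]))

theorem ne_of_sp {b : MvPolynomial (Fin 2) ℚ} (h : sp b ≠ 0) : b ≠ 0 := by
  rintro rfl
  exact h (map_zero _)

theorem poly (a : MvPolynomial (Fin 2) ℚ) : AtOne (iK a) (iT (sp a)) :=
  ⟨a, 1, by rw [map_one]; exact one_ne_zero, by rw [map_one, mul_one], by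
    rw [map_one, map_one, mul_one]⟩

theorem unique {x : K} {y y' : K1} (h : AtOne x y) (h' : AtOne x y') : y = y' := by
  obtain ⟨a, b, hb, h1, h2⟩ := h
  obtain ⟨a', b', hb', h1', h2'⟩ := h'
  have h3 : a * b' = a' * b := by
    apply iK_inj
    rw [map_mul, map_mul]
    rw [← h1, ← h1']
    ring
  have h4 := congrArg (fun z => iT (sp z)) h3
  simp only [map_mul] at h4
  have h5 : iT (sp a) * iT (sp b') = iT (sp a') * iT (sp b) := h4
  rw [← h2, ← h2'] at h5
  have h6 := iT_ne hb
  have h7 := iT_ne hb'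
  apply mul_right_cancel₀ (mul_ne_zero h6 h7)
  calc y * (iT (sp b) * iT (sp b')) = y * iT (sp b) * iT (sp b') := by ring
    _ = y' * iT (sp b') * iT (sp b) := h5
    _ = _ := by ring

theorem add {x x' : K} {y y' : K1} (h : AtOne x y) (h' : AtOne x' y') :
    AtOne (x + x') (y + y') := by
  obtain ⟨a, b, hb, h1, h2⟩ := h
  obtain ⟨a', b', hb', h1', h2'⟩ := h'
  refine ⟨a * b' + a' * b, b * b', ?_, ?_, ?_⟩
  · rw [map_mul]
    exact mul_ne_zero hb hb'
  · rw [map_add, map_mul, map_mul, map_mul, ← h1, ← h1']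
    ring
  · rw [map_add, map_mul, map_mul, map_mul, map_add, map_mul, map_mul, map_mul, ← h2, ← h2']
    ring

theorem mul {x x' : K} {y y' : K1} (h : AtOne x y) (h' : AtOne x' y') :
    AtOne (x * x') (y * y') := by
  obtain ⟨a, b, hb, h1, h2⟩ := h
  obtain ⟨a', b', hb', h1', h2'⟩ := h'
  refine ⟨a * a', b * b', ?_, ?_, ?_⟩
  · rw [map_mul]
    exact mul_ne_zero hb hb'
  · rw [map_mul, map_mul, ← h1, ← h1']
    ring
  · rw [map_mul, map_mul, map_mul, map_mul, ← h2, ← h2']
    ring

theorem zero : AtOne 0 0 := by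
  have h := poly 0
  rwa [map_zero, map_zero, map_zero] at h

theorem one : AtOne 1 1 := by
  have h := poly 1
  rwa [map_one, map_one, map_one] at h

theorem neg {x : K} {y : K1} (h : AtOne x y) : AtOne (-x) (-y) := by
  obtain ⟨a, b, hb, h1, h2⟩ := h
  refine ⟨-a, b, hb, ?_, ?_⟩
  · rw [map_neg, ← h1]
    ring
  · rw [map_neg, map_neg, ← h2]
    ring

theorem sub {x x' : K} {y y' : K1} (h : AtOne x y) (h' : AtOne x' y') :
    AtOne (x - x') (y - y') := by
  rw [sub_eq_add_neg, sub_eq_add_neg]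
  exact add h (neg h')

theorem rat (r : ℚ) : AtOne (algebraMap ℚ K r) (algebraMap ℚ K1 r) := by
  have h := poly (C r)
  have h1 : iK (C r) = algebraMap ℚ K r :=
    congrArg (fun φ : ℚ →+* K => φ r) (Subsingleton.elim (iK.comp C) (algebraMap ℚ K))
  have h2 : iT (sp (C r)) = algebraMap ℚ K1 r :=
    congrArg (fun φ : ℚ →+* K1 => φ r) (Subsingleton.elim
      (iT.comp ((sp : MvPolynomial (Fin 2) ℚ →+* Polynomial ℚ).comp C)) (algebraMap ℚ K1))
  rwa [h1, h2] at h

theorem natCast (n : ℕ) : AtOne (n : K) (n : K1) := by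
  have h := rat n
  rwa [map_natCast, map_natCast] at h

theorem inv {x : K} {y : K1} (h : AtOne x y) (hy : y ≠ 0) : AtOne x⁻¹ y⁻¹ := by
  obtain ⟨a, b, hb, h1, h2⟩ := h
  have ha : sp a ≠ 0 := by
    intro h0
    rw [h0, map_zero] at h2
    exact mul_ne_zero hy (iT_ne hb) h2
  have hx : x ≠ 0 := by
    rintro rfl
    rw [zero_mul] at h1
    exact iK_ne (ne_of_sp ha) h1.symm
  refine ⟨b, a, ha, ?_, ?_⟩
  · rw [← h1, ← mul_assoc, inv_mul_cancel₀ hx, one_mul]
  · rw [← h2, ← mul_assoc, inv_mul_cancel₀ hy, one_mul]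

theorem div {x x' : K} {y y' : K1} (h : AtOne x y) (h' : AtOne x' y') (hy : y' ≠ 0) :
    AtOne (x / x') (y / y') := by
  rw [div_eq_mul_inv, div_eq_mul_inv]
  exact mul h (inv h' hy)

theorem pow {x : K} {y : K1} (h : AtOne x y) (n : ℕ) : AtOne (x ^ n) (y ^ n) := by
  induction n with
  | zero => rw [pow_zero, pow_zero]; exact one
  | succ n ih => rw [pow_succ, pow_succ]; exact mul ih h

theorem sum {α : Type*} (s : Finset α) {f : α → K} {g : α → K1} (h : ∀ i ∈ s, AtOne (f i) (g i)) :
    AtOne (∑ i ∈ s, f i) (∑ i ∈ s, g i) := by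
  classical
  induction s using Finset.induction_on with
  | empty => rw [sum_empty, sum_empty]; exact zero
  | insert a s ha ih =>
    rw [sum_insert ha, sum_insert ha]
    exact add (h a (mem_insert_self _ _)) (ih fun i hi => h i (mem_insert_of_mem hi))

theorem prod {α : Type*} (s : Finset α) {f : α → K} {g : α → K1}
    (h : ∀ i ∈ s, AtOne (f i) (g i)) : AtOne (∏ i ∈ s, f i) (∏ i ∈ s, g i) := by
  classical
  induction s using Finset.induction_on with
  | empty => rw [prod_empty, prod_empty]; exact one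
  | insert a s ha ih =>
    rw [prod_insert ha, prod_insert ha]
    exact mul (h a (mem_insert_self _ _)) (ih fun i hi => h i (mem_insert_of_mem hi))

theorem q_one : AtOne q 1 := by
  have h := poly (X 0)
  have h2 : sp (X 0) = 1 := by rw [sp, aeval_X]; rfl
  rw [h2, map_one] at h
  exact h

theorem t_t1 : AtOne t t1 := by
  have h := poly (X 1)
  have h2 : sp (X 1) = Polynomial.X := by rw [sp, aeval_X]; rfl
  rw [h2] at h
  exact h

/-- The ring of pairs `(x, y)` with `AtOne x y`: the local ring of `ℚ(q,t)` at `q = 1`; the first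
projection is injective, the second one is the specialisation. -/
noncomputable def AA : Subalgebra ℚ (K × K1) where
  carrier := {p | AtOne p.1 p.2}
  mul_mem' := fun h h' => mul h h'
  one_mem' := one
  add_mem' := fun h h' => add h h'
  zero_mem' := zero
  algebraMap_mem' := fun r => rat r

theorem mem_AA {p : K × K1} : p ∈ AA ↔ AtOne p.1 p.2 := Iff.rfl

/-- first projection -/
noncomputable def fstA : AA →+* K := (RingHom.fst K K1).comp AA.subtype

/-- second projection: the specialisation at `q = 1` -/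
noncomputable def sndA : AA →+* K1 := (RingHom.snd K K1).comp AA.subtype

theorem fstA_inj : Function.Injective fstA := by
  intro a b h
  have h1 : (a : K × K1).1 = (b : K × K1).1 := h
  have h2 : (a : K × K1).2 = (b : K × K1).2 := unique (h1 ▸ mem_AA.1 a.2) (mem_AA.1 b.2)
  exact Subtype.ext (Prod.ext h1 h2)

theorem isUnit_of_snd {a : AA} (h : sndA a ≠ 0) : IsUnit a := by
  have h1 : AtOne (a : K × K1).1 (a : K × K1).2 := mem_AA.1 a.2
  have h2 : (a : K × K1).2 ≠ 0 := h
  have h3 : (a : K × K1).1 ≠ 0 := by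
    intro h0
    rw [h0] at h1
    exact h2 (unique h1 zero)
  refine IsUnit.of_mul_eq_one ⟨((a : K × K1).1⁻¹, (a : K × K1).2⁻¹), inv h1 h2⟩ ?_
  apply Subtype.ext
  exact Prod.ext (mul_inv_cancel₀ h3) (mul_inv_cancel₀ h2)

/-- symmetric functions over `AA` -/
abbrev LamA : Type := MvPolynomial ℕ AA

/-- first projection -/
noncomputable def fstL : LamA →+* Lam := MvPolynomial.map fstA

/-- second projection -/
noncomputable def sndL : LamA →+* Lam1 := MvPolynomial.map sndA

theorem lam_of (G : LamA) : LamAtOne (fstL G) (sndL G) := by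
  intro d
  rw [fstL, sndL, coeff_map, coeff_map]
  exact mem_AA.1 (coeff d G).2

theorem exists_lam {F : Lam} {F1 : Lam1} (h : LamAtOne F F1) : ∃ G : LamA, fstL G = F ∧ sndL G = F1 := by
  classical
  refine ⟨∑ d ∈ F.support ∪ F1.support, monomial d ⟨(coeff d F, coeff d F1), h d⟩, ?_, ?_⟩
  · ext d
    rw [map_sum, coeff_sum]
    have h1 : ∀ e ∈ F.support ∪ F1.support, coeff d (fstL (monomial e
        (⟨(coeff e F, coeff e F1), h e⟩ : AA))) = if e = d then coeff e F else 0 := by
      intro e _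
      rw [fstL, map_monomial, coeff_monomial]
      rfl
    rw [Finset.sum_congr rfl h1, Finset.sum_ite_eq']
    split_ifs with h2
    · rfl
    · rw [Finset.mem_union, not_or, notMem_support_iff] at h2
      exact h2.1.symm
  · ext d
    rw [map_sum, coeff_sum]
    have h1 : ∀ e ∈ F.support ∪ F1.support, coeff d (sndL (monomial e
        (⟨(coeff e F, coeff e F1), h e⟩ : AA))) = if e = d then coeff e F1 else 0 := by
      intro e _
      rw [sndL, map_monomial, coeff_monomial]
      rfl
    rw [Finset.sum_congr rfl h1, Finset.sum_ite_eq']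
    split_ifs with h2
    · rfl
    · rw [Finset.mem_union, not_or, notMem_support_iff, notMem_support_iff] at h2
      exact h2.2.symm

theorem lam_add {F G : Lam} {F1 G1 : Lam1} (h : LamAtOne F F1) (h' : LamAtOne G G1) :
    LamAtOne (F + G) (F1 + G1) := by
  intro d
  rw [coeff_add, coeff_add]
  exact add (h d) (h' d)

theorem lam_sub {F G : Lam} {F1 G1 : Lam1} (h : LamAtOne F F1) (h' : LamAtOne G G1) :
    LamAtOne (F - G) (F1 - G1) := by
  intro d
  rw [coeff_sub, coeff_sub]
  exact sub (h d) (h' d)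

theorem lam_mul {F G : Lam} {F1 G1 : Lam1} (h : LamAtOne F F1) (h' : LamAtOne G G1) :
    LamAtOne (F * G) (F1 * G1) := by
  obtain ⟨A, rfl, rfl⟩ := exists_lam h
  obtain ⟨B, rfl, rfl⟩ := exists_lam h'
  rw [← map_mul, ← map_mul]
  exact lam_of _

theorem lam_smul {x : K} {y : K1} (hx : AtOne x y) {F : Lam} {F1 : Lam1} (h : LamAtOne F F1) :
    LamAtOne (x • F) (y • F1) := by
  intro d
  rw [coeff_smul, coeff_smul, smul_eq_mul, smul_eq_mul]
  exact mul hx (h d)

theorem lam_C {x : K} {y : K1} (hx : AtOne x y) : LamAtOne (C x) (C y) := by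
  classical
  intro d
  rw [coeff_C, coeff_C]
  split_ifs
  · exact hx
  · exact zero

theorem lam_X (i : ℕ) : LamAtOne (X i) (X i) := by
  classical
  intro d
  rw [coeff_X, coeff_X]
  split_ifs
  · exact one
  · exact zero

theorem lam_zero : LamAtOne 0 0 := by
  intro d
  rw [coeff_zero, coeff_zero]
  exact zero

theorem lam_one : LamAtOne 1 1 := lam_C one

theorem lam_sum {α : Type*} (s : Finset α) {f : α → Lam} {g : α → Lam1}
    (h : ∀ i ∈ s, LamAtOne (f i) (g i)) : LamAtOne (∑ i ∈ s, f i) (∑ i ∈ s, g i) := by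
  classical
  induction s using Finset.induction_on with
  | empty => rw [sum_empty, sum_empty]; exact lam_zero
  | insert a s ha ih =>
    rw [sum_insert ha, sum_insert ha]
    exact lam_add (h a (mem_insert_self _ _)) (ih fun i hi => h i (mem_insert_of_mem hi))

theorem lam_listProd {α : Type*} (l : List α) {f : α → Lam} {g : α → Lam1}
    (h : ∀ i ∈ l, LamAtOne (f i) (g i)) : LamAtOne (l.map f).prod (l.map g).prod := by
  induction l with
  | nil => exact lam_one
  | cons a l ih =>
    rw [List.map_cons, List.map_cons, List.prod_cons, List.prod_cons]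
    exact lam_mul (h a List.mem_cons_self) (ih fun i hi => h i (List.mem_cons_of_mem _ hi))

theorem lam_unique {F : Lam} {F1 F1' : Lam1} (h : LamAtOne F F1) (h' : LamAtOne F F1') :
    F1 = F1' := by
  ext d
  exact unique (h d) (h' d)

/-- `hN`, `eN`, `sN` of regular sequences are regular. -/
theorem lam_hN {P : ℕ → Lam} {P1 : ℕ → Lam1} (h : ∀ k, LamAtOne (P k) (P1 k)) (n : ℕ) :
    LamAtOne (hN P n) (hN P1 n) := by
  choose G h1 h2 using fun k => exists_lam (h k)
  have e1 : hN P n = fstL (hN G n) := by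
    rw [(HNB.hm _ _ fstL G).1 n, funext h1]
  have e2 : hN P1 n = sndL (hN G n) := by
    rw [(HNB.hm _ _ sndL G).1 n, funext h2]
  rw [e1, e2]
  exact lam_of _

theorem lam_eN {P : ℕ → Lam} {P1 : ℕ → Lam1} (h : ∀ k, LamAtOne (P k) (P1 k)) (n : ℕ) :
    LamAtOne (eN P n) (eN P1 n) := by
  choose G h1 h2 using fun k => exists_lam (h k)
  have e1 : eN P n = fstL (eN G n) := by
    rw [(HNB.hm _ _ fstL G).2.1 n, funext h1]
  have e2 : eN P1 n = sndL (eN G n) := by
    rw [(HNB.hm _ _ sndL G).2.1 n, funext h2]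
  rw [e1, e2]
  exact lam_of _

theorem lam_sN {P : ℕ → Lam} {P1 : ℕ → Lam1} (h : ∀ k, LamAtOne (P k) (P1 k)) (l : List ℕ) :
    LamAtOne (sN P l) (sN P1 l) := by
  choose G h1 h2 using fun k => exists_lam (h k)
  have e1 : sN P l = fstL (sN G l) := by
    rw [(HNB.hm _ _ fstL G).2.2 l, funext h1]
  have e2 : sN P1 l = sndL (sN G l) := by
    rw [(HNB.hm _ _ sndL G).2.2 l, funext h2]
  rw [e1, e2]
  exact lam_of _

/-- `sN` of regular sequences of scalars is regular. -/
theorem sN_atOne {P : ℕ → K} {P1 : ℕ → K1} (h : ∀ k, AtOne (P k) (P1 k)) (l : List ℕ) :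
    AtOne (sN P l) (sN P1 l) := by
  let G : ℕ → AA := fun k => ⟨(P k, P1 k), h k⟩
  have e1 : sN P l = fstA (sN G l) := by
    rw [(HNB.hm _ _ fstA G).2.2 l]
    rfl
  have e2 : sN P1 l = sndA (sN G l) := by
    rw [(HNB.hm _ _ sndA G).2.2 l]
    rfl
  rw [e1, e2]
  exact mem_AA.1 (sN G l).2

/-- algebra maps with regular values -/
theorem lam_aeval {A : ℕ → Lam} {B : ℕ → Lam1} (h : ∀ k, LamAtOne (A k) (B k)) {F : Lam}
    {F1 : Lam1} (hF : LamAtOne F F1) : LamAtOne (aeval A F) (aeval B F1) := by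
  choose G h1 h2 using fun k => exists_lam (h k)
  obtain ⟨P, rfl, rfl⟩ := exists_lam hF
  have e1 : aeval A (fstL P) = fstL (aeval G P) := by
    have : ((aeval A : Lam →ₐ[K] Lam) : Lam →+* Lam).comp fstL =
        fstL.comp ((aeval G : LamA →ₐ[AA] LamA) : LamA →+* LamA) := by
      apply MvPolynomial.ringHom_ext
      · intro r
        simp [fstL]
      · intro i
        simp [fstL]
        rw [← h1 i]
        rfl
    exact congrArg (fun φ => φ P) this
  have e2 : aeval B (sndL P) = sndL (aeval G P) := by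
    have : ((aeval B : Lam1 →ₐ[K1] Lam1) : Lam1 →+* Lam1).comp sndL =
        sndL.comp ((aeval G : LamA →ₐ[AA] LamA) : LamA →+* LamA) := by
      apply MvPolynomial.ringHom_ext
      · intro r
        simp [sndL]
      · intro i
        simp [sndL]
        rw [← h2 i]
        rfl
    exact congrArg (fun φ => φ P) this
  rw [e1, e2]
  exact lam_of _

/-- evaluation with regular values -/
theorem ev_atOne {a : ℕ → K} {b : ℕ → K1} (h : ∀ k, AtOne (a k) (b k)) {F : Lam}
    {F1 : Lam1} (hF : LamAtOne F F1) : AtOne (aeval a F) (aeval b F1) := by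
  let G : ℕ → AA := fun k => ⟨(a k, b k), h k⟩
  obtain ⟨P, rfl, rfl⟩ := exists_lam hF
  have e1 : aeval a (fstL P) = fstA (aeval G P) := by
    have : ((aeval a : Lam →ₐ[K] K) : Lam →+* K).comp fstL =
        fstA.comp ((aeval G : LamA →ₐ[AA] AA) : LamA →+* AA) := by
      apply MvPolynomial.ringHom_ext
      · intro r
        simp [fstL]
      · intro i
        simp [fstL]
        rfl
    exact congrArg (fun φ => φ P) this
  have e2 : aeval b (sndL P) = sndA (aeval G P) := by
    have : ((aeval b : Lam1 →ₐ[K1] K1) : Lam1 →+* K1).comp sndL =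
        sndA.comp ((aeval G : LamA →ₐ[AA] AA) : LamA →+* AA) := by
      apply MvPolynomial.ringHom_ext
      · intro r
        simp [sndL]
      · intro i
        simp [sndL]
        rfl
    exact congrArg (fun φ => φ P) this
  rw [e1, e2]
  exact mem_AA.1 (aeval G P).2

end A1

end Pool.Agent.NEK
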