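import Mathlib

/-!
# Symmetric functions over `ℚ(q,t)`, modified Macdonald polynomials, `∇`, `Δ_f`, `E_{n,k}`

Definitions for MP_44957e_co.
-/

set_option autoImplicit false

namespace Pool.Agent.NEK

open MvPolynomial Finset

/-- The field `ℚ(q,t)`. -/
abbrev K : Type := FractionRing (MvPolynomial (Fin 2) ℚ)

/-- The element `q` of `ℚ(q,t)`. -/
noncomputable def q : K := algebraMap (MvPolynomial (Fin 2) ℚ) K (X 0)

/-- The element `t` of `ℚ(q,t)`. -/
noncomputable def t : K := algebraMap (MvPolynomial (Fin 2) ℚ) K (X 1)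

/-- `ℕ[q,t]`, the polynomials in `q, t` with nonnegative integer coefficients, inside `ℚ(q,t)`. -/
noncomputable def NN : Subsemiring K := Subsemiring.closure {q, t}

/-- The ring of symmetric functions over `ℚ(q,t)`: polynomials in the power sums;
the variable `X i` is the power sum `p_{i+1}`. -/
abbrev Lam : Type := MvPolynomial ℕ K

section generic

variable {R : Type*} [CommRing R] [Algebra ℚ R]

/-- Complete homogeneous functions from power sums, by Newton's identities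
`(n+1) h_{n+1} = ∑_{k=0}^{n} p_{k+1} h_{n-k}`.  Here `P k` stands for `p_{k+1}`. -/
noncomputable def hN (P : ℕ → R) : ℕ → R
  | 0 => 1
  | n + 1 => algebraMap ℚ R ((n + 1 : ℚ)⁻¹) * ∑ k : Fin (n + 1), P k * hN P (n - k)

/-- Elementary functions from power sums, by Newton's identities
`(n+1) e_{n+1} = ∑_{k=0}^{n} (-1)^k p_{k+1} e_{n-k}`.  Here `P k` stands for `p_{k+1}`. -/
noncomputable def eN (P : ℕ → R) : ℕ → R
  | 0 => 1
  | n + 1 => algebraMap ℚ R ((n + 1 : ℚ)⁻¹) *
      ∑ k : Fin (n + 1), (-1) ^ (k : ℕ) * P k * eN P (n - k)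

/-- `h_m` for an integer `m`, zero for negative `m`. -/
noncomputable def hZ (P : ℕ → R) (m : ℤ) : R := if 0 ≤ m then hN P m.toNat else 0

/-- The Schur function `s_λ = det (h_{λ_i - i + j})` (Jacobi–Trudi), `λ` a list of parts. -/
noncomputable def sN (P : ℕ → R) (l : List ℕ) : R :=
  Matrix.det (Matrix.of fun i j : Fin l.length => hZ P ((l.get i : ℤ) - (i : ℤ) + (j : ℤ)))

end generic

/-- The Schur function `s_λ` in `Lam`. -/
noncomputable def sch (l : List ℕ) : Lam := sN (fun i => (X i : Lam)) l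

/-- `l` is a partition of `n`: weakly decreasing positive parts with sum `n`. -/
def IsPart (n : ℕ) (l : List ℕ) : Prop :=
  l.Pairwise (· ≥ ·) ∧ (∀ a ∈ l, 0 < a) ∧ l.sum = n

/-- Dominance order: `Dom l m` is `l ≥ m`. -/
def Dom (l m : List ℕ) : Prop := ∀ k : ℕ, (m.take k).sum ≤ (l.take k).sum

/-- The conjugate partition: its `j`-th part is the number of parts of `l` larger than `j`
(`j = 0, 1, …`). -/
def conj (l : List ℕ) : List ℕ :=
  (List.range (l.headD 0)).map fun j => (l.filter fun a => decide (j < a)).length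

/-- `n(μ) = ∑_i (i-1) μ_i` (rows numbered from `1`). -/
def nn (l : List ℕ) : ℕ := ∑ i : Fin l.length, (i : ℕ) * l.get i

/-- `T_μ = t^{n(μ)} q^{n(μ')}`. -/
noncomputable def Tm (l : List ℕ) : K := t ^ nn l * q ^ nn (conj l)

/-- `p_{k+1}[B_μ]`, the sum of the `(k+1)`-st powers of the cell weights `t^{i-1} q^{j-1}`. -/
noncomputable def Bp (l : List ℕ) (k : ℕ) : K :=
  ∑ i : Fin l.length, ∑ j ∈ range (l.get i), (t ^ (i : ℕ) * q ^ j) ^ (k + 1)

/-- The plethysm `f ↦ f[X · A]`, where `a k = p_{k+1}[A]`. -/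
noncomputable def plX (a : ℕ → K) : Lam →ₐ[K] Lam := aeval fun i => C (a i) * X i

/-- The plethysm `f ↦ f[A]`, where `a k = p_{k+1}[A]`. -/
noncomputable def ev (a : ℕ → K) : Lam →ₐ[K] K := aeval a

/-- `H` is the family of modified Macdonald polynomials of degree `n`: the three
characterising properties, for every partition `μ` of `n`. -/
structure IsMac (n : ℕ) (H : List ℕ → Lam) : Prop where
  /-- `H_μ[X(1-q)]` lies in the span of `s_λ`, `λ ≥ μ`. -/
  triq : ∀ μ, IsPart n μ → plX (fun i => 1 - q ^ (i + 1)) (H μ) ∈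
    Submodule.span K {f | ∃ l, IsPart n l ∧ Dom l μ ∧ f = sch l}
  /-- `H_μ[X(1-t)]` lies in the span of `s_λ`, `λ ≥ μ'`. -/
  trit : ∀ μ, IsPart n μ → plX (fun i => 1 - t ^ (i + 1)) (H μ) ∈
    Submodule.span K {f | ∃ l, IsPart n l ∧ Dom l (conj μ) ∧ f = sch l}
  /-- The coefficient of `s_(n)` in `H_μ` is `1`. -/
  norm : ∀ μ, IsPart n μ → H μ - sch [n] ∈
    Submodule.span K {f | ∃ l, IsPart n l ∧ l ≠ [n] ∧ f = sch l}

/-- `(z;q)_k = ∏_{i<k} (1 - z q^i)`. -/
noncomputable def poch (z : K) (k : ℕ) : K := ∏ i ∈ range k, (1 - z * q ^ i)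

/-- `E` is the family `E_{n,1}, …, E_{n,n}`:
`e_n[X (1-z)/(1-q)] = ∑_{k=1}^n (z;q)_k/(q;q)_k E_{n,k}`. -/
def IsE (n : ℕ) (E : ℕ → Lam) : Prop :=
  ∀ z : K, plX (fun i => (1 - z ^ (i + 1)) / (1 - q ^ (i + 1))) (eN (fun i => (X i : Lam)) n) =
    ∑ k ∈ Icc 1 n, (poch z k / poch q k) • E k

/-- The symmetric functions of degree `n` that are combinations of Schur functions with
coefficients in `ℕ[q,t]`. -/
noncomputable def SPos (n : ℕ) : AddSubmonoid Lam :=
  AddSubmonoid.closure {f | ∃ c ∈ NN, ∃ β, IsPart n β ∧ f = c • sch β}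

/-- Final statement: `Δ_{s_λ} ∇ E_{n,k}` is Schur positive for `k = n - 1` and `k = n`. -/
def Stmt_final : Prop :=
  ∀ (n : ℕ), 2 ≤ n → ∀ (H : List ℕ → Lam), IsMac n H →
  ∀ (lam : List ℕ) (m : ℕ), IsPart m lam →
  ∀ (nabla delta : Lam →ₗ[K] Lam),
    (∀ μ, IsPart n μ → nabla (H μ) = Tm μ • H μ) →
    (∀ μ, IsPart n μ → delta (H μ) = ev (Bp μ) (sch lam) • H μ) →
  ∀ (E : ℕ → Lam), IsE n E →
  ∀ k, n - 1 ≤ k → k ≤ n → delta (nabla (E k)) ∈ SPos n

end Pool.Agent.NEK
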