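import Pool.Agent.NEK.Defs

/-!
# Specialisation at `q = 1`

Definitions for the second theorem on MP_44957e_co.
-/

set_option autoImplicit false

namespace Pool.Agent.NEK

open MvPolynomial Finset

/-- The field `ℚ(t)`. -/
abbrev K1 : Type := FractionRing (Polynomial ℚ)

/-- The element `t` of `ℚ(t)`. -/
noncomputable def t1 : K1 := algebraMap (Polynomial ℚ) K1 Polynomial.X

/-- `ℕ[t]`, the polynomials in `t` with nonnegative integer coefficients, inside `ℚ(t)`. -/
noncomputable def N1 : Subsemiring K1 := Subsemiring.closure {t1}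

/-- The specialisation `q ↦ 1`, `t ↦ t`, from `ℚ[q,t]` to `ℚ[t]`. -/
noncomputable def sp : MvPolynomial (Fin 2) ℚ →ₐ[ℚ] Polynomial ℚ :=
  aeval ![(1 : Polynomial ℚ), Polynomial.X]

/-- `AtOne x y`: the rational function `x ∈ ℚ(q,t)` is regular at `q = 1` and `y ∈ ℚ(t)` is its
value there: `x = a/b`, `y = a(1,t)/b(1,t)` with polynomials `a, b` and `b(1,t) ≠ 0`. -/
def AtOne (x : K) (y : K1) : Prop :=
  ∃ a b : MvPolynomial (Fin 2) ℚ, sp b ≠ 0 ∧
    x * algebraMap (MvPolynomial (Fin 2) ℚ) K b = algebraMap (MvPolynomial (Fin 2) ℚ) K a ∧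
    y * algebraMap (Polynomial ℚ) K1 (sp b) = algebraMap (Polynomial ℚ) K1 (sp a)

/-- The ring of symmetric functions over `ℚ(t)`: polynomials in the power sums;
the variable `X i` is the power sum `p_{i+1}`. -/
abbrev Lam1 : Type := MvPolynomial ℕ K1

/-- `LamAtOne F F1`: all coefficients of the symmetric function `F` over `ℚ(q,t)` (in the power sum
basis) are regular at `q = 1`, and `F1` is the specialisation of `F` at `q = 1`. -/
def LamAtOne (F : Lam) (F1 : Lam1) : Prop := ∀ d : ℕ →₀ ℕ, AtOne (coeff d F) (coeff d F1)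

/-- The symmetric functions over `ℚ(t)` of degree `n` that are combinations of products
`e_{β_1} e_{β_2} ⋯` of elementary symmetric functions (`β` a partition of `n`) with coefficients
in `ℕ[t]`. -/
noncomputable def EPos (n : ℕ) : AddSubmonoid Lam1 :=
  AddSubmonoid.closure {f | ∃ c ∈ N1, ∃ β, IsPart n β ∧
    f = c • (β.map fun a => eN (fun i => (X i : Lam1)) a).prod}

/-- The symmetric functions over `ℚ(t)` of degree `n` that are combinations of Schur functions with
coefficients in `ℕ[t]`. -/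
noncomputable def SPos1 (n : ℕ) : AddSubmonoid Lam1 :=
  AddSubmonoid.closure {f | ∃ c ∈ N1, ∃ β, IsPart n β ∧ f = c • sN (fun i => (X i : Lam1)) β}

/-- Final statement: `Δ_{s_λ} ∇ E_{n,k}` is regular at `q = 1`, and its value there is a
combination of products of elementary symmetric functions, and of Schur functions, with
coefficients in `ℕ[t]`. -/
def Stmt_final2 : Prop :=
  ∀ (n : ℕ), 1 ≤ n → ∀ (H : List ℕ → Lam), IsMac n H →
  ∀ (lam : List ℕ) (m : ℕ), IsPart m lam →
  ∀ (nabla delta : Lam →ₗ[K] Lam),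
    (∀ μ, IsPart n μ → nabla (H μ) = Tm μ • H μ) →
    (∀ μ, IsPart n μ → delta (H μ) = ev (Bp μ) (sch lam) • H μ) →
  ∀ (E : ℕ → Lam), IsE n E →
  ∀ k, 1 ≤ k → k ≤ n →
  ∃ F1 : Lam1, LamAtOne (delta (nabla (E k))) F1 ∧ F1 ∈ EPos n ∧ F1 ∈ SPos1 n

end Pool.Agent.NEK
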