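import Pool.Agent.NEK.Stmts2

/-!
# Module PWR: powers of the series of the complete homogeneous functions
-/

set_option autoImplicit false

namespace Pool.Agent.NEK

open MvPolynomial Finset

namespace PWR

variable {R : Type} [CommRing R] [Algebra ℚ R]

/-- the series of the signed power sums -/
noncomputable def Q (P : ℕ → R) : PowerSeries R := PowerSeries.mk fun k => (-1) ^ k * P k

theorem der (P : ℕ → R) : PowerSeries.derivative R (Hh P) = -(Q P * Hh P) := by
  ext n
  rw [PowerSeries.coeff_derivative, map_neg, PowerSeries.coeff_mul]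
  unfold Hh Q
  rw [PowerSeries.coeff_mk]
  have h := HNB.hr R P n
  rw [← Finset.Nat.sum_antidiagonal_eq_sum_range_succ (fun i j => P i * hN P j)] at h
  have h1 : ∑ x ∈ HasAntidiagonal.antidiagonal n,
      PowerSeries.coeff x.1 (PowerSeries.mk fun k => (-1) ^ k * P k) *
        PowerSeries.coeff x.2 (PowerSeries.mk fun a => (-1) ^ a * hN P a) =
      (-1) ^ n * ∑ x ∈ HasAntidiagonal.antidiagonal n, P x.1 * hN P x.2 := by
    rw [Finset.mul_sum]
    refine Finset.sum_congr rfl fun x hx => ?_
    rw [PowerSeries.coeff_mk, PowerSeries.coeff_mk, ← mem_antidiagonal.1 hx, pow_add]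
    ring
  rw [h1, ← h]
  push_cast
  ring

theorem der_pow (P : ℕ → R) (m : ℕ) :
    PowerSeries.derivative R (Hh P ^ m) = -((m : PowerSeries R) * (Q P * Hh P ^ m)) := by
  induction m with
  | zero =>
    rw [pow_zero, Nat.cast_zero, zero_mul, neg_zero]
    exact Derivation.map_one_eq_zero _
  | succ m ih =>
    rw [pow_succ, Derivation.leibniz, ih, der, smul_eq_mul, smul_eq_mul]
    push_cast
    ring

theorem coeff_zero_pow (P : ℕ → R) (m : ℕ) : PowerSeries.coeff 0 (Hh P ^ m) = 1 := by
  rw [PowerSeries.coeff_zero_eq_constantCoeff, map_pow, ← PowerSeries.coeff_zero_eq_constantCoeff_apply]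
  unfold Hh
  rw [PowerSeries.coeff_mk, hN, pow_zero, one_mul, one_pow]

end PWR

theorem t_PWR : M_PWR := by
  intro R _ _ P m n
  refine (HNB.eu R (fun i => -(m : R) * P i) (fun n => PowerSeries.coeff n (Hh P ^ m))
    (PWR.coeff_zero_pow P m) ?_ n).symm
  intro n
  have h := congrArg (PowerSeries.coeff n) (PWR.der_pow P m)
  rw [PowerSeries.coeff_derivative, map_neg] at h
  have h1 : (m : PowerSeries R) * (PWR.Q P * Hh P ^ m) = PowerSeries.C (m : R) * (PWR.Q P * Hh P ^ m) := by
    rw [map_natCast]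
  rw [h1, PowerSeries.coeff_C_mul, PowerSeries.coeff_mul,
    Finset.Nat.sum_antidiagonal_eq_sum_range_succ
      (fun i j => PowerSeries.coeff i (PWR.Q P) * PowerSeries.coeff j (Hh P ^ m))] at h
  have h2 : ((n + 1 : ℕ) : R) * PowerSeries.coeff (n + 1) (Hh P ^ m) =
      PowerSeries.coeff (n + 1) (Hh P ^ m) * ((n : R) + 1) := by
    push_cast
    ring
  rw [h2, h, Finset.mul_sum, ← Finset.sum_neg_distrib]
  refine Finset.sum_congr rfl fun k _ => ?_
  unfold PWR.Q
  rw [PowerSeries.coeff_mk]
  ring

end Pool.Agent.NEK
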