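import Pool.Agent.NEK.Defs

/-!
# Statements for `Stmt_final` (Schur positivity of `Δ_{s_λ} ∇ E_{n,k}`, `k ≥ n-1`)

All proofs are complete in the doc-strings.  Notation: `h_n = hN P n`, where `P k` is the power sum
`p_{k+1}`.
-/

set_option autoImplicit false

namespace Pool.Agent.NEK

open MvPolynomial Finset

/-! ## Block H: basic facts on `hN`, `eN` (module HNB, all in one file) -/

/-- (recursion, from the definition) `(n+1) h_{n+1} = ∑_{k ≤ n} P k h_{n-k}`.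
Proof: unfold, multiply by `n+1`; `algebraMap ℚ R ((n+1)⁻¹) * (n+1) = 1`
(`Nat.cast` is `algebraMap ℚ R (n+1)`); `Finset.sum_range` turns the `Fin` sum into a `range` sum. -/
def Stmt_HR : Prop :=
  ∀ (R : Type) [CommRing R] [Algebra ℚ R] (P : ℕ → R) (n : ℕ),
    ((n + 1 : ℕ) : R) * hN P (n + 1) = ∑ k ∈ range (n + 1), P k * hN P (n - k)

/-- (uniqueness) strong induction; `n+1` is a unit in a `ℚ`-algebra. -/
def Stmt_HU : Prop :=
  ∀ (R : Type) [CommRing R] [Algebra ℚ R] (P g : ℕ → R), g 0 = 1 →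
    (∀ n : ℕ, ((n + 1 : ℕ) : R) * g (n + 1) = ∑ k ∈ range (n + 1), P k * g (n - k)) →
    ∀ n, hN P n = g n

/-- same for `eN`. -/
def Stmt_ER : Prop :=
  ∀ (R : Type) [CommRing R] [Algebra ℚ R] (P : ℕ → R) (n : ℕ),
    ((n + 1 : ℕ) : R) * eN P (n + 1) = ∑ k ∈ range (n + 1), (-1) ^ k * P k * eN P (n - k)

/-- same for `eN`. -/
def Stmt_EU : Prop :=
  ∀ (R : Type) [CommRing R] [Algebra ℚ R] (P g : ℕ → R), g 0 = 1 →
    (∀ n : ℕ, ((n + 1 : ℕ) : R) * g (n + 1) = ∑ k ∈ range (n + 1), (-1) ^ k * P k * g (n - k)) →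
    ∀ n, eN P n = g n

/-- (naturality) a ring homomorphism between `ℚ`-algebras commutes with `hN`, `eN`, `sN`.
Proof: strong induction with the recursion (or `Stmt_HU`); `RingHom.map_det` for `sN`;
`φ (algebraMap ℚ R x) = algebraMap ℚ S x` is `RingHom.map_rat_algebraMap` (or `Subsingleton`
of ring homs from `ℚ`). -/
def Stmt_HM : Prop :=
  ∀ (R S : Type) [CommRing R] [Algebra ℚ R] [CommRing S] [Algebra ℚ S] (φ : R →+* S) (P : ℕ → R),
    (∀ n, φ (hN P n) = hN (fun k => φ (P k)) n) ∧ (∀ n, φ (eN P n) = eN (fun k => φ (P k)) n) ∧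
    (∀ l, φ (sN P l) = sN (fun k => φ (P k)) l)

/-- (addition) `h_n(P + P') = ∑_{i+j=n} h_i(P) h_j(P')`.
Proof: uniqueness `Stmt_HU` for `g n = ∑_{i+j=n} h_i h'_j`:
`n g n = ∑ (i+j) h_i h'_j` and use the recursion in each factor; or with power series:
`Hs = PowerSeries.mk (hN P)` satisfies `d/dX Hs = (PowerSeries.mk P) * Hs` (this is the recursion), so
the product `Hs Hs'` satisfies the equation for `P + P'`, and compare coefficients with
`Stmt_HU`. -/
def Stmt_HA : Prop :=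
  ∀ (R : Type) [CommRing R] [Algebra ℚ R] (P P' : ℕ → R) (n : ℕ),
    hN (fun k => P k + P' k) n = ∑ ij ∈ antidiagonal n, hN P ij.1 * hN P' ij.2

/-- (scaling) `h_n(y^{k+1} P_k) = y^n h_n(P)` and `h_n(y^{k+1}) = y^n`, `h_n(0) = [n = 0]`,
`h_n((-1)^k) = [n ≤ 1]`.
Proof: uniqueness.  For the second: `(n+1) y^{n+1} = ∑_{k ≤ n} y^{k+1} y^{n-k}`.  For the last one:
in `∑_{k ≤ n} (-1)^k g(n-k)` only `n - k ∈ {0,1}` counts: `k = n` gives `(-1)^n` and `k = n-1`
gives `(-1)^{n-1}` (if `n ≥ 1`). -/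
def Stmt_HS : Prop :=
  ∀ (R : Type) [CommRing R] [Algebra ℚ R] (P : ℕ → R) (y : R) (n : ℕ),
    hN (fun k => y ^ (k + 1) * P k) n = y ^ n * hN P n ∧ hN (fun k => y ^ (k + 1)) n = y ^ n ∧
    hN (fun _ => (0 : R)) n = (if n = 0 then 1 else 0) ∧
    hN (fun k => (-1 : R) ^ k) n = (if n ≤ 1 then 1 else 0)

/-! ## Block J: Jacobi–Trudi -/

/-- (module JTP) Schur functions of nonnegative elements are nonnegative: for a subsemiring `S` and
elements `x ∈ S` of a list `xs`, with power sums `P k = ∑ x^{k+1}`, `s_λ ∈ S`.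

Proof.  For `κ : Fin l → ℤ` put `D_xs(κ) = det (hZ P_xs (κ i + j + 1))_{i,j}`.  Show by induction on
`xs`: if `κ` is strictly decreasing then `D_xs(κ) ∈ S`.  (Then `κ i = λ_i - i - 1`.)
* `xs = []`: `P = 0`, `hZ P m = [m = 0]`; the matrix has entry `[κ i + j + 1 = 0]`.  If every row has
  an entry `1`, at column `j(i) = -κ i - 1`, then `i ↦ j(i)` is strictly increasing `Fin l → Fin l`,
  so `j(i) = i` and the matrix is the identity; else some row is zero and the determinant is `0`.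
* `y :: xs`: by `Stmt_HA`, `Stmt_HS`: `hZ P_{y::xs} m = ∑_{r ≥ 0} y^r hZ P_xs (m - r)` (finite sum,
  `r ≤ m`; zero for `m < 0`).  Write `V(k)` for the row `(hZ P_xs (k + j + 1))_j` and
  `O(k)` for the row `(hZ P_{y::xs} (k + j + 1))_j`.  Then `O(k) = ∑_{r<d} y^r V(k-r) + y^d O(k-d)` for every `d`,
  and `O(k) = ∑_{r < d} y^r V(k-r)` if `k - d + l < 0`.  Subtract from row `i` the multiple
  `y^{κ i - κ (i+1)}` of row `i+1` (for all `i < l - 1` at once; the determinant does not change: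
  multiplication by a unitriangular matrix): row `i` becomes `∑_{r < κ i - κ(i+1)} y^r V(κ i - r)`, and
  the last row is `∑_{r < d} y^r V(κ_last - r)` with `d` large.  Expand by multilinearity
  (`MultilinearMap.map_sum_finset`, `MultilinearMap.map_smul_univ` for `Matrix.detRowAlternating`):
  `D_{y::xs}(κ) = ∑_r y^{∑ r_i} D_xs(κ - r)`, and `κ - r` is strictly decreasing because
  `κ i - r i > κ (i+1) ≥ κ (i+1) - r (i+1)`. -/
def Stmt_JTP : Prop :=
  ∀ (R : Type) [CommRing R] [Algebra ℚ R] (S : Subsemiring R) (xs : List R), (∀ x ∈ xs, x ∈ S) →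
    ∀ l : List ℕ, l.Pairwise (· ≥ ·) → sN (fun k => (xs.map fun x => x ^ (k + 1)).sum) l ∈ S

/-- The Jacobi–Trudi determinant of size `N` for `λ : Fin N → ℕ` (zero parts allowed). -/
noncomputable def SD {R : Type} [CommRing R] [Algebra ℚ R] (P : ℕ → R) {N : ℕ}
    (lam : Fin N → ℕ) : R :=
  Matrix.det (Matrix.of fun i j : Fin N => hZ P ((lam i : ℤ) - (i : ℤ) + (j : ℤ)))

/-- (module PAD) zero parts can be dropped.
Proof: if `lam` is antitone and its last part is zero, the last row of the matrix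
is `(0,…,0,1)` (`hZ P (-(N-1)+j)`), expand along it (`Matrix.det_succ_row`); induction on `N`.  If the last
part is positive, all parts are positive, the filter is the whole list `List.ofFn lam`, and the two
determinants are the same (reindex `Fin (List.ofFn lam).length` to `Fin N`). -/
def Stmt_PAD : Prop :=
  ∀ (R : Type) [CommRing R] [Algebra ℚ R] (P : ℕ → R) (N : ℕ) (lam : Fin N → ℕ), Antitone lam →
    SD P lam = sN P ((List.ofFn lam).filter fun a => decide (0 < a))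

/-- (module PIE) Pieri's rule for `h_m`, strip form.

Proof.  Let `N = M + 1`, `κ i = λ_i - i`.  In `PowerSeries R` put
`u(k) = ∑_{r ≥ 0} hZ P (k + r) y^r` (`y = PowerSeries.X`, `u(k) = PowerSeries.mk fun r => hZ P (k+r)`);
`u(k) = C (hZ P k) + y u(k+1)`, and
`u(k) = ∑_{r<d} C (hZ P (k+r)) y^r + y^d u(k+d)`.  Let `D = det (u(κ i + j))_{i,j}`.
(1) Column `j` minus `y` times column `j+1` for `j < M` (multiplication on the right by a unitriangular
matrix) gives columns `C (hZ P (κ i + j))`, `j < M`, and the last column `u(κ i + M)`.  Since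
`λ_M = 0`, the last row is `(0, …, 0, u(0))` (negative indices for `j < M`, `hZ P (-M+j) = 0`), so
`D = u(0) · C (det of the upper left M×M block of hZ P (κ i + j))`, and the same
expansion for `SD P λ` itself (last row `(0,…,0,1)`) shows that this block determinant is `SD P λ`.
So the coefficient of `y^m` in `D` is `h_m · SD P λ`.
(2) Row `i` minus `y^{κ(i-1) - κ i}` times row `i-1` for `i ≥ 1` (unitriangular from the left) gives rows
`∑_{r < λ_{i-1} - λ_i + 1} y^r V(κ i + r)`, `V(k) = (C (hZ P (k + j)))_j`; the row `0` is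
`∑_{r ≤ m} y^r V(κ 0 + r) + y^{m+1}(…)`, and the determinant with row `0` replaced by
`y^{m+1}(…)` has no coefficient at `y^m`.  Expand the rest by multilinearity
(`MultilinearMap.map_sum_finset`, `map_smul_univ`): `∑_r y^{∑ r_i} C (SD P (λ + r))`, the sum over
`r 0 ≤ m`, `r i ≤ λ_{i-1} - λ_i` for `i ≥ 1`.  The coefficient of `y^m` is the right side. -/
def Stmt_PIE : Prop :=
  ∀ (R : Type) [CommRing R] [Algebra ℚ R] (P : ℕ → R) (N : ℕ) (lam : Fin (N + 1) → ℕ),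
    Antitone lam → lam (Fin.last N) = 0 → ∀ m : ℕ,
    hN P m * SD P lam =
      ∑ r ∈ (Fintype.piFinset fun _ : Fin (N + 1) => range (m + 1)).filter
        (fun r => ∑ i, r i = m ∧ ∀ i : Fin N, lam i.succ + r i.succ ≤ lam i.castSucc),
        SD P (fun i => lam i + r i)

/-! ## Block W: words -/

/-- content of a word -/
def cont {N : ℕ} (w : List (Fin N)) (i : Fin N) : ℕ := w.count i

/-- ballot words; the newest letter is the head of the list. -/
def Bal {N : ℕ} : List (Fin N) → Prop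
  | [] => True
  | r :: w => Bal w ∧ Antitone (cont (r :: w))

/-- major index of a word (newest letter first): position `i` is a descent if the
letter number `i+1` is in a lower row (has a larger index) than letter number `i`. -/
def mj {N : ℕ} : List (Fin N) → ℕ
  | [] => 0
  | [_] => 0
  | r :: r' :: w => mj (r' :: w) + (if r' < r then (r' :: w).length else 0)

open Classical in
/-- Schur function of the content of a ballot word, `0` for other words -/
noncomputable def valw {R : Type} [CommRing R] [Algebra ℚ R] (P : ℕ → R) {N : ℕ}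
    (w : List (Fin N)) : R := if Bal w then SD P (cont w) else 0

/-- sum over all words of length `n` -/
noncomputable def sw {M : Type} [AddCommMonoid M] {N : ℕ} : ℕ → (List (Fin N) → M) → M
  | 0, F => F []
  | n + 1, F => ∑ r : Fin N, sw n (fun w => F (r :: w))

open Classical in
/-- (module PIW) Pieri's rule in word form.

Proof.  `m = 0` is trivial.  Let `m ≥ 1`; then `w.length < N`, so the content `λ` of `w` (antitone,
sum `< N`) has last part `0`: use `Stmt_PIE` (`Stmt_PIE → Stmt_PIW`).  The words `x` of length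
`m` with `x` weakly increasing (as a list, newest first) correspond bijectively to their contents
`r : Fin N → ℕ`, `∑ r = m` (`x = 0^{r_0} 1^{r_1} …`).  For such `x`: `Bal (x ++ w)` iff
`λ_i + r_i ≤ λ_{i-1}` for all `i ≥ 1`.
(Induction on `x`: removing the head `a` of `x` (the smallest letter, `x = a :: x'`); the content of `x ++ w`
at the rows `> a` is `λ + r`, at row `a` it is between `λ_a` and `λ_a + r_a`, and at the
rows `< a` it is `λ`.  If all inequalities hold, every intermediate content `c` has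
`c_i ≤ λ_i + r_i ≤ λ_{i-1} ≤ c_{i-1}`.  Conversely let `i ≥ 1` with `r_i > 0`; when the last letter `i` has been
written, the content is `λ_i + r_i` at `i` and `λ_{i-1}` at `i-1` (the letters `i-1` come later), so
antitonicity gives the inequality; if `r_i = 0` it is `λ_i ≤ λ_{i-1}`.)
The sum `sw m` over words becomes the sum over contents. -/
def Stmt_PIW : Prop :=
  ∀ (R : Type) [CommRing R] [Algebra ℚ R] (P : ℕ → R) (N m : ℕ) (w : List (Fin N)),
    Bal w → w.length + m ≤ N →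
    hN P m * valw P w = sw m (fun x : List (Fin N) => if x.Pairwise (· ≤ ·) then valw P (x ++ w) else 0)

/-- `(q;q)_n` -/
noncomputable def qf (n : ℕ) : K := poch q n

open Classical in
/-- (module TEL) telescoping on the last run.
Proof: induction on `w`.  For a one letter word both sides are `1`.  Let the word be `r :: r' :: w`,
`v = r' :: w` of length `n ≥ 1`.  The term `m = 1` is `q^n / (q;q)_n · q^{mj v}`; for `m = m' + 1 ≥ 2`
the condition is `r ≤ r'` and `take m' v` weakly increasing; by induction these terms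
sum to `[r ≤ r'] q^{mj v} / (q;q)_{n-1}`.  If `r ≤ r'`: `q^n/(q;q)_n + 1/(q;q)_{n-1} = 1/(q;q)_n` and
`mj (r :: v) = mj v`.  If `r' < r`: `mj (r :: v) = mj v + n`.
(`poch q n = ∏_{i<n} (1 - q^{i+1})` is nonzero because `q^{i+1} ≠ 1`.) -/
def Stmt_TEL : Prop :=
  ∀ (N n : ℕ) (w : List (Fin N)), 1 ≤ n → w.length = n →
    ∑ m ∈ Icc 1 n, (q ^ (n - m) / qf (n - m)) *
      (if (w.take m).Pairwise (· ≤ ·) then q ^ mj (w.drop m) else 0) = q ^ mj w / qf (n - 1)

/-- `w_n = h_n[X/(1-q)]` -/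
noncomputable def wN (n : ℕ) : Lam := hN (fun i => C ((1 - q ^ (i + 1))⁻¹) * (X i : Lam)) n

/-- `W_n = (q;q)_n h_n[X/(1-q)]` -/
noncomputable def WN (n : ℕ) : Lam := C (qf n) * wN n

/-- `h_n` -/
noncomputable def hX (n : ℕ) : Lam := hN (fun i => (X i : Lam)) n

/-- (module WNR) `(1 - q^n) w_n = ∑_{m=1}^n q^{n-m} h_m w_{n-m}`.
Proof: with `P i = X i/(1-q^{i+1})`: `P i = X i + q^{i+1} P i`; `Stmt_HA` and `Stmt_HS` give
`w_n = ∑_{m+j=n} h_m q^j w_j`; take the term `m = 0` to the left. -/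
def Stmt_WNR : Prop :=
  ∀ n : ℕ, 1 ≤ n → C (1 - q ^ n) * wN n = ∑ m ∈ Icc 1 n, C (q ^ (n - m)) * hX m * wN (n - m)

/-- (module WNC) the combinatorial formula: `W_n = ∑_w q^{maj w} s_{content w}` over ballot words of
length `n` (`n ≤ N`), i.e. over standard tableaux.
Proof (uses `Stmt_WNR`, `Stmt_PIW`, `Stmt_TEL`): strong induction on `n`.  `n = 0`: both sides are `1`
(`SD` of the zero content: the matrix is upper unitriangular).  For `n ≥ 1`:
`W_n = (q;q)_{n-1} (1-q^n) w_n = ∑_{m=1}^n (q;q)_{n-1}/(q;q)_{n-m} q^{n-m} h_m W_{n-m}`; insert the formula for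
`W_{n-m}`, use `Stmt_PIW` for ballot `w` (for other `w`, `valw` of `w` and of all `x ++ w` is `0`), and
rewrite the sum over `x` of length `m` and `w` of length `n-m` as a sum over
words `v = x ++ w` of length `n` (`x = v.take m`, `w = v.drop m`; lemma: `sw n F = sw m (fun x => sw (n-m) (fun w =>
F (x ++ w)))`); then `Stmt_TEL` (multiplied by `(q;q)_{n-1}`) for each `v`. -/
def Stmt_WNC : Prop :=
  ∀ (N n : ℕ), n ≤ N →
    WN n = sw n (fun w : List (Fin N) => C (q ^ mj w) * valw (fun i => (X i : Lam)) w)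

/-- `A_n`: words without a descent at `n-1` -/
noncomputable def An (n : ℕ) : Lam :=
  C ((1 - q ^ (n - 1))⁻¹) * (WN n - C (q ^ (n - 1)) * X 0 * WN (n - 1))

/-- `B_n`: words with a descent at `n-1` -/
noncomputable def Bn (n : ℕ) : Lam :=
  C ((1 - q ^ (n - 1))⁻¹) * (X 0 * WN (n - 1) - WN n)

/-- (module ABP) `A_n` and `B_n` are Schur positive.
Proof (uses `Stmt_WNC`, `Stmt_PIW` with `m = 1`, `Stmt_PAD`): take `N = n`.  `X 0 = h_1`, so
`X 0 * W_{n-1} = ∑_{w, |w| = n-1} q^{mj w} ∑_r val (r :: w)`, and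
`W_n = ∑_{w, r} q^{mj (r :: w)} val (r :: w)`, where (`n ≥ 2`, `w = r' :: w'`)
`mj (r :: w) = mj w + (n-1) [r' < r]`.  Hence `A_n` is the sum of `q^{mj w} val (r :: w)` over the pairs
without descent and `B_n` the sum of `q^{mj w} val (r :: w)` over the pairs with descent
(`1 - q^{n-1} ≠ 0`).  Each `val` is `0` or (by `Stmt_PAD`) a Schur function `sch β`,
`β = (List.ofFn (cont w)).filter (0 < ·)`, which is a partition of `n` (content antitone, sum = length). -/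
def Stmt_ABP : Prop := ∀ n : ℕ, 2 ≤ n → An n ∈ SPos n ∧ Bn n ∈ SPos n

/-! ## Block M: Macdonald polynomials for `(n)` and `(n-1,1)` -/

/-- (module EVS) evaluations of Schur functions: `p_k ↦ 1` kills `s_λ` for `λ` with at least two parts and
maps `h_n` to `1`; `p_k ↦ (-1)^{k-1}` kills `s_λ` if `λ_1 ≥ 2`.
Proof: `Stmt_HM`, `Stmt_HS` (`y = 1`: all `h_m = 1`, `m ≥ 0`): rows `0` and `1` of the determinant
are both `(1, …, 1)` (row `1`: `λ_2 - 1 + j ≥ 0`).  Second: `h_m = [m ≤ 1]` for `m ≥ 0`, row `0` has all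
indices `≥ 2`, so it is zero. -/
def Stmt_EVS : Prop :=
  (∀ (n : ℕ) (l : List ℕ), IsPart n l → 1 ≤ n → l ≠ [n] → ev (fun _ => 1) (sch l) = 0) ∧
  (∀ n : ℕ, ev (fun _ => 1) (sch [n]) = 1) ∧
  (∀ (l : List ℕ) (a : ℕ) (l' : List ℕ), l = a :: l' → 2 ≤ a → ev (fun i => (-1) ^ i) (sch l) = 0)

/-- (module EVW) evaluations of `w_n`:
`w_n(p = 1) = 1/(q;q)_n` and `c_n := w_n[p_k ↦ (-1)^{k-1} (1-t^k)]` satisfies
`(1 - q^n) c_n = (q^{n-1} - t) c_{n-1}` for `n ≥ 1`, `c_n ≠ 0`.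
Proof: by `Stmt_HM` both are `hN` of a sequence in `K`.  First: `Stmt_WNR` evaluated gives
`(1-q^n) a_n = ∑_{m=1}^n q^{n-m} a_{n-m}` (`h_m = 1`), and `a_n = 1/(q;q)_n` by strong induction
(`∑_{j<n} q^j/(q;q)_j = 1/(q;q)_{n-1}`).  Second: `h_m ↦ d_m` with `d_0 = 1`, `d_m = (-t)^{m-1} (1-t)` for
`m ≥ 1` (`Stmt_HA`, `Stmt_HS`: `(-1)^k (1 - t^{k+1}) = (-1)^k + (-t)^{k+1}`, so
`d_m = (-t)^m + (-t)^{m-1}`), so
`(1-q^n) c_n = ∑_{m=1}^n q^{n-m} d_m c_{n-m} = q^{n-1} (1-t) c_{n-1} - t ∑_{m=1}^{n-1} q^{n-1-m} d_m c_{n-1-m}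
= q^{n-1}(1-t) c_{n-1} - t (1-q^{n-1}) c_{n-1} = (q^{n-1} - t) c_{n-1}`.
`q^i ≠ t` in `K` and `q^{i+1} ≠ 1`. -/
def Stmt_EVW : Prop :=
  (∀ n : ℕ, ev (fun _ => 1) (wN n) = (qf n)⁻¹) ∧
  (∀ n : ℕ, 1 ≤ n → (1 - q ^ n) * ev (fun i => (-1) ^ i * (1 - t ^ (i + 1))) (wN n) =
    (q ^ (n - 1) - t) * ev (fun i => (-1) ^ i * (1 - t ^ (i + 1))) (wN (n - 1))) ∧
  (∀ n : ℕ, ev (fun i => (-1) ^ i * (1 - t ^ (i + 1))) (wN n) ≠ 0)

/-- (module MAC) the two Macdonald polynomials.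
Proof (uses `Stmt_EVS`, `Stmt_EVW`).  `plX (1/(1-q^{i+1}))` is inverse to `plX (1-q^{i+1})` and maps `h_m` to
`w_m` (`Stmt_HM`).
* `μ = (n)`: `λ ≥ (n)` forces `λ = (n)` (first part `≥ n`), so `H_(n) = c • w_n`; `norm` and
  evaluation at `p = 1` (which kills the span in `norm`, `Stmt_EVS`) give `c/(q;q)_n = 1`.
* `μ = (n-1,1)` (`n ≥ 2`): `λ ≥ μ` forces `λ = (n)` or `(n-1,1)`; `s_(n-1,1) = h_{n-1} h_1 - h_n`
  (2×2 determinant), so `H = a • w_n + b • (w_{n-1} w_1)`, `w_1 = X 0/(1-q)`.  `norm`: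
  `a/(q;q)_n + b/((q;q)_{n-1} (1-q)) = 1`.  `trit`: `μ' = (2,1,…,1)`, `λ ≥ μ'` forces `λ_1 ≥ 2`, so the
  evaluation `p_k ↦ (-1)^{k-1}` kills `H[X(1-t)]`: `a c_n + b c_{n-1} c_1 = 0`, i.e.
  `a (q^{n-1}-t)/(1-q^n) + b (1-t)/(1-q) = 0`.  With `a = (q;q)_n a'`, `b = (q;q)_{n-1} (1-q) b'`:
  `a' + b' = 1`, `a' (q^{n-1} - t) + b' (1-t) = 0`, so `a' = (1-t)/(1-q^{n-1})`,
  `b' = (t - q^{n-1})/(1-q^{n-1})`, and `H = a' W_n + b' X 0 W_{n-1} = A_n + t B_n`.
Also `H_(n) = W_n = A_n + q^{n-1} B_n` (definitions). -/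
def Stmt_MAC : Prop :=
  ∀ n : ℕ, 2 ≤ n → ∀ H : List ℕ → Lam, IsMac n H →
    H [n] = WN n ∧ H [n - 1, 1] = An n + C t * Bn n ∧ WN n = An n + C (q ^ (n - 1)) * Bn n

/-- (module EXT) the two last `E_{n,k}`.
Proof.  Work in `Polynomial Lam` (variable `Z`).  Let `P i = C ((1-q^{i+1})⁻¹) X i ∈ Lam` and
`EZ n = eN (fun i => C (P i) * (1 - Z^{i+1})) n`.  Evaluation at `Z = C z` (`z ∈ K`, `C z ∈ Lam`) of `EZ n` is
the left side of `IsE` (`Stmt_HM`), and the right side is the evaluation of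
`∑_k C ((qf k)⁻¹ • E k) * ∏_{i<k} (1 - q^i Z)`.  The elements `C z` are infinitely many, `Lam` is a
domain, so the polynomials are equal (`Polynomial.eq_of_infinite_eval_eq`).
Coefficients of `EZ n`: the degree is `≤ n`, the coefficient of `Z^n` is `(-1)^n w_n` and that of
`Z^{n-1}` (`n ≥ 1`) is `(-1)^{n-1} P 0 w_{n-1}`.  (Strong induction with the recursion of `eN`: for
`α_n = (-1)^n [Z^n] EZ n`: `n α_n = ∑ P_k α_{n-k}`, the recursion of `w`; for
`β_n = (-1)^{n-1} [Z^{n-1}] EZ n`: `n β_n = P_0 α_{n-1} + ∑_k P_k β_{n-k}`, solved by `β_n = P_0 α_{n-1}`.)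
Coefficients of `∏_{i<k} (1 - q^i Z)`: `[Z^k] = (-1)^k q^{C(k,2)}`,
`[Z^{k-1}] = (-1)^{k-1} q^{C(k-1,2)} (1 + q + … + q^{k-1})`.
Comparing `Z^n`: `E_n q^{C(n,2)}/(q;q)_n = w_n`.  Comparing `Z^{n-1}`:
`E_{n-1} q^{C(n-1,2)}/(q;q)_{n-1} + E_n q^{C(n-1,2)} [n]_q/(q;q)_n = P_0 w_{n-1}`.  With
`C(n,2) = C(n-1,2) + n - 1` and `P_0 = X 0/(1-q)`:
`E_{n-1} = q^{-C(n,2)} (q^{n-1} X 0 W_{n-1} - W_n)/(1-q) = - q^{-C(n,2)} [n-1]_q A_n`. -/
def Stmt_EXT : Prop :=
  ∀ n : ℕ, 2 ≤ n → ∀ E : ℕ → Lam, IsE n E →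
    E n = C ((q ^ n.choose 2)⁻¹) * WN n ∧
    E (n - 1) = - (C ((q ^ n.choose 2)⁻¹ * ∑ i ∈ range (n - 1), q ^ i) * An n)

/-- (module GPO) the eigenvalues of `Δ_{s_λ}` at `(n-1,1)` and `(n)` are the values at `t` and
`q^{n-1}` of one polynomial with coefficients in `ℕ[q,t]`.
Proof (uses `Stmt_HM`, `Stmt_JTP`): `S` = subsemiring of `Polynomial K` of the polynomials with all coefficients in
`NN`; `xs = [C 1, C q, …, C q^{n-2}, X]`, `g = sN (fun k => ∑_{x ∈ xs} x^{k+1}) lam ∈ S`; evaluate at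
`t` and at `q^{n-1}` (`Polynomial.evalRingHom`) and compare with `Bp [n-1,1] k = ∑_{j<n-1} q^{j(k+1)} + t^{k+1}`,
`Bp [n] k = ∑_{j<n} q^{j(k+1)}`. -/
def Stmt_GPO : Prop :=
  ∀ (n : ℕ), 2 ≤ n → ∀ (m : ℕ) (lam : List ℕ), IsPart m lam →
    ∃ g : Polynomial K, (∀ i, g.coeff i ∈ NN) ∧
      g.eval t = ev (Bp [n - 1, 1]) (sch lam) ∧ g.eval (q ^ (n - 1)) = ev (Bp [n]) (sch lam)

/-- (module FIN) `Stmt_ABP → Stmt_MAC → Stmt_EXT → Stmt_GPO → Stmt_final`.
Proof.  Put `a = q^{n-1}`, `H = H_(n) = A + aB`, `H' = H_(n-1,1) = A + tB`, `c = q^{C(n,2)}`.  `T_(n) = c`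
(`nn [n] = 0`, `conj [n] = 1^n`, `nn (1^n) = C(n,2)`), `T_(n-1,1) = t q^{C(n-1,2)}` (`nn [n-1,1] = 1`,
`conj [n-1,1] = 2, 1^{n-2}`, `nn = C(n-1,2)`), and `a q^{C(n-1,2)} = c`.
`k = n`: `E_n = c⁻¹ H`, so `nabla E_n = H`, `delta` of it is `g(a) • H`, `g(a) = g.eval a ∈ NN`, `H = A + aB ∈ SPos`.
`k = n-1`: `(a - t) A = a H' - t H` (`a ≠ t`), `nabla A = (a t q^{C(n-1,2)} H' - t c H)/(a-t) = t c (H'-H)/(a-t)`,
so `nabla E_{n-1} = t [n-1]_q (H' - H)/(t - a)` and
`delta (nabla E_{n-1}) = t [n-1]_q (g(t) (A + tB) - g(a) (A + aB))/(t-a)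
 = t [n-1]_q ∑_j g_j ( (∑_{i<j} t^i a^{j-1-i}) A + (∑_{i<j+1} t^i a^{j-i}) B )`
(`geom_sum₂_mul`), which is in `SPos n` because `NN • SPos ⊆ SPos`.
(`SPos` is stable under multiplication by `NN`: `AddSubmonoid.closure_induction`.) -/
def Stmt_FIN : Prop := Stmt_ABP → Stmt_MAC → Stmt_EXT → Stmt_GPO → Stmt_final

end Pool.Agent.NEK
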