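import Pool.Agent.NEK.Basic3

/-!
# Statements for `Stmt_final2` (specialisation of `Δ_{s_λ} ∇ E_{n,k}` at `q = 1`)

All proofs are complete in the doc-strings.  Everything in `Basic2.lean` (namespace `A1`: the relation
`AtOne`, the local ring `AA`, transfer lemmas `lam_mul`, `lam_hN`, `lam_sN`, `sN_atOne`, `lam_aeval`,
`ev_atOne`, …), `Basic3.lean` and `HNB.lean` (`HNB.hr`, `HNB.hu`, `HNB.er`, `HNB.eu`, `HNB.hm`, `HNB.ha`,
`HNB.hs`) is proved and may be used.
We write `h_n = hN P n`, `e_n = eN P n`, where `P k` is the power sum `p_{k+1}`; `b = bt`,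
`η_a = eta a = h_a[X/(1-t)]`.
-/

set_option autoImplicit false

namespace Pool.Agent.NEK

open MvPolynomial Finset

/-! ## Block B: algebra -/

/-- (module VAL) every nonzero symmetric function can be scaled by a power of `1 - q` so that it is
regular with nonzero value at `q = 1`.

Proof.  (a) `sp a = 0 → (1 - X 0) ∣ a`: let `σ : ℚ[t] → ℚ[q,t]`, `X ↦ X 1`; for every `a`, `(1 - X 0) ∣ a - σ (sp a)`
(`MvPolynomial.induction_on`: constants, sums, multiplication by `X 0`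
(`a X0 - σ(sp a) = (a - σ (sp a)) X0 - σ (sp a) (1 - X0)`) and `X 1`).
(b) for `x : K`, `x ≠ 0` there are `r : ℤ`, `y ≠ 0` with `AtOne (x * (1-q)^r) y`: `x = a / b`
(`IsFractionRing.div_surjective`), `a = (1-X0)^α a'`, `b = (1-X0)^β b'` with `¬ (1-X0) ∣ a', b'`
(`WfDvdMonoid.max_power_factor`; `1 - X 0` is not a unit because `sp` of it is `0`), so `sp a', sp b' ≠ 0`;
`r = β - α`, `y = sp a' / sp b'`.
(c) for `F`: take `r d`, `y d` for every `d ∈ F.support`, `R` = maximum of the `r d`; for `d ∈ F.support`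
`AtOne (coeff d F * (1-q)^R) (if r d = R then y d else 0)` (`(1-q)^{R - r d}` has value `0` if `R > r d`);
`F1 = ∑ monomial d (…) ≠ 0`. -/
def M_VAL : Prop :=
  ∀ F : Lam, F ≠ 0 → ∃ (r : ℤ) (F1 : Lam1), F1 ≠ 0 ∧ LamAtOne (((1 - q) ^ r : K) • F) F1

/-- (module MON) monomials of degree `n` are the same as partitions of `n`.
Proof: degree and weight are additive (`map_list_sum` / induction on the list), `mon` of a list with positive
parts determines the multiset of its parts (`mon l i` is the number of parts `i+1` in `l`: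
`mon l i = l.count (i+1)`), and a weakly decreasing list is determined by its counts
(`List.Perm.eq_of_pairwise`); for `d` take the decreasing list with `d i` parts `i+1`
(`Multiset.sort` of `∑ i ∈ d.support, d i • {i+1}`). -/
def M_MON : Prop := ∀ n : ℕ,
  (∀ l, IsPart n l → (mon l).degree = l.length ∧ Finsupp.weight wt (mon l) = n) ∧
  (∀ l l', IsPart n l → IsPart n l' → mon l = mon l' → l = l') ∧
  (∀ d : ℕ →₀ ℕ, Finsupp.weight wt d = n → ∃ l, IsPart n l ∧ mon l = d)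

/-- (module PHO) homogeneity.  Proof: strong induction with the recursion of `hN`, `eN`
(`C (b k) * X k` has weight `k+1`; `IsWeightedHomogeneous.mul`, `.sum`, and a constant factor); products over
a list by induction; the determinant `sN` is a sum over permutations `w` of `± ∏_i h_{λ_i - i + w(i)}`, each
product is `0` (a negative index) or homogeneous of weight `∑ (λ_i - i + w(i)) = n`. -/
def M_PHO : Prop := ∀ (L : Type) [Field L] [Algebra ℚ L] (b : ℕ → L),
  (∀ n, IsWeightedHomogeneous wt (hb b n) n) ∧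
  (∀ n, IsWeightedHomogeneous wt (eN (fun i => C (b i) * (X i : MvPolynomial ℕ L)) n) n) ∧
  (∀ l : List ℕ, IsWeightedHomogeneous wt (hbp b l) l.sum) ∧
  (∀ n l, IsPart n l → IsWeightedHomogeneous wt (sN (fun i => (X i : MvPolynomial ℕ L)) l) n)

/-- (module TRC) lowest terms of `∏_{a ∈ l} h_a[X b]`.
Proof.  (a) for `a ≥ 1`: `coeff d (hb b a)` is `0` if `d = 0`, and for `d = single i 1` it is
`b (a-1) / a` if `i = a - 1` and `0` otherwise (recursion `a h_a = ∑_{k<a} b_k X_k h_{a-1-k}`: the constant coefficient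
of the right side is `0`, and the coefficient of `X_i` is `∑_k b_k [k = i] · (constant coefficient of h_{a-1-k})`,
where the constant coefficient of `h_m` is `[m = 0]`).
(b) induction on `l`: `coeff d (hb b a * G) = ∑_{d' + d'' = d} coeff d' (hb b a) * coeff d'' G`; a nonzero term
has `d'.degree ≥ 1` and (induction hypothesis: `coeff d'' G = 0` if `d''.degree < length`, because `mon l` has
degree `length`) `d''.degree ≥ l.length`, so `d'.degree = 1`, `d' = single (a-1) 1`,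
`d'' = mon l` and `d = mon (a :: l)`. -/
def M_TRC : Prop := ∀ (L : Type) [Field L] [Algebra ℚ L] (b : ℕ → L) (l : List ℕ),
  (∀ a ∈ l, 0 < a) → ∀ d : ℕ →₀ ℕ, d.degree ≤ l.length →
    coeff d (hbp b l) = if d = mon l then (l.map fun a => b (a - 1) / (a : L)).prod else 0

/-- (module LIN) linear independence.
Proof (uses `M_MON`, `M_TRC`): otherwise choose `l ∈ PS n` with `c l ≠ 0` and `l.length` minimal.  The
coefficient of the relation at `mon l` (of degree `l.length ≤ l'.length` for all `l'` with `c l' ≠ 0`) is, by `M_TRC` and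
injectivity of `mon`, `c l * ∏ b (a-1)/a ≠ 0`. -/
def M_LIN : Prop := ∀ (L : Type) [Field L] [Algebra ℚ L] (b : ℕ → L), (∀ i, b i ≠ 0) →
  ∀ (n : ℕ) (c : List ℕ → L), ∑ l ∈ PS n, c l • hbp b l = 0 → ∀ l ∈ PS n, c l = 0

/-- (module NAK) expansion over the local ring.
Proof (uses `M_MON`).  Let `M : Matrix (PS n) (PS n) A1.AA`, `M μ ρ = ⟨(coeff (mon ρ) (HA μ), coeff (mon ρ) (H1 μ)), _⟩`.
The determinant of `M` has nonzero second component: otherwise (`Matrix.exists_vecMul_eq_zero_iff` for the matrix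
`M.map sndA` over the field `K1`, `RingHom.map_det`) there is `v ≠ 0` with `∑_μ v μ coeff (mon ρ) (H1 μ) = 0` for all `ρ`; the
function `∑ v μ • H1 μ` has all coefficients zero (at the exponents of weight `n` by `M_MON`; at the others `H1 μ` has
coefficient zero because that of `HA μ` is zero and `AtOne 0 y → y = 0`), contradiction to the hypothesis.  So `det M` is a
unit (`A1.isUnit_of_snd`), and with `f ρ = ⟨(coeff (mon ρ) F, coeff (mon ρ) F1), _⟩` the vector
`c = f ᵥ* M⁻¹` satisfies `c ᵥ* M = f` (`Matrix.nonsing_inv_mul`).  Take the components of `c` and compare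
coefficients (again all exponents outside weight `n` give `0`). -/
def M_NAK : Prop := ∀ (n : ℕ) (HA : List ℕ → Lam) (H1 : List ℕ → Lam1),
  (∀ l ∈ PS n, IsWeightedHomogeneous wt (HA l) n ∧ LamAtOne (HA l) (H1 l)) →
  (∀ c : List ℕ → K1, ∑ l ∈ PS n, c l • H1 l = 0 → ∀ l ∈ PS n, c l = 0) →
  ∀ (F : Lam) (F1 : Lam1), IsWeightedHomogeneous wt F n → LamAtOne F F1 →
  ∃ (c : List ℕ → K) (c1 : List ℕ → K1), (∀ l ∈ PS n, AtOne (c l) (c1 l)) ∧
    F = ∑ l ∈ PS n, c l • HA l ∧ F1 = ∑ l ∈ PS n, c1 l • H1 l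

/-! ## Block K: the Macdonald polynomials at `q = 1` -/

/-- (module FUN) evaluation in power sums of `N` variables, coefficientwise.
Proof: `F = ∑_{d ∈ supp} monomial d (coeff d F)`, `aeval_monomial`, and `MvPolynomial.map (Int.castRingHom L)` of the integer
polynomial `d.prod (psY ℤ N i ^ e)` is the one over `L`. -/
def M_FUN : Prop := ∀ (L : Type) [Field L] (a : ℕ → L) (N : ℕ) (β : Fin N →₀ ℕ) (F : MvPolynomial ℕ L),
  coeff β (aeval (fun i => C (a i) * psY L N i) F : MvPolynomial (Fin N) L) =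
    ∑ d ∈ F.support, coeff d F * (d.prod fun i e => a i ^ e) *
      ((coeff β (d.prod fun i e => psY ℤ N i ^ e) : ℤ) : L)

/-- (module CNT) the coefficient of `y^ρ` in a product of power sums.
Proof.  Write `d = mon L` for the list `L` of the parts (a list with `d i` entries `i+1`; `L.length = d.degree`); the
product is `∏_{a ∈ L} ∑_j Y_j^a`.  Show for every list `L` of positive numbers: the coefficient at `β` of
`∏_{a ∈ L} ∑_j Y_j^a` is the number of maps `φ : Fin L.length → Fin N` with `∑_{φ p = j} L_p = β j` for all `j`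
(`Finset.prod_univ_sum`).  If all `β j > 0` (`β = expo ρ`, `N = ρ.length`), such `φ` are
surjective, so `N ≤ L.length`; if `L.length = N`, they are bijective, `L_p = ρ_{φ p}`, so `L` is a permutation of `ρ` and
`d = mon L = mon ρ`; and for `d = mon ρ`, `L` a permutation of `ρ`, such a `φ` exists, so the number is
positive. -/
def M_CNT : Prop := ∀ ρ : List ℕ, (∀ a ∈ ρ, 0 < a) → ∀ d : ℕ →₀ ℕ,
  (d.degree < ρ.length →
    coeff (expo ρ) (d.prod fun i e => psY ℤ ρ.length i ^ e : MvPolynomial (Fin ρ.length) ℤ) = 0) ∧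
  (d.degree = ρ.length → d ≠ mon ρ →
    coeff (expo ρ) (d.prod fun i e => psY ℤ ρ.length i ^ e : MvPolynomial (Fin ρ.length) ℤ) = 0) ∧
  (d = mon ρ →
    coeff (expo ρ) (d.prod fun i e => psY ℤ ρ.length i ^ e : MvPolynomial (Fin ρ.length) ℤ) ≠ 0)

/-- (module GRK) (easy half of Gale–Ryser) a functional vanishing on the `s_λ`, `λ ≥ μ`.
Proof.  If the conclusion fails for some `k`, show that the coefficient at `expo ρ` vanishes on the whole span;
it is enough to treat `G = sch l`, `Dom l μ` (the elements with vanishing coefficient form a subspace).  By `HNB.hm`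
the image of `sch l` is `sN P l` with `P i = (-1)^i ∑_j Y_j^{i+1}`, a sum over permutations `w` of `± ∏_i hZ P (l_i - i + w(i))`.
* Every exponent `γ` with `coeff γ (hN P m) ≠ 0` satisfies `γ j ≤ 1` for all `j` and `∑ γ j = m`: add the variables one
  after the other (`HNB.ha`) and use `HNB.hs` (`h_n((-1)^k y^{k+1}) = y^n [n ≤ 1]`).
* So if the coefficient of the product at `expo ρ` is nonzero, `expo ρ = ∑_i γ^i` with `γ^i_j ≤ 1`,
  `∑_j γ^i_j = l_i - i + w(i)`.  For `k ≤ N' := l.length`: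
  `∑_{i<k} l_i ≤ ∑_{i<k} (l_i - i + w i) = ∑_j ∑_{i<k} γ^i_j ≤ ∑_j min k (ρ_j)` (`∑_{i<k} w i ≥ ∑_{i<k} i`), and for
  `k ≥ N'` the sum of all is `n = ∑_j ∑_i γ^i_j ≤ ∑_j min N' ρ_j ≤ ∑_j min k ρ_j`.  Finally `∑_{i<k} μ_i ≤ ∑_{i<k} l_i` by `Dom l μ`
  (for `k ≥ N'` both `∑_{i<k} μ_i ≤ n`).  Contradiction. -/
def M_GRK : Prop := ∀ (n : ℕ) (μ ρ : List ℕ), IsPart n μ → IsPart n ρ → ∀ G : Lam,
  G ∈ Submodule.span K {f | ∃ l, IsPart n l ∧ Dom l μ ∧ f = sch l} →
  coeff (expo ρ) (aeval (fun i => C ((-1 : K) ^ i) * psY K ρ.length i) G :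
    MvPolynomial (Fin ρ.length) K) ≠ 0 →
  ∀ k, (μ.take k).sum ≤ (ρ.map fun a => min k a).sum

/-- (module DOM) dominance and conjugation.
Proof.  `(conj μ)_j = #{i : μ_i > j}`; `∑_{j<k} (conj μ)_j = ∑_i min k μ_i` (count pairs), in particular the total is `n`;
`conj μ` is weakly decreasing with positive entries for `j < μ_0`.  `conj (conj μ) = μ`: the number of `j < μ_0` with
`(conj μ)_j > i`, i.e. with at least `i+1` parts of `μ` larger than `j`, i.e. `μ_i > j`, is `μ_i` (or use Mathlib's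
`YoungDiagram`).
Third claim: for every `k, m`: `∑_{i<k} ρ_i ≤ k m + ∑_i (ρ_i - m)^+ = k m + n - ∑_i min m ρ_i ≤ k m + n - ∑_{j<m} μ_j = k m + ∑_{j ≥ m} μ_j`.
With `m = #{j : μ_j ≥ k}`: `k m + ∑_{j ≥ m} μ_j = ∑_j min k μ_j = ∑_{j<k} (conj μ)_j`.  So `Dom (conj μ) ρ`; with `Dom ρ (conj μ)`
all sums of initial segments agree, so the two lists are equal.
Fourth claim: if `L' = (conj μ).length < ρ.length`, then with `k = L'`: `n = ∑_{j<k} (conj μ)_j ≤ ∑_{j<k} ρ_j < n` (the last part of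
`ρ` is positive and not in the first `k`). -/
def M_DOM : Prop := ∀ (n : ℕ) (μ ρ : List ℕ), IsPart n μ → IsPart n ρ →
  IsPart n (conj μ) ∧ conj (conj μ) = μ ∧
  ((∀ k, (μ.take k).sum ≤ (ρ.map fun a => min k a).sum) → Dom ρ (conj μ) → ρ = conj μ) ∧
  (Dom ρ (conj μ) → ρ.length ≤ (conj μ).length)

/-- (module JTH) `s_λ` is a combination of `h_ν`, `ν ≥ λ`.
Proof: the determinant is a sum over permutations `w` of `± ∏_i hZ X (l_i - i + w(i))`, zero if an index `α_i = l_i - i + w(i)` is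
negative.  Otherwise let `m` be the decreasing rearrangement of the positive `α_i` (`h_0 = 1`); it is a partition
of `n`, the product is `∏_{a ∈ m} h_a` (a permutation plus factors `1`), and for `k ≤ l.length`:
`∑_{i<k} m_i ≥ ∑_{i<k} α_i ≥ ∑_{i<k} l_i` (the first `k` entries of the sorted list have the largest sum of `k` entries;
`∑_{i<k} w(i) ≥ ∑_{i<k} i`); for `k ≥ l.length`, `∑_{i<k} m_i = n`. -/
def M_JTH : Prop := ∀ (L : Type) [Field L] [Algebra ℚ L] (n : ℕ) (l : List ℕ), IsPart n l →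
  sN (fun i => (X i : MvPolynomial ℕ L)) l ∈ Submodule.span L
    {f | ∃ m, IsPart n m ∧ Dom m l ∧ f = hbp (fun _ => (1 : L)) m}

/-- (module KQ) the first triangularity at `q = 1`.
Proof (uses `M_FUN`, `M_CNT`, `M_GRK`, `M_MON`).  Suppose the conclusion fails for some `k`.  By `M_GRK` the coefficient at
`expo ρ` of the image of `plX (1-q^{i+1}) F` is `0`; the composition of `plX` with the evaluation is
`aeval (i ↦ C ((-1)^i (1 - q^{i+1})) * psY)`, so by `M_FUN`, with `N_d = coeff (expo ρ) (d.prod psY ℤ)`,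
`0 = ∑_{d ∈ supp F} F_d ∏_i ((-1)^i (1-q^{i+1}))^{d_i} N_d`.  Here `1 - q^{i+1} = (1-q) [i+1]`, `[i+1] = ∑_{j ≤ i} q^j`
(`AtOne [i+1] (i+1)`), and `N_d = 0` for `d.degree < ℓ := ρ.length` (`M_CNT`).  Dividing by `(1-q)^ℓ`:
`0 = ∑_{d, degree ≥ ℓ} F_d (1-q)^{degree d - ℓ} ∏_i ((-1)^i [i+1])^{d_i} N_d`.  Both sides are regular; the value at `q = 1` of
the right side is (terms with `degree d > ℓ` vanish; terms with `degree d = ℓ`, `d ≠ mon ρ` have `N_d = 0`)
`F1_{mon ρ} ∏_i ((-1)^i (i+1))^{(mon ρ)_i} N_{mon ρ}`, so (`A1.unique`) this is `0`, and `F1_{mon ρ} = 0` because the other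
factors are nonzero.  (If `mon ρ ∉ supp F`, then `F1_{mon ρ} = 0` by `A1.unique` as well.) -/
def M_KQ : Prop := ∀ (n : ℕ) (μ : List ℕ), IsPart n μ → ∀ (F : Lam) (F1 : Lam1), LamAtOne F F1 →
  plX (fun i => 1 - q ^ (i + 1)) F ∈ Submodule.span K {f | ∃ l, IsPart n l ∧ Dom l μ ∧ f = sch l} →
  ∀ ρ, IsPart n ρ → coeff (mon ρ) F1 ≠ 0 → ∀ k, (μ.take k).sum ≤ (ρ.map fun a => min k a).sum

/-- (module KT) the second triangularity at `q = 1`.
Proof (uses `M_JTH`, `M_NAK`, `M_LIN`, `M_PHO`).  `F' = plX (1-t^{i+1}) F` and `F1' = plG (1 - t1^{i+1}) F1` satisfy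
`LamAtOne F' F1'` (`A1.lam_aeval`), and `F'` is homogeneous of weight `n` (span of homogeneous elements, `M_PHO`).
Apply `M_NAK` with `HA l = hbp 1 l` over `K` and `H1 l = hbp 1 l` over `K1` (`A1.lam_listProd`, `A1.lam_hN`;
independence by `M_LIN`): `F' = ∑ c_l hbp 1 l`, `F1' = ∑ c1_l hbp 1 l`, `AtOne (c_l) (c1_l)`.  By `M_JTH` and transitivity of
`Dom`, `F'` is a combination of the `hbp 1 m` with `Dom m (conj μ)`; by linear independence over `K` (`M_LIN`)
`c_l = 0` if `¬ Dom l (conj μ)`, hence `c1_l = 0`.  Apply `plG bt` to `F1'`: it gives `F1` (`plG_plG`, `plG_one`,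
`1 - t1^{i+1} ≠ 0`) on the left, and `plG bt (hbp 1 l) = hbp bt l` (`HNB.hm`). -/
def M_KT : Prop := ∀ (n : ℕ) (μ : List ℕ), IsPart n μ → ∀ (F : Lam) (F1 : Lam1), LamAtOne F F1 →
  plX (fun i => 1 - t ^ (i + 1)) F ∈
    Submodule.span K {f | ∃ l, IsPart n l ∧ Dom l (conj μ) ∧ f = sch l} →
  ∃ c : List ℕ → K1, (∀ l ∈ PS n, ¬ Dom l (conj μ) → c l = 0) ∧ F1 = ∑ l ∈ PS n, c l • hbp bt l

/-- (module EVT) `p_k ↦ 1` maps `η_a` to `1/(t;t)_a`.
Proof: `aeval 1 (eta a) = hN bt a` (`HNB.hm`); `bt i = 1 + t^{i+1} bt i`, so by `HNB.ha`, `HNB.hs`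
`a_n = ∑_{i+j=n} t^j a_j`, i.e. `(1 - t^n) a_n = ∑_{j<n} t^j a_j`, and by strong induction `a_n = 1/(t;t)_n`
(`∑_{j<n} t^j/(t;t)_j = 1/(t;t)_{n-1}`, by induction on `n`).
`t1^{i+1} ≠ 1`: `algebraMap` is injective and `X^{i+1} ≠ 1`. -/
def M_EVT : Prop := (∀ i : ℕ, (1 : K1) - t1 ^ (i + 1) ≠ 0) ∧
  ∀ a : ℕ, (aeval (fun _ => (1 : K1)) (eta a) : K1) = (tf a)⁻¹

/-- (module KEY) the Macdonald polynomials are regular at `q = 1`, with value `Hb (μ')`.

Proof (uses `M_VAL`, `M_MON`, `M_PHO`, `M_TRC`, `M_DOM`, `M_KQ`, `M_KT`, `M_EVT`, `Stmt_EVS`).  `EV = aeval 1` kills `sch l`,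
`l ≠ [n]`, and maps `sch [n]` to `1` (`Stmt_EVS`), so `norm` gives `EV (H μ) = 1`; `H μ ≠ 0`.
Homogeneity: `plX (1-q^{i+1}) (H μ)` is in the span of homogeneous elements and `coeff_plG` with
`1 - q^{i+1} ≠ 0`.
`M_VAL`: `F = (1-q)^r • H μ`, `LamAtOne F F1`, `F1 ≠ 0`; `F` satisfies both triangularities.  `M_KT`:
`F1 = ∑_{l ∈ PS n} c_l hbp bt l`, `c_l = 0` unless `Dom l (conj μ)`.  Let `T = {l ∈ PS n | c_l ≠ 0}`, nonempty.
If `l ∈ T` has minimal length, the coefficient of `F1` at `mon l` is `c_l ∏ bt(a-1)/a ≠ 0` (`M_TRC`: for `l' ∈ T`,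
`(mon l).degree = l.length ≤ l'.length`, and `mon l = mon l'` only for `l = l'`), so by `M_KQ` and `M_DOM` `l = conj μ`.
So the minimal length is that of `conj μ`, and by `M_DOM` (4th claim) every `l' ∈ T` has length `≤ (conj μ).length`, so it is
also minimal and `l' = conj μ`.  Hence `F1 = c • hbp bt (conj μ)`, `c ≠ 0`.
`EV F = (1-q)^r`, `EV F1 = c ∏ 1/tf a ≠ 0` and `AtOne (EV F) (EV F1)` (`A1.ev_atOne`).  `AtOne (1-q) 0`: if `r > 0`, the value of
`(1-q)^r` is `0`, contradiction to uniqueness; if `r < 0`, `AtOne ((1-q)^r * (1-q)^{-r}) (… * 0)` says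
`AtOne 1 0`, contradiction.  So `r = 0`, `F = H μ`, `EV F1 = 1`, `c = ∏ tf a`, `F1 = Hb (conj μ)`. -/
def M_KEY : Prop := ∀ (n : ℕ) (H : List ℕ → Lam), 1 ≤ n → IsMac n H → ∀ μ, IsPart n μ →
  IsWeightedHomogeneous wt (H μ) n ∧ LamAtOne (H μ) (Hb (conj μ))

/-! ## Block E: `E_{n,k}` at `q = 1` -/

/-- (module PWR) powers of `Hh`.
Proof: by `HNB.eu` it is enough that `g n = coeff n (Hh P ^ m)` satisfies `g 0 = 1` and
`(n+1) g (n+1) = ∑_{k ≤ n} (-1)^k (-m P_k) g (n-k)`, i.e. `d/du (Hh^m) = m Hh^{m-1} Hh'` and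
`Hh' = -(∑_k (-1)^k P_k u^k) Hh`, which is the recursion `HNB.hr` with signs. -/
def M_PWR : Prop := ∀ (R : Type) [CommRing R] [Algebra ℚ R] (P : ℕ → R) (m n : ℕ),
  PowerSeries.coeff n (Hh P ^ m) = eN (fun i => -(m : R) * P i) n

/-- (module EKR) `E_{n,k}` is homogeneous and regular at `q = 1` with value `Eb n k`.
Proof (uses `M_PWR`, `M_PHO`).  Put `z = q^{-m}`, `1 ≤ m ≤ n`, in `IsE`: the left side is (`HNB.hm`)
`eN (fun i => C x_i * X i) n` with `x_i = (1 - q^{-m(i+1)})/(1-q^{i+1}) = - q^{-m(i+1)} ∑_{j<m} q^{j(i+1)}`,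
`AtOne x_i (-m)`, so it is homogeneous of weight `n` (`M_PHO`) and regular with value
`eN (fun i => -m * X i) n = coeff n (Hh^m)` (`A1.lam_eN`, `M_PWR`).  The coefficients
`u_{m,k} = poch z k / poch q k = ∏_{i<k} (1 - q^{i-m})/(1 - q^{i+1})` are `0` for `k > m` and
regular with value `(-1)^k C(m,k)`: `AtOne ((1 - q^{i-m})/(1-q^{i+1})) (-(m-i)/(i+1))` for `i < m`
(`1 - q^{i-m} = - q^{i-m} (1-q) [m-i]`, `1 - q^{i+1} = (1-q) [i+1]`).
Strong induction on `m`: `E_m = u_{m,m}⁻¹ • (left side - ∑_{1 ≤ k < m} u_{m,k} E_k)`, `u_{m,m}` has value `(-1)^m ≠ 0`.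
For the values: `Hh^m = (1 - (1 - Hh))^m = ∑_{k ≤ m} (-1)^k C(m,k) (1-Hh)^k`, coefficient of `u^n` (`n ≥ 1`, the
term `k = 0` contributes `0`): `coeff n (Hh^m) = ∑_{k=1}^m (-1)^k C(m,k) Eb n k`, the same recursion. -/
def M_EKR : Prop := ∀ (n : ℕ) (E : ℕ → Lam), IsE n E → ∀ k, 1 ≤ k → k ≤ n →
  IsWeightedHomogeneous wt (E k) n ∧ LamAtOne (E k) (Eb n k)

/-! ## Block Q: the operator at `q = 1` -/

/-- (module PHX) algebra maps with prescribed values on the `η_a`.
Proof: define `Q : ℕ → R` (`R = MvPolynomial (Fin N) Lam1`) by strong recursion with `hN Q a = θ a` for all `a`: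
`Q n = (n+1) θ (n+1) - ∑_{k<n} Q k θ (n-k)` (then `HNB.hu`-type uniqueness: `θ` satisfies the recursion
`(n+1) θ (n+1) = ∑_{k ≤ n} Q k θ (n-k)`).  `Φ = aeval (fun i => (1 - t1^{i+1}) • Q i)`; then
`Φ (C (bt i) * X i) = Q i` (`1 - t1^{i+1} ≠ 0`: `t1^{i+1} ≠ 1`) and `Φ (eta a) = hN Q a = θ a` (`HNB.hm`). -/
def M_PHX : Prop := ∀ (N : ℕ) (θ : ℕ → MvPolynomial (Fin N) Lam1), θ 0 = 1 →
  ∃ Φ : Lam1 →ₐ[K1] MvPolynomial (Fin N) Lam1, ∀ a, Φ (eta a) = θ a

/-- (module ETA) two generating function identities.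
Proof.  `P i := C (bt i) * X i` satisfies `P i = X i + (C t1)^{i+1} P i`, so (`HNB.ha`, `HNB.hs`)
`η_n = ∑_{i+j=n} h_i t^j η_j`; with signs this is the second identity (compare coefficients).
First: `e_n(X) = (-1)^n h_n(-X)` (`HNB.eu`), so `∑_{i+j=n} (-1)^i e_i h_j = h_n(X - X) = [n = 0]`
(`HNB.ha`, `HNB.hs`), i.e. `mk (e) * Hh = 1`; multiply the second identity by `mk (e)`:
`mk(t^a (-1)^a η_a) = mk(e) * mk((-1)^a η_a)`; compare coefficients. -/
def M_ETA : Prop :=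
  (∀ a : ℕ, ∑ ij ∈ antidiagonal a, eN X1 ij.1 * ((-1) ^ ij.2 * eta ij.2) =
    C (t1 ^ a) * ((-1) ^ a * eta a)) ∧
  Hh X1 * PowerSeries.mk (fun a => C (t1 ^ a) * ((-1) ^ a * eta a)) =
    PowerSeries.mk (fun a => (-1) ^ a * eta a)

/-- (module GPS) positivity of the coefficients of `G`, `1 - G(u) = W(u)/W(τu)`.

Proof.  Write `ω_j = ∑_{m ≤ D} g_m τ^{jm}`, `W(u) = ∑ w_a u^a`.
(1) for `i + b = a`: `τ^{C(a,2)} ∏_{j<a} ω_j = (τ^{C(b,2)} ∏_{j<b} ω_j) τ^{C(i,2) + i b} ∏_{j<i} ω_{b+j}`, so multiplying the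
hypothesis by `τ^{C(a,2)} ∏_{j<a} ω_j`: `τ^a w_a = ∑_{i+b=a} e_i τ^{C(i,2) + i b} (∏_{j<i} ω_{b+j}) w_b`; the term `i = 0` is `w_a`.
(2) `∏_{j<i} ω_{b+j} = ∑_v (∏_j g_{v_j} τ^{j v_j}) τ^{b |v|}`, the sum over `v : Fin i → {0..D}`, `|v| = ∑ v_j`
(`Finset.prod_univ_sum`).  So `(τ^a - 1) w_a = ∑_{i ≥ 1, i + b = a} ∑_v s_{i,v} τ^{(i + |v|) b} w_b` with
`s_{i,v} = e_i τ^{C(i,2)} ∏_j g_{v_j} τ^{j v_j} ∈ S`.
(3) `w_0 = 1`.  Let `V` be the inverse of `W(τu) = mk (τ^a w_a)` and `Y_M = W(τ^M u) V` for `M ≥ 1`, `W(τ^M u) = mk (τ^{Ma} w_a)`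
(`PowerSeries.rescale`).  `G = (W(τu) - W(u)) V`, so by (2)
`coeff n G = ∑_{i=1}^n ∑_v s_{i,v} coeff (n-i) Y_{i+|v|}`.
(4) `Y_1 = 1`, and rescaling the hypothesis on `G` by `τ^M`: `(1 - G(τ^M u)) W(τ^{M+1} u) = W(τ^M u)`, so
`Y_{M+1} = Y_M + G(τ^M u) Y_{M+1}`, i.e. (`G` has constant coefficient `0`)
`coeff p Y_{M+1} = coeff p Y_M + ∑_{i=1}^p τ^{Mi} G_i coeff (p-i) Y_{M+1}`.
(5) strong induction on `n`: if `G_i ∈ S` for `i < n`, then by (4) (induction on `p < n`, then on `M`) `coeff p Y_M ∈ S` for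
`p < n`, `M ≥ 1`, and by (3) `G_n ∈ S`. -/
def M_GPS : Prop := ∀ (R : Type) [CommRing R] (S : Subsemiring R) (τ : R) (e g c w : ℕ → R) (D : ℕ),
  τ ∈ S → (∀ j, e j ∈ S) → (∀ m, g m ∈ S) → e 0 = 1 → c 0 = 1 →
  (∀ a, ∑ ij ∈ antidiagonal a, e ij.1 * c ij.2 = τ ^ a * c a) →
  (∀ a, w a = c a * τ ^ (a.choose 2) * ∏ j ∈ range a, ∑ m ∈ range (D + 1), g m * τ ^ (j * m)) →
  ∀ G : PowerSeries R,
    (1 - G) * PowerSeries.mk (fun a => τ ^ a * w a) = PowerSeries.mk w →
    ∀ n, PowerSeries.coeff n G ∈ S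

/-- (module HZC) coefficients of `h_m(z)` and its generating function.
Proof: `hN (fun k => Y^{k+1}) m = Y^m` (`HNB.hs`), and `HNB.ha` applied to the variables one after the other
(`Finset.induction_on`): `mk (fun m => hN (fun k => ∑_{j ∈ s} Y_j^{k+1}) m) = ∏_{j ∈ s} mk (fun m => Y_j^m)`.  The coefficient
of `z^β` in `h_m`: induction over the set of variables `s` for the statement `coeff β (h_m(Y_j, j ∈ s)) = 1` if
`β` is supported in `s` and has degree `m`, else `0`; or Mathlib's `MvPolynomial.hsymm` with Newton. -/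
def M_HZC : Prop := ∀ (L : Type) [CommRing L] [Algebra ℚ L] (N : ℕ),
  (∀ (m : ℕ) (β : Fin N →₀ ℕ), coeff β (hz N m : MvPolynomial (Fin N) L) = if β.degree = m then 1 else 0) ∧
  PowerSeries.mk (fun m => (hz N m : MvPolynomial (Fin N) L)) =
    ∏ j : Fin N, PowerSeries.mk (fun m => (X j : MvPolynomial (Fin N) L) ^ m)

/-- (module CAU) Cauchy's identity, coefficientwise and truncated.
Proof (uses the first part of `M_HZC`).  Induction on `xs` (for all `α` with degree `≤ D`).  `[]`: the coefficient of `1`;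
`hN 0 (α i) = [α i = 0]` (`HNB.hs`).  `y :: xs`: the coefficient at `α` of the product is
`∑_{β + γ = α} y^{degree β} ∏_i h_{γ i}(xs)` (`M_HZC`: `coeff β (∑_m C (y^m) hz m) = y^{degree β}` as `degree β ≤ D`)
`= ∏_i ∑_{b + c = α i} y^b h_c(xs)` (`Finset.prod_univ_sum` and the bijection between `antidiagonal α` and the functions
`i ↦ antidiagonal (α i)`) `= ∏_i h_{α i}(y :: xs)` (`HNB.ha`, `HNB.hs`). -/
def M_CAU : Prop := ∀ (L : Type) [CommRing L] [Algebra ℚ L] (N D : ℕ) (xs : List L)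
  (α : Fin N →₀ ℕ), α.degree ≤ D →
  coeff α ((xs.map fun x => ∑ m ∈ range (D + 1), C (x ^ m) * (hz N m : MvPolynomial (Fin N) L)).prod) =
    ∏ i, hN (fun k => (xs.map fun x => x ^ (k + 1)).sum) (α i)

/-- (module DTX) the Jacobi–Trudi determinant as a coefficient.
Proof.  `N = l.length`, `δ_j = N-1-j`.  `alt δ = ∑_w sgn(w) ∏_i X_{w(i)}^{δ_i} = ∑_w sgn(w) monomial (δ ∘ w⁻¹)`
(`Matrix.det_apply`).  The coefficient at `ldel l = λ + δ` of `monomial ε * f` is `coeff (λ + δ - ε) f` if `ε ≤ λ + δ`, else `0`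
(`coeff_monomial_mul'`); for `ε = δ ∘ w⁻¹` the exponent `λ + δ - ε` has degree `|λ|`, so it is
`∏_i h(λ_i + δ_i - δ_{w⁻¹ i}) = ∏_i h(λ_i - i + w⁻¹(i))` (`hZ` takes care of the negative case).  The sum over `w` of
`sgn(w) ∏_i hZ P (λ_i - i + w⁻¹(i))` is the determinant `sN P l` (`Matrix.det_apply` and the substitution `w ↦ w⁻¹`,
`Matrix.det_transpose`). -/
def M_DTX : Prop := ∀ (L : Type) [CommRing L] [Algebra ℚ L] (P : ℕ → L) (l : List ℕ)
  (f : MvPolynomial (Fin l.length) L),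
  (∀ α : Fin l.length →₀ ℕ, α.degree ≤ l.sum → coeff α f = ∏ i, hN P (α i)) →
  coeff (ldel l) (alt (fun j : Fin l.length => l.length - 1 - (j : ℕ)) * f) = sN P l

/-- (module API) Pieri's rule for alternants.
Proof (uses the second part of `M_HZC`).  Work in `PowerSeries A`, `A = MvPolynomial (Fin N) L`, variable `y`;
`V_i(k) = C (X_i^k)`, `f_i(k) = mk (fun r => X_i^{k+r}) = C (X_i^k) * mk (fun r => X_i^r)`.  By scaling of the rows
(`Matrix.det_mul_column` or `det_mul_row`) `det (f_i(κ_j)) = (∏_i mk (X_i^r)) * C (alt κ) = mk (hz) * C (alt κ)`, so its coefficient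
of `y^m` is `hz m * alt κ`.  On the other hand `f_i(k) = ∑_{r<d} y^r V_i(k+r) + y^d f_i(k+d)`; subtract from column
`j ≥ 1` the multiple `y^{κ_{j-1} - κ_j}` of column `j-1` (unitriangular from the right: the determinant does not
change): column `j` becomes `∑_{r < κ_{j-1} - κ_j} y^r V(κ_j + r)`, and column `0` is
`∑_{r ≤ m} y^r V(κ_0 + r) + y^{m+1} (…)`.  Expanding by multilinearity (`MultilinearMap.map_sum_finset`,
`map_smul_univ` for `Matrix.detRowAlternating`, after transposing), the coefficient of `y^m` is the sum over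
`r : Fin N → ℕ`, `∑ r = m`, `κ_j + r_j < κ_{j-1}` (`j ≥ 1`), of `alt (κ + r)`, and `κ + r` is strictly decreasing.  (The
module `PIE.lean` of the first part has the same argument for `hZ`.)  `N = 0`: `hz 0 m = [m = 0]`. -/
def M_API : Prop := ∀ (L : Type) [CommRing L] [Algebra ℚ L] (N m : ℕ) (kap : Fin N → ℕ), StrictAnti kap →
  (alt kap : MvPolynomial (Fin N) L) * hz N m ∈
    AddSubmonoid.closure {f | ∃ kap' : Fin N → ℕ, StrictAnti kap' ∧ f = alt kap'}

/-- (module LPO) positivity of the coefficient functional.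
Proof (uses `M_API`).  Let `A = AddSubmonoid.closure {C s * alt κ' | s ∈ S, κ' strictly decreasing}`.  `A` is stable under
multiplication by `C s`, `s ∈ S`, and by `hz m` (`M_API`), hence by every `f` in the closure
(`Subsemiring.closure_induction`, for the predicate `∀ a ∈ A, a * f ∈ A`), so `alt δ * f ∈ A` (`δ_j = N-1-j` is strictly
decreasing).  The coefficient at a strictly decreasing `κ` of `alt κ' = ∑_w sgn(w) ∏_i X_{w(i)}^{κ'_i}` is `1` if `κ = κ'` and
`0` otherwise: `κ ∘ w = κ'` with both strictly decreasing forces `w = 1` (a permutation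
`w` with `κ ∘ w` strictly decreasing is strictly increasing). -/
def M_LPO : Prop := ∀ (L : Type) [CommRing L] [Algebra ℚ L] (S : Subsemiring L) (N : ℕ)
  (f : MvPolynomial (Fin N) L),
  f ∈ Subsemiring.closure ({f | ∃ s ∈ S, f = C s} ∪ {f | ∃ m, f = hz N m}) →
  ∀ kap : Fin N →₀ ℕ, StrictAnti (fun j => kap j) →
    coeff kap (alt (fun j : Fin N => N - 1 - (j : ℕ)) * f) ∈ S

/-- (module CNJ) summation over the cells of a Young diagram by rows and by columns.
Proof: induction on the parts or counting: `∑_i μ_i • f i = ∑_i ∑_{j < μ_i} f i = ∑_{j < μ_0} ∑_{i : μ_i > j} f i`, and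
`{i : μ_i > j} = {i < (conj μ)_j}` because `μ` is weakly decreasing. -/
def M_CNJ : Prop := ∀ (M : Type) [AddCommMonoid M] (n : ℕ) (l : List ℕ), IsPart n l → ∀ f : ℕ → M,
  ∑ i : Fin l.length, l.get i • f i = ((conj l).map fun a => ∑ i ∈ range a, f i).sum

/-- (module EGV) the eigenvalues at `q = 1`.
Proof (uses `M_CNJ`).  `Tm l = t^{nn l} q^{nn (conj l)}` has value `t1^{nn l}`, and `nn l = ∑_i i l_i = ∑_{a ∈ conj l} C(a,2)`
(`M_CNJ` with `f i = i`, `Finset.sum_range_id`, `Nat.choose_two_right`).  `Bp l k = ∑_i ∑_{j < l_i} (t^i q^j)^{k+1}` has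
value `∑_i l_i • (t1^i)^{k+1} = ∑_{i ∈ rows (conj l)} (t1^i)^{k+1}` (`M_CNJ`, `List.sum` over a `flatMap`);
`ev (Bp l) (sch lam) = sN (Bp l) lam` (`HNB.hm`) and `A1.sN_atOne`. -/
def M_EGV : Prop := ∀ (n : ℕ) (l : List ℕ), IsPart n l →
  AtOne (Tm l) (((conj l).map fun a => t1 ^ (a.choose 2)).prod) ∧
  ∀ lam : List ℕ, AtOne (ev (Bp l) (sch lam))
    (sN (fun k => ((rows (conj l)).map fun i => (t1 ^ i) ^ (k + 1)).sum) lam)

/-- (module QON) the operator `Δ_{s_λ} ∇` at `q = 1` and its positivity on `Eb n k`.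

Proof (uses `M_PHX`, `M_ETA`, `M_GPS`, `M_CAU`, `M_DTX`, `M_LPO`).  `N = lam.length`, `D = lam.sum = m`,
`R = MvPolynomial (Fin N) Lam1`, `τ = C (C t1)`, `ω_j = ∑_{m' ≤ D} hz N m' * τ^{j m'}`,
`θ_a = C (C (t1^{C(a,2)}) * eta a) * ∏_{j<a} ω_j` (`θ_0 = 1`), `Φ` from `M_PHX`, and
`Λ F = coeff (ldel lam) (alt δ * Φ F)`, `δ_j = N-1-j`: a `K1`-linear map `Lam1 → Lam1` (for `r : Lam1`,
`coeff (alt δ * (C r * f)) = r * coeff (alt δ * f)`).
(1) `Φ (Hb l) = C (Hb l * C (∏_{a ∈ l} t1^{C(a,2)})) * ∏_{a ∈ l} ∏_{j<a} ω_j`, and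
`∏_{a ∈ l} ∏_{j<a} ω_j = ((rows l).map fun j => ∑_{m' ≤ D} C ((C (t1^j))^{m'}) * hz N m').prod`, which by `M_CAU`
(`xs = (rows l).map fun j => C (t1^j)`) satisfies the hypothesis of `M_DTX` for `P k = ∑_{x ∈ xs} x^{k+1} = C (∑_{i ∈ rows l} (t1^i)^{k+1})`.  So
`Λ (Hb l) = Hb l * C (∏ t1^{C(a,2)}) * sN P lam`, and `sN P lam = C (sN (…) lam)` (`HNB.hm` with `φ = C`).
(2) `G = 1 - PowerSeries.map Φ (Hh X1)`; the second identity of `M_ETA` mapped by `Φ` is
`(1 - G) * mk (τ^a w_a) = mk (w_a)` with `w_a = (-1)^a θ_a = c_a τ^{C(a,2)} ∏_{j<a} ω_j`, `c_a = C ((-1)^a eta a)`.  The first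
identity of `M_ETA` mapped by `C` gives the hypothesis of `M_GPS` for `e_j = C (eN X1 j)`.  With
`S' = Subsemiring.closure ({C s | s ∈ EP} ∪ {hz N m})` all coefficients of `G` are in `S'`, so all coefficients of `G^k` are
(induction on `k`, `PowerSeries.coeff_mul`), and `Φ (Eb n k) = coeff n (G^k) ∈ S'`.  `M_LPO` with `S = EP` (`ldel lam` is strictly
decreasing: `lam` is weakly decreasing) gives `Λ (Eb n k) ∈ EP`. -/
def M_QON : Prop := ∀ (m : ℕ) (lam : List ℕ), IsPart m lam → ∃ Lm : Lam1 →ₗ[K1] Lam1,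
  (∀ l : List ℕ, Lm (Hb l) = ((l.map fun a => t1 ^ (a.choose 2)).prod *
    sN (fun k => ((rows l).map fun i => (t1 ^ i) ^ (k + 1)).sum) lam) • Hb l) ∧
  ∀ n k, Lm (Eb n k) ∈ EP

/-! ## Block F: final steps -/

/-- (module HEP) the part of degree `n` of a nonnegative polynomial in `t, e_1, e_2, …`.
Proof.  `EP ≤` (as sets) `AddSubmonoid.closure {c • ∏_{a ∈ β} e_a | c ∈ N1, β any weakly decreasing list of positive numbers}`
(`Subsemiring.closure_induction`: products of two generators: `List.mergeSort` of the concatenation, `e_0 = 1` may be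
dropped, `C c * x = c • x`).  Apply the projection on the weight `n`
(`MvPolynomial.weightedHomogeneousComponent wt n`, additive): `∏_{a ∈ β} e_a` is homogeneous of weight `β.sum` (`M_PHO` with
`b = 1`), so it is mapped to itself if `β.sum = n` and to `0` otherwise; `F` is mapped to itself. -/
def M_HEP : Prop := ∀ (n : ℕ) (F : Lam1), F ∈ EP → IsWeightedHomogeneous wt F n → F ∈ EPos n

/-- (module VCR) Cramer's rule for shifted determinants.
Proof.  `W_j` = column `(h (κ_i + j))_i`, `j = 0, …, N`.  In `Polynomial R` (or with a formal variable `y`)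
expand `det (h(κ_i + j) + y h(κ_i + j + 1))_{i,j<N}` by rows: the coefficient of `y^m` is the left side
(`MultilinearMap.map_add_univ` for `Matrix.detRowAlternating`: sum over subsets of the rows); by columns: it is the sum over
`s : Fin N → {0,1}`, `|s| = m`, of the determinant of the columns `W_{j + s_j}`, which vanishes if `s_j = 1`, `s_{j+1} = 0` for some
`j` (two equal columns), so only `s = (0^{N-m}, 1^m)` remains: the determinant of `W_0, …, W_{N-m-1}, W_{N-m+1}, …, W_N`.  (`m = 0`: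
trivial.)  For `m ≥ 1` insert `W_N = ∑_{m'=1}^N (-1)^{m'-1} e_{m'} W_{N-m'}` in the last column; only `m' = m` survives, and moving
`W_{N-m}` from the last place to its place gives the sign `(-1)^{m-1}`. -/
def M_VCR : Prop := ∀ (R : Type) [CommRing R] (N : ℕ) (h : ℤ → R) (e : ℕ → R) (kap : Fin N → ℤ),
  e 0 = 1 →
  (∀ i, h (kap i + N) = ∑ m ∈ Icc 1 N, (-1) ^ (m - 1) * e m * h (kap i + N - m)) →
  ∀ m ≤ N, ∑ r ∈ (Fintype.piFinset fun _ : Fin N => range 2).filter (fun r => ∑ i, r i = m),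
    Matrix.det (Matrix.of fun i j : Fin N => h (kap i + r i + j)) =
      e m * Matrix.det (Matrix.of fun i j : Fin N => h (kap i + j))

/-- (module VPI) Pieri's rule for `e_m`.
Proof (uses `M_VCR`, `M_PHO`).  Let `I` be the ideal of `Lam1` of all `f` whose monomials have weight `> N`, `R = Lam1 ⧸ I`.
`∑_{i+j=M} (-1)^i e_i h_j = [M = 0]` (`HNB.eu`: `e_n(X) = (-1)^n h_n(-X)`; `HNB.ha`, `HNB.hs`), and `e_i ∈ I` for `i > N`.
So with `κ_i = λ_i - i` and `M = κ_i + N ≥ 1` the hypothesis of `M_VCR` holds in `R` for `h = hZ X`, `e = eN X`: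
`h_M = ∑_{m=1}^M (-1)^{m-1} e_m h_{M-m}`, the terms with `m > N` are in `I`, and for `M < m ≤ N` the terms `h_{M-m}`
vanish.  `M_VCR` (`RingHom.map_det`): `e_m SD λ - ∑_r SD (λ + r) ∈ I`; both are homogeneous of weight `|λ| + m ≤ N`, so the
difference is `0`.  If `λ + r` is not weakly decreasing, `λ_i = λ_{i+1}`, `r_i = 0`, `r_{i+1} = 1` for some `i`, and the rows `i`, `i+1`
of the matrix agree (`λ_i - i = λ_{i+1} + 1 - (i+1)`), so that term is `0`. -/
def M_VPI : Prop := ∀ (N m : ℕ) (lam : Fin N → ℕ), Antitone lam → (∑ i, lam i) + m ≤ N →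
  eN X1 m * SD X1 lam =
    ∑ r ∈ (Fintype.piFinset fun _ : Fin N => range 2).filter
      (fun r => ∑ i, r i = m ∧ Antitone (fun i => lam i + r i)),
      SD X1 (fun i => lam i + r i)

/-- (module ESP) products of elementary functions are Schur positive.
Proof (uses `M_VPI`, `Stmt_PAD`).  `N = n`.  By induction on the list `β` (with `β.sum ≤ n`): `∏_{a ∈ β} e_a` is in the additive
closure of the `SD X1 lam`, `lam : Fin n → ℕ` antitone with sum `β.sum` (`SD X1 0 = 1`: unitriangular matrix).  For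
`β.sum = n`: `SD X1 lam = sN X1 ((List.ofFn lam).filter (0 < ·))` (`Stmt_PAD`), and that list is a partition of `n`.  Multiply by
`c ∈ N1`. -/
def M_ESP : Prop := ∀ n : ℕ, EPos n ≤ SPos1 n

/-- (module FI2) assembly.
Proof (uses `M_KEY`, `M_EKR`, `M_NAK`, `M_LIN`, `M_DOM`, `M_EGV`, `M_QON`, `M_PHO`, `M_HEP`, `M_ESP`).  `H1 μ = Hb (conj μ)` for
`μ ∈ PS n`.  They are linearly independent over `K1`: `Hb l = (∏ tf a) • hbp bt l`, `M_LIN`, `tf a ≠ 0`, and `conj` is an involution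
of `PS n` (`M_DOM`).  `M_NAK` with `F = E k`, `F1 = Eb n k` (`M_EKR`): `E k = ∑ c_μ H μ`, `Eb n k = ∑ c1_μ H1 μ`.
`delta (nabla (E k)) = ∑ (c_μ Tm μ ev(Bp μ)(sch lam)) • H μ` is regular with value
`F1 = ∑ (c1_μ ∏_{a ∈ conj μ} t1^{C(a,2)} sN(…)) • H1 μ` (`M_EGV`, `A1.lam_smul`, `A1.lam_sum`), which is `Lm (Eb n k)` by `M_QON`, so it is
in `EP`; it is homogeneous of weight `n` (`M_PHO`: `Hb (conj μ)` has weight `(conj μ).sum = n`); `M_HEP`, `M_ESP`. -/
def M_FI2 : Prop := M_KEY → M_EKR → M_NAK → M_LIN → M_DOM → M_EGV → M_QON → M_PHO → M_HEP → M_ESP →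
  M_EVT → Stmt_final2

end Pool.Agent.NEK
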